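import Mathlib
import Pool.Agent.H.MP_96e181_an.Digits

set_option autoImplicit false

/-!
# Windows of the semigroup generated by `p` and `q` (helper12)

`window p q n r` is the set of the numbers `p ^ i * q ^ j` in `[p ^ n, p ^ (n + r))`.
For `r = 1` it is `{tau p q n j : j < J p q n}`, with exactly one element for each `j` such that
`q ^ j < p ^ (n + 1)`.
-/

namespace Pool.Agent.H.MP_96e181_an.Win

open MeasureTheory Filter Topology
open Pool.Agent.H.MP_96e181_an (rep dig ee)

/-- The elements `p ^ i * q ^ j` of the interval `[p ^ n, p ^ (n + r))`. -/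
noncomputable def window (p q n r : ℕ) : Finset ℕ := by
  classical
  exact (Finset.Ico (p ^ n) (p ^ (n + r))).filter (fun t => ∃ i j : ℕ, t = p ^ i * q ^ j)

/-- The mean of `f (t x)` over the window. -/
noncomputable def mean (p q : ℕ) (f : UnitAddCircle → ℝ) (n r : ℕ) (x : UnitAddCircle) : ℝ :=
  (∑ t ∈ window p q n r, f (t • x)) / (window p q n r).card

/-- `n → ∞`, `r → ∞` with `r ≤ ψ n`. -/
def slow (ψ : ℕ → ℕ) : Filter (ℕ × ℕ) := (atTop ×ˢ atTop) ⊓ 𝓟 {v | v.2 ≤ ψ v.1}

/-- `log q / log p`. -/
noncomputable def beta (p q : ℕ) : ℝ := Real.log q / Real.log p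

/-- The number of `j` with `q ^ j < p ^ (n + 1)`. -/
def J (p q n : ℕ) : ℕ := Nat.log q (p ^ (n + 1)) + 1

/-- The element of the window `[p ^ n, p ^ (n + 1))` whose exponent of `q` is `j`. -/
def tau (p q n j : ℕ) : ℕ := p ^ (n - Nat.log p (q ^ j)) * q ^ j

/-- The character mean over the first `K` elements of the thin window. -/
noncomputable def cmJ (p q n K : ℕ) (m : ℤ) (x : UnitAddCircle) : ℂ :=
  (∑ j ∈ Finset.range K, (fourier m (tau p q n j • x) : ℂ)) / (K : ℂ)

/-- The character mean over the thin window. -/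
noncomputable def cm (p q n : ℕ) (m : ℤ) (x : UnitAddCircle) : ℂ := cmJ p q n (J p q n) m x

/-- Shannon entropy of the partition into `N` intervals, for the uniform measure on the points
`y i`, `i ∈ s`. -/
noncomputable def hent {ι : Type*} (s : Finset ι) (y : ι → UnitAddCircle) (N : ℕ) : ℝ :=
  ∑ k ∈ Finset.range N, Real.negMulLog
    (((s.filter fun i => dig N (y i) = k).card : ℝ) / (s.card : ℝ))

/-- The entropy of the orbit of `x` over the thin window of rank `n`. -/
noncomputable def went (p q n N : ℕ) (x : UnitAddCircle) : ℝ :=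
  hent (Finset.range (J p q n)) (fun j => tau p q n j • x) N

/-- The light indices: the cell of level `D + W` of `y i` has at most `δ` times the mass of its
cell of level `D`. -/
noncomputable def light {ι : Type*} (p : ℕ) (s : Finset ι) (y : ι → UnitAddCircle) (D W : ℕ)
    (δ : ℝ) : Finset ι := by
  classical
  exact s.filter fun i =>
    ((s.filter fun i' => dig (p ^ (D + W)) (y i') = dig (p ^ (D + W)) (y i)).card : ℝ) ≤
      δ * ((s.filter fun i' => dig (p ^ D) (y i') = dig (p ^ D) (y i)).card : ℝ)

/-- The set of the points at which the averages over the windows converge for all continuous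
functions. -/
def convSet (p q : ℕ) (ψ : ℕ → ℕ) : Set UnitAddCircle :=
  {x | ∀ f : C(UnitAddCircle, ℝ), ∃ L : ℝ,
    Tendsto (fun v : ℕ × ℕ => mean p q f v.1 v.2 x) (slow ψ) (𝓝 L)}

end Pool.Agent.H.MP_96e181_an.Win
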