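import Mathlib
import Pool.Agent.H.MP_96e181_an.win.Defs

set_option autoImplicit false

/-! From characters to continuous functions -/

namespace Pool.Agent.H.MP_96e181_an.Win

open MeasureTheory Filter Topology
open Pool.Agent.H.MP_96e181_an (dig rep)

variable {p q : ℕ}

/-- The defect of a continuous function for a weighted family of points. -/
noncomputable def approx_def {ι : Type} (s : Finset ι) (w : ι → ℝ) (y : ι → UnitAddCircle)
    (g : C(UnitAddCircle, ℂ)) : ℂ :=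
  ∑ i ∈ s, (w i : ℂ) * g (y i) - ((∑ i ∈ s, w i : ℝ) : ℂ) * ∫ t, g t

lemma approx_univ : (volume : Measure UnitAddCircle).real Set.univ = 1 := by
  rw [Measure.real, UnitAddCircle.measure_univ, ENNReal.toReal_one]

lemma approx_int (g : C(UnitAddCircle, ℂ)) : Integrable (fun x => g x) volume :=
  g.continuous.integrable_of_hasCompactSupport (HasCompactSupport.of_compactSpace _)

lemma approx_add {ι : Type} (s : Finset ι) (w : ι → ℝ) (y : ι → UnitAddCircle)
    (g h : C(UnitAddCircle, ℂ)) : approx_def s w y (g + h) =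
      approx_def s w y g + approx_def s w y h := by
  unfold approx_def
  have h1 : ∫ t, (g + h) t = (∫ t, g t) + ∫ t, h t := by
    simp only [ContinuousMap.add_apply]
    exact integral_add (approx_int g) (approx_int h)
  rw [h1]
  simp only [ContinuousMap.add_apply, mul_add, Finset.sum_add_distrib]
  ring

lemma approx_smul {ι : Type} (s : Finset ι) (w : ι → ℝ) (y : ι → UnitAddCircle)
    (c : ℂ) (g : C(UnitAddCircle, ℂ)) : approx_def s w y (c • g) = c * approx_def s w y g := by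
  unfold approx_def
  have h1 : ∫ t, (c • g) t = c * ∫ t, g t := by
    simp only [ContinuousMap.smul_apply, smul_eq_mul]
    exact integral_const_mul c _
  rw [h1]
  simp only [ContinuousMap.smul_apply, smul_eq_mul]
  rw [mul_sub, Finset.mul_sum]
  congr 1
  · exact Finset.sum_congr rfl fun i _ => by ring
  · ring

lemma approx_fourier_int (m : ℤ) (hm : m ≠ 0) : ∫ t : UnitAddCircle, (fourier m t : ℂ) = 0 := by
  have h := congrFun (fourierCoeff_fourier (T := 1) m) 0
  unfold fourierCoeff at h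
  have h2 : ∫ x : UnitAddCircle, (fourier m x : ℂ) ∂AddCircle.haarAddCircle = 0 := by
    simpa [hm, Pi.single_apply, hm.symm] using h
  rw [AddCircle.integral_haarAddCircle] at h2
  simpa using h2

lemma approx_norm {ι : Type} (s : Finset ι) (w : ι → ℝ) (y : ι → UnitAddCircle)
    (hw : ∀ i ∈ s, 0 ≤ w i) (hs : ∑ i ∈ s, w i ≤ 1) (g : C(UnitAddCircle, ℂ)) :
    ‖approx_def s w y g‖ ≤ 2 * ‖g‖ := by
  have hw0 : 0 ≤ ∑ i ∈ s, w i := Finset.sum_nonneg hw
  have h1 : ‖∑ i ∈ s, (w i : ℂ) * g (y i)‖ ≤ ‖g‖ := by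
    calc ‖∑ i ∈ s, (w i : ℂ) * g (y i)‖ ≤ ∑ i ∈ s, ‖(w i : ℂ) * g (y i)‖ := norm_sum_le _ _
      _ ≤ ∑ i ∈ s, w i * ‖g‖ := by
          refine Finset.sum_le_sum fun i hi => ?_
          rw [norm_mul, Complex.norm_real, Real.norm_eq_abs, abs_of_nonneg (hw i hi)]
          exact mul_le_mul_of_nonneg_left (g.norm_coe_le_norm _) (hw i hi)
      _ = (∑ i ∈ s, w i) * ‖g‖ := by rw [Finset.sum_mul]
      _ ≤ 1 * ‖g‖ := mul_le_mul_of_nonneg_right hs (norm_nonneg _)
      _ = ‖g‖ := one_mul _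
  have h2 : ‖∫ t, g t‖ ≤ ‖g‖ := by
    have h3 := norm_integral_le_of_norm_le_const (μ := (volume : Measure UnitAddCircle))
      (f := fun t => g t) (C := ‖g‖) (Eventually.of_forall fun t => g.norm_coe_le_norm t)
    rw [approx_univ, mul_one] at h3
    exact h3
  have h4 : ‖((∑ i ∈ s, w i : ℝ) : ℂ) * ∫ t, g t‖ ≤ ‖g‖ := by
    rw [norm_mul, Complex.norm_real, Real.norm_eq_abs, abs_of_nonneg hw0]
    calc (∑ i ∈ s, w i) * ‖∫ t, g t‖ ≤ 1 * ‖g‖ := mul_le_mul hs h2 (norm_nonneg _) zero_le_one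
      _ = ‖g‖ := one_mul _
  calc ‖approx_def s w y g‖ ≤ ‖∑ i ∈ s, (w i : ℂ) * g (y i)‖ +
        ‖((∑ i ∈ s, w i : ℝ) : ℂ) * ∫ t, g t‖ := norm_sub_le _ _
    _ ≤ 2 * ‖g‖ := by linarith

lemma approx_span (g : C(UnitAddCircle, ℂ))
    (hg : g ∈ Submodule.span ℂ (Set.range (@fourier 1))) :
    ∃ (H : ℕ) (C : ℝ), 0 ≤ C ∧ ∀ {ι : Type} (s : Finset ι) (w : ι → ℝ) (y : ι → UnitAddCircle)
      (δ : ℝ), 0 ≤ δ →
      (∀ m : ℤ, m ≠ 0 → m.natAbs ≤ H → ‖∑ i ∈ s, (w i : ℂ) * fourier m (y i)‖ ≤ δ) →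
      ‖approx_def s w y g‖ ≤ C * δ := by
  induction hg using Submodule.span_induction with
  | mem x hx =>
    obtain ⟨m, rfl⟩ := hx
    refine ⟨m.natAbs, 1, zero_le_one, fun {ι} s w y δ hδ h => ?_⟩
    rw [one_mul]
    rcases eq_or_ne m 0 with hm | hm
    · subst hm
      have h1 : approx_def s w y (fourier 0) = 0 := by
        unfold approx_def
        simp [approx_univ]
      rw [h1, norm_zero]
      exact hδ
    · unfold approx_def
      rw [approx_fourier_int m hm, mul_zero, sub_zero]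
      exact h m hm le_rfl
  | zero =>
    refine ⟨0, 0, le_rfl, fun {ι} s w y δ hδ h => ?_⟩
    unfold approx_def
    simp
  | add a b _ _ ha hb =>
    obtain ⟨H1, C1, hC1, h1⟩ := ha
    obtain ⟨H2, C2, hC2, h2⟩ := hb
    refine ⟨max H1 H2, C1 + C2, add_nonneg hC1 hC2, fun {ι} s w y δ hδ h => ?_⟩
    rw [approx_add]
    have e1 := h1 s w y δ hδ fun m hm hm1 => h m hm (hm1.trans (le_max_left _ _))
    have e2 := h2 s w y δ hδ fun m hm hm1 => h m hm (hm1.trans (le_max_right _ _))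
    refine (norm_add_le _ _).trans ?_
    linarith
  | smul c a _ ha =>
    obtain ⟨H1, C1, hC1, h1⟩ := ha
    refine ⟨H1, ‖c‖ * C1, by positivity, fun {ι} s w y δ hδ h => ?_⟩
    rw [approx_smul, norm_mul, mul_assoc]
    exact mul_le_mul_of_nonneg_left (h1 s w y δ hδ h) (norm_nonneg _)

/-- A weighted sum of point values is close to the integral if the characters of small nonzero
frequency have small weighted sums.

Proof: `span_fourier_closure_eq_top`: choose a trigonometric polynomial `P = ∑ c_m e_m` with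
`‖f - P‖ ≤ ε / 3`; `H` = the largest frequency, `δ = ε / (3 (1 + ∑ |c_m|))`. -/
theorem approx (f : C(UnitAddCircle, ℝ)) {ε : ℝ} (hε : 0 < ε) :
    ∃ (H : ℕ) (δ : ℝ), 0 < δ ∧ ∀ {ι : Type} (s : Finset ι) (w : ι → ℝ) (y : ι → UnitAddCircle),
      (∀ i ∈ s, 0 ≤ w i) → ∑ i ∈ s, w i ≤ 1 →
      (∀ m : ℤ, m ≠ 0 → m.natAbs ≤ H → ‖∑ i ∈ s, (w i : ℂ) * fourier m (y i)‖ ≤ δ) →
      |∑ i ∈ s, w i * f (y i) - (∑ i ∈ s, w i) * ∫ t, f t| ≤ ε := by
  let g : C(UnitAddCircle, ℂ) := ⟨fun t => (f t : ℂ), by fun_prop⟩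
  have hg : g ∈ (Submodule.span ℂ (Set.range (@fourier 1))).topologicalClosure := by
    rw [span_fourier_closure_eq_top]; trivial
  have hg2 : g ∈ closure ((Submodule.span ℂ (Set.range (@fourier 1)) :
    Submodule ℂ C(UnitAddCircle, ℂ)) : Set C(UnitAddCircle, ℂ)) := hg
  obtain ⟨P, hP, hPd⟩ := Metric.mem_closure_iff.mp hg2 (ε / 4) (by positivity)
  obtain ⟨H, C, hC, hb⟩ := approx_span P hP
  refine ⟨H, ε / (2 * (C + 1)), by positivity, fun {ι} s w y hw hs h => ?_⟩
  have hδ : 0 ≤ ε / (2 * (C + 1)) := by positivity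
  have e1 := hb s w y _ hδ h
  have e2 := approx_norm s w y hw hs (g - P)
  have e3 : approx_def s w y g = approx_def s w y P + approx_def s w y (g - P) := by
    rw [← approx_add]
    congr 1
    abel
  have e4 : ‖g - P‖ < ε / 4 := by rwa [← dist_eq_norm]
  have e5 : C * (ε / (2 * (C + 1))) ≤ ε / 2 := by
    rw [mul_div_assoc', div_le_div_iff₀ (by positivity) (by positivity)]
    nlinarith
  have e6 : ‖approx_def s w y g‖ ≤ ε := by
    rw [e3]
    refine (norm_add_le _ _).trans ?_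
    linarith
  have e7 : approx_def s w y g =
      ((∑ i ∈ s, w i * f (y i) - (∑ i ∈ s, w i) * ∫ t, f t : ℝ) : ℂ) := by
    unfold approx_def
    have h1 : ∫ t, g t = ((∫ t, f t : ℝ) : ℂ) := integral_ofReal
    rw [h1]
    push_cast
    rfl
  rw [e7, Complex.norm_real, Real.norm_eq_abs] at e6
  exact e6

end Pool.Agent.H.MP_96e181_an.Win
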