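import Mathlib
import Pool.Agent.H.MP_96e181_an.win.Defs

set_option autoImplicit false

/-! Windows, basic combinatorics I -/

namespace Pool.Agent.H.MP_96e181_an.Win

open MeasureTheory Filter Topology

variable {p q : ℕ}

theorem basic1_log_pos {p : ℕ} (hp : 2 ≤ p) : 0 < Real.log (p : ℝ) :=
  Real.log_pos (by exact_mod_cast hp)

theorem basic1_log_pow_q (q j : ℕ) : Real.log ((q ^ j : ℕ) : ℝ) = (j : ℝ) * Real.log (q : ℝ) := by
  push_cast
  rw [Real.log_pow]

theorem beta_pos (hp : 2 ≤ p) (hq : 2 ≤ q) : 0 < beta p q :=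
  div_pos (basic1_log_pos hq) (basic1_log_pos hp)

theorem irrational_beta (h : Irrational (Real.log (p : ℝ) / Real.log (q : ℝ))) :
    Irrational (beta p q) := by
  have := h.inv
  rwa [inv_div] at this

/-- `p ^ i = q ^ j` only for `i = j = 0`. -/
theorem pow_eq_pow (hp : 2 ≤ p) (hq : 2 ≤ q)
    (h : Irrational (Real.log (p : ℝ) / Real.log (q : ℝ))) {i j : ℕ} (hij : p ^ i = q ^ j) :
    i = 0 ∧ j = 0 := by
  by_cases hi : i = 0
  · subst hi
    refine ⟨rfl, ?_⟩
    rw [pow_zero] at hij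
    by_contra hj
    have : 1 < q ^ j := Nat.one_lt_pow hj (by omega)
    omega
  · exfalso
    have h1 : (i : ℝ) * Real.log (p : ℝ) = (j : ℝ) * Real.log (q : ℝ) := by
      rw [← basic1_log_pow_q, ← basic1_log_pow_q, hij]
    apply h
    refine ⟨(j : ℚ) / (i : ℚ), ?_⟩
    have hi' : (i : ℝ) ≠ 0 := by exact_mod_cast hi
    have hq' := (basic1_log_pos hq).ne'
    push_cast
    field_simp
    linarith

/-- the representation `p ^ i * q ^ j` is unique -/
theorem mul_eq_mul (hp : 2 ≤ p) (hq : 2 ≤ q)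
    (h : Irrational (Real.log (p : ℝ) / Real.log (q : ℝ))) {i j i' j' : ℕ}
    (hij : p ^ i * q ^ j = p ^ i' * q ^ j') : i = i' ∧ j = j' := by
  have hp0 : (0 : ℝ) < p := by exact_mod_cast (by omega : 0 < p)
  have hq0 : (0 : ℝ) < q := by exact_mod_cast (by omega : 0 < q)
  have h1 : (i : ℝ) * Real.log (p : ℝ) + (j : ℝ) * Real.log (q : ℝ) =
      (i' : ℝ) * Real.log (p : ℝ) + (j' : ℝ) * Real.log (q : ℝ) := by
    have : ((p ^ i * q ^ j : ℕ) : ℝ) = ((p ^ i' * q ^ j' : ℕ) : ℝ) := by rw [hij]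
    have h2 := congrArg Real.log this
    push_cast at h2
    rw [Real.log_mul (by positivity) (by positivity), Real.log_mul (by positivity) (by positivity),
      Real.log_pow, Real.log_pow, Real.log_pow, Real.log_pow] at h2
    exact h2
  have hq' := (basic1_log_pos hq).ne'
  have h3 : ((i : ℝ) - i') * (Real.log (p : ℝ) / Real.log (q : ℝ)) = (j' : ℝ) - j := by
    field_simp
    linarith
  by_cases hi : i = i'
  · refine ⟨hi, ?_⟩
    rw [hi, sub_self, zero_mul] at h3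
    have : (j' : ℝ) = j := by linarith
    exact (by exact_mod_cast this.symm)
  · exfalso
    apply h
    have hne : (i : ℝ) - i' ≠ 0 := by
      intro h0
      apply hi
      have : (i : ℝ) = i' := by linarith
      exact_mod_cast this
    refine ⟨((j' : ℚ) - j) / ((i : ℚ) - i'), ?_⟩
    push_cast
    rw [← h3, mul_comm, mul_div_assoc, div_self hne, mul_one]

theorem lt_J_iff (hp : 2 ≤ p) (hq : 2 ≤ q)
    (h : Irrational (Real.log (p : ℝ) / Real.log (q : ℝ))) {n j : ℕ} :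
    j < J p q n ↔ q ^ j < p ^ (n + 1) := by
  have h0 : p ^ (n + 1) ≠ 0 := pow_ne_zero _ (by omega)
  unfold J
  rw [Nat.lt_succ_iff, Nat.le_log_iff_pow_le (by omega) h0]
  constructor
  · intro hle
    refine lt_of_le_of_ne hle ?_
    intro he
    have := (pow_eq_pow hp hq h he.symm).1
    omega
  · exact le_of_lt

theorem J_pos (n : ℕ) : 0 < J p q n := Nat.succ_pos _

theorem J_mono (hp : 2 ≤ p) {n n' : ℕ} (hn : n ≤ n') : J p q n ≤ J p q n' := by
  unfold J
  exact Nat.succ_le_succ (Nat.log_mono_right (Nat.pow_le_pow_right (by omega) (by omega)))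

theorem log_le (hp : 2 ≤ p) (hq : 2 ≤ q)
    (h : Irrational (Real.log (p : ℝ) / Real.log (q : ℝ))) {n j : ℕ} (hj : j < J p q n) :
    Nat.log p (q ^ j) ≤ n := by
  have h1 := (lt_J_iff hp hq h).1 hj
  have := Nat.log_lt_of_lt_pow (b := p) (x := n + 1) (y := q ^ j) (pow_ne_zero _ (by omega)) h1
  omega

theorem basic1_pow_log_le (hq : 2 ≤ q) (j : ℕ) : p ^ Nat.log p (q ^ j) ≤ q ^ j :=
  Nat.pow_log_le_self p (pow_ne_zero _ (by omega))

theorem basic1_lt_pow_log (hp : 2 ≤ p) (j : ℕ) : q ^ j < p ^ (Nat.log p (q ^ j) + 1) :=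
  Nat.lt_pow_succ_log_self (by omega) _

theorem tau_lower (hp : 2 ≤ p) (hq : 2 ≤ q)
    (h : Irrational (Real.log (p : ℝ) / Real.log (q : ℝ))) {n j : ℕ} (hj : j < J p q n) :
    p ^ n ≤ tau p q n j := by
  have hL := log_le hp hq h hj
  unfold tau
  calc p ^ n = p ^ (n - Nat.log p (q ^ j)) * p ^ Nat.log p (q ^ j) := by
        rw [← pow_add, Nat.sub_add_cancel hL]
    _ ≤ p ^ (n - Nat.log p (q ^ j)) * q ^ j := Nat.mul_le_mul_left _ (basic1_pow_log_le hq j)

theorem tau_upper (hp : 2 ≤ p) (hq : 2 ≤ q)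
    (h : Irrational (Real.log (p : ℝ) / Real.log (q : ℝ))) {n j : ℕ} (hj : j < J p q n) :
    tau p q n j < p ^ (n + 1) := by
  have hL := log_le hp hq h hj
  unfold tau
  calc p ^ (n - Nat.log p (q ^ j)) * q ^ j
      < p ^ (n - Nat.log p (q ^ j)) * p ^ (Nat.log p (q ^ j) + 1) :=
        Nat.mul_lt_mul_of_pos_left (basic1_lt_pow_log hp j) (Nat.pow_pos (by omega))
    _ = p ^ (n + 1) := by
        rw [← pow_add]
        congr 1
        omega

theorem tau_pos (hp : 2 ≤ p) (hq : 2 ≤ q) (n j : ℕ) : 0 < tau p q n j :=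
  Nat.mul_pos (Nat.pow_pos (by omega)) (Nat.pow_pos (by omega))

/-- `Nat.log p (q ^ j) = ⌊j beta⌋`. -/
theorem log_eq_floor (hp : 2 ≤ p) (hq : 2 ≤ q) (j : ℕ) :
    (Nat.log p (q ^ j) : ℤ) = ⌊(j : ℝ) * beta p q⌋ := by
  have hlp := basic1_log_pos hp
  have hp0 : (0 : ℝ) < p := by exact_mod_cast (by omega : 0 < p)
  have hq0 : (0 : ℝ) < q := by exact_mod_cast (by omega : 0 < q)
  symm
  rw [Int.floor_eq_iff]
  have h1 : ((p : ℝ)) ^ Nat.log p (q ^ j) ≤ (q : ℝ) ^ j := by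
    exact_mod_cast basic1_pow_log_le (p := p) hq j
  have h2 : (q : ℝ) ^ j < ((p : ℝ)) ^ (Nat.log p (q ^ j) + 1) := by
    exact_mod_cast basic1_lt_pow_log (q := q) hp j
  have h3 := Real.log_le_log (by positivity) h1
  have h4 := Real.log_lt_log (by positivity) h2
  rw [Real.log_pow, Real.log_pow] at h3
  rw [Real.log_pow, Real.log_pow] at h4
  push_cast at h4 ⊢
  unfold beta
  rw [← mul_div_assoc]
  constructor
  · rw [le_div_iff₀ hlp]
    exact h3
  · rw [div_lt_iff₀ hlp]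
    exact h4

/-- `tau n j = p ^ n * p ^ {j beta}`. -/
theorem tau_cast (hp : 2 ≤ p) (hq : 2 ≤ q)
    (h : Irrational (Real.log (p : ℝ) / Real.log (q : ℝ))) {n j : ℕ} (hj : j < J p q n) :
    (tau p q n j : ℝ) = (p : ℝ) ^ n * (p : ℝ) ^ (Int.fract ((j : ℝ) * beta p q)) := by
  have hL := log_le hp hq h hj
  have hlp := basic1_log_pos hp
  have hp0 : (0 : ℝ) < p := by exact_mod_cast (by omega : 0 < p)
  have hq0 : (0 : ℝ) < q := by exact_mod_cast (by omega : 0 < q)
  have hfr : Int.fract ((j : ℝ) * beta p q) = (j : ℝ) * beta p q - (Nat.log p (q ^ j) : ℝ) := by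
    rw [Int.fract, ← log_eq_floor hp hq j]
    push_cast
    rfl
  have hqj : (p : ℝ) ^ ((j : ℝ) * beta p q) = (q : ℝ) ^ j := by
    rw [Real.rpow_def_of_pos hp0]
    have : Real.log (p : ℝ) * ((j : ℝ) * beta p q) = Real.log ((q : ℝ) ^ j) := by
      rw [Real.log_pow]
      unfold beta
      field_simp
    rw [this, Real.exp_log (by positivity)]
  rw [hfr, Real.rpow_sub hp0, hqj, Real.rpow_natCast]
  unfold tau
  push_cast
  have hsplit : (p : ℝ) ^ n = (p : ℝ) ^ (n - Nat.log p (q ^ j)) * (p : ℝ) ^ (Nat.log p (q ^ j)) := by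
    rw [← pow_add, Nat.sub_add_cancel hL]
  rw [hsplit]
  have : (p : ℝ) ^ (Nat.log p (q ^ j)) ≠ 0 := by positivity
  field_simp

end Pool.Agent.H.MP_96e181_an.Win
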