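import Mathlib
import Pool.Agent.H.MP_96e181_an.win.Basic1

set_option autoImplicit false

/-! Windows, basic combinatorics II -/

namespace Pool.Agent.H.MP_96e181_an.Win

open MeasureTheory Filter Topology

variable {p q : ℕ}

theorem tau_injOn (hp : 2 ≤ p) (hq : 2 ≤ q)
    (h : Irrational (Real.log (p : ℝ) / Real.log (q : ℝ))) (n : ℕ) :
    Set.InjOn (tau p q n) (Finset.range (J p q n) : Set ℕ) := by
  intro j _ j' _ hjj
  exact (mul_eq_mul hp hq h hjj).2

/-- `p ^ i * tau n j = tau (n + i) j`. -/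
theorem pow_mul_tau (hp : 2 ≤ p) (hq : 2 ≤ q)
    (h : Irrational (Real.log (p : ℝ) / Real.log (q : ℝ))) {n j : ℕ} (hj : j < J p q n) (i : ℕ) :
    p ^ i * tau p q n j = tau p q (n + i) j := by
  have h1 := log_le hp hq h hj
  rw [tau, tau, ← mul_assoc, ← pow_add]
  congr 2
  omega

/-- `J n` is `(n + 1) / beta` up to `1`. -/
theorem J_lower (hp : 2 ≤ p) (hq : 2 ≤ q)
    (h : Irrational (Real.log (p : ℝ) / Real.log (q : ℝ))) (n : ℕ) :
    ((n : ℝ) + 1) / beta p q ≤ J p q n := by
  have hlp : 0 < Real.log p := Real.log_pos (by exact_mod_cast (by omega : 1 < p))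
  have hlq : 0 < Real.log q := Real.log_pos (by exact_mod_cast (by omega : 1 < q))
  have h1 : p ^ (n + 1) < q ^ (J p q n) := Nat.lt_pow_succ_log_self (by omega) _
  have h2 : (p : ℝ) ^ (n + 1) ≤ (q : ℝ) ^ (J p q n) := by exact_mod_cast h1.le
  have h3 := Real.log_le_log (by positivity) h2
  rw [Real.log_pow, Real.log_pow] at h3
  rw [beta, div_div_eq_mul_div, div_le_iff₀ hlq]
  push_cast at h3
  exact h3

theorem J_upper (hp : 2 ≤ p) (hq : 2 ≤ q) (n : ℕ) :
    (J p q n : ℝ) ≤ ((n : ℝ) + 1) / beta p q + 1 := by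
  have hlp : 0 < Real.log p := Real.log_pos (by exact_mod_cast (by omega : 1 < p))
  have hlq : 0 < Real.log q := Real.log_pos (by exact_mod_cast (by omega : 1 < q))
  have h1 : q ^ (Nat.log q (p ^ (n + 1))) ≤ p ^ (n + 1) :=
    Nat.pow_log_le_self _ (by positivity)
  have h2 : (q : ℝ) ^ (Nat.log q (p ^ (n + 1))) ≤ (p : ℝ) ^ (n + 1) := by exact_mod_cast h1
  have h3 := Real.log_le_log (by positivity) h2
  rw [Real.log_pow, Real.log_pow] at h3
  rw [J]
  push_cast
  have h4 : (Nat.log q (p ^ (n + 1)) : ℝ) ≤ ((n : ℝ) + 1) / beta p q := by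
    rw [beta, div_div_eq_mul_div, le_div_iff₀ hlq]
    push_cast at h3
    exact h3
  linarith

theorem J_tendsto (hp : 2 ≤ p) (hq : 2 ≤ q)
    (h : Irrational (Real.log (p : ℝ) / Real.log (q : ℝ))) :
    Tendsto (J p q) atTop atTop := by
  rw [← tendsto_natCast_atTop_iff (R := ℝ)]
  have hb := beta_pos hp hq
  refine tendsto_atTop_mono (fun n => J_lower hp hq h n) ?_
  refine Tendsto.atTop_div_const hb ?_
  exact tendsto_atTop_add_const_right _ _ tendsto_natCast_atTop_atTop

theorem basic2_mem_window {n r t : ℕ} :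
    t ∈ window p q n r ↔ (p ^ n ≤ t ∧ t < p ^ (n + r)) ∧ ∃ i j : ℕ, t = p ^ i * q ^ j := by
  classical
  rw [window, Finset.mem_filter, Finset.mem_Ico]

/-- Sums over a window. -/
theorem sum_window (hp : 2 ≤ p) (hq : 2 ≤ q)
    (h : Irrational (Real.log (p : ℝ) / Real.log (q : ℝ))) {M : Type*} [AddCommMonoid M]
    (n r : ℕ) (g : ℕ → M) :
    ∑ t ∈ window p q n r, g t =
      ∑ i ∈ Finset.range r, ∑ j ∈ Finset.range (J p q (n + i)), g (tau p q (n + i) j) := by
  classical
  have hp1 : 1 < p := by omega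
  have hp0 : 0 < p := by omega
  rw [Finset.sum_sigma']
  symm
  refine Finset.sum_bij (fun (a : Σ _ : ℕ, ℕ) _ => tau p q (n + a.1) a.2) ?_ ?_ ?_ ?_
  · rintro ⟨i, j⟩ ha
    rw [Finset.mem_sigma, Finset.mem_range, Finset.mem_range] at ha
    obtain ⟨hi, hj⟩ := ha
    dsimp only at hi hj ⊢
    rw [basic2_mem_window]
    refine ⟨⟨?_, ?_⟩, ⟨_, _, rfl⟩⟩
    · exact (Nat.pow_le_pow_right hp0 (by omega)).trans (tau_lower hp hq h hj)
    · exact (tau_upper hp hq h hj).trans_le (Nat.pow_le_pow_right hp0 (by omega))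
  · rintro ⟨i, j⟩ ha ⟨i', j'⟩ ha' heq
    rw [Finset.mem_sigma, Finset.mem_range, Finset.mem_range] at ha ha'
    obtain ⟨hi, hj⟩ := ha
    obtain ⟨hi', hj'⟩ := ha'
    dsimp only at hi hj hi' hj' heq
    have h1 := (mul_eq_mul hp hq h heq).2
    have h2 : n + i < n + i' + 1 := by
      refine (Nat.pow_lt_pow_iff_right hp1).1 ?_
      calc p ^ (n + i) ≤ tau p q (n + i) j := tau_lower hp hq h hj
        _ = tau p q (n + i') j' := heq
        _ < p ^ (n + i' + 1) := tau_upper hp hq h hj'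
    have h3 : n + i' < n + i + 1 := by
      refine (Nat.pow_lt_pow_iff_right hp1).1 ?_
      calc p ^ (n + i') ≤ tau p q (n + i') j' := tau_lower hp hq h hj'
        _ = tau p q (n + i) j := heq.symm
        _ < p ^ (n + i + 1) := tau_upper hp hq h hj
    have h4 : i = i' := by omega
    rw [h4, h1]
  · intro t ht
    rw [basic2_mem_window] at ht
    obtain ⟨⟨ht1, ht2⟩, a, b, rfl⟩ := ht
    set t := p ^ a * q ^ b with ht
    have ht0 : t ≠ 0 := by positivity
    set m := Nat.log p t with hm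
    have hm1 : p ^ m ≤ t := Nat.pow_log_le_self _ ht0
    have hm2 : t < p ^ (m + 1) := Nat.lt_pow_succ_log_self hp1 _
    have hnm : n ≤ m := by
      have : n < m + 1 := (Nat.pow_lt_pow_iff_right hp1).1 (ht1.trans_lt hm2)
      omega
    have hmr : m < n + r := (Nat.pow_lt_pow_iff_right hp1).1 (hm1.trans_lt ht2)
    have hmn : n + (m - n) = m := by omega
    have hb : b < J p q m := by
      rw [lt_J_iff hp hq h]
      refine lt_of_le_of_lt ?_ hm2
      rw [ht]
      exact Nat.le_mul_of_pos_left _ (by positivity)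
    refine ⟨⟨m - n, b⟩, ?_, ?_⟩
    · rw [Finset.mem_sigma, Finset.mem_range, Finset.mem_range]
      dsimp only
      rw [hmn]
      exact ⟨by omega, hb⟩
    · dsimp only
      rw [hmn]
      have h1 := tau_lower hp hq h hb
      have h2 := tau_upper hp hq h hb
      rw [tau] at h1 h2 ⊢
      have hqb : 0 < q ^ b := by positivity
      have key : ∀ x y : ℕ, p ^ m ≤ p ^ x * q ^ b → p ^ y * q ^ b < p ^ (m + 1) → y ≤ x := by
        intro x y hx hy
        by_contra hcon
        push Not at hcon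
        have h3 : p ^ (m + 1) ≤ p ^ y * q ^ b := by
          calc p ^ (m + 1) = p * p ^ m := by rw [pow_succ']
            _ ≤ p * (p ^ x * q ^ b) := Nat.mul_le_mul_left _ hx
            _ = p ^ (x + 1) * q ^ b := by rw [pow_succ' p x, mul_assoc]
            _ ≤ p ^ y * q ^ b := Nat.mul_le_mul_right _ (Nat.pow_le_pow_right hp0 hcon)
        omega
      have e1 := key _ _ h1 hm2
      have e2 := key _ _ hm1 h2
      rw [ht, le_antisymm e2 e1]
  · intro a _
    rfl

theorem card_window (hp : 2 ≤ p) (hq : 2 ≤ q)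
    (h : Irrational (Real.log (p : ℝ) / Real.log (q : ℝ))) (n r : ℕ) :
    (window p q n r).card = ∑ i ∈ Finset.range r, J p q (n + i) := by
  rw [Finset.card_eq_sum_ones, sum_window hp hq h]
  refine Finset.sum_congr rfl fun i _ => ?_
  rw [← Finset.card_eq_sum_ones, Finset.card_range]

/-- The thin mean. -/
theorem mean_one (hp : 2 ≤ p) (hq : 2 ≤ q)
    (h : Irrational (Real.log (p : ℝ) / Real.log (q : ℝ))) (n : ℕ) (f : UnitAddCircle → ℝ)
    (x : UnitAddCircle) :
    mean p q f n 1 x = (∑ j ∈ Finset.range (J p q n), f (tau p q n j • x)) / (J p q n : ℝ) := by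
  rw [mean, sum_window hp hq h, card_window hp hq h]
  simp

/-- For `s = tau n' j'`, the numbers `s * p ^ i * tau n j` (`i < r`, `j < J n`) are distinct
elements of `window (n + n') (r + 1)`. -/
theorem sum_sub_window (hp : 2 ≤ p) (hq : 2 ≤ q)
    (h : Irrational (Real.log (p : ℝ) / Real.log (q : ℝ))) {n' j' : ℕ} (hj' : j' < J p q n')
    (n r : ℕ) (g : ℕ → ℝ) (hg : ∀ t, 0 ≤ g t) :
    ∑ i ∈ Finset.range r, ∑ j ∈ Finset.range (J p q n),
        g (tau p q n' j' * (p ^ i * tau p q n j)) ≤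
      ∑ t ∈ window p q (n + n') (r + 1), g t := by
  classical
  have hp0 : 0 < p := by omega
  rw [← Finset.sum_product']
  have hinj : Set.InjOn (fun a : ℕ × ℕ => tau p q n' j' * (p ^ a.1 * tau p q n a.2))
      (Finset.range r ×ˢ Finset.range (J p q n) : Finset (ℕ × ℕ)) := by
    rintro ⟨i, j⟩ _ ⟨i₁, j₁⟩ _ heq
    dsimp only at heq
    have h1 : ∀ i j : ℕ, tau p q n' j' * (p ^ i * tau p q n j) =
        p ^ ((n' - Nat.log p (q ^ j')) + i + (n - Nat.log p (q ^ j))) * q ^ (j' + j) := by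
      intro i j
      rw [tau, tau, pow_add, pow_add, pow_add]
      ring
    rw [h1, h1] at heq
    obtain ⟨e1, e2⟩ := mul_eq_mul hp hq h heq
    have e3 : j = j₁ := by omega
    subst e3
    have e4 : i = i₁ := by omega
    rw [e4]
  rw [← Finset.sum_image (f := g) hinj]
  refine Finset.sum_le_sum_of_subset_of_nonneg ?_ (fun t _ _ => hg t)
  intro t ht
  rw [Finset.mem_image] at ht
  obtain ⟨⟨i, j⟩, ha, rfl⟩ := ht
  rw [Finset.mem_product, Finset.mem_range, Finset.mem_range] at ha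
  obtain ⟨hi, hj⟩ := ha
  dsimp only at hi hj ⊢
  have a1 := tau_lower hp hq h hj
  have a2 := tau_upper hp hq h hj
  have b1 := tau_lower hp hq h hj'
  have b2 := tau_upper hp hq h hj'
  rw [basic2_mem_window]
  refine ⟨⟨?_, ?_⟩, ?_⟩
  · calc p ^ (n + n') = p ^ n' * (1 * p ^ n) := by rw [one_mul, ← pow_add, add_comm]
      _ ≤ tau p q n' j' * (p ^ i * tau p q n j) := by
        refine Nat.mul_le_mul b1 (Nat.mul_le_mul ?_ a1)
        exact Nat.one_le_pow _ _ hp0
  · calc tau p q n' j' * (p ^ i * tau p q n j)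
        < p ^ (n' + 1) * (p ^ i * p ^ (n + 1)) := by
          refine Nat.mul_lt_mul'' b2 ?_
          exact Nat.mul_lt_mul_of_pos_left a2 (by positivity)
      _ = p ^ (n' + 1 + (i + (n + 1))) := by rw [← pow_add, ← pow_add]
      _ ≤ p ^ (n + n' + (r + 1)) := Nat.pow_le_pow_right hp0 (by omega)
  · refine ⟨(n' - Nat.log p (q ^ j')) + i + (n - Nat.log p (q ^ j)), j' + j, ?_⟩
    rw [tau, tau, pow_add, pow_add, pow_add]
    ring

end Pool.Agent.H.MP_96e181_an.Win
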