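import Mathlib
import Pool.Agent.H.MP_96e181_an.win.Defs

set_option autoImplicit false

/-! The oscillatory integral -/

namespace Pool.Agent.H.MP_96e181_an.Win

open MeasureTheory Filter Topology
open Pool.Agent.H.MP_96e181_an (ee)

variable {p q : ℕ}

theorem osc_deriv_ee (x : ℝ) :
    HasDerivAt ee (ee x * (((2 * Real.pi : ℝ) : ℂ) * Complex.I)) x := by
  have h1 : HasDerivAt (fun y : ℝ => ((2 * Real.pi * y : ℝ) : ℂ) * Complex.I)
      (((2 * Real.pi : ℝ) : ℂ) * Complex.I) x := by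
    have h2 : HasDerivAt (fun y : ℝ => 2 * Real.pi * y) (2 * Real.pi) x := by
      simpa using (hasDerivAt_id x).const_mul (2 * Real.pi)
    exact h2.ofReal_comp.mul_const Complex.I
  exact h1.cexp

theorem osc_deriv_pow (hp : 2 ≤ p) (x : ℝ) :
    HasDerivAt (fun u : ℝ => (p : ℝ) ^ u) ((p : ℝ) ^ x * Real.log p) x :=
  (Real.hasStrictDerivAt_const_rpow (by positivity) x).hasDerivAt

theorem osc_deriv_neg (hp : 2 ≤ p) (x : ℝ) :
    HasDerivAt (fun u : ℝ => (p : ℝ) ^ (-u)) (-((p : ℝ) ^ (-x) * Real.log p)) x := by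
  have h1 := (osc_deriv_pow hp (-x)).comp x (hasDerivAt_neg x)
  simpa [Function.comp_def] using h1

theorem osc_cont (hp : 2 ≤ p) (c : ℝ) : Continuous fun u : ℝ => ee (c * (p : ℝ) ^ u) := by
  rw [continuous_iff_continuousAt]
  intro x
  have h1 := (osc_deriv_pow hp x).const_mul c
  exact ((osc_deriv_ee (c * (p : ℝ) ^ x)).continuousAt).comp
    (f := fun u : ℝ => c * (p : ℝ) ^ u) h1.continuousAt

theorem osc_cont_neg (hp : 2 ≤ p) : Continuous fun u : ℝ => (p : ℝ) ^ (-u) := by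
  rw [continuous_iff_continuousAt]
  intro x
  exact (osc_deriv_neg hp x).continuousAt

/-- `|∫_0^1 e(c p^u) du| ≤ 1 / (π |c| log p)`.

Proof: `d/du [e(c p^u) p^(-u)] = 2 π i c log p · e(c p^u) - log p · p^(-u) e(c p^u)`. Integrate over
`[0, 1]`: `2 π |c| log p |∫ e(c p^u) du| ≤ 1 + 1/p + log p ∫ p^(-u) du = 2`. -/
theorem osc (hp : 2 ≤ p) {c : ℝ} (hc : c ≠ 0) :
    ‖∫ u in (0 : ℝ)..1, ee (c * (p : ℝ) ^ u)‖ ≤ 1 / (Real.pi * |c| * Real.log p) := by
  have hp0 : (0 : ℝ) < p := by positivity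
  have hp1 : (1 : ℝ) < p := by exact_mod_cast (by omega : 1 < p)
  have hlog : 0 < Real.log p := Real.log_pos hp1
  have hc0 : 0 < |c| := abs_pos.2 hc
  have hpi := Real.pi_pos
  set E : ℝ → ℂ := fun u => ee (c * (p : ℝ) ^ u) with hE
  set A : ℂ := ((2 * Real.pi * c * Real.log p : ℝ) : ℂ) * Complex.I with hA
  have hd : ∀ x : ℝ, HasDerivAt (fun u : ℝ => E u * (((p : ℝ) ^ (-u) : ℝ) : ℂ))
      (A * E x - (Real.log p : ℂ) * (((p : ℝ) ^ (-x) : ℝ) : ℂ) * E x) x := by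
    intro x
    have h1 : HasDerivAt (fun u : ℝ => c * (p : ℝ) ^ u) (c * ((p : ℝ) ^ x * Real.log p)) x :=
      (osc_deriv_pow hp x).const_mul c
    have h2 := (osc_deriv_ee (c * (p : ℝ) ^ x)).scomp x h1
    have h3 := (osc_deriv_neg hp x).ofReal_comp
    have h4 := h2.mul h3
    refine h4.congr_deriv ?_
    have h5 : (((p : ℝ) ^ x : ℝ) : ℂ) * (((p : ℝ) ^ (-x) : ℝ) : ℂ) = 1 := by
      rw [← Complex.ofReal_mul, ← Real.rpow_add hp0, add_neg_cancel, Real.rpow_zero,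
        Complex.ofReal_one]
    rw [hA, hE]
    simp only [Complex.real_smul, Function.comp_apply]
    generalize ee (c * (p : ℝ) ^ x) = e0
    generalize (p : ℝ) ^ x = X at h5 ⊢
    generalize (p : ℝ) ^ (-x) = Y at h5 ⊢
    generalize Real.log (p : ℝ) = lg
    push_cast
    linear_combination (2 * (Real.pi : ℂ) * Complex.I * (c : ℂ) * (lg : ℂ) * e0) * h5
  have hEc : Continuous E := osc_cont hp c
  have hNc : Continuous fun u : ℝ => (((p : ℝ) ^ (-u) : ℝ) : ℂ) :=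
    Complex.continuous_ofReal.comp (osc_cont_neg hp)
  have hint : ∫ x in (0 : ℝ)..1, (A * E x - (Real.log p : ℂ) * (((p : ℝ) ^ (-x) : ℝ) : ℂ) * E x) =
      E 1 * (((p : ℝ) ^ (-(1 : ℝ)) : ℝ) : ℂ) - E 0 * (((p : ℝ) ^ (-(0 : ℝ)) : ℝ) : ℂ) := by
    apply intervalIntegral.integral_eq_sub_of_hasDerivAt (fun x _ => hd x)
    apply Continuous.intervalIntegrable
    exact (continuous_const.mul hEc).sub ((continuous_const.mul hNc).mul hEc)
  have hsplit : ∫ x in (0 : ℝ)..1, (A * E x - (Real.log p : ℂ) * (((p : ℝ) ^ (-x) : ℝ) : ℂ) * E x) =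
      A * (∫ x in (0 : ℝ)..1, E x) -
        ∫ x in (0 : ℝ)..1, (Real.log p : ℂ) * (((p : ℝ) ^ (-x) : ℝ) : ℂ) * E x := by
    rw [intervalIntegral.integral_sub, intervalIntegral.integral_const_mul]
    · exact (continuous_const.mul hEc).intervalIntegrable _ _
    · exact ((continuous_const.mul hNc).mul hEc).intervalIntegrable _ _
  have hR : ‖∫ x in (0 : ℝ)..1, (Real.log p : ℂ) * (((p : ℝ) ^ (-x) : ℝ) : ℂ) * E x‖ ≤
      1 - (p : ℝ)⁻¹ := by
    have h1 : ‖∫ x in (0 : ℝ)..1, (Real.log p : ℂ) * (((p : ℝ) ^ (-x) : ℝ) : ℂ) * E x‖ ≤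
        ∫ x in (0 : ℝ)..1, Real.log p * (p : ℝ) ^ (-x) := by
      refine intervalIntegral.norm_integral_le_of_norm_le zero_le_one ?_ ?_
      · refine ae_of_all _ fun x _ => ?_
        rw [norm_mul, norm_mul, Complex.norm_real, Complex.norm_real,
          Real.norm_of_nonneg hlog.le, Real.norm_of_nonneg (by positivity)]
        show _ * ‖ee (c * (p : ℝ) ^ x)‖ ≤ _
        rw [norm_ee, mul_one]
      · exact (continuous_const.mul (osc_cont_neg hp)).intervalIntegrable _ _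
    refine h1.trans (le_of_eq ?_)
    have h2 : ∫ x in (0 : ℝ)..1, Real.log p * (p : ℝ) ^ (-x) =
        -(p : ℝ) ^ (-(1 : ℝ)) - -(p : ℝ) ^ (-(0 : ℝ)) := by
      apply intervalIntegral.integral_eq_sub_of_hasDerivAt (f := fun x : ℝ => -(p : ℝ) ^ (-x))
      · intro x _
        have := (osc_deriv_neg hp x).neg
        refine this.congr_deriv ?_
        ring
      · exact (continuous_const.mul (osc_cont_neg hp)).intervalIntegrable _ _
    rw [h2, neg_zero, Real.rpow_zero, Real.rpow_neg_one]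
    ring
  have hkey : A * (∫ x in (0 : ℝ)..1, E x) =
      E 1 * (((p : ℝ) ^ (-(1 : ℝ)) : ℝ) : ℂ) - E 0 * (((p : ℝ) ^ (-(0 : ℝ)) : ℝ) : ℂ) +
        ∫ x in (0 : ℝ)..1, (Real.log p : ℂ) * (((p : ℝ) ^ (-x) : ℝ) : ℂ) * E x := by
    rw [← hint, hsplit]
    ring
  have hE1 : ∀ u, ‖E u‖ = 1 := fun u => norm_ee _
  have hbound : ‖A * (∫ x in (0 : ℝ)..1, E x)‖ ≤ 2 := by
    rw [hkey]
    have h1 : ‖E 1 * (((p : ℝ) ^ (-(1 : ℝ)) : ℝ) : ℂ)‖ = (p : ℝ)⁻¹ := by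
      rw [norm_mul, hE1, one_mul, Complex.norm_real, Real.rpow_neg_one,
        Real.norm_of_nonneg (by positivity)]
    have h2 : ‖E 0 * (((p : ℝ) ^ (-(0 : ℝ)) : ℝ) : ℂ)‖ = 1 := by
      rw [norm_mul, hE1, one_mul, neg_zero, Real.rpow_zero, Complex.ofReal_one, norm_one]
    have h3 := norm_add_le (E 1 * (((p : ℝ) ^ (-(1 : ℝ)) : ℝ) : ℂ) -
      E 0 * (((p : ℝ) ^ (-(0 : ℝ)) : ℝ) : ℂ))
      (∫ x in (0 : ℝ)..1, (Real.log p : ℂ) * (((p : ℝ) ^ (-x) : ℝ) : ℂ) * E x)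
    have h4 := norm_sub_le (E 1 * (((p : ℝ) ^ (-(1 : ℝ)) : ℝ) : ℂ))
      (E 0 * (((p : ℝ) ^ (-(0 : ℝ)) : ℝ) : ℂ))
    rw [h1, h2] at h4
    refine (h3.trans (add_le_add h4 hR)).trans (le_of_eq ?_)
    ring
  have hAn : ‖A‖ = 2 * Real.pi * |c| * Real.log p := by
    rw [hA, norm_mul, Complex.norm_I, mul_one, Complex.norm_real, Real.norm_eq_abs, abs_mul,
      abs_mul, abs_of_pos (by positivity : (0 : ℝ) < 2 * Real.pi), abs_of_pos hlog]
  rw [norm_mul, hAn] at hbound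
  rw [le_div_iff₀ (by positivity)]
  nlinarith

end Pool.Agent.H.MP_96e181_an.Win
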