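import Mathlib
import Pool.Agent.H.MP_96e181_an.win.Defs
import Pool.Agent.H.MP_38ccf3_nt.Weyl

set_option autoImplicit false

/-! Equidistribution of `{j β}` in the cells -/

namespace Pool.Agent.H.MP_96e181_an.Win

open MeasureTheory Filter Topology

/-- `e (t) = 1` only for integers. -/
theorem weyl1_ee_eq_one {t : ℝ} (h : Pool.Agent.H.MP_38ccf3_nt.ee t = 1) : ∃ n : ℤ, t = n := by
  unfold Pool.Agent.H.MP_38ccf3_nt.ee at h
  rw [Complex.exp_eq_one_iff] at h
  obtain ⟨n, hn⟩ := h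
  refine ⟨n, ?_⟩
  have hpi : (Real.pi : ℂ) ≠ 0 := by exact_mod_cast Real.pi_ne_zero
  have h1 : (t : ℂ) = n := by
    have h2 : (2 * Real.pi * Complex.I) * (t : ℂ) = (2 * Real.pi * Complex.I) * (n : ℂ) := by
      have h3 := hn
      push_cast at h3
      linear_combination h3
    exact mul_left_cancel₀ (by simp [hpi]) h2
  exact_mod_cast h1

theorem weyl1_ee_nat (t : ℝ) (n : ℕ) :
    Pool.Agent.H.MP_38ccf3_nt.ee ((n : ℝ) * t) = Pool.Agent.H.MP_38ccf3_nt.ee t ^ n := by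
  induction n with
  | zero => simp [Pool.Agent.H.MP_38ccf3_nt.ee_zero]
  | succ n ih =>
    rw [pow_succ, ← ih, ← Pool.Agent.H.MP_38ccf3_nt.ee_add]
    congr 1
    push_cast
    ring

theorem weyl1_tendsto {β : ℝ} (hβ : Irrational β) (h : ℕ) (hh : 1 ≤ h) :
    Tendsto (fun N : ℕ => ‖∑ n ∈ Finset.range N,
      Pool.Agent.H.MP_38ccf3_nt.ee (h * ((n : ℝ) * β))‖ / N) atTop (𝓝 0) := by
  set z : ℂ := Pool.Agent.H.MP_38ccf3_nt.ee (h * β) with hz
  have hz1 : z ≠ 1 := by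
    intro hc
    obtain ⟨n, hn⟩ := weyl1_ee_eq_one hc
    have h0 : (h : ℝ) ≠ 0 := by exact_mod_cast (by omega : h ≠ 0)
    exact (hβ.natCast_mul (by omega : h ≠ 0)).ne_int n hn
  have hnz : ‖z‖ = 1 := Pool.Agent.H.MP_38ccf3_nt.norm_ee _
  have hsum : ∀ N : ℕ, ‖∑ n ∈ Finset.range N,
      Pool.Agent.H.MP_38ccf3_nt.ee (h * ((n : ℝ) * β))‖ ≤ 2 / ‖z - 1‖ := by
    intro N
    have h1 : ∀ n : ℕ, Pool.Agent.H.MP_38ccf3_nt.ee (h * ((n : ℝ) * β)) = z ^ n := by
      intro n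
      rw [hz, ← weyl1_ee_nat]
      congr 1
      ring
    simp only [h1]
    rw [geom_sum_eq hz1, norm_div]
    gcongr
    calc ‖z ^ N - 1‖ ≤ ‖z ^ N‖ + ‖(1 : ℂ)‖ := norm_sub_le _ _
      _ = 2 := by rw [norm_pow, hnz]; norm_num
  have hlim : Tendsto (fun N : ℕ => (2 / ‖z - 1‖) / (N : ℝ)) atTop (𝓝 0) :=
    tendsto_const_div_atTop_nhds_zero_nat _
  refine squeeze_zero (fun N => by positivity) (fun N => ?_) hlim
  exact div_le_div_of_nonneg_right (hsum N) (Nat.cast_nonneg N)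

/-- Counting in the cells `[i/M, (i+1)/M)`.

Proof: `Pool.Agent.H.MP_38ccf3_nt.avg_tendsto` (Weyl's criterion; the geometric sum
`|∑_{j<J} e(h j β)| ≤ 2 / |1 - e(hβ)|`) gives convergence of the averages of continuous functions on
the circle; sandwich the indicator of the arc between continuous functions (or use the weak
convergence of the empirical measures `emp` and the portmanteau theorem for sets with null
boundary). -/
theorem count_cell {β : ℝ} (hβ : Irrational β) {M : ℕ} (hM : 0 < M) {i : ℕ} (hi : i < M) :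
    Tendsto (fun J : ℕ => (((Finset.range J).filter fun j : ℕ =>
      ⌊(M : ℝ) * Int.fract ((j : ℝ) * β)⌋₊ = i).card : ℝ) / J) atTop (𝓝 (1 / (M : ℝ))) := by
  have hM' : (0 : ℝ) < M := by exact_mod_cast hM
  have hi' : (i : ℝ) + 1 ≤ M := by exact_mod_cast hi
  have key := Pool.Agent.H.MP_38ccf3_nt.weyl_interval (fun n : ℕ => (n : ℝ) * β)
    (fun h hh => weyl1_tendsto hβ h hh) ((i : ℝ) / M) (((i : ℝ) + 1) / M) (by positivity)
    (by gcongr; linarith) (by rw [div_le_one hM']; exact hi')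
  have e1 : ((i : ℝ) + 1) / M - (i : ℝ) / M = 1 / (M : ℝ) := by
    rw [← sub_div]
    ring
  rw [e1] at key
  refine key.congr ?_
  intro J
  congr 2
  apply congrArg
  apply Finset.filter_congr
  intro j _
  have h0 : (0 : ℝ) ≤ (M : ℝ) * Int.fract ((j : ℝ) * β) :=
    mul_nonneg hM'.le (Int.fract_nonneg _)
  rw [Nat.floor_eq_iff h0, Set.mem_Ico, div_le_iff₀ hM', lt_div_iff₀ hM', mul_comm]

end Pool.Agent.H.MP_96e181_an.Win
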