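import Mathlib
import Pool.Agent.H.MP_96e181_an.win.Weyl1

set_option autoImplicit false

/-! Uniform equidistribution for Lipschitz functions -/

namespace Pool.Agent.H.MP_96e181_an.Win

open MeasureTheory Filter Topology

/-- The Riemann sum of a Lipschitz function. -/
theorem weyl2_riemann {L : ℝ} {M : ℕ} (hM : 0 < M) {F : ℝ → ℂ}
    (hF : ∀ u ∈ Set.Icc (0 : ℝ) 1, ∀ v ∈ Set.Icc (0 : ℝ) 1, ‖F u - F v‖ ≤ L * |u - v|)
    (hL : 0 ≤ L) :
    ‖(∑ i ∈ Finset.range M, F ((i : ℝ) / M)) / (M : ℂ) - ∫ u in (0 : ℝ)..1, F u‖ ≤ L / M := by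
  have hM0 : (0 : ℝ) < M := by exact_mod_cast hM
  have hcont : ContinuousOn F (Set.Icc 0 1) := by
    have h1 : LipschitzOnWith (Real.toNNReal L) F (Set.Icc 0 1) := by
      refine LipschitzOnWith.of_dist_le_mul fun u hu v hv => ?_
      rw [Real.coe_toNNReal L hL, dist_eq_norm, Real.dist_eq]
      exact hF u hu v hv
    exact h1.continuousOn
  have hmem : ∀ i : ℕ, i ≤ M → (i : ℝ) / M ∈ Set.Icc (0 : ℝ) 1 := by
    intro i hi
    have : (i : ℝ) ≤ M := by exact_mod_cast hi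
    exact ⟨by positivity, by rw [div_le_one hM0]; exact this⟩
  have hsub : ∀ i : ℕ, i < M → Set.Icc ((i : ℝ) / M) (((i + 1 : ℕ) : ℝ) / M) ⊆ Set.Icc 0 1 := by
    intro i hi x hx
    exact ⟨(hmem i hi.le).1.trans hx.1, hx.2.trans (hmem (i + 1) hi).2⟩
  have hle : ∀ i : ℕ, (i : ℝ) / M ≤ ((i + 1 : ℕ) : ℝ) / M := by
    intro i
    push_cast
    gcongr
    linarith
  have hint : ∀ i : ℕ, i < M → IntervalIntegrable F volume ((i : ℝ) / M) (((i + 1 : ℕ) : ℝ) / M) := by
    intro i hi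
    apply ContinuousOn.intervalIntegrable
    rw [Set.uIcc_of_le (hle i)]
    exact hcont.mono (hsub i hi)
  have hsum : ∑ i ∈ Finset.range M, ∫ u in ((i : ℝ) / M)..(((i + 1 : ℕ) : ℝ) / M), F u =
      ∫ u in (0 : ℝ)..1, F u := by
    have := intervalIntegral.sum_integral_adjacent_intervals (μ := volume) (f := F)
      (a := fun i : ℕ => (i : ℝ) / M) (n := M) (fun i hi => hint i hi)
    rw [this]
    simp only [Nat.cast_zero, zero_div]
    rw [div_self hM0.ne']
  have hdiff : ∀ i ∈ Finset.range M,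
      ‖F ((i : ℝ) / M) / (M : ℂ) - ∫ u in ((i : ℝ) / M)..(((i + 1 : ℕ) : ℝ) / M), F u‖ ≤
        L / M * (1 / M) := by
    intro i hi
    have hi' := Finset.mem_range.1 hi
    have hlen : ((i + 1 : ℕ) : ℝ) / M - (i : ℝ) / M = 1 / M := by
      push_cast
      field_simp
      ring
    have h1 : F ((i : ℝ) / M) / (M : ℂ) =
        ∫ u in ((i : ℝ) / M)..(((i + 1 : ℕ) : ℝ) / M), F ((i : ℝ) / M) := by
      rw [intervalIntegral.integral_const, hlen, Complex.real_smul]
      push_cast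
      ring
    rw [h1, ← intervalIntegral.integral_sub (by simp) (hint i hi')]
    have h2 : ∀ u ∈ Set.uIoc ((i : ℝ) / M) (((i + 1 : ℕ) : ℝ) / M),
        ‖F ((i : ℝ) / M) - F u‖ ≤ L / M := by
      intro u hu
      rw [Set.uIoc_of_le (hle i)] at hu
      have hu' : u ∈ Set.Icc ((i : ℝ) / M) (((i + 1 : ℕ) : ℝ) / M) := ⟨hu.1.le, hu.2⟩
      refine (hF _ (hmem i hi'.le) _ (hsub i hi' hu')).trans ?_
      have h3 : |(i : ℝ) / M - u| ≤ 1 / M := by
        rw [abs_le]
        constructor <;> linarith [hu'.1, hu'.2, hlen]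
      calc L * |(i : ℝ) / M - u| ≤ L * (1 / M) := mul_le_mul_of_nonneg_left h3 hL
        _ = L / M := by ring
    have h4 := intervalIntegral.norm_integral_le_of_norm_le_const h2
    rwa [hlen, abs_of_pos (by positivity)] at h4
  rw [← hsum, Finset.sum_div, ← Finset.sum_sub_distrib]
  refine (norm_sum_le _ _).trans ((Finset.sum_le_sum hdiff).trans (le_of_eq ?_))
  rw [Finset.sum_const, Finset.card_range, nsmul_eq_mul]
  field_simp

/-- Uniform equidistribution for Lipschitz functions.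

Proof: choose `M` with `2 L / M ≤ ε / 2`, and `J₀` such that for `J ≥ J₀` and all `i < M` the
frequency of the cell `i` is `1 / M + O(ε / (2 B M))`. Compare both the mean and the integral with
`(1 / M) ∑_{i<M} F (i / M)`. -/
theorem weyl_lip {β : ℝ} (hβ : Irrational β) (L B : ℝ) {ε : ℝ} (hε : 0 < ε) :
    ∃ J₀ : ℕ, ∀ J ≥ J₀, ∀ F : ℝ → ℂ,
      (∀ u ∈ Set.Icc (0 : ℝ) 1, ∀ v ∈ Set.Icc (0 : ℝ) 1, ‖F u - F v‖ ≤ L * |u - v|) →
      (∀ u ∈ Set.Icc (0 : ℝ) 1, ‖F u‖ ≤ B) →
      ‖(∑ j ∈ Finset.range J, F (Int.fract ((j : ℝ) * β))) / (J : ℂ) - ∫ u in (0 : ℝ)..1, F u‖ ≤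
        ε := by
  classical
  set L' : ℝ := |L| with hL'
  set B' : ℝ := |B| + 1 with hB'
  have hL0 : 0 ≤ L' := abs_nonneg _
  have hB0 : 0 < B' := by positivity
  obtain ⟨M, hM⟩ := exists_nat_gt (4 * L' / ε)
  have hM0 : (0 : ℝ) < M := lt_of_le_of_lt (by positivity) hM
  have hMpos : 0 < M := by exact_mod_cast hM0
  have hLM : L' / M ≤ ε / 4 := by
    rw [div_lt_iff₀ hε] at hM
    rw [div_le_iff₀ hM0]
    linarith
  have hev : ∀ᶠ J : ℕ in atTop, ∀ i ∈ Finset.range M,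
      |(((Finset.range J).filter fun j : ℕ =>
        ⌊(M : ℝ) * Int.fract ((j : ℝ) * β)⌋₊ = i).card : ℝ) / J - 1 / M| ≤ ε / (2 * B' * M) := by
    rw [Filter.eventually_all_finset]
    intro i hi
    have h1 := count_cell hβ hMpos (Finset.mem_range.1 hi)
    have h2 := (Metric.tendsto_nhds.1 h1) (ε / (2 * B' * M)) (by positivity)
    filter_upwards [h2] with J hJ
    rw [Real.dist_eq] at hJ
    exact hJ.le
  obtain ⟨J₁, hJ₁⟩ := eventually_atTop.1 hev
  refine ⟨max J₁ 1, fun J hJ F hF hFB => ?_⟩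
  have hJ1 := hJ₁ J ((le_max_left _ _).trans hJ)
  have hJpos : 0 < J := lt_of_lt_of_le Nat.one_pos ((le_max_right _ _).trans hJ)
  have hJ0 : (0 : ℝ) < J := by exact_mod_cast hJpos
  have hF' : ∀ u ∈ Set.Icc (0 : ℝ) 1, ∀ v ∈ Set.Icc (0 : ℝ) 1, ‖F u - F v‖ ≤ L' * |u - v| := by
    intro u hu v hv
    exact (hF u hu v hv).trans (mul_le_mul_of_nonneg_right (le_abs_self L) (abs_nonneg _))
  have hFB' : ∀ u ∈ Set.Icc (0 : ℝ) 1, ‖F u‖ ≤ B' := by
    intro u hu
    have := le_abs_self B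
    linarith [hFB u hu]
  have hR := weyl2_riemann hMpos hF' hL0
  set c : ℕ → ℕ := fun j => ⌊(M : ℝ) * Int.fract ((j : ℝ) * β)⌋₊ with hc
  have hcM : ∀ j ∈ Finset.range J, c j ∈ Finset.range M := by
    intro j _
    rw [Finset.mem_range, hc]
    rw [Nat.floor_lt (by positivity)]
    have := Int.fract_lt_one ((j : ℝ) * β)
    nlinarith
  have hmem : ∀ i : ℕ, i ≤ M → (i : ℝ) / M ∈ Set.Icc (0 : ℝ) 1 := by
    intro i hi
    have : (i : ℝ) ≤ M := by exact_mod_cast hi
    exact ⟨by positivity, by rw [div_le_one hM0]; exact this⟩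
  -- the mean against the cells
  have hA : ‖(∑ j ∈ Finset.range J, F (Int.fract ((j : ℝ) * β))) / (J : ℂ) -
      (∑ j ∈ Finset.range J, F ((c j : ℝ) / M)) / (J : ℂ)‖ ≤ L' / M := by
    rw [← sub_div, ← Finset.sum_sub_distrib, norm_div, Complex.norm_natCast, div_le_iff₀ hJ0]
    refine (norm_sum_le _ _).trans ?_
    have h1 : ∀ j ∈ Finset.range J, ‖F (Int.fract ((j : ℝ) * β)) - F ((c j : ℝ) / M)‖ ≤ L' / M := by
      intro j hj
      have hcj := Finset.mem_range.1 (hcM j hj)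
      refine (hF' _ ⟨Int.fract_nonneg _, (Int.fract_lt_one _).le⟩ _ (hmem _ hcj.le)).trans ?_
      have h2 : (c j : ℝ) ≤ (M : ℝ) * Int.fract ((j : ℝ) * β) :=
        Nat.floor_le (mul_nonneg hM0.le (Int.fract_nonneg _))
      have h3 : (M : ℝ) * Int.fract ((j : ℝ) * β) < c j + 1 := Nat.lt_floor_add_one _
      have h4 : |Int.fract ((j : ℝ) * β) - (c j : ℝ) / M| ≤ 1 / M := by
        rw [abs_le]
        constructor
        · have : (c j : ℝ) / M ≤ Int.fract ((j : ℝ) * β) := by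
            rw [div_le_iff₀ hM0]
            linarith
          have h5 : 0 ≤ 1 / (M : ℝ) := by positivity
          linarith
        · have : Int.fract ((j : ℝ) * β) ≤ ((c j : ℝ) + 1) / M := by
            rw [le_div_iff₀ hM0]
            linarith
          rw [add_div] at this
          linarith
      calc L' * |Int.fract ((j : ℝ) * β) - (c j : ℝ) / M| ≤ L' * (1 / M) :=
            mul_le_mul_of_nonneg_left h4 hL0
        _ = L' / M := by ring
    refine (Finset.sum_le_sum h1).trans (le_of_eq ?_)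
    rw [Finset.sum_const, Finset.card_range, nsmul_eq_mul]
    ring
  have hfib : (∑ j ∈ Finset.range J, F ((c j : ℝ) / M)) / (J : ℂ) =
      ∑ i ∈ Finset.range M, (((((Finset.range J).filter fun j => c j = i).card : ℝ) / J : ℝ) : ℂ) *
        F ((i : ℝ) / M) := by
    rw [← Finset.sum_fiberwise_of_maps_to hcM, Finset.sum_div]
    refine Finset.sum_congr rfl fun i _ => ?_
    have h1 : ∑ j ∈ (Finset.range J).filter (fun j => c j = i), F ((c j : ℝ) / M) =
        ∑ j ∈ (Finset.range J).filter (fun j => c j = i), F ((i : ℝ) / M) := by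
      refine Finset.sum_congr rfl fun j hj => ?_
      rw [(Finset.mem_filter.1 hj).2]
    rw [h1, Finset.sum_const, nsmul_eq_mul]
    push_cast
    ring
  have hB2 : ‖(∑ j ∈ Finset.range J, F ((c j : ℝ) / M)) / (J : ℂ) -
      (∑ i ∈ Finset.range M, F ((i : ℝ) / M)) / (M : ℂ)‖ ≤ ε / 2 := by
    rw [hfib, Finset.sum_div, ← Finset.sum_sub_distrib]
    refine (norm_sum_le _ _).trans ?_
    have h1 : ∀ i ∈ Finset.range M,
        ‖(((((Finset.range J).filter fun j => c j = i).card : ℝ) / J : ℝ) : ℂ) * F ((i : ℝ) / M) -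
          F ((i : ℝ) / M) / (M : ℂ)‖ ≤ ε / (2 * B' * M) * B' := by
      intro i hi
      have h2 : (((((Finset.range J).filter fun j => c j = i).card : ℝ) / J : ℝ) : ℂ) *
          F ((i : ℝ) / M) - F ((i : ℝ) / M) / (M : ℂ) =
          (((((Finset.range J).filter fun j => c j = i).card : ℝ) / J - 1 / M : ℝ) : ℂ) *
            F ((i : ℝ) / M) := by
        push_cast
        ring
      rw [h2, norm_mul, Complex.norm_real, Real.norm_eq_abs]
      exact mul_le_mul (hJ1 i hi) (hFB' _ (hmem i (Finset.mem_range.1 hi).le)) (norm_nonneg _)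
        (by positivity)
    refine (Finset.sum_le_sum h1).trans (le_of_eq ?_)
    rw [Finset.sum_const, Finset.card_range, nsmul_eq_mul]
    field_simp
  have htri := norm_sub_le_norm_sub_add_norm_sub
    ((∑ j ∈ Finset.range J, F (Int.fract ((j : ℝ) * β))) / (J : ℂ))
    ((∑ j ∈ Finset.range J, F ((c j : ℝ) / M)) / (J : ℂ)) (∫ u in (0 : ℝ)..1, F u)
  have htri2 := norm_sub_le_norm_sub_add_norm_sub
    ((∑ j ∈ Finset.range J, F ((c j : ℝ) / M)) / (J : ℂ))
    ((∑ i ∈ Finset.range M, F ((i : ℝ) / M)) / (M : ℂ)) (∫ u in (0 : ℝ)..1, F u)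
  linarith

end Pool.Agent.H.MP_96e181_an.Win
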