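import Mathlib
import Pool.Agent.H.MP_96e181_an.win.Basic2
import Pool.Agent.H.MP_96e181_an.win.Weyl2
import Pool.Agent.H.MP_96e181_an.win.Osc

set_option autoImplicit false

/-! The key lemma -/

namespace Pool.Agent.H.MP_96e181_an.Win

open MeasureTheory Filter Topology
open Pool.Agent.H.MP_96e181_an (ee)

variable {p q : ℕ}

theorem key_rpow_lip (hp : 2 ≤ p) {u v : ℝ} (hu : u ∈ Set.Icc (0 : ℝ) 1)
    (hv : v ∈ Set.Icc (0 : ℝ) 1) :
    |(p : ℝ) ^ u - (p : ℝ) ^ v| ≤ p * Real.log p * |u - v| := by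
  have hp0 : (0 : ℝ) < p := by positivity
  have hp1 : (1 : ℝ) ≤ p := by exact_mod_cast (by omega : 1 ≤ p)
  have hlog : 0 ≤ Real.log p := Real.log_nonneg hp1
  have h := Convex.norm_image_sub_le_of_norm_hasDerivWithin_le (f := fun t : ℝ => (p : ℝ) ^ t)
    (f' := fun t : ℝ => (p : ℝ) ^ t * Real.log p) (C := p * Real.log p)
    (s := Set.Icc (0 : ℝ) 1) (x := v) (y := u)
    (fun x _ => (Real.hasStrictDerivAt_const_rpow hp0 x).hasDerivAt.hasDerivWithinAt)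
    (fun x hx => by
      rw [Real.norm_eq_abs, abs_of_nonneg (mul_nonneg (Real.rpow_nonneg hp0.le _) hlog)]
      refine mul_le_mul_of_nonneg_right ?_ hlog
      calc (p : ℝ) ^ x ≤ (p : ℝ) ^ (1 : ℝ) := Real.rpow_le_rpow_of_exponent_le hp1 hx.2
        _ = p := Real.rpow_one _)
    (convex_Icc 0 1) hv hu
  simpa [Real.norm_eq_abs] using h

theorem key_fourier (m : ℤ) (t : ℕ) (z : ℝ) :
    (fourier m (t • (z : UnitAddCircle)) : ℂ) = ee (m * (t * z)) := by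
  have h1 : t • (z : UnitAddCircle) = ((t * z : ℝ) : UnitAddCircle) := by
    rw [← AddCircle.coe_nsmul, nsmul_eq_mul]
  rw [h1, fourier_coe_apply, ee]
  congr 1
  push_cast
  ring

/-- **Key lemma.** If `|z| p ^ n` is large (at least `p ^ C`, `C = C(δ)`) but bounded
(at most `p ^ (C + W)`), then the mean of `e(m t z)` over the first `K` elements of the thin window
of rank `n` is at most `δ` for all `K ≥ K₀(W, m, δ)`.

Proof: by `tau_cast` (all `j < K ≤ J n`) the mean is `(1/K) ∑_{j<K} F({jβ})`,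
`F(u) = e(m z p^n p^u)`; `|F| ≤ 1` and `F` is Lipschitz on `[0,1]` with constant
`2π |m| p^(C+W) · p · log p` (`norm_ee_sub_ee`, `|p^u - p^v| ≤ p log p |u - v|`).
Use `weyl_lip` with `ε = δ/2` and `osc` with `c = m z p^n`, `|c| ≥ p^C`: choose `C` with
`1 / (π p^C log p) ≤ δ / 2`. (`fourier m ((z : UnitAddCircle)) = ee (m * z)` is
`fourier_coe_apply`, and `t • (z : UnitAddCircle) = ((t * z : ℝ) : UnitAddCircle)`.) -/
theorem key (hp : 2 ≤ p) (hq : 2 ≤ q) (h : Irrational (Real.log (p : ℝ) / Real.log (q : ℝ)))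
    {δ : ℝ} (hδ : 0 < δ) :
    ∃ C : ℕ, ∀ (W : ℕ) (m : ℤ), m ≠ 0 → ∃ K₀ : ℕ, ∀ n K : ℕ, K₀ ≤ K → K ≤ J p q n → ∀ z : ℝ,
      (p : ℝ) ^ C ≤ |z| * (p : ℝ) ^ n → |z| * (p : ℝ) ^ n ≤ (p : ℝ) ^ (C + W) →
      ‖cmJ p q n K m (z : UnitAddCircle)‖ ≤ δ := by
  have hp0 : (0 : ℝ) < p := by positivity
  have hp1 : (1 : ℝ) < p := by exact_mod_cast (by omega : 1 < p)
  have hlog : 0 < Real.log p := Real.log_pos hp1
  obtain ⟨C, hC⟩ := pow_unbounded_of_one_lt (1 / (Real.pi * Real.log p * (δ / 2))) hp1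
  refine ⟨C, fun W m hm => ?_⟩
  obtain ⟨J₀, hJ₀⟩ := weyl_lip (irrational_beta h)
    (2 * Real.pi * (|(m : ℝ)| * (p : ℝ) ^ (C + W)) * (p * Real.log p)) 1
    (ε := δ / 2) (by positivity)
  refine ⟨J₀, fun n K hK hKJ z hz1 hz2 => ?_⟩
  set c : ℝ := m * z * (p : ℝ) ^ n with hc
  have hm1 : (1 : ℝ) ≤ |(m : ℝ)| := by
    have : (1 : ℤ) ≤ |m| := Int.one_le_abs hm
    exact_mod_cast this
  have hcabs : |c| = |(m : ℝ)| * (|z| * (p : ℝ) ^ n) := by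
    rw [hc, abs_mul, abs_mul, abs_of_pos (by positivity : (0 : ℝ) < (p : ℝ) ^ n)]
    ring
  have hc1 : (p : ℝ) ^ C ≤ |c| := by
    rw [hcabs]
    calc (p : ℝ) ^ C ≤ |z| * (p : ℝ) ^ n := hz1
      _ = 1 * (|z| * (p : ℝ) ^ n) := (one_mul _).symm
      _ ≤ |(m : ℝ)| * (|z| * (p : ℝ) ^ n) :=
        mul_le_mul_of_nonneg_right hm1 (by positivity)
  have hc2 : |c| ≤ |(m : ℝ)| * (p : ℝ) ^ (C + W) := by
    rw [hcabs]
    exact mul_le_mul_of_nonneg_left hz2 (abs_nonneg _)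
  have hcpos : 0 < |c| := lt_of_lt_of_le (by positivity) hc1
  have hc0 : c ≠ 0 := abs_pos.1 hcpos
  have hmean : cmJ p q n K m (z : UnitAddCircle) =
      (∑ j ∈ Finset.range K, ee (c * (p : ℝ) ^ (Int.fract ((j : ℝ) * beta p q)))) / (K : ℂ) := by
    unfold cmJ
    congr 1
    refine Finset.sum_congr rfl (fun j hj => ?_)
    rw [key_fourier, tau_cast hp hq h (lt_of_lt_of_le (Finset.mem_range.1 hj) hKJ)]
    congr 1
    rw [hc]; ring
  have hW := hJ₀ K hK (fun u => ee (c * (p : ℝ) ^ u))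
    (fun u hu v hv => by
      refine (norm_ee_sub_ee _ _).trans ?_
      rw [← mul_sub, abs_mul]
      have h1 := key_rpow_lip hp hu hv
      have h2 : |c| * |(p : ℝ) ^ u - (p : ℝ) ^ v| ≤
          (|(m : ℝ)| * (p : ℝ) ^ (C + W)) * (p * Real.log p * |u - v|) :=
        mul_le_mul hc2 h1 (abs_nonneg _) (by positivity)
      have h3 : (0 : ℝ) ≤ 2 * Real.pi := by positivity
      calc 2 * Real.pi * (|c| * |(p : ℝ) ^ u - (p : ℝ) ^ v|)
          ≤ 2 * Real.pi * ((|(m : ℝ)| * (p : ℝ) ^ (C + W)) * (p * Real.log p * |u - v|)) :=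
            mul_le_mul_of_nonneg_left h2 h3
        _ = _ := by ring)
    (fun u _ => by rw [norm_ee])
  have hO := osc hp hc0
  have hO2 : 1 / (Real.pi * |c| * Real.log p) ≤ δ / 2 := by
    have h1 : 1 / (Real.pi * Real.log p * (δ / 2)) < |c| := lt_of_lt_of_le hC hc1
    have hpos : 0 < Real.pi * Real.log p * (δ / 2) := by positivity
    rw [div_lt_iff₀ hpos] at h1
    have hpi : 0 < Real.pi * |c| * Real.log p := by positivity
    rw [div_le_iff₀ hpi]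
    nlinarith
  rw [hmean]
  have htri := norm_sub_norm_le
    ((∑ j ∈ Finset.range K, ee (c * (p : ℝ) ^ (Int.fract ((j : ℝ) * beta p q)))) / (K : ℂ))
    (∫ u in (0 : ℝ)..1, ee (c * (p : ℝ) ^ u))
  linarith [hW, hO, hO2, htri]

/-- The same for finitely many frequencies. -/
theorem key_fin (hp : 2 ≤ p) (hq : 2 ≤ q)
    (h : Irrational (Real.log (p : ℝ) / Real.log (q : ℝ))) {δ : ℝ} (hδ : 0 < δ) :
    ∃ C : ℕ, ∀ W H : ℕ, ∃ K₀ : ℕ, ∀ n K : ℕ, K₀ ≤ K → K ≤ J p q n →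
      ∀ m : ℤ, m ≠ 0 → m.natAbs ≤ H → ∀ z : ℝ,
      (p : ℝ) ^ C ≤ |z| * (p : ℝ) ^ n → |z| * (p : ℝ) ^ n ≤ (p : ℝ) ^ (C + W) →
      ‖cmJ p q n K m (z : UnitAddCircle)‖ ≤ δ := by
  obtain ⟨C, hC⟩ := key hp hq h hδ
  refine ⟨C, fun W H => ?_⟩
  have h1 : ∀ m : ℤ, ∃ K₀ : ℕ, m ≠ 0 → ∀ n K : ℕ, K₀ ≤ K → K ≤ J p q n → ∀ z : ℝ,
      (p : ℝ) ^ C ≤ |z| * (p : ℝ) ^ n → |z| * (p : ℝ) ^ n ≤ (p : ℝ) ^ (C + W) →
      ‖cmJ p q n K m (z : UnitAddCircle)‖ ≤ δ := by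
    intro m
    by_cases hm : m = 0
    · exact ⟨0, fun h => absurd hm h⟩
    · obtain ⟨K₀, hK₀⟩ := hC W m hm
      exact ⟨K₀, fun _ => hK₀⟩
  choose K₀ hK₀ using h1
  refine ⟨(Finset.Icc (-(H : ℤ)) H).sup K₀, fun n K hK hKJ m hm hmH z hz1 hz2 => ?_⟩
  refine hK₀ m hm n K (le_trans ?_ hK) hKJ z hz1 hz2
  exact Finset.le_sup (f := K₀) (by rw [Finset.mem_Icc]; omega)

end Pool.Agent.H.MP_96e181_an.Win
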