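import Mathlib
import Pool.Agent.H.MP_96e181_an.win.Defs

set_option autoImplicit false

/-! Continuous majorants of cells -/

namespace Pool.Agent.H.MP_96e181_an.Win

open MeasureTheory Filter Topology
open Pool.Agent.H.MP_96e181_an (dig rep)

variable {p q : ℕ}

theorem major_norm_coe_le (x : ℝ) : ‖(x : UnitAddCircle)‖ ≤ |x| := by
  rw [UnitAddCircle.norm_eq]
  exact round_le x 0 |>.trans_eq (by simp)

/-- A continuous majorant of the cell `[k/N, (k+1)/N)` with integral at most `4 / N`:
`g(y) = max 0 (2 - 2 N ‖y - (k + 1/2)/N‖)`; it is at most `2` on the closed ball of radius `1/N`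
(of measure at most `2/N`, `AddCircle.volume_closedBall`) and vanishes outside. -/
theorem majorant {N : ℕ} (hN : 0 < N) (k : ℕ) :
    ∃ g : C(UnitAddCircle, ℝ), (∀ y, 0 ≤ g y) ∧ (∀ y, dig N y = k → 1 ≤ g y) ∧
      ∫ t, g t ≤ 4 / N := by
  have hN' : (0 : ℝ) < N := by exact_mod_cast hN
  set c : UnitAddCircle := (((k + 1 / 2 : ℝ) / N : ℝ) : UnitAddCircle) with hc
  set g : C(UnitAddCircle, ℝ) :=
    ⟨fun y => max 0 (2 - 2 * N * ‖y - c‖), by fun_prop⟩ with hg
  have hga : ∀ y, g y = max 0 (2 - 2 * N * ‖y - c‖) := fun y => rfl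
  refine ⟨g, fun y => ?_, fun y hy => ?_, ?_⟩
  · rw [hga]
    exact le_max_left _ _
  · rw [hga]
    refine le_max_of_le_right ?_
    obtain ⟨h1, h2⟩ := Pool.Agent.H.MP_96e181_an.dig_spec hN y
    rw [hy] at h1 h2
    have h3 : ‖y - c‖ ≤ 1 / (2 * N) := by
      have h4 : y - c = ((rep y - (k + 1 / 2 : ℝ) / N : ℝ) : UnitAddCircle) := by
        rw [hc, AddCircle.coe_sub, Pool.Agent.H.MP_96e181_an.coe_rep]
      rw [h4]
      refine (major_norm_coe_le _).trans ?_
      have e1 : (k + 1 / 2 : ℝ) / N = (k : ℝ) / N + 1 / (2 * N) := by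
        field_simp
      have e2 : (1 : ℝ) / N = 1 / (2 * N) + 1 / (2 * N) := by
        field_simp
        norm_num
      rw [abs_le]
      constructor <;> linarith
    have h5 : 2 * (N : ℝ) * ‖y - c‖ ≤ 2 * N * (1 / (2 * N)) := by gcongr
    have h6 : 2 * (N : ℝ) * (1 / (2 * N)) = 1 := by field_simp
    linarith
  · have hi : ∀ y, g y ≤ (Metric.closedBall c (1 / N)).indicator (fun _ => (2 : ℝ)) y := by
      intro y
      rw [hga]
      by_cases hy : y ∈ Metric.closedBall c (1 / N)
      · rw [Set.indicator_of_mem hy]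
        refine max_le (by norm_num) ?_
        have : 0 ≤ 2 * (N : ℝ) * ‖y - c‖ := by positivity
        linarith
      · rw [Set.indicator_of_notMem hy]
        refine max_le le_rfl ?_
        rw [Metric.mem_closedBall, dist_eq_norm, not_le] at hy
        have h5 : 2 * (N : ℝ) * (1 / N) ≤ 2 * N * ‖y - c‖ := by gcongr
        have h6 : 2 * (N : ℝ) * (1 / N) = 2 := by field_simp
        linarith
    have hvol : (volume (Metric.closedBall c (1 / (N : ℝ)))).toReal ≤ 2 / N := by
      rw [AddCircle.volume_closedBall]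
      rw [ENNReal.toReal_ofReal (by positivity)]
      refine (min_le_right _ _).trans_eq ?_
      ring
    calc ∫ t, g t ≤ ∫ t, (Metric.closedBall c (1 / (N : ℝ))).indicator (fun _ => (2 : ℝ)) t := by
          refine integral_mono ?_ ?_ hi
          · exact g.continuous.integrable_of_hasCompactSupport (HasCompactSupport.of_compactSpace _)
          · exact (integrable_const _).indicator Metric.isClosed_closedBall.measurableSet
      _ = 2 * (volume (Metric.closedBall c (1 / (N : ℝ)))).toReal := by
          rw [integral_indicator Metric.isClosed_closedBall.measurableSet, setIntegral_const,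
            smul_eq_mul, mul_comm]
          rfl
      _ ≤ 2 * (2 / N) := by gcongr
      _ = 4 / N := by ring

end Pool.Agent.H.MP_96e181_an.Win
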