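import Mathlib
import Pool.Agent.H.MP_96e181_an.win.Key
import Pool.Agent.H.MP_96e181_an.win.Approx
import Pool.Agent.H.MP_96e181_an.win.Major

set_option autoImplicit false

/-! The cell law -/

namespace Pool.Agent.H.MP_96e181_an.Win

open MeasureTheory Filter Topology
open Pool.Agent.H.MP_96e181_an (dig rep)

variable {p q : ℕ}

/-- **Cell law.** The points `t z`, `t` in a thin window, spend a proportion at most `5 / N` in each
of the `N` cells.

Proof: `approx` for the majorants `g_k`, `k < N` (with `ε = 1 / N`, uniform weights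
`w = 1 / J p q n` on `range (J p q n)`), and `key_fin` with the smallest `δ` and the largest `H`,
`K = J p q n ≥ K₀` for `n` large (`J_tendsto`). -/
theorem cell_law (hp : 2 ≤ p) (hq : 2 ≤ q)
    (h : Irrational (Real.log (p : ℝ) / Real.log (q : ℝ))) {N : ℕ} (hN : 0 < N) :
    ∃ C : ℕ, ∀ W : ℕ, ∃ n₀ : ℕ, ∀ n ≥ n₀, ∀ z : ℝ,
      (p : ℝ) ^ C ≤ |z| * (p : ℝ) ^ n → |z| * (p : ℝ) ^ n ≤ (p : ℝ) ^ (C + W) →
      ∀ k < N, (((Finset.range (J p q n)).filter fun j =>
        dig N (tau p q n j • (z : UnitAddCircle)) = k).card : ℝ) ≤ 5 / N * J p q n := by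
  have hNR : (0 : ℝ) < (N : ℝ) := by exact_mod_cast hN
  choose g hg0 hg1 hgi using fun k => majorant hN k
  choose Hk δk hδk happ using fun k => approx (g k) (ε := 1 / (N : ℝ)) (by positivity)
  have hne : (Finset.range N).Nonempty := ⟨0, Finset.mem_range.mpr hN⟩
  set δ : ℝ := (Finset.range N).inf' hne δk with hδ
  have hδ0 : 0 < δ := (Finset.lt_inf'_iff _).mpr fun k _ => hδk k
  have hδle : ∀ k < N, δ ≤ δk k := fun k hk => Finset.inf'_le _ (Finset.mem_range.mpr hk)
  set H : ℕ := (Finset.range N).sup Hk with hH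
  have hHle : ∀ k < N, Hk k ≤ H := fun k hk => Finset.le_sup (Finset.mem_range.mpr hk)
  obtain ⟨C, hC⟩ := key_fin hp hq h hδ0
  refine ⟨C, fun W => ?_⟩
  obtain ⟨K₀, hK₀⟩ := hC W H
  obtain ⟨n₀, hn₀⟩ := ((tendsto_atTop.mp (J_tendsto hp hq h)) K₀).exists_forall_of_atTop
  refine ⟨n₀, fun n hn z hz1 hz2 k hk => ?_⟩
  have hJ : 0 < J p q n := J_pos n
  have hJR : (0 : ℝ) < (J p q n : ℝ) := by exact_mod_cast hJ
  have hsum : ∑ _j ∈ Finset.range (J p q n), (1 / (J p q n : ℝ)) = 1 := by
    rw [Finset.sum_const, Finset.card_range, nsmul_eq_mul]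
    field_simp
  have happ' := happ k (Finset.range (J p q n)) (fun _ => 1 / (J p q n : ℝ))
    (fun j => tau p q n j • (z : UnitAddCircle)) (fun _ _ => by positivity) hsum.le
    (by
      intro m hm hmH
      refine le_trans (le_of_eq ?_) ((hK₀ n (J p q n) (hn₀ n hn) le_rfl m hm
        (hmH.trans (hHle k hk)) z hz1 hz2).trans (hδle k hk))
      rw [cmJ, ← Finset.mul_sum]
      congr 1
      push_cast
      rw [one_div, mul_comm, div_eq_mul_inv])
  rw [hsum, one_mul] at happ'
  have h1 : ∑ j ∈ Finset.range (J p q n), (1 / (J p q n : ℝ)) *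
      g k (tau p q n j • (z : UnitAddCircle)) ≤ 5 / N := by
    have h2 := (abs_le.mp happ').2
    have h3 := hgi k
    have h4 : (5 : ℝ) / N = 4 / N + 1 / N := by ring
    linarith
  have h2 : (((Finset.range (J p q n)).filter fun j =>
        dig N (tau p q n j • (z : UnitAddCircle)) = k).card : ℝ) ≤
      ∑ j ∈ Finset.range (J p q n), g k (tau p q n j • (z : UnitAddCircle)) := by
    rw [Finset.card_filter]
    push_cast
    refine Finset.sum_le_sum fun j _ => ?_
    split_ifs with hj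
    · exact hg1 k _ hj
    · exact hg0 k _
  rw [← Finset.mul_sum, one_div, inv_mul_le_iff₀ hJR] at h1
  calc _ ≤ _ := h2
    _ ≤ _ := h1
    _ = _ := by ring

end Pool.Agent.H.MP_96e181_an.Win
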