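import Mathlib
import Pool.Agent.H.MP_96e181_an.win.Basic1

set_option autoImplicit false

/-! Second moments I -/

namespace Pool.Agent.H.MP_96e181_an.Win

open MeasureTheory Filter Topology
open Pool.Agent.H.MP_96e181_an (dig rep coe_rep dig_spec dig_lt)

variable {p q : ℕ}

theorem second1_norm_fourier (m : ℤ) (x : UnitAddCircle) : ‖(fourier m x : ℂ)‖ = 1 := by
  rw [fourier_apply]
  exact Circle.norm_coe _

theorem second1_sub (m : ℤ) (x y : UnitAddCircle) :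
    (fourier m (x - y) : ℂ) = fourier m x * (starRingEnd ℂ) (fourier m y) := by
  rw [fourier_apply, fourier_apply, fourier_apply, smul_sub, sub_eq_add_neg,
    AddCircle.toCircle_add, AddCircle.toCircle_neg, Circle.coe_mul, Circle.coe_inv_eq_conj]

theorem second1_exp (m : ℤ) {ι : Type*} (s : Finset ι) (w : ι → ℂ) (y : ι → UnitAddCircle)
    (t : ℕ) :
    (((‖∑ i ∈ s, w i * (fourier m (t • y i) : ℂ)‖ ^ 2 : ℝ)) : ℂ) =
      ∑ i ∈ s, ∑ i' ∈ s, (w i * (starRingEnd ℂ) (w i')) * (fourier m (t • (y i - y i')) : ℂ) := by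
  have h : (((‖∑ i ∈ s, w i * (fourier m (t • y i) : ℂ)‖ ^ 2 : ℝ)) : ℂ) =
      (∑ i ∈ s, w i * (fourier m (t • y i) : ℂ)) *
        (starRingEnd ℂ) (∑ i ∈ s, w i * (fourier m (t • y i) : ℂ)) := by
    rw [Complex.mul_conj, Complex.normSq_eq_norm_sq]
  rw [h, map_sum, Finset.sum_mul_sum]
  refine Finset.sum_congr rfl fun i _ => Finset.sum_congr rfl fun i' _ => ?_
  rw [smul_sub, second1_sub, map_mul]
  ring

/-- Cauchy-Schwarz over the window:
`|∑_{i ∈ s} w_i cm(y_i)|² ≤ ∑_{i,i' ∈ s} |cm(y_i - y_i')|` for `|w_i| ≤ 1`.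

Proof: `|∑ w_i cm(y_i)|² ≤ (1/K) ∑_j |∑_i w_i e(m τ_j y_i)|²
= ∑_{i,i'} w_i conj(w_i') cm(y_i - y_i')`. -/
theorem cs (n K : ℕ) (m : ℤ) {ι : Type*} (s : Finset ι) (w : ι → ℂ) (hw : ∀ i ∈ s, ‖w i‖ ≤ 1)
    (y : ι → UnitAddCircle) :
    ‖∑ i ∈ s, w i * cmJ p q n K m (y i)‖ ^ 2 ≤
      ∑ i ∈ s, ∑ i' ∈ s, ‖cmJ p q n K m (y i - y i')‖ := by
  rcases Nat.eq_zero_or_pos K with hK | hK
  · subst hK
    have h0 : ∀ x : UnitAddCircle, cmJ p q n 0 m x = 0 := by
      intro x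
      unfold cmJ
      simp
    simp [h0]
  have hKr : (0 : ℝ) < K := by exact_mod_cast hK
  have hKc : (K : ℂ) ≠ 0 := by exact_mod_cast hK.ne'
  have h1 : ∑ i ∈ s, w i * cmJ p q n K m (y i) =
      (∑ j ∈ Finset.range K, ∑ i ∈ s, w i * (fourier m (tau p q n j • y i) : ℂ)) / (K : ℂ) := by
    rw [Finset.sum_comm, Finset.sum_div]
    refine Finset.sum_congr rfl fun i _ => ?_
    unfold cmJ
    rw [← Finset.mul_sum, mul_div_assoc]
  have h2 : ‖∑ i ∈ s, w i * cmJ p q n K m (y i)‖ ^ 2 ≤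
      (∑ j ∈ Finset.range K, ‖∑ i ∈ s, w i * (fourier m (tau p q n j • y i) : ℂ)‖ ^ 2) / K := by
    rw [h1, norm_div, Complex.norm_natCast, div_pow, div_le_div_iff₀ (by positivity) hKr]
    have h3 : ‖∑ j ∈ Finset.range K, ∑ i ∈ s, w i * (fourier m (tau p q n j • y i) : ℂ)‖ ^ 2 ≤
        (K : ℝ) * ∑ j ∈ Finset.range K, ‖∑ i ∈ s, w i * (fourier m (tau p q n j • y i) : ℂ)‖ ^ 2 := by
      calc ‖∑ j ∈ Finset.range K, ∑ i ∈ s, w i * (fourier m (tau p q n j • y i) : ℂ)‖ ^ 2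
          ≤ (∑ j ∈ Finset.range K, ‖∑ i ∈ s, w i * (fourier m (tau p q n j • y i) : ℂ)‖) ^ 2 := by
            gcongr
            exact norm_sum_le _ _
        _ ≤ _ := by
            have := sq_sum_le_card_mul_sum_sq (s := Finset.range K)
              (f := fun j => ‖∑ i ∈ s, w i * (fourier m (tau p q n j • y i) : ℂ)‖)
            rwa [Finset.card_range] at this
    nlinarith [h3, hKr]
  have h4 : (((∑ j ∈ Finset.range K, ‖∑ i ∈ s, w i * (fourier m (tau p q n j • y i) : ℂ)‖ ^ 2) / K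
      : ℝ) : ℂ) =
      ∑ i ∈ s, ∑ i' ∈ s, (w i * (starRingEnd ℂ) (w i')) * cmJ p q n K m (y i - y i') := by
    rw [Complex.ofReal_div, Complex.ofReal_sum, Complex.ofReal_natCast]
    have h5 : ∀ j ∈ Finset.range K,
        (((‖∑ i ∈ s, w i * (fourier m (tau p q n j • y i) : ℂ)‖ ^ 2 : ℝ)) : ℂ) =
        ∑ i ∈ s, ∑ i' ∈ s, (w i * (starRingEnd ℂ) (w i')) *
          (fourier m (tau p q n j • (y i - y i')) : ℂ) := fun j _ => second1_exp m s w y _
    rw [Finset.sum_congr rfl h5, Finset.sum_comm, Finset.sum_div]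
    refine Finset.sum_congr rfl fun i _ => ?_
    rw [Finset.sum_comm, Finset.sum_div]
    refine Finset.sum_congr rfl fun i' _ => ?_
    unfold cmJ
    rw [← Finset.mul_sum, mul_div_assoc]
  refine h2.trans ?_
  have h6 : (∑ j ∈ Finset.range K, ‖∑ i ∈ s, w i * (fourier m (tau p q n j • y i) : ℂ)‖ ^ 2) / K ≤
      ‖∑ i ∈ s, ∑ i' ∈ s, (w i * (starRingEnd ℂ) (w i')) * cmJ p q n K m (y i - y i')‖ := by
    rw [← h4, Complex.norm_real]
    exact le_abs_self _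
  refine h6.trans ?_
  refine (norm_sum_le _ _).trans (Finset.sum_le_sum fun i hi => ?_)
  refine (norm_sum_le _ _).trans (Finset.sum_le_sum fun i' hi' => ?_)
  rw [norm_mul, norm_mul, RCLike.norm_conj]
  have ha := hw i hi
  have hb := hw i' hi'
  have hc : ‖w i‖ * ‖w i'‖ ≤ 1 := by
    calc ‖w i‖ * ‖w i'‖ ≤ 1 * 1 := by gcongr
      _ = 1 := one_mul 1
  calc ‖w i‖ * ‖w i'‖ * ‖cmJ p q n K m (y i - y i')‖
      ≤ 1 * ‖cmJ p q n K m (y i - y i')‖ := by gcongr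
    _ = _ := one_mul _

theorem norm_cmJ_le (n K : ℕ) (m : ℤ) (x : UnitAddCircle) : ‖cmJ p q n K m x‖ ≤ 1 := by
  unfold cmJ
  rw [norm_div, Complex.norm_natCast]
  refine div_le_one_of_le₀ ?_ (Nat.cast_nonneg _)
  refine (norm_sum_le _ _).trans ?_
  rw [Finset.sum_congr rfl fun j _ => second1_norm_fourier m (tau p q n j • x)]
  simp

theorem second1_aux (N : ℕ) (hN : 0 < N) {u v : UnitAddCircle} (h : dig N u + 1 < dig N v) :
    1 / (N : ℝ) ≤ rep v - rep u := by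
  have hN' : (0 : ℝ) < N := by exact_mod_cast hN
  have h1 := (dig_spec hN u).2
  have h2 := (dig_spec hN v).1
  have h3 : (dig N u : ℝ) + 2 ≤ (dig N v : ℝ) := by exact_mod_cast h
  have h4 : ((dig N u : ℝ) + 2) / N ≤ (dig N v : ℝ) / N := by gcongr
  have h5 : ((dig N u : ℝ) + 2) / N = (dig N u : ℝ) / N + 1 / N + 1 / N := by ring
  linarith

/-- Two points of the same cell of level `D` whose cells of level `D + W` are neither equal nor
adjacent. -/
theorem dist_of_dig (hp : 2 ≤ p) {D W : ℕ} {u v : UnitAddCircle}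
    (h1 : dig (p ^ D) u = dig (p ^ D) v)
    (h2 : dig (p ^ (D + W)) u + 1 < dig (p ^ (D + W)) v ∨
      dig (p ^ (D + W)) v + 1 < dig (p ^ (D + W)) u) (C : ℕ) :
    ∃ z : ℝ, (z : UnitAddCircle) = u - v ∧ (p : ℝ) ^ C ≤ |z| * (p : ℝ) ^ (D + W + C) ∧
      |z| * (p : ℝ) ^ (D + W + C) ≤ (p : ℝ) ^ (C + W) := by
  have hp0 : (0 : ℝ) < p := by exact_mod_cast (by omega : 0 < p)
  refine ⟨rep u - rep v, ?_, ?_, ?_⟩
  · rw [AddCircle.coe_sub, coe_rep, coe_rep]
  · have hN : 0 < p ^ (D + W) := Nat.pow_pos (by omega)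
    have h3 : 1 / ((p ^ (D + W) : ℕ) : ℝ) ≤ |rep u - rep v| := by
      rcases h2 with h2 | h2
      · have := second1_aux _ hN h2
        rw [abs_sub_comm]
        exact this.trans (le_abs_self _)
      · exact (second1_aux _ hN h2).trans (le_abs_self _)
    have h4 : (p : ℝ) ^ C = 1 / ((p ^ (D + W) : ℕ) : ℝ) * (p : ℝ) ^ (D + W + C) := by
      push_cast
      rw [pow_add (p : ℝ) (D + W) C]
      field_simp
    rw [h4]
    gcongr
  · have hN : 0 < p ^ D := Nat.pow_pos (by omega)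
    have ha := dig_spec hN u
    have hb := dig_spec hN v
    rw [h1] at ha
    have h3 : |rep u - rep v| ≤ 1 / ((p ^ D : ℕ) : ℝ) := by
      rw [abs_le]
      constructor <;> linarith [ha.1, ha.2, hb.1, hb.2]
    have h4 : (p : ℝ) ^ (C + W) = 1 / ((p ^ D : ℕ) : ℝ) * (p : ℝ) ^ (D + W + C) := by
      push_cast
      have : D + W + C = D + (C + W) := by ring
      rw [this, pow_add (p : ℝ) D (C + W)]
      field_simp
    rw [h4]
    gcongr

end Pool.Agent.H.MP_96e181_an.Win
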