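import Mathlib
import Pool.Agent.H.MP_96e181_an.win.Second1
import Pool.Agent.H.MP_96e181_an.win.Key
import Pool.Agent.H.MP_96e181_an.win.Basic2

set_option autoImplicit false

/-! Clusters -/

namespace Pool.Agent.H.MP_96e181_an.Win

open MeasureTheory Filter Topology
open Pool.Agent.H.MP_96e181_an (dig rep coe_rep dig_spec dig_lt)

variable {p q : ℕ}

/-- a real representative of smallest modulus -/
theorem cluster_lift (u : UnitAddCircle) : ∃ z : ℝ, (z : UnitAddCircle) = u ∧ |z| = ‖u‖ := by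
  obtain ⟨t, rfl⟩ := QuotientAddGroup.mk_surjective u
  refine ⟨t - round t, ?_, ?_⟩
  · have h1 : ((round t : ℝ) : UnitAddCircle) = 0 := by
      rw [AddCircle.coe_eq_zero_iff]
      exact ⟨round t, by simp⟩
    rw [AddCircle.coe_sub, h1, sub_zero]
  · have h2 := UnitAddCircle.norm_eq (x := t)
    exact h2.symm

/-- **Clusters.** At most `2 H / δ²` points whose mutual distances are in
`[p ^ -(D + W), p ^ -D]` can have a large character mean at rank `D + W + C`.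

Proof: `C` from `key_fin` for `δ² / 2` (and `K = J n`, `cm = cmJ`). By pigeonhole at least `#S / H` points of `S` have a large mean
for the same `m`; for these `k` points (with the phases `w_i`)
`(k δ)² ≤ (∑ |cm (x_i)|)² ≤ k + k² δ² / 2` by `cs` and `key_fin`, so `k ≤ 2 / δ²`. -/
theorem cluster (hp : 2 ≤ p) (hq : 2 ≤ q)
    (h : Irrational (Real.log (p : ℝ) / Real.log (q : ℝ))) {δ : ℝ} (hδ : 0 < δ) (H : ℕ) :
    ∃ C K : ℕ, ∀ W : ℕ, ∃ D₀ : ℕ, ∀ D ≥ D₀, ∀ S : Finset UnitAddCircle,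
      (∀ x ∈ S, ∀ y ∈ S, x ≠ y →
        1 / (p : ℝ) ^ (D + W) ≤ ‖x - y‖ ∧ ‖x - y‖ ≤ 1 / (p : ℝ) ^ D) →
      (∀ x ∈ S, ∃ m : ℕ, 1 ≤ m ∧ m ≤ H ∧ δ ≤ ‖cm p q (D + W + C) (m : ℤ) x‖) →
      S.card ≤ K := by
  classical
  obtain ⟨C, hC⟩ := key_fin hp hq h (δ := δ ^ 2 / 2) (by positivity)
  obtain ⟨K, hK⟩ := exists_nat_ge ((H : ℝ) * (2 / δ ^ 2))
  refine ⟨C, K, fun W => ?_⟩
  obtain ⟨K₀, hK₀⟩ := hC W H
  obtain ⟨D₀, hD₀⟩ := (Filter.tendsto_atTop.1 (J_tendsto hp hq h) K₀).exists_forall_of_atTop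
  refine ⟨D₀, fun D hD S hS1 hS2 => ?_⟩
  set n : ℕ := D + W + C with hn
  have hJ : K₀ ≤ J p q n := hD₀ n (by omega)
  have hp0 : (0 : ℝ) < p := by exact_mod_cast (by omega : 0 < p)
  -- the parts
  have hpart : ∀ m ∈ Finset.Icc 1 H,
      (((S.filter fun x => δ ≤ ‖cm p q n (m : ℤ) x‖).card : ℕ) : ℝ) ≤ 2 / δ ^ 2 := by
    intro m hm
    rw [Finset.mem_Icc] at hm
    set T : Finset UnitAddCircle := S.filter fun x => δ ≤ ‖cm p q n (m : ℤ) x‖ with hT
    have hTS : ∀ x ∈ T, x ∈ S := fun x hx => (Finset.mem_filter.1 hx).1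
    have hTδ : ∀ x ∈ T, δ ≤ ‖cm p q n (m : ℤ) x‖ := fun x hx => (Finset.mem_filter.1 hx).2
    have hoff : ∀ x ∈ T, ∀ y ∈ T, x ≠ y → ‖cmJ p q n (J p q n) (m : ℤ) (x - y)‖ ≤ δ ^ 2 / 2 := by
      intro x hx y hy hxy
      obtain ⟨h1, h2⟩ := hS1 x (hTS x hx) y (hTS y hy) hxy
      obtain ⟨z, hz1, hz2⟩ := cluster_lift (x - y)
      rw [← hz1]
      rw [← hz2] at h1 h2
      refine hK₀ n (J p q n) hJ le_rfl (m : ℤ) (by omega) (by omega) z ?_ ?_
      · have h3 : (p : ℝ) ^ C = 1 / (p : ℝ) ^ (D + W) * (p : ℝ) ^ n := by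
          rw [hn, pow_add _ (D + W) C]
          field_simp
        rw [h3]
        exact mul_le_mul_of_nonneg_right h1 (by positivity)
      · have h3 : (p : ℝ) ^ (C + W) = 1 / (p : ℝ) ^ D * (p : ℝ) ^ n := by
          rw [hn, show D + W + C = D + (C + W) by ring, pow_add _ D (C + W)]
          field_simp
        rw [h3]
        exact mul_le_mul_of_nonneg_right h2 (by positivity)
    have h4 := cs (p := p) (q := q) n (J p q n) (m : ℤ) T
      (fun x => (starRingEnd ℂ) (cm p q n (m : ℤ) x) / (‖cm p q n (m : ℤ) x‖ : ℂ)) (by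
        intro x hx
        rw [norm_div, RCLike.norm_conj, Complex.norm_real, norm_norm]
        exact div_self_le_one _) (fun x => x)
    have h5 : ∑ x ∈ T, (starRingEnd ℂ) (cm p q n (m : ℤ) x) / (‖cm p q n (m : ℤ) x‖ : ℂ) *
        cmJ p q n (J p q n) (m : ℤ) x = ((∑ x ∈ T, ‖cm p q n (m : ℤ) x‖ : ℝ) : ℂ) := by
      push_cast
      refine Finset.sum_congr rfl fun x hx => ?_
      have h6 : 0 < ‖cm p q n (m : ℤ) x‖ := lt_of_lt_of_le hδ (hTδ x hx)
      have h7 : cmJ p q n (J p q n) (m : ℤ) x = cm p q n (m : ℤ) x := rfl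
      rw [h7, div_mul_eq_mul_div, mul_comm, Complex.mul_conj, Complex.normSq_eq_norm_sq]
      push_cast
      rw [sq, mul_div_assoc, div_self (by exact_mod_cast h6.ne'), mul_one]
    rw [h5, Complex.norm_real, Real.norm_of_nonneg (Finset.sum_nonneg fun _ _ => norm_nonneg _)]
      at h4
    have h6 : (T.card : ℝ) * δ ≤ ∑ x ∈ T, ‖cm p q n (m : ℤ) x‖ := by
      rw [← nsmul_eq_mul]
      exact Finset.card_nsmul_le_sum _ _ _ hTδ
    have h7 : ∑ x ∈ T, ∑ y ∈ T, ‖cmJ p q n (J p q n) (m : ℤ) (x - y)‖ ≤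
        (T.card : ℝ) + (T.card : ℝ) ^ 2 * (δ ^ 2 / 2) := by
      have h8 : ∀ x ∈ T, ∑ y ∈ T, ‖cmJ p q n (J p q n) (m : ℤ) (x - y)‖ ≤
          1 + (T.card : ℝ) * (δ ^ 2 / 2) := by
        intro x hx
        rw [← Finset.add_sum_erase T _ hx]
        refine add_le_add (norm_cmJ_le _ _ _ _) ?_
        refine (Finset.sum_le_card_nsmul (T.erase x) _ (δ ^ 2 / 2) ?_).trans ?_
        · intro y hy
          exact hoff x hx y (Finset.mem_of_mem_erase hy) (Finset.ne_of_mem_erase hy).symm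
        · rw [nsmul_eq_mul]
          refine mul_le_mul_of_nonneg_right ?_ (by positivity)
          exact_mod_cast Finset.card_le_card (Finset.erase_subset _ _)
      refine (Finset.sum_le_card_nsmul T _ _ h8).trans (le_of_eq ?_)
      rw [nsmul_eq_mul]
      ring
    have h8 : ((T.card : ℝ) * δ) ^ 2 ≤ (T.card : ℝ) + (T.card : ℝ) ^ 2 * (δ ^ 2 / 2) :=
      (pow_le_pow_left₀ (by positivity) h6 2).trans (h4.trans h7)
    rw [le_div_iff₀ (by positivity)]
    rcases Nat.eq_zero_or_pos T.card with h9 | h9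
    · rw [h9]
      norm_num
    · have h10 : (0 : ℝ) < T.card := by exact_mod_cast h9
      have h11 : (T.card : ℝ) * ((T.card : ℝ) * δ ^ 2) ≤ (T.card : ℝ) * 2 := by nlinarith
      exact le_of_mul_le_mul_left h11 h10
  have hcov : S ⊆ (Finset.Icc 1 H).biUnion fun m => S.filter fun x => δ ≤ ‖cm p q n (m : ℤ) x‖ := by
    intro x hx
    obtain ⟨m, hm1, hm2, hm3⟩ := hS2 x hx
    rw [Finset.mem_biUnion]
    exact ⟨m, Finset.mem_Icc.2 ⟨hm1, hm2⟩, Finset.mem_filter.2 ⟨hx, hm3⟩⟩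
  have h1 : (S.card : ℝ) ≤ ∑ m ∈ Finset.Icc 1 H,
      (((S.filter fun x => δ ≤ ‖cm p q n (m : ℤ) x‖).card : ℕ) : ℝ) := by
    exact_mod_cast (Finset.card_le_card hcov).trans Finset.card_biUnion_le
  have h2 := Finset.sum_le_card_nsmul (Finset.Icc 1 H) _ _ hpart
  rw [Nat.card_Icc, nsmul_eq_mul, Nat.add_sub_cancel] at h2
  exact_mod_cast h1.trans (h2.trans hK)

end Pool.Agent.H.MP_96e181_an.Win
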