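import Mathlib
import Pool.Agent.H.MP_96e181_an.win.Defs

set_option autoImplicit false

/-! The convergence set -/

namespace Pool.Agent.H.MP_96e181_an.Win

open MeasureTheory Filter Topology
open scoped ENNReal NNReal

variable {p q : ℕ}

theorem slow_neBot {ψ : ℕ → ℕ} (hψ : Tendsto ψ atTop atTop) : (slow ψ).NeBot := by
  rw [slow, Filter.inf_principal_neBot_iff]
  intro U hU
  rw [prod_atTop_atTop_eq, mem_atTop_sets] at hU
  obtain ⟨⟨a, b⟩, hab⟩ := hU
  obtain ⟨n, hn⟩ := ((eventually_ge_atTop a).and (hψ.eventually_ge_atTop b)).exists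
  exact ⟨(n, b), hab (n, b) ⟨hn.1, le_refl b⟩, hn.2⟩

/-- `convSet` for a smaller `ψ` is larger. -/
theorem convSet_mono {ψ ψ' : ℕ → ℕ} (h : ∀ n, ψ' n ≤ ψ n) :
    convSet p q ψ ⊆ convSet p q ψ' := by
  intro x hx f
  obtain ⟨L, hL⟩ := hx f
  refine ⟨L, hL.mono_left ?_⟩
  exact inf_le_inf_left _ (principal_mono.2 fun v hv => le_trans hv (h v.1))

/-- `ψ' n = inf_{k ≥ n} ψ k`. -/
theorem exists_mono {ψ : ℕ → ℕ} (hψ : Tendsto ψ atTop atTop) :
    ∃ ψ' : ℕ → ℕ, Monotone ψ' ∧ Tendsto ψ' atTop atTop ∧ ∀ n, ψ' n ≤ ψ n := by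
  refine ⟨fun n => sInf (ψ '' Set.Ici n), ?_, ?_, ?_⟩
  · intro n n' hn
    refine csInf_le_csInf (OrderBot.bddBelow _) ⟨ψ n', n', Set.mem_Ici.2 le_rfl, rfl⟩ ?_
    exact Set.image_mono (Set.Ici_subset_Ici.2 hn)
  · rw [tendsto_atTop_atTop] at hψ ⊢
    intro b
    obtain ⟨N, hN⟩ := hψ b
    refine ⟨N, fun n hn => ?_⟩
    refine le_csInf ⟨ψ n, n, Set.mem_Ici.2 le_rfl, rfl⟩ ?_
    rintro m ⟨k, hk, rfl⟩
    exact hN k (hn.trans hk)
  · intro n
    exact Nat.sInf_le ⟨n, Set.mem_Ici.2 le_rfl, rfl⟩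

/-- The means of two close functions are close. -/
theorem conv1_mean_sub (f g : C(UnitAddCircle, ℝ)) (n r : ℕ) (x : UnitAddCircle) :
    |mean p q f n r x - mean p q g n r x| ≤ dist f g := by
  rw [mean, mean, ← sub_div, ← Finset.sum_sub_distrib, abs_div, Nat.abs_cast]
  refine div_le_of_le_mul₀ (Nat.cast_nonneg _) dist_nonneg ?_
  refine (Finset.abs_sum_le_sum_abs _ _).trans ?_
  rw [mul_comm, ← nsmul_eq_mul]
  refine Finset.sum_le_card_nsmul _ _ _ fun t _ => ?_
  rw [← Real.dist_eq]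
  exact ContinuousMap.dist_apply_le_dist _

/-- Measurability: reduce to a countable dense family of functions and use
`measurableSet_exists_tendsto` (`slow ψ` is countably generated). -/
theorem measurableSet_convSet (ψ : ℕ → ℕ) : MeasurableSet (convSet p q ψ) := by
  obtain ⟨D, hDc, hDd⟩ := TopologicalSpace.exists_countable_dense C(UnitAddCircle, ℝ)
  have heq : convSet p q ψ = ⋂ f ∈ D, {x | ∃ L : ℝ,
      Tendsto (fun v : ℕ × ℕ => mean p q f v.1 v.2 x) (slow ψ) (𝓝 L)} := by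
    ext x
    simp only [Set.mem_iInter]
    constructor
    · intro hx f _
      exact hx f
    · intro hx f
      rcases (slow ψ).eq_or_neBot with hb | hb
      · exact ⟨0, by rw [hb]; exact tendsto_bot⟩
      rw [← cauchy_map_iff_exists_tendsto, Metric.cauchy_iff]
      refine ⟨inferInstance, fun ε hε => ?_⟩
      obtain ⟨g, hgD, hg⟩ := Metric.dense_iff.1 hDd f (ε / 4) (by linarith)
      rw [Metric.mem_ball] at hgD
      obtain ⟨L, hL⟩ := hx g hg
      have hev := Metric.tendsto_nhds.1 hL (ε / 4) (by linarith)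
      refine ⟨_, image_mem_map hev, ?_⟩
      rintro _ ⟨v, hv, rfl⟩ _ ⟨w, hw, rfl⟩
      have h1 := conv1_mean_sub (p := p) (q := q) f g v.1 v.2 x
      have h2 := conv1_mean_sub (p := p) (q := q) f g w.1 w.2 x
      have hfg : dist f g < ε / 4 := by rw [dist_comm]; exact hgD
      have hv' : dist (mean p q g v.1 v.2 x) L < ε / 4 := hv
      have hw' : dist (mean p q g w.1 w.2 x) L < ε / 4 := hw
      rw [Real.dist_eq, abs_lt] at hv' hw' ⊢
      rw [abs_le] at h1 h2
      constructor <;> linarith [h1.1, h1.2, h2.1, h2.2, hv'.1, hv'.2, hw'.1, hw'.2]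
  rw [heq]
  refine MeasurableSet.biInter hDc fun f _ => ?_
  have : (slow ψ).IsCountablyGenerated := by
    rw [slow]
    infer_instance
  refine measurableSet_exists_tendsto (l := slow ψ) fun v => ?_
  refine Measurable.div_const (Finset.measurable_sum _ fun t _ => ?_) _
  exact (f.continuous.comp (continuous_const_smul t)).measurable

end Pool.Agent.H.MP_96e181_an.Win
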