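import Mathlib
import Pool.Agent.H.MP_96e181_an.win.Basic2

set_option autoImplicit false

/-! The convergence set is forward invariant under `p` -/

namespace Pool.Agent.H.MP_96e181_an.Win

open MeasureTheory Filter Topology
open scoped ENNReal NNReal

variable {p q : ℕ}

theorem conv2_div {A B w w' C : ℝ} (hw : 0 < w) (hww : w ≤ w') (hA : |A| ≤ C * w)
    (hAB : |B - A| ≤ C * (w' - w)) : |A / w - B / w'| ≤ 2 * C * ((w' - w) / w') := by
  have hw' : 0 < w' := hw.trans_le hww
  have h1 : A / w - B / w' = (A / w) * ((w' - w) / w') - (B - A) / w' := by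
    field_simp
    ring
  rw [h1]
  have h2 : |A / w| ≤ C := by
    rw [abs_div, abs_of_pos hw, div_le_iff₀ hw]
    exact hA
  have h3 : 0 ≤ (w' - w) / w' := div_nonneg (by linarith) hw'.le
  have h4 : |(A / w) * ((w' - w) / w')| ≤ C * ((w' - w) / w') := by
    rw [abs_mul, abs_of_nonneg h3]
    exact mul_le_mul_of_nonneg_right h2 h3
  have h5 : |(B - A) / w'| ≤ C * ((w' - w) / w') := by
    rw [abs_div, abs_of_pos hw', mul_div_assoc']
    exact div_le_div_of_nonneg_right hAB hw'.le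
  have h6 := abs_sub ((A / w) * ((w' - w) / w')) ((B - A) / w')
  linarith

theorem conv2_range {u : ℕ → ℝ} {C : ℝ} (hu : ∀ j, |u j| ≤ C) {a b : ℕ} (hab : a ≤ b) :
    |∑ j ∈ Finset.range b, u j - ∑ j ∈ Finset.range a, u j| ≤ C * ((b : ℝ) - a) := by
  rw [← Finset.sum_Ico_eq_sub _ hab]
  refine (Finset.abs_sum_le_sum_abs _ _).trans ?_
  refine (Finset.sum_le_card_nsmul _ _ _ fun j _ => hu j).trans ?_
  rw [Nat.card_Ico, nsmul_eq_mul, Nat.cast_sub hab, mul_comm]

theorem conv2_mean (hp : 2 ≤ p) (hq : 2 ≤ q)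
    (h : Irrational (Real.log (p : ℝ) / Real.log (q : ℝ))) (f : C(UnitAddCircle, ℝ)) (n r : ℕ)
    (hn : (0 : ℝ) < n) (x : UnitAddCircle) :
    |mean p q f n r (p • x) - mean p q f (n + 1) r x| ≤
      2 * ‖f‖ * ((1 + beta p q) / (n : ℝ)) := by
  have hβ : 0 < beta p q := beta_pos hp hq
  rw [mean, mean, sum_window hp hq h n r (fun t => f (t • (p • x))), card_window hp hq h,
    sum_window hp hq h (n + 1) r (fun t => f (t • x)), card_window hp hq h]
  have hA : ∑ i ∈ Finset.range r, ∑ j ∈ Finset.range (J p q (n + i)),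
      f (tau p q (n + i) j • (p • x)) =
      ∑ i ∈ Finset.range r, ∑ j ∈ Finset.range (J p q (n + i)),
        f (tau p q (n + 1 + i) j • x) := by
    refine Finset.sum_congr rfl fun i _ => Finset.sum_congr rfl fun j hj => ?_
    rw [smul_smul, mul_comm]
    have h1 := pow_mul_tau hp hq h (Finset.mem_range.1 hj) 1
    rw [pow_one] at h1
    rw [h1, Nat.add_right_comm n i 1]
  rw [hA]
  have hf : ∀ y, |f y| ≤ ‖f‖ := fun y => by
    rw [← Real.norm_eq_abs]
    exact f.norm_coe_le_norm y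
  rcases Nat.eq_zero_or_pos r with hr | hr
  · subst hr
    simp only [Finset.range_zero, Finset.sum_empty, Nat.cast_zero, div_zero, sub_zero, abs_zero]
    positivity
  have hr' : (0 : ℝ) < r := by exact_mod_cast hr
  push_cast
  set w : ℝ := ∑ i ∈ Finset.range r, (J p q (n + i) : ℝ) with hw
  set w' : ℝ := ∑ i ∈ Finset.range r, (J p q (n + 1 + i) : ℝ) with hw'
  have hJ : ∀ i, J p q (n + i) ≤ J p q (n + 1 + i) := fun i => J_mono hp (by omega)
  have hw0 : 0 < w := by
    refine Finset.sum_pos (fun i _ => ?_) ⟨0, Finset.mem_range.2 hr⟩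
    exact_mod_cast J_pos (p := p) (q := q) (n + i)
  have hww : w ≤ w' := Finset.sum_le_sum fun i _ => by exact_mod_cast hJ i
  have hdiff : w' - w ≤ r * (1 / beta p q + 1) := by
    rw [hw, hw', ← Finset.sum_sub_distrib]
    refine (Finset.sum_le_card_nsmul _ _ (1 / beta p q + 1) fun i _ => ?_).trans ?_
    · have h1 := J_upper hp hq (n + 1 + i)
      have h2 := J_lower hp hq h (n + i)
      have h3 : (((n + 1 + i : ℕ) : ℝ) + 1) / beta p q - (((n + i : ℕ) : ℝ) + 1) / beta p q =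
          1 / beta p q := by
        push_cast
        ring
      linarith
    · rw [Finset.card_range, nsmul_eq_mul]
  have hlow : r * ((n : ℝ) / beta p q) ≤ w' := by
    rw [hw']
    have h1 : ∑ i ∈ Finset.range r, ((n : ℝ) / beta p q) = r * ((n : ℝ) / beta p q) := by
      rw [Finset.sum_const, Finset.card_range, nsmul_eq_mul]
    rw [← h1]
    refine Finset.sum_le_sum fun i _ => ?_
    refine le_trans ?_ (J_lower hp hq h (n + 1 + i))
    refine div_le_div_of_nonneg_right ?_ hβ.le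
    push_cast
    linarith [(Nat.cast_nonneg i : (0 : ℝ) ≤ i)]
  have hAle : |∑ i ∈ Finset.range r, ∑ j ∈ Finset.range (J p q (n + i)),
        f (tau p q (n + 1 + i) j • x)| ≤ ‖f‖ * w := by
    refine (Finset.abs_sum_le_sum_abs _ _).trans ?_
    rw [hw, Finset.mul_sum]
    refine Finset.sum_le_sum fun i _ => ?_
    refine (Finset.abs_sum_le_sum_abs _ _).trans ?_
    refine (Finset.sum_le_card_nsmul _ _ _ fun j _ => hf _).trans ?_
    rw [Finset.card_range, nsmul_eq_mul, mul_comm]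
  have hAB : |∑ i ∈ Finset.range r, ∑ j ∈ Finset.range (J p q (n + 1 + i)),
        f (tau p q (n + 1 + i) j • x) -
      ∑ i ∈ Finset.range r, ∑ j ∈ Finset.range (J p q (n + i)),
        f (tau p q (n + 1 + i) j • x)| ≤ ‖f‖ * (w' - w) := by
    rw [hw, hw', ← Finset.sum_sub_distrib, ← Finset.sum_sub_distrib, Finset.mul_sum]
    refine (Finset.abs_sum_le_sum_abs _ _).trans ?_
    refine Finset.sum_le_sum fun i _ => ?_
    exact conv2_range (u := fun j => f (tau p q (n + 1 + i) j • x)) (fun j => hf _) (hJ i)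
  refine (conv2_div hw0 hww hAle hAB).trans ?_
  refine mul_le_mul_of_nonneg_left ?_ (by positivity)
  have hw'0 : 0 < w' := hw0.trans_le hww
  rw [div_le_div_iff₀ hw'0 hn]
  have h1 : (w' - w) * n ≤ r * (1 / beta p q + 1) * n :=
    mul_le_mul_of_nonneg_right hdiff hn.le
  have h2 : (1 + beta p q) * (r * ((n : ℝ) / beta p q)) ≤ (1 + beta p q) * w' :=
    mul_le_mul_of_nonneg_left hlow (by linarith)
  have h3 : (r : ℝ) * (1 / beta p q + 1) * n = (1 + beta p q) * (r * ((n : ℝ) / beta p q)) := by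
    field_simp
  linarith

/-- `p (window n r)` is contained in `window (n + 1) r`, and at most `r J(n + r)/ n`-proportion is
missing: `window (n + 1) r` has `∑_{i<r} J (n + 1 + i)` elements, `p (window n r)` has
`∑_{i<r} J (n + i)`, and `J (n + 1 + i) - J (n + i) ≤ 1 / beta + 2`, while `J (n + i) → ∞`.
So `mean f n r (p x) - mean f (n + 1) r x → 0`, uniformly in `r`. -/
theorem convSet_p (hp : 2 ≤ p) (hq : 2 ≤ q)
    (h : Irrational (Real.log (p : ℝ) / Real.log (q : ℝ))) {ψ : ℕ → ℕ} (hψ : Monotone ψ)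
    {x : UnitAddCircle} (hx : x ∈ convSet p q ψ) : p • x ∈ convSet p q ψ := by
  intro f
  obtain ⟨L, hL⟩ := hx f
  refine ⟨L, ?_⟩
  have hβ : 0 < beta p q := beta_pos hp hq
  have hshift : Tendsto (fun v : ℕ × ℕ => (v.1 + 1, v.2)) (slow ψ) (slow ψ) := by
    have ha : Tendsto (fun v : ℕ × ℕ => (v.1 + 1, v.2)) (atTop ×ˢ atTop : Filter (ℕ × ℕ))
        (atTop ×ˢ atTop : Filter (ℕ × ℕ)) :=
      ((tendsto_add_atTop_nat 1).comp tendsto_fst).prodMk tendsto_snd
    have hb : Tendsto (fun v : ℕ × ℕ => (v.1 + 1, v.2)) (𝓟 {v : ℕ × ℕ | v.2 ≤ ψ v.1})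
        (𝓟 {v : ℕ × ℕ | v.2 ≤ ψ v.1}) := by
      rw [tendsto_principal_principal]
      intro v hv
      exact le_trans hv (hψ (Nat.le_succ v.1))
    exact ha.inf hb
  have h1 : Tendsto (fun v : ℕ × ℕ => mean p q f (v.1 + 1) v.2 x) (slow ψ) (𝓝 L) := by
    have h10 := hL.comp hshift
    exact h10
  have h2 : Tendsto (fun v : ℕ × ℕ => mean p q f v.1 v.2 (p • x) -
      mean p q f (v.1 + 1) v.2 x) (slow ψ) (𝓝 0) := by
    have hfst0 : Tendsto (fun v : ℕ × ℕ => v.1) (slow ψ) atTop :=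
      tendsto_fst.mono_left inf_le_left
    have hfst : Tendsto (fun v : ℕ × ℕ => (v.1 : ℝ)) (slow ψ) atTop :=
      tendsto_natCast_atTop_atTop.comp hfst0
    have hz : Tendsto (fun v : ℕ × ℕ => 2 * ‖f‖ * ((1 + beta p q) / (v.1 : ℝ)))
        (slow ψ) (𝓝 0) := by
      have := (hfst.const_div_atTop (1 + beta p q)).const_mul (2 * ‖f‖)
      rwa [mul_zero] at this
    refine squeeze_zero_norm' ?_ hz
    filter_upwards [hfst.eventually_gt_atTop 0] with v hv
    rw [Real.norm_eq_abs]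
    exact conv2_mean hp hq h f v.1 v.2 hv x
  have h3 := h2.add h1
  rw [zero_add] at h3
  refine h3.congr fun v => ?_
  exact sub_add_cancel _ _

end Pool.Agent.H.MP_96e181_an.Win
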