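import Mathlib
import Pool.Agent.H.MP_96e181_an.win.Basic2

set_option autoImplicit false

/-! The convergence set is forward invariant under `q` -/

namespace Pool.Agent.H.MP_96e181_an.Win

open MeasureTheory Filter Topology
open scoped ENNReal NNReal

variable {p q : ℕ}

theorem conv3_mean_sub {A C : Finset ℕ} (hAC : A ⊆ C) (hA : 0 < A.card) {g : ℕ → ℝ} {M : ℝ}
    (hg : ∀ t, |g t| ≤ M) :
    |(∑ t ∈ A, g t) / (A.card : ℝ) - (∑ t ∈ C, g t) / (C.card : ℝ)| ≤
      2 * M * (((C.card : ℝ) - A.card) / C.card) := by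
  classical
  have hcard : A.card ≤ C.card := Finset.card_le_card hAC
  have ha : (0 : ℝ) < A.card := by exact_mod_cast hA
  have hc : (0 : ℝ) < C.card := lt_of_lt_of_le ha (by exact_mod_cast hcard)
  have hS : |∑ t ∈ A, g t| ≤ A.card * M := by
    refine (Finset.abs_sum_le_sum_abs _ _).trans ?_
    refine (Finset.sum_le_sum fun t _ => hg t).trans ?_
    simp
  have hT : |∑ t ∈ C \ A, g t| ≤ ((C.card : ℝ) - A.card) * M := by
    refine (Finset.abs_sum_le_sum_abs _ _).trans ?_
    refine (Finset.sum_le_sum fun t _ => hg t).trans ?_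
    rw [Finset.sum_const, nsmul_eq_mul, Finset.card_sdiff_of_subset hAC, Nat.cast_sub hcard]
  have hsum : ∑ t ∈ C, g t = ∑ t ∈ A, g t + ∑ t ∈ C \ A, g t := by
    rw [add_comm, Finset.sum_sdiff hAC]
  rw [hsum]
  set S := ∑ t ∈ A, g t
  set T := ∑ t ∈ C \ A, g t
  have e : S / (A.card : ℝ) - (S + T) / (C.card : ℝ) =
      (S * ((C.card : ℝ) - A.card)) / (A.card * C.card) - T / C.card := by
    field_simp
    ring
  rw [e]
  have hd : 0 ≤ (C.card : ℝ) - A.card := by
    have : (A.card : ℝ) ≤ C.card := by exact_mod_cast hcard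
    linarith
  have h1 : |(S * ((C.card : ℝ) - A.card)) / (A.card * C.card)| ≤
      M * (((C.card : ℝ) - A.card) / C.card) := by
    rw [abs_div, abs_mul, abs_of_nonneg hd, abs_of_pos (mul_pos ha hc),
      div_le_iff₀ (mul_pos ha hc)]
    have e2 : M * (((C.card : ℝ) - A.card) / C.card) * (A.card * C.card) =
        (A.card * M) * ((C.card : ℝ) - A.card) := by
      field_simp
    rw [e2]
    exact mul_le_mul_of_nonneg_right hS hd
  have h2 : |T / (C.card : ℝ)| ≤ M * (((C.card : ℝ) - A.card) / C.card) := by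
    rw [abs_div, abs_of_pos hc, div_le_iff₀ hc]
    have e2 : M * (((C.card : ℝ) - A.card) / C.card) * C.card =
        ((C.card : ℝ) - A.card) * M := by
      field_simp
    rw [e2]
    exact hT
  calc |(S * ((C.card : ℝ) - A.card)) / (A.card * C.card) - T / C.card|
      ≤ |(S * ((C.card : ℝ) - A.card)) / (A.card * C.card)| + |T / (C.card : ℝ)| := abs_sub _ _
    _ ≤ 2 * M * (((C.card : ℝ) - A.card) / C.card) := by linarith

theorem conv3_image_subset (hp : 2 ≤ p) (hq : 2 ≤ q) (n r : ℕ) :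
    (window p q n r).image (fun t => q * t) ⊆ window p q (n + Nat.log p q) (r + 1) := by
  classical
  intro s hs
  rw [Finset.mem_image] at hs
  obtain ⟨t, ht, rfl⟩ := hs
  unfold window at ht ⊢
  rw [Finset.mem_filter, Finset.mem_Ico] at ht ⊢
  obtain ⟨⟨h1, h2⟩, i, j, h3⟩ := ht
  have hk1 : p ^ Nat.log p q ≤ q := Nat.pow_log_le_self p (by omega)
  have hk2 : q < p ^ (Nat.log p q + 1) := Nat.lt_pow_succ_log_self (by omega) q
  refine ⟨⟨?_, ?_⟩, i, j + 1, ?_⟩
  · rw [pow_add, mul_comm]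
    exact Nat.mul_le_mul hk1 h1
  · have e : n + Nat.log p q + (r + 1) = (Nat.log p q + 1) + (n + r) := by ring
    rw [e, pow_add]
    exact Nat.mul_lt_mul_of_lt_of_lt hk2 h2
  · rw [h3, pow_succ]
    ring

theorem conv3_subset (p q n r : ℕ) (hp : 2 ≤ p) :
    window p q n r ⊆ window p q n (r + 1) := by
  classical
  intro t ht
  unfold window at ht ⊢
  rw [Finset.mem_filter, Finset.mem_Ico] at ht ⊢
  refine ⟨⟨ht.1.1, lt_of_lt_of_le ht.1.2 ?_⟩, ht.2⟩
  exact Nat.pow_le_pow_right (by omega) (by omega)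

theorem conv3_beta_pos (hp : 2 ≤ p) (hq : 2 ≤ q) : 0 < beta p q := by
  unfold beta
  exact div_pos (Real.log_pos (by exact_mod_cast (by omega : 1 < q)))
    (Real.log_pos (by exact_mod_cast (by omega : 1 < p)))

theorem conv3_card_lower (hp : 2 ≤ p) (hq : 2 ≤ q)
    (h : Irrational (Real.log (p : ℝ) / Real.log (q : ℝ))) (n r : ℕ) :
    (r : ℝ) * ((n : ℝ) + 1) / beta p q ≤ (window p q n r).card := by
  have hb := conv3_beta_pos hp hq
  rw [card_window hp hq h]
  push_cast
  calc (r : ℝ) * ((n : ℝ) + 1) / beta p q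
      = ∑ i ∈ Finset.range r, ((n : ℝ) + 1) / beta p q := by
        rw [Finset.sum_const, Finset.card_range, nsmul_eq_mul, mul_div_assoc]
    _ ≤ ∑ i ∈ Finset.range r, (J p q (n + i) : ℝ) := by
        refine Finset.sum_le_sum fun i _ => ?_
        refine le_trans ?_ (J_lower hp hq h (n + i))
        have : (0 : ℝ) ≤ (i : ℝ) := Nat.cast_nonneg i
        push_cast
        gcongr
        linarith

theorem conv3_card_diff (hp : 2 ≤ p) (hq : 2 ≤ q)
    (h : Irrational (Real.log (p : ℝ) / Real.log (q : ℝ))) (n r k : ℕ) :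
    ((window p q (n + k) (r + 1)).card : ℝ) - (window p q n r).card ≤
      r * ((k : ℝ) / beta p q + 1) + (((n : ℝ) + k + r + 1) / beta p q + 1) := by
  have hb := conv3_beta_pos hp hq
  rw [card_window hp hq h, card_window hp hq h, Finset.sum_range_succ]
  push_cast
  have h1 : ∀ i : ℕ, (J p q (n + k + i) : ℝ) ≤ J p q (n + i) + ((k : ℝ) / beta p q + 1) := by
    intro i
    have h2 := J_upper hp hq (n + k + i)
    have h3 := J_lower hp hq h (n + i)
    push_cast at h2 h3
    have e : ((n : ℝ) + k + i + 1) / beta p q = ((n : ℝ) + i + 1) / beta p q +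
        (k : ℝ) / beta p q := by ring
    rw [e] at h2
    linarith
  have h4 : ∑ i ∈ Finset.range r, (J p q (n + k + i) : ℝ) ≤
      ∑ i ∈ Finset.range r, (J p q (n + i) : ℝ) + r * ((k : ℝ) / beta p q + 1) := by
    refine (Finset.sum_le_sum fun i _ => h1 i).trans ?_
    rw [Finset.sum_add_distrib, Finset.sum_const, Finset.card_range, nsmul_eq_mul]
  have h5 := J_upper hp hq (n + k + r)
  push_cast at h5
  linarith

theorem conv3_card_diff' (hp : 2 ≤ p) (hq : 2 ≤ q)
    (h : Irrational (Real.log (p : ℝ) / Real.log (q : ℝ))) (n r : ℕ) :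
    ((window p q n (r + 1)).card : ℝ) - (window p q n r).card ≤
      ((n : ℝ) + r + 1) / beta p q + 1 := by
  rw [card_window hp hq h, card_window hp hq h, Finset.sum_range_succ]
  push_cast
  have h5 := J_upper hp hq (n + r)
  push_cast at h5
  linarith

theorem conv3_bound (hp : 2 ≤ p) (hq : 2 ≤ q)
    (h : Irrational (Real.log (p : ℝ) / Real.log (q : ℝ))) (f : C(UnitAddCircle, ℝ))
    (x : UnitAddCircle) (n r : ℕ) (hr : 0 < r) :
    |mean p q f n r (q • x) - mean p q f (n + Nat.log p q) r x| ≤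
      2 * ‖f‖ * ((((Nat.log p q : ℝ) + beta p q) + 2) / ((n : ℝ) + 1) +
        (2 * ((Nat.log p q : ℝ) + 1) + 2 * beta p q) / (r : ℝ)) := by
  classical
  set k := Nat.log p q with hk
  have hb := conv3_beta_pos hp hq
  have hr' : (0 : ℝ) < r := by exact_mod_cast hr
  have hn' : (0 : ℝ) < (n : ℝ) + 1 := by positivity
  have hlow := conv3_card_lower hp hq h (n + k) (r + 1)
  have hlowA := conv3_card_lower hp hq h n r
  have hlowB := conv3_card_lower hp hq h (n + k) r
  have hposA : 0 < (window p q n r).card := by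
    have : (0 : ℝ) < (window p q n r).card := lt_of_lt_of_le (by positivity) hlowA
    exact_mod_cast this
  have hposB : 0 < (window p q (n + k) r).card := by
    have : (0 : ℝ) < (window p q (n + k) r).card := lt_of_lt_of_le (by positivity) hlowB
    exact_mod_cast this
  set A := (window p q n r).image (fun t => q * t) with hAdef
  set B := window p q (n + k) r with hBdef
  set C := window p q (n + k) (r + 1) with hCdef
  have hinj : Function.Injective (fun t : ℕ => q * t) := by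
    intro a b hab
    exact Nat.eq_of_mul_eq_mul_left (by omega) hab
  have hAcard : A.card = (window p q n r).card := Finset.card_image_of_injective _ hinj
  have hAC : A ⊆ C := conv3_image_subset hp hq n r
  have hBC : B ⊆ C := conv3_subset p q (n + k) r hp
  have hg : ∀ t : ℕ, |f (t • x)| ≤ ‖f‖ := fun t => f.norm_coe_le_norm _
  have e1 : mean p q f n r (q • x) = (∑ t ∈ A, f (t • x)) / (A.card : ℝ) := by
    unfold mean
    rw [hAcard, hAdef, Finset.sum_image (fun a _ b _ hab => hinj hab)]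
    congr 1
    refine Finset.sum_congr rfl fun t _ => ?_
    rw [smul_smul, mul_comm]
  have e2 : mean p q f (n + k) r x = (∑ t ∈ B, f (t • x)) / (B.card : ℝ) := rfl
  have h1 := conv3_mean_sub hAC (by rw [hAcard]; exact hposA) hg
  have h2 := conv3_mean_sub hBC hposB hg
  rw [e1, e2]
  have hM : 0 ≤ 2 * ‖f‖ := by positivity
  have hd1 : (C.card : ℝ) - A.card ≤
      r * ((k : ℝ) / beta p q + 1) + (((n : ℝ) + k + r + 1) / beta p q + 1) := by
    rw [hAcard]
    exact conv3_card_diff hp hq h n r k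
  have hd2 : (C.card : ℝ) - B.card ≤ ((n : ℝ) + k + r + 1) / beta p q + 1 := by
    have := conv3_card_diff' hp hq h (n + k) r
    push_cast at this
    exact this
  have hlow' : (r : ℝ) * ((n : ℝ) + 1) / beta p q ≤ C.card := by
    refine le_trans ?_ hlow
    have hk0 : (0 : ℝ) ≤ (k : ℝ) := Nat.cast_nonneg k
    push_cast
    gcongr <;> linarith
  have hcpos : (0 : ℝ) < C.card := lt_of_lt_of_le (by positivity) hlow'
  have h3 : (((C.card : ℝ) - A.card) + ((C.card : ℝ) - B.card)) / C.card ≤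
      (((k : ℝ) + beta p q) + 2) / ((n : ℝ) + 1) +
        (2 * ((k : ℝ) + 1) + 2 * beta p q) / (r : ℝ) := by
    have hk0 : (0 : ℝ) ≤ (k : ℝ) := Nat.cast_nonneg k
    have hn0 : (0 : ℝ) ≤ (n : ℝ) := Nat.cast_nonneg n
    have hr1 : (1 : ℝ) ≤ r := by exact_mod_cast hr
    rw [div_le_iff₀ hcpos]
    have h5 : 0 ≤ (((k : ℝ) + beta p q) + 2) / ((n : ℝ) + 1) +
        (2 * ((k : ℝ) + 1) + 2 * beta p q) / (r : ℝ) := by positivity
    refine le_trans ?_ (mul_le_mul_of_nonneg_left hlow' h5)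
    refine (add_le_add hd1 hd2).trans ?_
    have e3 : ((((k : ℝ) + beta p q) + 2) / ((n : ℝ) + 1) +
        (2 * ((k : ℝ) + 1) + 2 * beta p q) / (r : ℝ)) * ((r : ℝ) * ((n : ℝ) + 1) / beta p q) =
        ((((k : ℝ) + beta p q) + 2) * r + (2 * ((k : ℝ) + 1) + 2 * beta p q) * ((n : ℝ) + 1)) /
          beta p q := by
      field_simp
    rw [e3, le_div_iff₀ hb]
    have e4 : (r * ((k : ℝ) / beta p q + 1) + (((n : ℝ) + k + r + 1) / beta p q + 1) +
        (((n : ℝ) + k + r + 1) / beta p q + 1)) * beta p q =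
        r * (k + beta p q) + 2 * ((n : ℝ) + k + r + 1) + 2 * beta p q := by
      field_simp
      ring
    rw [e4]
    nlinarith [mul_nonneg hk0 hn0, mul_nonneg hb.le hn0]
  have h4 : |(∑ t ∈ A, f (t • x)) / (A.card : ℝ) - (∑ t ∈ B, f (t • x)) / (B.card : ℝ)| ≤
      |(∑ t ∈ A, f (t • x)) / (A.card : ℝ) - (∑ t ∈ C, f (t • x)) / (C.card : ℝ)| +
      |(∑ t ∈ B, f (t • x)) / (B.card : ℝ) - (∑ t ∈ C, f (t • x)) / (C.card : ℝ)| := by
    rw [abs_sub_comm ((∑ t ∈ B, f (t • x)) / (B.card : ℝ))]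
    exact abs_sub_le _ _ _
  calc |(∑ t ∈ A, f (t • x)) / (A.card : ℝ) - (∑ t ∈ B, f (t • x)) / (B.card : ℝ)|
      ≤ 2 * ‖f‖ * (((C.card : ℝ) - A.card) / C.card) +
        2 * ‖f‖ * (((C.card : ℝ) - B.card) / C.card) := h4.trans (add_le_add h1 h2)
    _ = 2 * ‖f‖ * ((((C.card : ℝ) - A.card) + ((C.card : ℝ) - B.card)) / C.card) := by ring
    _ ≤ _ := mul_le_mul_of_nonneg_left h3 hM

/-- With `k = Nat.log p q`, `q ∈ [p ^ k, p ^ (k + 1))`: `q (window n r)` is contained in
`window (n + k) (r + 1)`; compare with `window (n + k) r`: both differ by `O(J (n + k + r + 1))`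
elements from each other, and both have at least `r J n` elements:
`mean f n r (q x) - mean f (n + k) r x → 0` as `n, r → ∞`, `r ≤ n` ... use that the number of
elements of `window (n + k) (r + 1)` which are not in `q (window n r)` is at most
`∑_{i ≤ r} J (n + k + i) - ∑_{i < r} J (n + i) ≤ J (n + k + r) + r (k + 1) (1 / beta + 2)`, which is
`≤ (1/r + (k+1)(1/beta+2)/J n + O(r / (r n))) ` of the whole.
(`J (n + k + r) ≤ J n + (k + r) / beta + 2` and the window has at least `r J n + r (r-1)/(2 beta) - r`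
elements, so the ratio tends to `0` as `n, r → ∞` without restriction.) -/
theorem convSet_q (hp : 2 ≤ p) (hq : 2 ≤ q)
    (h : Irrational (Real.log (p : ℝ) / Real.log (q : ℝ))) {ψ : ℕ → ℕ} (hψ : Monotone ψ)
    {x : UnitAddCircle} (hx : x ∈ convSet p q ψ) : q • x ∈ convSet p q ψ := by
  intro f
  obtain ⟨L, hL⟩ := hx f
  refine ⟨L, ?_⟩
  have hbound := fun (n r : ℕ) (hr : 0 < r) => conv3_bound hp hq h f x n r hr
  generalize Nat.log p q = k at hbound
  have hle : slow ψ ≤ (atTop ×ˢ atTop : Filter (ℕ × ℕ)) := inf_le_left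
  have hfst : Tendsto (fun v : ℕ × ℕ => v.1) (slow ψ) atTop := tendsto_fst.mono_left hle
  have hsnd : Tendsto (fun v : ℕ × ℕ => v.2) (slow ψ) atTop := tendsto_snd.mono_left hle
  have hshift : Tendsto (fun v : ℕ × ℕ => (v.1 + k, v.2)) (slow ψ) (slow ψ) := by
    unfold slow
    rw [tendsto_inf]
    refine ⟨?_, ?_⟩
    · exact ((tendsto_add_atTop_nat k).comp hfst).prodMk hsnd
    · rw [tendsto_principal]
      have hmem : {v : ℕ × ℕ | v.2 ≤ ψ v.1} ∈
          (atTop ×ˢ atTop : Filter (ℕ × ℕ)) ⊓ 𝓟 {v : ℕ × ℕ | v.2 ≤ ψ v.1} :=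
        mem_inf_of_right (mem_principal_self _)
      refine Filter.mem_of_superset hmem ?_
      intro v hv
      have hv' : v.2 ≤ ψ v.1 := hv
      have h0 : ψ v.1 ≤ ψ (v.1 + k) := hψ (Nat.le_add_right _ _)
      exact hv'.trans h0
  have h1 : Tendsto (fun v : ℕ × ℕ => mean p q f (v.1 + k) v.2 x) (slow ψ) (𝓝 L) := by
    have h0 := hL.comp hshift
    simp only [Function.comp_def] at h0
    exact h0
  have hb1 : Tendsto (fun v : ℕ × ℕ => 2 * ‖f‖ *
      ((((k : ℝ) + beta p q) + 2) / ((v.1 : ℝ) + 1) +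
        (2 * ((k : ℝ) + 1) + 2 * beta p q) / (v.2 : ℝ))) (slow ψ) (𝓝 0) := by
    have h2 : Tendsto (fun v : ℕ × ℕ => (((k : ℝ) + beta p q) + 2) / ((v.1 : ℝ) + 1)) (slow ψ)
        (𝓝 0) := by
      refine Tendsto.div_atTop tendsto_const_nhds ?_
      exact tendsto_atTop_add_const_right _ _ (tendsto_natCast_atTop_atTop.comp hfst)
    have h3 : Tendsto (fun v : ℕ × ℕ => (2 * ((k : ℝ) + 1) + 2 * beta p q) / (v.2 : ℝ)) (slow ψ)
        (𝓝 0) :=
      Tendsto.div_atTop tendsto_const_nhds (tendsto_natCast_atTop_atTop.comp hsnd)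
    have h4 := (h2.add h3).const_mul (2 * ‖f‖)
    simpa using h4
  have h5 : Tendsto (fun v : ℕ × ℕ => mean p q f v.1 v.2 (q • x) - mean p q f (v.1 + k) v.2 x)
      (slow ψ) (𝓝 0) := by
    rw [tendsto_zero_iff_abs_tendsto_zero]
    refine squeeze_zero' (Eventually.of_forall fun v => abs_nonneg _) ?_ hb1
    filter_upwards [hsnd.eventually (eventually_gt_atTop 0)] with v hv
    exact hbound v.1 v.2 hv
  have h6 := h5.add h1
  simpa using h6

end Pool.Agent.H.MP_96e181_an.Win
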