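import Mathlib
import Pool.Agent.H.MP_96e181_an.win.Defs

set_option autoImplicit false

/-! Cells of differences -/

namespace Pool.Agent.H.MP_96e181_an.Win

open MeasureTheory Filter Topology
open Pool.Agent.H.MP_96e181_an (dig rep)

variable {p q : ℕ}

theorem digsub_rep (u v : UnitAddCircle) :
    rep (u - v) = rep u - rep v ∨ rep (u - v) = rep u - rep v + 1 := by
  have h1 : ((rep (u - v) - (rep u - rep v) : ℝ) : UnitAddCircle) = 0 := by
    rw [AddCircle.coe_sub, AddCircle.coe_sub, coe_rep, coe_rep, coe_rep, sub_self]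
  obtain ⟨m, hm⟩ := (AddCircle.coe_eq_zero_iff (1 : ℝ)).1 h1
  rw [zsmul_eq_mul, mul_one] at hm
  have a1 := rep_nonneg (u - v)
  have a2 := rep_lt_one (u - v)
  have b1 := rep_nonneg u
  have b2 := rep_lt_one u
  have c1 := rep_nonneg v
  have c2 := rep_lt_one v
  have m1 : (-1 : ℝ) < (m : ℝ) := by rw [hm]; linarith
  have m2 : (m : ℝ) < 2 := by rw [hm]; linarith
  have m1' : -1 < m := by exact_mod_cast m1
  have m2' : m < 2 := by exact_mod_cast m2
  have h3 : m = 0 ∨ m = 1 := by omega
  rcases h3 with rfl | rfl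
  · left
    push_cast at hm
    linarith
  · right
    push_cast at hm
    linarith

theorem digsub_fl {N : ℕ} (x : UnitAddCircle) :
    (dig N x : ℝ) ≤ N * rep x ∧ (N : ℝ) * rep x < dig N x + 1 := by
  have h0 : (0 : ℝ) ≤ (N : ℝ) * rep x := mul_nonneg (Nat.cast_nonneg _) (rep_nonneg x)
  exact ⟨Nat.floor_le h0, Nat.lt_floor_add_one _⟩

/-- If `dig N u = a`, `dig N v = b`, then `dig N (u - v)` is one of two residues mod `N`
(`(a - b) mod N` or `(a - b - 1) mod N`). -/
theorem dig_sub {N : ℕ} (hN : 0 < N) (u v : UnitAddCircle) :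
    dig N (u - v) = (dig N u + N - dig N v) % N ∨
      dig N (u - v) = (dig N u + N - dig N v + N - 1) % N := by
  have hd := dig_lt hN (u - v)
  have ha := dig_lt hN u
  have hb := dig_lt hN v
  obtain ⟨d1, d2⟩ := digsub_fl (N := N) (u - v)
  obtain ⟨a1, a2⟩ := digsub_fl (N := N) u
  obtain ⟨b1, b2⟩ := digsub_fl (N := N) v
  generalize dig N (u - v) = d at *
  generalize dig N u = a at *
  generalize dig N v = b at *
  have key : ((d : ℤ) = a - b ∨ (d : ℤ) = a - b - 1) ∨
      ((d : ℤ) = a - b + N ∨ (d : ℤ) = a - b - 1 + N) := by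
    rcases digsub_rep u v with h | h
    · left
      rw [h, mul_sub] at d1 d2
      have e1 : ((d : ℤ) : ℝ) < ((a - b + 1 : ℤ) : ℝ) := by push_cast; linarith
      have e2 : ((a - b - 1 : ℤ) : ℝ) < ((d + 1 : ℤ) : ℝ) := by push_cast; linarith
      have e1' : (d : ℤ) < a - b + 1 := by exact_mod_cast e1
      have e2' : (a : ℤ) - b - 1 < d + 1 := by exact_mod_cast e2
      omega
    · right
      rw [h, mul_add, mul_sub, mul_one] at d1 d2
      have e1 : ((d : ℤ) : ℝ) < ((a - b + N + 1 : ℤ) : ℝ) := by push_cast; linarith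
      have e2 : ((a - b - 1 + N : ℤ) : ℝ) < ((d + 1 : ℤ) : ℝ) := by push_cast; linarith
      have e1' : (d : ℤ) < a - b + N + 1 := by exact_mod_cast e1
      have e2' : (a : ℤ) - b - 1 + N < d + 1 := by exact_mod_cast e2
      omega
  have hd' : d % N = d := Nat.mod_eq_of_lt hd
  rcases key with (h | h) | (h | h)
  · left
    have e : a + N - b = d + N := by omega
    rw [e, Nat.add_mod_right, hd']
  · right
    have e : a + N - b + N - 1 = d + N + N := by omega
    rw [e, Nat.add_mod_right, Nat.add_mod_right, hd']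
  · left
    have e : a + N - b = d := by omega
    rw [e, hd']
  · right
    have e : a + N - b + N - 1 = d + N := by omega
    rw [e, Nat.add_mod_right, hd']

end Pool.Agent.H.MP_96e181_an.Win
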