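import Mathlib
import Pool.Agent.H.MP_96e181_an.win.DigSub

set_option autoImplicit false

/-! Entropy of the marginals -/

namespace Pool.Agent.H.MP_96e181_an.Win

open MeasureTheory Filter Topology
open Pool.Agent.H.MP_96e181_an (dig rep dig_lt)

variable {p q : ℕ}

/-- The elementary inequality of the Gibbs argument. -/
theorem entadd_term {P a b L : ℝ} (hP : 0 ≤ P) (ha : P ≤ a) (hb : P ≤ b) (hL : 0 < L)
    (hPL : P ≤ L) :
    P * Real.log (1 / L) + P - a * b ≤ - (P * (Real.log a + Real.log b)) := by
  rcases hP.eq_or_lt with h | h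
  · rw [← h] at ha hb ⊢
    have := mul_nonneg ha hb
    simp
    linarith
  · have ha' : 0 < a := h.trans_le ha
    have hb' : 0 < b := h.trans_le hb
    have h1 : Real.log (a * b / P) ≤ a * b / P - 1 :=
      Real.log_le_sub_one_of_pos (by positivity)
    rw [Real.log_div (by positivity) h.ne', Real.log_mul ha'.ne' hb'.ne'] at h1
    have h2 := mul_le_mul_of_nonneg_left h1 h.le
    have h3 : P * (a * b / P - 1) = a * b - P := by field_simp
    rw [h3] at h2
    have h4 : Real.log P ≤ Real.log L := Real.log_le_log h hPL
    rw [one_div, Real.log_inv]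
    nlinarith [mul_le_mul_of_nonneg_left h4 h.le]

/-- **Entropy of the marginals.** If every cell has frequency at most `K / N` for the differences
`u i - v i`, then `H(u) + H(v) ≥ log (N / (2 K))`.

Proof: the joint law of `(dig N (u i), dig N (v i))` has all masses `P(a, b) ≤ 2 K / N` by
`dig_sub`. Gibbs: `∑ P(a,b) log (P(a,b) / (P_u(a) P_v(b))) ≥ 0`
(`log t ≥ 1 - 1/t`), hence `H(u) + H(v) ≥ -∑ P log P ≥ log (N / (2K))`. -/
theorem ent_add {ι : Type*} {s : Finset ι} (hs : s.Nonempty) (u v : ι → UnitAddCircle) {N : ℕ}
    (hN : 0 < N) {K : ℝ} (hK : 0 < K)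
    (hd : ∀ k < N, ((s.filter fun i => dig N (u i - v i) = k).card : ℝ) ≤ K / N * s.card) :
    Real.log (N / (2 * K)) ≤ hent s u N + hent s v N := by
  classical
  have hN' : (0:ℝ) < N := by exact_mod_cast hN
  have hc : (0 : ℝ) < (s.card : ℝ) := by
    have := hs.card_pos
    positivity
  -- joint law and marginals
  set P : ℕ → ℕ → ℝ := fun a b =>
    ((s.filter fun i => dig N (u i) = a ∧ dig N (v i) = b).card : ℝ) / (s.card : ℝ) with hPdef
  set A : ℕ → ℝ := fun a => ((s.filter fun i => dig N (u i) = a).card : ℝ) / (s.card : ℝ) with hA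
  set B : ℕ → ℝ := fun b => ((s.filter fun i => dig N (v i) = b).card : ℝ) / (s.card : ℝ) with hB
  have hP0 : ∀ a b, 0 ≤ P a b := fun a b => by positivity
  have hPA : ∀ a, ∑ b ∈ Finset.range N, P a b = A a := by
    intro a
    simp only [hPdef, hA]
    rw [← Finset.sum_div]
    congr 1
    have h1 := Finset.card_eq_sum_card_fiberwise
      (s := s.filter fun i => dig N (u i) = a) (t := Finset.range N)
      (f := fun i => dig N (v i)) (fun i _ => by simpa using dig_lt hN (v i))
    rw [h1]
    push_cast
    refine Finset.sum_congr rfl fun b _ => ?_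
    rw [Finset.filter_filter]
  have hPB : ∀ b, ∑ a ∈ Finset.range N, P a b = B b := by
    intro b
    simp only [hPdef, hB]
    rw [← Finset.sum_div]
    congr 1
    have h1 := Finset.card_eq_sum_card_fiberwise
      (s := s.filter fun i => dig N (v i) = b) (t := Finset.range N)
      (f := fun i => dig N (u i)) (fun i _ => by simpa using dig_lt hN (u i))
    rw [h1]
    push_cast
    refine Finset.sum_congr rfl fun a _ => ?_
    rw [Finset.filter_filter]
    congr 2
    ext i
    simp only [Finset.mem_filter]
    tauto
  have hA1 : ∑ a ∈ Finset.range N, A a = 1 := by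
    simp only [hA]
    rw [← Finset.sum_div, div_eq_one_iff_eq hc.ne']
    have := Finset.card_eq_sum_card_fiberwise (s := s) (t := Finset.range N)
      (f := fun i => dig N (u i)) (fun i _ => by simpa using dig_lt hN (u i))
    exact_mod_cast this.symm
  have hB1 : ∑ b ∈ Finset.range N, B b = 1 := by
    simp only [hB]
    rw [← Finset.sum_div, div_eq_one_iff_eq hc.ne']
    have := Finset.card_eq_sum_card_fiberwise (s := s) (t := Finset.range N)
      (f := fun i => dig N (v i)) (fun i _ => by simpa using dig_lt hN (v i))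
    exact_mod_cast this.symm
  have hPa : ∀ a b, P a b ≤ A a := by
    intro a b
    simp only [hPdef, hA]
    gcongr with i _ hi
    exact fun hi => hi.1
  have hPb : ∀ a b, P a b ≤ B b := by
    intro a b
    simp only [hPdef, hB]
    gcongr with i _ hi
    exact fun hi => hi.2
  have hPL : ∀ a b, P a b ≤ 2 * K / N := by
    intro a b
    have hr : ∀ r, ((s.filter fun i => dig N (u i - v i) = r).card : ℝ) ≤ K / N * s.card := by
      intro r
      by_cases hr : r < N
      · exact hd r hr
      · have : (s.filter fun i => dig N (u i - v i) = r) = ∅ := by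
          refine Finset.filter_eq_empty_iff.2 fun i _ h => hr ?_
          rw [← h]
          exact dig_lt hN _
        rw [this]
        simp only [Finset.card_empty, Nat.cast_zero]
        positivity
    have hsub : (s.filter fun i => dig N (u i) = a ∧ dig N (v i) = b) ⊆
        (s.filter fun i => dig N (u i - v i) = (a + N - b) % N) ∪
          (s.filter fun i => dig N (u i - v i) = (a + N - b + N - 1) % N) := by
      intro i hi
      rw [Finset.mem_filter] at hi
      obtain ⟨h1, h2, h3⟩ := hi
      rw [Finset.mem_union, Finset.mem_filter, Finset.mem_filter]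
      rcases dig_sub hN (u i) (v i) with h | h
      · left; exact ⟨h1, by rw [h, h2, h3]⟩
      · right; exact ⟨h1, by rw [h, h2, h3]⟩
    have h1 : ((s.filter fun i => dig N (u i) = a ∧ dig N (v i) = b).card : ℝ) ≤
        ((s.filter fun i => dig N (u i - v i) = (a + N - b) % N).card : ℝ) +
          ((s.filter fun i => dig N (u i - v i) = (a + N - b + N - 1) % N).card : ℝ) := by
      exact_mod_cast (Finset.card_le_card hsub).trans (Finset.card_union_le _ _)
    have h2 := hr ((a + N - b) % N)
    have h3 := hr ((a + N - b + N - 1) % N)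
    simp only [hPdef]
    rw [div_le_iff₀ hc]
    have h4 : 2 * K / N * (s.card : ℝ) = K / N * s.card + K / N * s.card := by ring
    rw [h4]
    linarith
  have hL : (0:ℝ) < 2 * K / N := by positivity
  -- the entropies as sums over pairs
  have hu : hent s u N = ∑ a ∈ Finset.range N, ∑ b ∈ Finset.range N,
      -(P a b * Real.log (A a)) := by
    rw [hent]
    refine Finset.sum_congr rfl fun a _ => ?_
    change Real.negMulLog (A a) = _
    rw [Finset.sum_neg_distrib, ← Finset.sum_mul, hPA a, Real.negMulLog, neg_mul]
  have hv : hent s v N = ∑ a ∈ Finset.range N, ∑ b ∈ Finset.range N,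
      -(P a b * Real.log (B b)) := by
    rw [hent, Finset.sum_comm]
    refine Finset.sum_congr rfl fun b _ => ?_
    change Real.negMulLog (B b) = _
    rw [Finset.sum_neg_distrib, ← Finset.sum_mul, hPB b, Real.negMulLog, neg_mul]
  have hsum : ∑ a ∈ Finset.range N, ∑ b ∈ Finset.range N,
      (P a b * Real.log (1 / (2 * K / N)) + P a b - A a * B b) ≤ hent s u N + hent s v N := by
    rw [hu, hv, ← Finset.sum_add_distrib]
    refine Finset.sum_le_sum fun a _ => ?_
    rw [← Finset.sum_add_distrib]
    refine Finset.sum_le_sum fun b _ => ?_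
    have := entadd_term (hP0 a b) (hPa a b) (hPb a b) hL (hPL a b)
    linarith
  have hPtot : ∑ a ∈ Finset.range N, ∑ b ∈ Finset.range N, P a b = 1 := by
    rw [← hA1]
    exact Finset.sum_congr rfl fun a _ => hPA a
  have hAB : ∑ a ∈ Finset.range N, ∑ b ∈ Finset.range N, A a * B b = 1 := by
    rw [← Finset.sum_mul_sum, hA1, hB1, one_mul]
  have hlhs : ∑ a ∈ Finset.range N, ∑ b ∈ Finset.range N,
      (P a b * Real.log (1 / (2 * K / N)) + P a b - A a * B b) =
      Real.log (1 / (2 * K / N)) := by
    have : ∀ a ∈ Finset.range N, ∑ b ∈ Finset.range N,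
      (P a b * Real.log (1 / (2 * K / N)) + P a b - A a * B b) =
        (∑ b ∈ Finset.range N, P a b) * Real.log (1 / (2 * K / N)) +
          ∑ b ∈ Finset.range N, P a b - ∑ b ∈ Finset.range N, A a * B b := by
      intro a _
      rw [Finset.sum_sub_distrib, Finset.sum_add_distrib, Finset.sum_mul]
    rw [Finset.sum_congr rfl this, Finset.sum_sub_distrib, Finset.sum_add_distrib,
      ← Finset.sum_mul, hPtot, hAB]
    ring
  rw [hlhs] at hsum
  have h5 : (N : ℝ) / (2 * K) = 1 / (2 * K / N) := by field_simp
  rw [h5]
  exact hsum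

end Pool.Agent.H.MP_96e181_an.Win
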