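import Mathlib
import Pool.Agent.H.MP_96e181_an.win.CellLaw
import Pool.Agent.H.MP_96e181_an.win.EntAdd

set_option autoImplicit false

/-! The pair lemma -/

namespace Pool.Agent.H.MP_96e181_an.Win

open MeasureTheory Filter Topology
open Pool.Agent.H.MP_96e181_an (dig rep)

variable {p q : ℕ}

/-- **Pair lemma.** -/
theorem pair (hp : 2 ≤ p) (hq : 2 ≤ q) (h : Irrational (Real.log (p : ℝ) / Real.log (q : ℝ)))
    {N : ℕ} (hN : 0 < N) :
    ∃ C n₀ : ℕ, ∀ n ≥ n₀, ∀ (x y : UnitAddCircle) (z : ℝ), (z : UnitAddCircle) = x - y →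
      (p : ℝ) ^ C ≤ |z| * (p : ℝ) ^ n → |z| * (p : ℝ) ^ n ≤ (p : ℝ) ^ (C + 1) →
      Real.log (N / 10) ≤ went p q n N x + went p q n N y := by
  obtain ⟨C, hC⟩ := cell_law hp hq h hN
  obtain ⟨n₀, hn₀⟩ := hC 1
  refine ⟨C, n₀, fun n hn x y z hz h1 h2 => ?_⟩
  have h3 := hn₀ n hn z h1 h2
  have h4 := ent_add (s := Finset.range (J p q n)) ⟨0, Finset.mem_range.2 (J_pos n)⟩
    (fun j => tau p q n j • x) (fun j => tau p q n j • y) hN (K := 5) (by norm_num) (by
      intro k hk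
      have h5 := h3 k hk
      simp only [← smul_sub, ← hz, Finset.card_range]
      exact h5)
  have h6 : (N : ℝ) / (2 * 5) = N / 10 := by norm_num
  rw [h6] at h4
  exact h4

end Pool.Agent.H.MP_96e181_an.Win
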