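import Mathlib
import Pool.Agent.H.MP_96e181_an.win.Pair

set_option autoImplicit false

/-! The exceptional set is countable -/

namespace Pool.Agent.H.MP_96e181_an.Win

open MeasureTheory Filter Topology
open Pool.Agent.H.MP_96e181_an (dig rep)

variable {p q : ℕ}

/-- A representative of smallest absolute value. -/
theorem count_rep (t : UnitAddCircle) : ∃ z : ℝ, (z : UnitAddCircle) = t ∧ |z| = ‖t‖ := by
  obtain ⟨y, rfl⟩ := QuotientAddGroup.mk_surjective t
  refine ⟨y - round y, ?_, ?_⟩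
  · rw [AddCircle.coe_sub]
    have h1 : ((round y : ℝ) : UnitAddCircle) = 0 := by
      rw [AddCircle.coe_eq_zero_iff]
      exact ⟨round y, by simp⟩
    rw [h1, sub_zero]
  · exact (UnitAddCircle.norm_eq).symm

theorem count_exists_pow {a z : ℝ} (hz : 0 < z) (hp : 2 ≤ p) :
    ∃ n : ℕ, a ≤ z * (p : ℝ) ^ n := by
  have h1 : (1 : ℝ) < p := by exact_mod_cast (by omega : 1 < p)
  obtain ⟨n, hn⟩ := pow_unbounded_of_one_lt (a / z) h1
  refine ⟨n, ?_⟩
  rw [div_lt_iff₀ hz] at hn
  linarith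

/-- A uniformly separated set of points of the circle is countable. -/
theorem count_separated {F : Set UnitAddCircle} {ε : ℝ} (hε : 0 < ε)
    (h : ∀ x ∈ F, ∀ y ∈ F, x ≠ y → ε ≤ ‖x - y‖) : F.Countable := by
  refine Set.PairwiseDisjoint.countable_of_isOpen (s := fun x => Metric.ball x (ε / 2)) ?_
    (fun x _ => Metric.isOpen_ball) (fun x _ => ⟨x, Metric.mem_ball_self (by linarith)⟩)
  intro x hx y hy hxy
  refine Metric.ball_disjoint_ball ?_
  rw [dist_eq_norm]
  have := h x hx y hy hxy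
  linarith

/-- **The exceptional set is countable.**

Proof: for `N = p ^ l` let `C, n₀` be as in `pair`. For each `N₀` the set
`F = {x | ∀ n ≥ N₀, went p q n (p ^ l) x < (1/2) log (p ^ l / 10)}` is uniformly separated: if
`x ≠ y` in `F` and `0 < ‖x - y‖ < p ^ (C - max N₀ n₀)`, take the real number `z` with
`|z| = ‖x - y‖` (`(z : UnitAddCircle) = x - y`) and `n` with
`p ^ C ≤ |z| p ^ n < p ^ (C + 1)` (`exists_nat_pow_near`-type argument), so `n ≥ max N₀ n₀`,
contradiction with `pair`. A uniformly separated subset of a compact metric space is finite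
(so countable). Take the union over `l` and `N₀`. -/
theorem exists_countable (hp : 2 ≤ p) (hq : 2 ≤ q)
    (h : Irrational (Real.log (p : ℝ) / Real.log (q : ℝ))) :
    ∃ X : Set UnitAddCircle, X.Countable ∧ ∀ x ∉ X, ∀ l N₀ : ℕ, ∃ n ≥ N₀,
      1 / 2 * Real.log ((p : ℝ) ^ l / 10) ≤ went p q n (p ^ l) x := by
  have hp0 : (0 : ℝ) < p := by exact_mod_cast (by omega : 0 < p)
  have hp1 : (1 : ℝ) ≤ p := by exact_mod_cast (by omega : 1 ≤ p)
  refine ⟨⋃ l : ℕ, ⋃ N₀ : ℕ, {x | ∀ n ≥ N₀,
    went p q n (p ^ l) x < 1 / 2 * Real.log ((p : ℝ) ^ l / 10)}, ?_, ?_⟩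
  · refine Set.countable_iUnion fun l => Set.countable_iUnion fun N₀ => ?_
    obtain ⟨C, n₀, hC⟩ := pair hp hq h (N := p ^ l) (by positivity)
    refine count_separated (ε := (p : ℝ) ^ C / (p : ℝ) ^ max N₀ n₀) (by positivity) ?_
    intro x hx y hy hxy
    by_contra hcon
    push Not at hcon
    obtain ⟨z, hz, hz'⟩ := count_rep (x - y)
    rw [← hz'] at hcon
    have hzpos : 0 < |z| := by
      rw [hz']
      exact norm_pos_iff.2 (sub_ne_zero.2 hxy)
    have hex := count_exists_pow (a := (p : ℝ) ^ C) hzpos hp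
    classical
    set n := Nat.find hex with hn
    have h1 : (p : ℝ) ^ C ≤ |z| * (p : ℝ) ^ n := Nat.find_spec hex
    have h2 : max N₀ n₀ < n := by
      by_contra h3
      push Not at h3
      rw [lt_div_iff₀ (by positivity)] at hcon
      have h4 : |z| * (p : ℝ) ^ n ≤ |z| * (p : ℝ) ^ max N₀ n₀ := by
        gcongr
      linarith
    have h3 : |z| * (p : ℝ) ^ n ≤ (p : ℝ) ^ (C + 1) := by
      have h4 : ¬ (p : ℝ) ^ C ≤ |z| * (p : ℝ) ^ (n - 1) := Nat.find_min hex (by omega)
      push Not at h4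
      have h5 : (p : ℝ) ^ n = (p : ℝ) ^ (n - 1) * p :=
        (pow_sub_one_mul (by omega) (p : ℝ)).symm
      rw [h5, pow_succ, ← mul_assoc]
      exact mul_le_mul_of_nonneg_right h4.le hp0.le
    have h4 := hC n (by omega) x y z hz h1 h3
    have h5 : went p q n (p ^ l) x < _ := hx n (by omega)
    have h6 : went p q n (p ^ l) y < _ := hy n (by omega)
    push_cast at h4
    linarith
  · intro x hx l N₀
    simp only [Set.mem_iUnion, not_exists] at hx
    have h1 : ¬ ∀ n ≥ N₀, went p q n (p ^ l) x < 1 / 2 * Real.log ((p : ℝ) ^ l / 10) := hx l N₀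
    push Not at h1
    exact h1

end Pool.Agent.H.MP_96e181_an.Win
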