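import Mathlib
import Pool.Agent.H.MP_96e181_an.win.Defs

set_option autoImplicit false

/-! Entropy increments -/

namespace Pool.Agent.H.MP_96e181_an.Win

open MeasureTheory Filter Topology
open Pool.Agent.H.MP_96e181_an (dig rep dig_lt dig_mul_div)

/-- The frequencies of the cells sum to one. -/
theorem light1_sum_freq {ι : Type*} {s : Finset ι} (hs : s.Nonempty) (y : ι → UnitAddCircle) {N : ℕ}
    (hN : 0 < N) :
    ∑ k ∈ Finset.range N, (((s.filter fun i => dig N (y i) = k).card : ℝ) / (s.card : ℝ)) = 1 := by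
  have hc : (s.card : ℝ) ≠ 0 := by
    have := hs.card_pos
    positivity
  rw [← Finset.sum_div, div_eq_one_iff_eq hc]
  have := Finset.card_eq_sum_card_fiberwise (s := s) (t := Finset.range N)
    (f := fun i => dig N (y i)) (fun i _ => by simpa using dig_lt hN (y i))
  exact_mod_cast this.symm

/-- The elementary inequality behind `H ≤ log N`. -/
theorem light1_neg {u N : ℝ} (hu : 0 ≤ u) (hN : 0 < N) :
    Real.negMulLog u ≤ u * Real.log N + 1 / N - u := by
  rcases hu.eq_or_lt with h | h
  · rw [← h]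
    simp [Real.negMulLog, hN.le]
  · have h1 : Real.log (1 / (u * N)) ≤ 1 / (u * N) - 1 :=
      Real.log_le_sub_one_of_pos (by positivity)
    have h2 : Real.log (1 / (u * N)) = - Real.log u - Real.log N := by
      rw [one_div, Real.log_inv, Real.log_mul h.ne' hN.ne']
      ring
    rw [h2] at h1
    have h3 := mul_le_mul_of_nonneg_left h1 h.le
    have h4 : u * (1 / (u * N) - 1) = 1 / N - u := by
      field_simp
    rw [h4] at h3
    rw [Real.negMulLog]
    nlinarith [h3]

/-- `H ≤ log N` (concavity of `negMulLog`, or `-u log u ≤ u log N + 1 / N - u`). -/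
theorem hent_le {ι : Type*} {s : Finset ι} (hs : s.Nonempty) (y : ι → UnitAddCircle) {N : ℕ}
    (hN : 0 < N) : hent s y N ≤ Real.log N := by
  have hN' : (0:ℝ) < N := by exact_mod_cast hN
  have h1 : hent s y N ≤ ∑ k ∈ Finset.range N,
      ((((s.filter fun i => dig N (y i) = k).card : ℝ) / (s.card : ℝ)) * Real.log N + 1 / N
        - (((s.filter fun i => dig N (y i) = k).card : ℝ) / (s.card : ℝ))) := by
    refine Finset.sum_le_sum fun k _ => light1_neg (by positivity) hN'
  refine h1.trans ?_
  rw [Finset.sum_sub_distrib, Finset.sum_add_distrib, ← Finset.sum_mul, light1_sum_freq hs y hN,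
    Finset.sum_const, Finset.card_range, nsmul_eq_mul, mul_one_div_cancel hN'.ne']
  linarith

/-- Subadditivity of `negMulLog`. -/
theorem light1_sub {a b : ℝ} (ha : 0 ≤ a) (hb : 0 ≤ b) :
    Real.negMulLog (a + b) ≤ Real.negMulLog a + Real.negMulLog b := by
  rcases ha.eq_or_lt with h | h
  · rw [← h]; simp
  rcases hb.eq_or_lt with h' | h'
  · rw [← h']; simp
  have h1 : Real.log a ≤ Real.log (a + b) := Real.log_le_log h (by linarith)
  have h2 : Real.log b ≤ Real.log (a + b) := Real.log_le_log h' (by linarith)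
  simp only [Real.negMulLog]
  nlinarith [mul_le_mul_of_nonneg_left h1 h.le, mul_le_mul_of_nonneg_left h2 h'.le]

/-- Subadditivity of `negMulLog`, finite sums. -/
theorem light1_subs {α : Type*} (t : Finset α) (a : α → ℝ) (ha : ∀ c ∈ t, 0 ≤ a c) :
    Real.negMulLog (∑ c ∈ t, a c) ≤ ∑ c ∈ t, Real.negMulLog (a c) := by
  classical
  induction t using Finset.induction_on with
  | empty => simp
  | insert c t hc ih =>
    rw [Finset.sum_insert hc, Finset.sum_insert hc]
    have h1 := light1_sub (ha c (Finset.mem_insert_self _ _))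
      (Finset.sum_nonneg fun d hd => ha d (Finset.mem_insert_of_mem hd))
    have h2 := ih fun d hd => ha d (Finset.mem_insert_of_mem hd)
    linarith

/-- Reindexing of a sum over `range (M * p)`. -/
theorem light1_reindex (p M : ℕ) (g : ℕ → ℝ) :
    ∑ k ∈ Finset.range M, ∑ c ∈ Finset.range p, g (c + p * k) =
      ∑ x ∈ Finset.range (M * p), g x := by
  induction M with
  | zero => simp
  | succ M ih =>
    rw [Finset.sum_range_succ, ih, Nat.succ_mul, Finset.sum_range_add]
    congr 1
    refine Finset.sum_congr rfl fun c _ => by rw [add_comm, mul_comm]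

/-- One step of the refinement. -/
theorem light1_step {p : ℕ} (hp : 2 ≤ p) {ι : Type*} (s : Finset ι) (y : ι → UnitAddCircle)
    (D : ℕ) : hent s y (p ^ D) ≤ hent s y (p ^ (D + 1)) := by
  have hp0 : 0 < p := by omega
  have hcell : ∀ k, (((s.filter fun i => dig (p ^ D) (y i) = k).card : ℝ) / (s.card : ℝ)) =
      ∑ c ∈ Finset.range p,
        (((s.filter fun i => dig (p ^ (D + 1)) (y i) = c + p * k).card : ℝ) / (s.card : ℝ)) := by
    intro k
    rw [← Finset.sum_div]
    congr 1
    have h1 := Finset.card_eq_sum_card_fiberwise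
      (s := s.filter fun i => dig (p ^ D) (y i) = k) (t := Finset.range p)
      (f := fun i => dig (p ^ (D + 1)) (y i) % p)
      (fun i _ => by simpa using Nat.mod_lt _ hp0)
    rw [h1]
    push_cast
    refine Finset.sum_congr rfl fun c hc => ?_
    congr 1
    congr 1
    ext i
    simp only [Finset.mem_filter]
    have hd : dig (p ^ (D + 1)) (y i) / p = dig (p ^ D) (y i) := by
      rw [pow_succ]
      exact dig_mul_div (p ^ D) p hp0 (y i)
    have hc' := Finset.mem_range.1 hc
    constructor
    · rintro ⟨⟨h2, h3⟩, h4⟩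
      refine ⟨h2, ?_⟩
      have := Nat.mod_add_div (dig (p ^ (D + 1)) (y i)) p
      rw [h4, hd, h3] at this
      exact this.symm
    · rintro ⟨h2, h3⟩
      refine ⟨⟨h2, ?_⟩, ?_⟩
      · rw [← hd, h3, Nat.add_mul_div_left _ _ hp0, Nat.div_eq_of_lt hc', zero_add]
      · rw [h3, Nat.add_mul_mod_self_left, Nat.mod_eq_of_lt hc']
  have h1 : hent s y (p ^ D) ≤ ∑ k ∈ Finset.range (p ^ D), ∑ c ∈ Finset.range p,
      Real.negMulLog
        (((s.filter fun i => dig (p ^ (D + 1)) (y i) = c + p * k).card : ℝ) / (s.card : ℝ)) := by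
    refine Finset.sum_le_sum fun k _ => ?_
    rw [hcell k]
    exact light1_subs _ _ fun c _ => by positivity
  refine h1.trans (le_of_eq ?_)
  rw [hent, pow_succ]
  exact light1_reindex p (p ^ D) (fun x => Real.negMulLog
    (((s.filter fun i => dig (p ^ D * p) (y i) = x).card : ℝ) / (s.card : ℝ)))

/-- Refining the partition increases the entropy: the frequency of the cell `k` of level `D` is the
sum of the frequencies of the cells `k p + c`, `c < p`, of level `D + 1`, and
`negMulLog (∑ a_c) ≤ ∑ negMulLog (a_c)` for `a_c ≥ 0`. -/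
theorem hent_mono {p : ℕ} (hp : 2 ≤ p) {ι : Type*} (s : Finset ι) (y : ι → UnitAddCircle)
    {D D' : ℕ} (hD : D ≤ D') : hent s y (p ^ D) ≤ hent s y (p ^ D') := by
  induction D', hD using Nat.le_induction with
  | base => exact le_rfl
  | succ n _ ih => exact ih.trans (light1_step hp s y n)

/-- Telescoping: `∑_{D₀ ≤ D < D₀ + R} (h(D + W) - h(D))`
`= ∑_{w < W} h(D₀ + R + w) - ∑_{w < W} h(D₀ + w) ≥ W h(D₀ + R) - W (D₀ + W) log p`
(induction on `W` or on `R`). -/
theorem sum_increments {p : ℕ} (hp : 2 ≤ p) {ι : Type*} {s : Finset ι} (hs : s.Nonempty)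
    (y : ι → UnitAddCircle) (W D₀ R : ℕ) :
    W * hent s y (p ^ (D₀ + R)) - W * ((D₀ + W) * Real.log p) ≤
      ∑ i ∈ Finset.range R, (hent s y (p ^ (D₀ + i + W)) - hent s y (p ^ (D₀ + i))) := by
  have hp0 : 0 < p := by omega
  have hlog : 0 ≤ Real.log p := Real.log_natCast_nonneg p
  have key : ∀ g : ℕ → ℝ, ∑ i ∈ Finset.range R, (g (i + W) - g i) =
      ∑ w ∈ Finset.range W, (g (R + w) - g w) := by
    intro g
    rw [Finset.sum_sub_distrib, Finset.sum_sub_distrib]
    have h1 := Finset.sum_range_add g R W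
    have h2 := Finset.sum_range_add g W R
    rw [add_comm W R] at h2
    have h3 : ∑ i ∈ Finset.range R, g (i + W) = ∑ i ∈ Finset.range R, g (W + i) :=
      Finset.sum_congr rfl fun i _ => by rw [add_comm]
    rw [h3]
    linarith
  have h1 := key fun i => hent s y (p ^ (D₀ + i))
  have h2 : ∑ i ∈ Finset.range R, (hent s y (p ^ (D₀ + i + W)) - hent s y (p ^ (D₀ + i))) =
      ∑ w ∈ Finset.range W, (hent s y (p ^ (D₀ + (R + w))) - hent s y (p ^ (D₀ + w))) := by
    rw [← h1]
    refine Finset.sum_congr rfl fun i _ => by rw [add_assoc]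
  rw [h2]
  have h3 : ∑ w ∈ Finset.range W, (hent s y (p ^ (D₀ + R)) - (D₀ + W) * Real.log p) ≤
      ∑ w ∈ Finset.range W, (hent s y (p ^ (D₀ + (R + w))) - hent s y (p ^ (D₀ + w))) := by
    refine Finset.sum_le_sum fun w hw => ?_
    have h4 : hent s y (p ^ (D₀ + R)) ≤ hent s y (p ^ (D₀ + (R + w))) :=
      hent_mono hp s y (by omega)
    have h5 : hent s y (p ^ (D₀ + w)) ≤ Real.log ((p ^ (D₀ + w) : ℕ) : ℝ) :=
      hent_le hs y (by positivity)
    rw [Nat.cast_pow, Real.log_pow] at h5
    have h6 : ((D₀ + w : ℕ) : ℝ) ≤ D₀ + W := by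
      have := Finset.mem_range.1 hw
      push_cast
      have : (w : ℝ) ≤ W := by exact_mod_cast this.le
      linarith
    have h7 := mul_le_mul_of_nonneg_right h6 hlog
    linarith
  refine le_trans (le_of_eq ?_) h3
  rw [Finset.sum_const, Finset.card_range, nsmul_eq_mul]
  ring

end Pool.Agent.H.MP_96e181_an.Win
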