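import Mathlib
import Pool.Agent.H.MP_96e181_an.win.Defs

set_option autoImplicit false

/-! Light cells -/

namespace Pool.Agent.H.MP_96e181_an.Win

open MeasureTheory Filter Topology
open Pool.Agent.H.MP_96e181_an (dig rep dig_lt dig_mul_div)

/-- The entropy as an average over the points. -/
theorem light2_hent {ι : Type*} {s : Finset ι} (y : ι → UnitAddCircle) {M : ℕ} (hM : 0 < M) :
    hent s y M = (∑ i ∈ s, -Real.log (((s.filter fun i' => dig M (y i') = dig M (y i)).card : ℝ) /
      (s.card : ℝ))) / s.card := by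
  rw [hent, ← Finset.sum_fiberwise_of_maps_to (s := s) (t := Finset.range M)
    (g := fun i => dig M (y i)) (fun i _ => Finset.mem_range.2 (dig_lt hM _)), Finset.sum_div]
  refine Finset.sum_congr rfl fun k _ => ?_
  have : ∀ i ∈ s.filter (fun i => dig M (y i) = k),
      -Real.log (((s.filter fun i' => dig M (y i') = dig M (y i)).card : ℝ) / (s.card : ℝ)) =
      -Real.log (((s.filter fun i' => dig M (y i') = k).card : ℝ) / (s.card : ℝ)) := by
    intro i hi
    rw [(Finset.mem_filter.1 hi).2]
  rw [Finset.sum_congr rfl this, Finset.sum_const, nsmul_eq_mul, Real.negMulLog]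
  ring

/-- The sum of the ratios of the masses of the parents and of the cells. -/
theorem light2_ratio {p : ℕ} (hp : 2 ≤ p) {ι : Type*} (s : Finset ι)
    (y : ι → UnitAddCircle) (D W : ℕ) :
    ∑ i ∈ s, ((s.filter fun i' => dig (p ^ D) (y i') = dig (p ^ D) (y i)).card : ℝ) /
      ((s.filter fun i' => dig (p ^ (D + W)) (y i') = dig (p ^ (D + W)) (y i)).card : ℝ) ≤
      s.card * (p : ℝ) ^ W := by
  have hpW : 0 < p ^ W := by positivity
  have hpDW : 0 < p ^ (D + W) := by positivity
  have hdiv : ∀ x : UnitAddCircle, dig (p ^ (D + W)) x / p ^ W = dig (p ^ D) x := by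
    intro x
    rw [pow_add]
    exact dig_mul_div _ _ hpW x
  rw [← Finset.sum_fiberwise_of_maps_to (s := s) (t := Finset.range (p ^ (D + W)))
    (g := fun i => dig (p ^ (D + W)) (y i)) (fun i _ => Finset.mem_range.2 (dig_lt hpDW _))]
  have h1 : ∀ m ∈ Finset.range (p ^ (D + W)),
      ∑ i ∈ s.filter (fun i => dig (p ^ (D + W)) (y i) = m),
        ((s.filter fun i' => dig (p ^ D) (y i') = dig (p ^ D) (y i)).card : ℝ) /
        ((s.filter fun i' => dig (p ^ (D + W)) (y i') = dig (p ^ (D + W)) (y i)).card : ℝ) ≤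
      ((s.filter fun i' => dig (p ^ D) (y i') = m / p ^ W).card : ℝ) := by
    intro m _
    have : ∀ i ∈ s.filter (fun i => dig (p ^ (D + W)) (y i) = m),
        ((s.filter fun i' => dig (p ^ D) (y i') = dig (p ^ D) (y i)).card : ℝ) /
        ((s.filter fun i' => dig (p ^ (D + W)) (y i') = dig (p ^ (D + W)) (y i)).card : ℝ) =
        ((s.filter fun i' => dig (p ^ D) (y i') = m / p ^ W).card : ℝ) /
        ((s.filter fun i' => dig (p ^ (D + W)) (y i') = m).card : ℝ) := by
      intro i hi
      have h := (Finset.mem_filter.1 hi).2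
      rw [← hdiv (y i), h]
    rw [Finset.sum_congr rfl this, Finset.sum_const, nsmul_eq_mul]
    rcases Nat.eq_zero_or_pos ((s.filter fun i' => dig (p ^ (D + W)) (y i') = m).card) with h0 | h0
    · rw [h0]
      simp
    · have h0' : ((s.filter fun i' => dig (p ^ (D + W)) (y i') = m).card : ℝ) ≠ 0 := by
        exact_mod_cast h0.ne'
      rw [mul_div_cancel₀ _ h0']
  refine (Finset.sum_le_sum h1).trans ?_
  have h2 : ∀ m ∈ Finset.range (p ^ (D + W)),
      ((s.filter fun i' => dig (p ^ D) (y i') = m / p ^ W).card : ℝ) =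
      ∑ i ∈ s, if dig (p ^ D) (y i) = m / p ^ W then (1 : ℝ) else 0 := by
    intro m _
    rw [Finset.card_filter]
    push_cast
    rfl
  rw [Finset.sum_congr rfl h2, Finset.sum_comm, ← nsmul_eq_mul]
  refine Finset.sum_le_card_nsmul _ _ _ fun i _ => ?_
  rw [← Finset.sum_filter, Finset.sum_const, nsmul_eq_mul, mul_one]
  have h3 : (Finset.range (p ^ (D + W))).filter (fun m => dig (p ^ D) (y i) = m / p ^ W) ⊆
      Finset.Ico (dig (p ^ D) (y i) * p ^ W) (dig (p ^ D) (y i) * p ^ W + p ^ W) := by
    intro m hm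
    have h := (Finset.mem_filter.1 hm).2
    rw [Finset.mem_Ico, h]
    constructor
    · exact Nat.div_mul_le_self _ _
    · exact Nat.lt_div_mul_add hpW
  have h4 := Finset.card_le_card h3
  rw [Nat.card_Ico, Nat.add_sub_cancel_left] at h4
  exact_mod_cast h4

/-- The increment of the entropy is bounded by the mass of the light cells.

Proof: for `k < p ^ D`, `c < p ^ W` let `P(k,c)` be the frequency of `dig (p ^ (D + W)) = k p^W + c`
and `P(k) = ∑_c P(k,c)` the frequency of `dig (p ^ D) = k` (`dig_mul_div`). The increment is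
`∑ -P(k,c) log (P(k,c) / P(k))`. A pair `(k,c)` that is not light contributes at most
`P(k,c) log (1/δ)`. For a light pair put `u = P(k,c) / P(k)`:
`-u log u ≤ u W log p + p^(-W)` (from `log t ≤ t` with `t = p^(-W) / u`), multiply by `P(k)` and sum
over at most `p ^ W` values of `c`. -/
theorem light_mass {p : ℕ} (hp : 2 ≤ p) {ι : Type*} {s : Finset ι} (hs : s.Nonempty)
    (y : ι → UnitAddCircle) (D W : ℕ) {δ : ℝ} (hδ : 0 < δ) (hδ1 : δ ≤ 1) :
    hent s y (p ^ (D + W)) - hent s y (p ^ D) ≤
      Real.log (1 / δ) + ((light p s y D W δ).card : ℝ) / s.card * (W * Real.log p) + 1 := by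
  classical
  have hN : (0 : ℝ) < s.card := by exact_mod_cast hs.card_pos
  have hp0 : (0 : ℝ) < p := by exact_mod_cast (by omega : 0 < p)
  have hpD : 0 < p ^ D := by positivity
  have hpDW : 0 < p ^ (D + W) := by positivity
  have hlogp : 0 ≤ Real.log p := Real.log_natCast_nonneg p
  have hlogδ : 0 ≤ Real.log (1 / δ) := Real.log_nonneg (by rw [le_div_iff₀ hδ]; linarith)
  rw [light2_hent y hpDW, light2_hent y hpD, ← sub_div, ← Finset.sum_sub_distrib,
    div_le_iff₀ hN]
  have hrat := light2_ratio hp s y D W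
  set f : ι → ℝ := fun i => ((s.filter fun i' => dig (p ^ D) (y i') = dig (p ^ D) (y i)).card : ℝ)
    with hf
  set g : ι → ℝ := fun i =>
    ((s.filter fun i' => dig (p ^ (D + W)) (y i') = dig (p ^ (D + W)) (y i)).card : ℝ) with hg
  have hfpos : ∀ i ∈ s, 0 < f i := by
    intro i hi
    have h0 : 0 < (s.filter fun i' => dig (p ^ D) (y i') = dig (p ^ D) (y i)).card :=
      Finset.card_pos.2 ⟨i, Finset.mem_filter.2 ⟨hi, rfl⟩⟩
    exact Nat.cast_pos.2 h0
  have hgpos : ∀ i ∈ s, 0 < g i := by
    intro i hi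
    have h0 : 0 < (s.filter fun i' =>
        dig (p ^ (D + W)) (y i') = dig (p ^ (D + W)) (y i)).card :=
      Finset.card_pos.2 ⟨i, Finset.mem_filter.2 ⟨hi, rfl⟩⟩
    exact Nat.cast_pos.2 h0
  have hpt : ∀ i ∈ s, -Real.log (g i / s.card) - -Real.log (f i / s.card) ≤
      Real.log (1 / δ) + (if i ∈ light p s y D W δ then (W * Real.log p) else 0) +
      (f i / g i) / (p : ℝ) ^ W := by
    intro i hi
    have hfi := hfpos i hi
    have hgi := hgpos i hi
    have hrw : -Real.log (g i / s.card) - -Real.log (f i / s.card) = Real.log (f i / g i) := by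
      rw [Real.log_div hgi.ne' hN.ne', Real.log_div hfi.ne' hN.ne', Real.log_div hfi.ne' hgi.ne']
      ring
    rw [hrw]
    have hq : 0 ≤ (f i / g i) / (p : ℝ) ^ W := by positivity
    by_cases hl : i ∈ light p s y D W δ
    · rw [if_pos hl]
      have ht : Real.log ((f i / g i) / (p : ℝ) ^ W) ≤ (f i / g i) / (p : ℝ) ^ W := by
        have := Real.log_le_sub_one_of_pos (x := (f i / g i) / (p : ℝ) ^ W) (by positivity)
        linarith
      rw [Real.log_div (by positivity) (by positivity), Real.log_pow] at ht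
      linarith
    · rw [if_neg hl]
      have hlt : δ * f i < g i := by
        by_contra hcon
        exact hl (by
          rw [light]
          exact Finset.mem_filter.2 ⟨hi, not_lt.1 hcon⟩)
      have : f i / g i ≤ 1 / δ := by
        rw [div_le_div_iff₀ hgi hδ]
        nlinarith
      have := Real.log_le_log (by positivity) this
      linarith
  refine (Finset.sum_le_sum hpt).trans ?_
  rw [Finset.sum_add_distrib, Finset.sum_add_distrib, Finset.sum_const, nsmul_eq_mul,
    ← Finset.sum_filter, Finset.sum_const, nsmul_eq_mul, ← Finset.sum_div]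
  have hfil : s.filter (fun i => i ∈ light p s y D W δ) = light p s y D W δ := by
    ext i
    rw [Finset.mem_filter]
    constructor
    · exact fun h => h.2
    · intro h
      refine ⟨?_, h⟩
      rw [light] at h
      exact (Finset.mem_filter.1 h).1
  rw [hfil]
  have h5 : (∑ i ∈ s, f i / g i) / (p : ℝ) ^ W ≤ s.card := by
    rw [div_le_iff₀ (by positivity)]
    exact hrat
  have h6 : ((light p s y D W δ).card : ℝ) / s.card * (W * Real.log p) * s.card =
      ((light p s y D W δ).card : ℝ) * (W * Real.log p) := by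
    field_simp
  rw [add_mul, add_mul, h6, one_mul]
  linarith

end Pool.Agent.H.MP_96e181_an.Win
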