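import Mathlib
import Pool.Agent.H.MP_96e181_an.win.Light1
import Pool.Agent.H.MP_96e181_an.win.Light2

set_option autoImplicit false

/-! The average light mass -/

namespace Pool.Agent.H.MP_96e181_an.Win

open MeasureTheory Filter Topology
open Pool.Agent.H.MP_96e181_an (dig rep dig_lt dig_mul_div)

/-- The average of the light masses over the levels `D₀ ≤ D < D₀ + R` is at least the normalised
entropy at level `l = D₀ + R`, up to `(D₀ + W) / R + η`.

Proof: sum `light_mass` over the levels and use `sum_increments`: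
`W H(l) - W (D₀ + W) log p ≤ R (log (1/δ) + 1) + W log p ∑ λ_D`; divide by `R W log p` and use
`log (1/δ) + 1 ≤ η W log p` and `H(l) / (R log p) ≥ H(l) / (l log p)`. -/
theorem sum_light {p : ℕ} (hp : 2 ≤ p) {η δ : ℝ} (hδ : 0 < δ) (hδ1 : δ ≤ 1) {W : ℕ}
    (hW : Real.log (1 / δ) + 1 ≤ η * (W * Real.log p)) {ι : Type*} {s : Finset ι}
    (hs : s.Nonempty) (y : ι → UnitAddCircle) (D₀ : ℕ) {R : ℕ} (hR : 0 < R) :
    hent s y (p ^ (D₀ + R)) / ((D₀ + R : ℕ) * Real.log p) - (D₀ + W : ℕ) / (R : ℝ) - η ≤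
      (∑ i ∈ Finset.range R, ((light p s y (D₀ + i) W δ).card : ℝ) / s.card) / R := by
  have hp1 : (1 : ℝ) < p := by exact_mod_cast (by omega : 1 < p)
  have hlogp : 0 < Real.log p := Real.log_pos hp1
  have hR' : (0 : ℝ) < R := by exact_mod_cast hR
  have hlogδ : 0 ≤ Real.log (1 / δ) := Real.log_nonneg (by rw [le_div_iff₀ hδ]; linarith)
  have hW0 : 0 < W := by
    rcases Nat.eq_zero_or_pos W with h | h
    · subst h
      simp only [Nat.cast_zero, zero_mul, mul_zero] at hW
      linarith
    · exact h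
  have hW' : (0 : ℝ) < W := by exact_mod_cast hW0
  have h1 := sum_increments hp hs y W D₀ R
  have h2 : ∑ i ∈ Finset.range R, (hent s y (p ^ (D₀ + i + W)) - hent s y (p ^ (D₀ + i))) ≤
      ∑ i ∈ Finset.range R, (Real.log (1 / δ) +
        ((light p s y (D₀ + i) W δ).card : ℝ) / s.card * (W * Real.log p) + 1) :=
    Finset.sum_le_sum fun i _ => light_mass hp hs y (D₀ + i) W hδ hδ1
  have h3 : ∑ i ∈ Finset.range R, (Real.log (1 / δ) +
        ((light p s y (D₀ + i) W δ).card : ℝ) / s.card * (W * Real.log p) + 1) =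
      R * (Real.log (1 / δ) + 1) + (∑ i ∈ Finset.range R,
        ((light p s y (D₀ + i) W δ).card : ℝ) / s.card) * (W * Real.log p) := by
    rw [Finset.sum_mul, Finset.sum_add_distrib, Finset.sum_add_distrib, Finset.sum_const,
      Finset.sum_const, Finset.card_range, nsmul_eq_mul, nsmul_eq_mul]
    ring
  set Λ : ℝ := ∑ i ∈ Finset.range R, ((light p s y (D₀ + i) W δ).card : ℝ) / s.card with hΛ
  set H : ℝ := hent s y (p ^ (D₀ + R)) with hH
  have hH0 : 0 ≤ H := by
    rw [hH, hent]
    refine Finset.sum_nonneg fun k _ => Real.negMulLog_nonneg (by positivity) ?_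
    refine div_le_one_of_le₀ ?_ (by positivity)
    exact_mod_cast Finset.card_filter_le _ _
  have h4 : W * H - W * ((D₀ + W) * Real.log p) ≤
      R * (η * (W * Real.log p)) + Λ * (W * Real.log p) := by
    have := mul_le_mul_of_nonneg_left hW hR'.le
    linarith
  have h5 : H - (D₀ + W) * Real.log p ≤ R * (η * Real.log p) + Λ * Real.log p := by
    have : W * (H - (D₀ + W) * Real.log p) ≤ W * (R * (η * Real.log p) + Λ * Real.log p) := by
      linarith
    exact le_of_mul_le_mul_left this hW'
  have h6 : H / ((D₀ + R : ℕ) * Real.log p) ≤ H / (R * Real.log p) := by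
    refine div_le_div_of_nonneg_left hH0 (by positivity) ?_
    refine mul_le_mul_of_nonneg_right ?_ hlogp.le
    push_cast
    linarith [(Nat.cast_nonneg D₀ : (0 : ℝ) ≤ D₀)]
  have h7 : H / (R * Real.log p) - (D₀ + W : ℕ) / (R : ℝ) - η ≤ Λ / R := by
    have h8 : H / (R * Real.log p) - (D₀ + W : ℕ) / (R : ℝ) - η =
        (H - (D₀ + W) * Real.log p - R * (η * Real.log p)) / (R * Real.log p) := by
      push_cast
      field_simp
    rw [h8, div_le_div_iff₀ (by positivity) hR']
    have := mul_le_mul_of_nonneg_left h5 hR'.le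
    nlinarith
  linarith

end Pool.Agent.H.MP_96e181_an.Win
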