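import Mathlib
import Pool.Agent.H.MP_96e181_an.win.Second1
import Pool.Agent.H.MP_96e181_an.win.Key

set_option autoImplicit false

/-! Second moments II -/

namespace Pool.Agent.H.MP_96e181_an.Win

open MeasureTheory Filter Topology
open Pool.Agent.H.MP_96e181_an (dig rep coe_rep dig_spec dig_lt)

variable {p q : ℕ}

/-- membership in the light part -/
theorem second2_mem_light {ι : Type} {s : Finset ι} {y : ι → UnitAddCircle} {D W : ℕ} {δ : ℝ}
    {i : ι} : i ∈ light p s y D W δ ↔ i ∈ s ∧
    ((s.filter fun i' => dig (p ^ (D + W)) (y i') = dig (p ^ (D + W)) (y i)).card : ℝ) ≤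
      δ * ((s.filter fun i' => dig (p ^ D) (y i') = dig (p ^ D) (y i)).card : ℝ) := by
  classical
  unfold light
  rw [Finset.mem_filter]

/-- A cell of level `D + W` has at most `δ c_k` light points of the cell `k` of level `D`. -/
theorem second2_cell {ι : Type} (s : Finset ι) (y : ι → UnitAddCircle) {D W : ℕ} {δ : ℝ}
    (hδ : 0 < δ) (k c : ℕ) :
    ((((light p s y D W δ).filter fun i => dig (p ^ D) (y i) = k).filter
        fun i => dig (p ^ (D + W)) (y i) = c).card : ℝ) ≤
      δ * ((s.filter fun i => dig (p ^ D) (y i) = k).card : ℝ) := by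
  classical
  rcases Finset.eq_empty_or_nonempty (((light p s y D W δ).filter
    fun i => dig (p ^ D) (y i) = k).filter fun i => dig (p ^ (D + W)) (y i) = c) with h | ⟨i, hi⟩
  · rw [h, Finset.card_empty, Nat.cast_zero]
    positivity
  · rw [Finset.mem_filter, Finset.mem_filter, second2_mem_light] at hi
    obtain ⟨⟨⟨_, hl⟩, hk⟩, hc⟩ := hi
    rw [hk, hc] at hl
    refine le_trans ?_ hl
    exact_mod_cast Finset.card_le_card (fun j hj => by
      rw [Finset.mem_filter, Finset.mem_filter, second2_mem_light] at hj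
      rw [Finset.mem_filter]
      exact ⟨hj.1.1.1, hj.2⟩)

/-- **The characters of the light part.**

Proof: take `C` from `key_fin` for `δ`, and `K₀` for `W, H`. Let `K ≥ K₀`, `K ≤ J (D + W + C)`.
Split `light p s y D W δ` into its parts `L_k` over the cells `k` of level `D`; let `c_k` be the
number of `i ∈ s` in the cell `k`. By `cs` (with `w = 1`) `|∑_{i ∈ L_k} cm (y i)|²` is at most the
sum over `i, i' ∈ L_k` of `|cm (y i - y i')|`. For given `i` the number of `i' ∈ L_k` whose cell
of level `D + W` is equal or adjacent to that of `i` is at most `3 δ c_k` (each such cell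
containing a light index has at most `δ c_k` indices); all other `i'` contribute at most `δ` each by
`dist_of_dig` and `key_fin`. Hence `|∑_{i ∈ L_k} cm|² ≤ 4 δ c_k²`, `|∑_{i ∈ L_k} cm| ≤ 2 √δ c_k`,
and `∑_k c_k = #s`. -/
theorem second (hp : 2 ≤ p) (hq : 2 ≤ q) (h : Irrational (Real.log (p : ℝ) / Real.log (q : ℝ)))
    {δ : ℝ} (hδ : 0 < δ) :
    ∃ C : ℕ, ∀ W H : ℕ, ∃ K₀ : ℕ, ∀ D K : ℕ, K₀ ≤ K → K ≤ J p q (D + W + C) →
      ∀ {ι : Type} (s : Finset ι) (y : ι → UnitAddCircle),
      ∀ m : ℤ, m ≠ 0 → m.natAbs ≤ H →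
        ‖∑ i ∈ light p s y D W δ, cmJ p q (D + W + C) K m (y i)‖ ≤
          2 * Real.sqrt δ * s.card := by
  classical
  obtain ⟨C, hC⟩ := key_fin hp hq h hδ
  refine ⟨C, fun W H => ?_⟩
  obtain ⟨K₀, hK₀⟩ := hC W H
  refine ⟨K₀, fun D K hK hKJ ι s y m hm hmH => ?_⟩
  set L := light p s y D W δ with hL
  set g : UnitAddCircle → ℂ := cmJ p q (D + W + C) K m with hg
  -- the number of points of a cell
  set c : ℕ → ℝ := fun k => ((s.filter fun i => dig (p ^ D) (y i) = k).card : ℝ) with hc
  have hc0 : ∀ k, 0 ≤ c k := fun k => Nat.cast_nonneg _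
  have hLk : ∀ k, (((L.filter fun i => dig (p ^ D) (y i) = k).card : ℝ)) ≤ c k := by
    intro k
    simp only [hc]
    exact_mod_cast Finset.card_le_card (fun j hj => by
      rw [Finset.mem_filter, hL, second2_mem_light] at hj
      rw [Finset.mem_filter]
      exact ⟨hj.1.1, hj.2⟩)
  have hp0 : 0 < p := by omega
  -- one row
  have hrow : ∀ k, ∀ i ∈ L.filter (fun i => dig (p ^ D) (y i) = k),
      ∑ i' ∈ L.filter (fun i => dig (p ^ D) (y i) = k), ‖g (y i - y i')‖ ≤ 4 * δ * c k := by
    intro k i hi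
    set Lk := L.filter (fun i => dig (p ^ D) (y i) = k) with hLkdef
    set d := dig (p ^ (D + W)) (y i) with hd
    have hterm : ∀ i' ∈ Lk, ‖g (y i - y i')‖ ≤ δ +
        ((if dig (p ^ (D + W)) (y i') = d then 1 else 0) +
          (if dig (p ^ (D + W)) (y i') = d + 1 then 1 else 0) +
          (if dig (p ^ (D + W)) (y i') = d - 1 then 1 else 0)) := by
      intro i' hi'
      have hi1 : dig (p ^ D) (y i) = k := by
        rw [hLkdef, Finset.mem_filter] at hi; exact hi.2
      have hi2 : dig (p ^ D) (y i') = k := by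
        rw [hLkdef, Finset.mem_filter] at hi'; exact hi'.2
      by_cases hfar : dig (p ^ (D + W)) (y i) + 1 < dig (p ^ (D + W)) (y i') ∨
          dig (p ^ (D + W)) (y i') + 1 < dig (p ^ (D + W)) (y i)
      · obtain ⟨z, hz, hz1, hz2⟩ := dist_of_dig hp (hi1.trans hi2.symm) hfar C
        have h1 := hK₀ (D + W + C) K hK hKJ m hm hmH z hz1 hz2
        rw [hz] at h1
        have h2 : (0:ℝ) ≤ ((if dig (p ^ (D + W)) (y i') = d then 1 else 0) +
          (if dig (p ^ (D + W)) (y i') = d + 1 then 1 else 0) +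
          (if dig (p ^ (D + W)) (y i') = d - 1 then 1 else 0)) := by
          split_ifs <;> norm_num
        linarith
      · have h1 : ‖g (y i - y i')‖ ≤ 1 := norm_cmJ_le _ _ _ _
        have h2 : (1:ℝ) ≤ ((if dig (p ^ (D + W)) (y i') = d then 1 else 0) +
          (if dig (p ^ (D + W)) (y i') = d + 1 then 1 else 0) +
          (if dig (p ^ (D + W)) (y i') = d - 1 then 1 else 0)) := by
          have : dig (p ^ (D + W)) (y i') = d ∨ dig (p ^ (D + W)) (y i') = d + 1 ∨
            dig (p ^ (D + W)) (y i') = d - 1 := by omega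
          rcases this with h | h | h <;> rw [h] <;> split_ifs <;> norm_num at *
        linarith
    refine (Finset.sum_le_sum hterm).trans ?_
    rw [Finset.sum_add_distrib, Finset.sum_add_distrib, Finset.sum_add_distrib, Finset.sum_const,
      nsmul_eq_mul, Finset.sum_boole, Finset.sum_boole, Finset.sum_boole]
    have e1 := second2_cell (p := p) s y (D := D) (W := W) hδ k d
    have e2 := second2_cell (p := p) s y (D := D) (W := W) hδ k (d + 1)
    have e3 := second2_cell (p := p) s y (D := D) (W := W) hδ k (d - 1)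
    have e4 := mul_le_mul_of_nonneg_right (hLk k) hδ.le
    simp only [hc] at *
    linarith
  -- one cell
  have hcell : ∀ k, ‖∑ i ∈ L.filter (fun i => dig (p ^ D) (y i) = k), g (y i)‖ ≤
      2 * Real.sqrt δ * c k := by
    intro k
    have h1 := cs (p := p) (q := q) (D + W + C) K m (L.filter (fun i => dig (p ^ D) (y i) = k))
      (fun _ => (1:ℂ)) (fun _ _ => by simp) y
    simp only [one_mul] at h1
    have h2 : ∑ i ∈ L.filter (fun i => dig (p ^ D) (y i) = k),
        ∑ i' ∈ L.filter (fun i => dig (p ^ D) (y i) = k), ‖g (y i - y i')‖ ≤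
        (2 * Real.sqrt δ * c k) ^ 2 := by
      refine (Finset.sum_le_sum (hrow k)).trans ?_
      rw [Finset.sum_const, nsmul_eq_mul, mul_pow, mul_pow, Real.sq_sqrt hδ.le]
      have := mul_le_mul_of_nonneg_right (hLk k) (by have := hc0 k; positivity : 0 ≤ 4 * δ * c k)
      nlinarith
    have h3 := h1.trans h2
    exact (pow_le_pow_iff_left₀ (norm_nonneg _)
      (by have := hc0 k; positivity) two_ne_zero).1 h3
  -- the sum over the cells
  have hmaps : ∀ i ∈ L, dig (p ^ D) (y i) ∈ Finset.range (p ^ D) := fun i _ =>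
    Finset.mem_range.2 (dig_lt (pow_pos hp0 D) (y i))
  have hmaps' : ∀ i ∈ s, dig (p ^ D) (y i) ∈ Finset.range (p ^ D) := fun i _ =>
    Finset.mem_range.2 (dig_lt (pow_pos hp0 D) (y i))
  rw [← Finset.sum_fiberwise_of_maps_to hmaps (fun i => g (y i))]
  refine (norm_sum_le _ _).trans ?_
  refine (Finset.sum_le_sum (fun k _ => hcell k)).trans ?_
  rw [← Finset.mul_sum]
  refine le_of_eq ?_
  congr 1
  simp only [hc]
  rw [Finset.card_eq_sum_card_fiberwise hmaps']
  push_cast
  rfl

end Pool.Agent.H.MP_96e181_an.Win
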