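import Mathlib
import Pool.Agent.H.MP_96e181_an.win.Approx
import Pool.Agent.H.MP_96e181_an.win.Second2

set_option autoImplicit false

/-! One level -/

namespace Pool.Agent.H.MP_96e181_an.Win

open MeasureTheory Filter Topology

variable {p q : ℕ}

/-- **One level.** The mean over the first `K` elements `t` of the thin window of rank `D + W + C` of
the mean of `f (t • y i)`, `i ∈ s`, is at least `(light mass at level D) ∫ f - ε`.

Proof: let `H`, `δ'` be good for all `f ∈ F` in `approx` (with `ε`), `δ ≤ 1` with `2 √δ ≤ δ'`, `C`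
from `second`, and for given `W` take `K₀ ≥ 1` from `second` (for `W, H`). All terms are
nonnegative, so the left side is at least the sum over `i ∈ light` only; `approx` applies to the
points `tau (D + W + C) j • y i`, `j < K`, `i ∈ light`, with weights `1 / (K #s)`: their character
sums are `(1 / #s) ∑_{i ∈ light} cmJ (y i)`, at most `2 √δ`; the total mass is
`#light / #s`. -/
theorem step (hp : 2 ≤ p) (hq : 2 ≤ q) (h : Irrational (Real.log (p : ℝ) / Real.log (q : ℝ)))
    (F : Finset C(UnitAddCircle, ℝ)) (hF : ∀ f ∈ F, ∀ y, 0 ≤ f y) {ε : ℝ} (hε : 0 < ε) :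
    ∃ δ : ℝ, 0 < δ ∧ δ ≤ 1 ∧ ∃ C : ℕ, ∀ W : ℕ, ∃ K₀ : ℕ, 0 < K₀ ∧ ∀ D K : ℕ, K₀ ≤ K →
      K ≤ J p q (D + W + C) →
      ∀ (s : Finset ℕ) (y : ℕ → UnitAddCircle), s.Nonempty → ∀ f ∈ F,
        ((light p s y D W δ).card : ℝ) / s.card * (∫ t, f t) - ε ≤
          (∑ j' ∈ Finset.range K, ∑ i ∈ s, f (tau p q (D + W + C) j' • y i)) /
            ((K : ℝ) * s.card) := by
  classical
  choose Hf df hdf happ using fun f : C(UnitAddCircle, ℝ) => approx f hε
  obtain ⟨δ', hδ'0, hδ'⟩ : ∃ δ' : ℝ, 0 < δ' ∧ ∀ f ∈ F, δ' ≤ df f := by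
    rcases F.eq_empty_or_nonempty with h0 | hne
    · exact ⟨1, one_pos, by simp [h0]⟩
    · exact ⟨F.inf' hne df, (Finset.lt_inf'_iff hne).2 fun f _ => hdf f,
        fun f hf => Finset.inf'_le _ hf⟩
  set H : ℕ := F.sup Hf with hH
  set δ : ℝ := min 1 ((δ' / 2) ^ 2) with hδdef
  have hδ0 : 0 < δ := lt_min one_pos (by positivity)
  have hδs : 2 * Real.sqrt δ ≤ δ' := by
    have h1 : Real.sqrt δ ≤ Real.sqrt ((δ' / 2) ^ 2) := Real.sqrt_le_sqrt (min_le_right _ _)
    rw [Real.sqrt_sq (by positivity)] at h1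
    linarith
  obtain ⟨C, hC⟩ := second hp hq h hδ0
  refine ⟨δ, hδ0, min_le_left _ _, C, fun W => ?_⟩
  obtain ⟨K₀, hK₀⟩ := hC W H
  refine ⟨max K₀ 1, by positivity, fun D K hK hKJ s y hs f hf => ?_⟩
  have hK1 : 1 ≤ K := (le_max_right _ _).trans hK
  have hK2 : K₀ ≤ K := (le_max_left _ _).trans hK
  have hKr : (0 : ℝ) < K := by exact_mod_cast hK1
  have hsr : (0 : ℝ) < s.card := by exact_mod_cast hs.card_pos
  set L : Finset ℕ := light p s y D W δ with hL
  have hLs : L ⊆ s := by
    rw [hL]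
    unfold light
    exact Finset.filter_subset _ _
  set n : ℕ := D + W + C with hn
  have hw : ∑ i ∈ Finset.range K ×ˢ L, (1 / ((K : ℝ) * s.card)) = (L.card : ℝ) / s.card := by
    rw [Finset.sum_const, Finset.card_product, Finset.card_range, nsmul_eq_mul]
    push_cast
    field_simp
  have hLc : (L.card : ℝ) ≤ s.card := by exact_mod_cast Finset.card_le_card hLs
  have key := happ f (Finset.range K ×ˢ L) (fun _ => 1 / ((K : ℝ) * s.card))
    (fun v : ℕ × ℕ => tau p q n v.1 • y v.2) (fun _ _ => by positivity)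
    (by rw [hw, div_le_one hsr]; exact hLc) (by
      intro m hm hmH
      have h1 := hK₀ D K hK2 hKJ s y m hm (hmH.trans (Finset.le_sup (f := Hf) hf))
      rw [← hL, ← hn] at h1
      have h2 : ∑ v ∈ Finset.range K ×ˢ L, ((1 / ((K : ℝ) * s.card) : ℝ) : ℂ) *
          fourier m (tau p q n v.1 • y v.2) =
          (1 / (s.card : ℂ)) * ∑ i ∈ L, cmJ p q n K m (y i) := by
        rw [← Finset.mul_sum, Finset.sum_product_right]
        have h3 : ∀ i ∈ L, cmJ p q n K m (y i) =
            (1 / (K : ℂ)) * ∑ j ∈ Finset.range K, (fourier m (tau p q n j • y i) : ℂ) := by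
          intro i _
          unfold cmJ
          rw [div_eq_inv_mul, one_div]
        rw [Finset.sum_congr rfl h3, ← Finset.mul_sum, ← mul_assoc]
        congr 1
        push_cast
        rw [one_div, one_div, one_div, mul_inv, mul_comm]
      rw [h2, norm_mul]
      have h4 : ‖(1 / (s.card : ℂ))‖ = 1 / s.card := by
        rw [norm_div, norm_one, Complex.norm_natCast]
      rw [h4]
      have h5 : 1 / (s.card : ℝ) * ‖∑ i ∈ L, cmJ p q n K m (y i)‖ ≤
          1 / (s.card : ℝ) * (2 * Real.sqrt δ * s.card) :=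
        mul_le_mul_of_nonneg_left h1 (by positivity)
      have h6 : 1 / (s.card : ℝ) * (2 * Real.sqrt δ * s.card) = 2 * Real.sqrt δ := by
        field_simp
      rw [h6] at h5
      exact h5.trans (hδs.trans (hδ' f hf)))
  rw [hw] at key
  have h1 := (abs_le.1 key).1
  have h2 : ∑ i ∈ Finset.range K ×ˢ L, 1 / ((K : ℝ) * s.card) * f (tau p q n i.1 • y i.2) ≤
      (∑ j' ∈ Finset.range K, ∑ i ∈ s, f (tau p q n j' • y i)) / ((K : ℝ) * s.card) := by
    rw [← Finset.mul_sum, Finset.sum_product, one_div,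
      div_eq_inv_mul (∑ j' ∈ Finset.range K, ∑ i ∈ s, f (tau p q n j' • y i))]
    refine mul_le_mul_of_nonneg_left ?_ (by positivity)
    refine Finset.sum_le_sum fun j _ => ?_
    exact Finset.sum_le_sum_of_subset_of_nonneg hLs fun i _ _ => hF f hf _
  linarith

end Pool.Agent.H.MP_96e181_an.Win
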