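import Mathlib
import Pool.Agent.H.MP_96e181_an.win.Light3
import Pool.Agent.H.MP_96e181_an.win.Step

set_option autoImplicit false

/-! The windows are bounded below by the entropy -/

namespace Pool.Agent.H.MP_96e181_an.Win

open MeasureTheory Filter Topology

variable {p q : ℕ}

/-- The sums over the products are bounded by the sum over the large window. -/
theorem winlower_sums (hp : 2 ≤ p) (hq : 2 ≤ q)
    (h : Irrational (Real.log (p : ℝ) / Real.log (q : ℝ)))
    (f : C(UnitAddCircle, ℝ)) (hf : ∀ y, 0 ≤ f y) (c n r : ℕ) (x : UnitAddCircle) :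
    ∑ i ∈ Finset.range r, ∑ j' ∈ Finset.range (J p q c), ∑ j ∈ Finset.range (J p q n),
        f (tau p q (c + i) j' • (tau p q n j • x)) ≤
      (J p q c : ℝ) * ∑ t ∈ window p q (n + c) (r + 1), f (t • x) := by
  rw [Finset.sum_comm]
  have h1 : ∀ j' ∈ Finset.range (J p q c), ∑ i ∈ Finset.range r, ∑ j ∈ Finset.range (J p q n),
        f (tau p q (c + i) j' • (tau p q n j • x)) ≤
      ∑ t ∈ window p q (n + c) (r + 1), f (t • x) := by
    intro j' hj'
    rw [Finset.mem_range] at hj'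
    have h2 := sum_sub_window hp hq h hj' n r (fun t => f (t • x)) (fun t => hf _)
    refine le_trans (le_of_eq ?_) h2
    refine Finset.sum_congr rfl (fun i _ => Finset.sum_congr rfl (fun j _ => ?_))
    rw [← pow_mul_tau hp hq h hj' i, smul_smul]
    congr 2
    ring
  refine (Finset.sum_le_sum h1).trans ?_
  rw [Finset.sum_const, Finset.card_range, nsmul_eq_mul]

/-- The cardinality of the large window. -/
theorem winlower_card (hp : 2 ≤ p) (hq : 2 ≤ q)
    (h : Irrational (Real.log (p : ℝ) / Real.log (q : ℝ))) (c r : ℕ) (hr : 0 < r) :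
    ∃ N : ℕ, ∀ n ≥ N, ((window p q (n + c) (r + 1)).card : ℝ) ≤
      ((r : ℝ) + 1) * ((1 + 1 / (r : ℝ)) * J p q n) := by
  have hb := beta_pos hp hq
  have ht : Tendsto (fun n => (J p q n : ℝ)) atTop atTop :=
    tendsto_natCast_atTop_atTop.comp (J_tendsto hp hq h)
  obtain ⟨N, hN⟩ := (eventually_atTop.1
    (ht.eventually_ge_atTop ((r : ℝ) * (((c : ℝ) + r) / beta p q + 1))))
  refine ⟨N, fun n hn => ?_⟩
  have h1 := hN n hn
  have hr' : (0:ℝ) < r := by exact_mod_cast hr
  have h2 : (J p q (n + c + r) : ℝ) ≤ (1 + 1 / (r : ℝ)) * J p q n := by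
    have h3 := J_upper (p := p) (q := q) hp hq (n + c + r)
    have h4 := J_lower hp hq h n
    have h5 : ((c : ℝ) + r) / beta p q + 1 ≤ 1 / (r : ℝ) * J p q n := by
      rw [one_div, inv_mul_eq_div, le_div_iff₀ hr']
      linarith
    have h6 : (((n + c + r : ℕ) : ℝ) + 1) / beta p q + 1 =
        ((n : ℝ) + 1) / beta p q + (((c : ℝ) + r) / beta p q + 1) := by
      push_cast
      ring
    rw [h6] at h3
    linarith
  rw [card_window hp hq h]
  push_cast
  calc ∑ i ∈ Finset.range (r + 1), (J p q (n + c + i) : ℝ)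
      ≤ ∑ i ∈ Finset.range (r + 1), (J p q (n + c + r) : ℝ) := by
        refine Finset.sum_le_sum (fun i hi => ?_)
        rw [Finset.mem_range] at hi
        exact_mod_cast J_mono hp (by omega)
    _ = ((r : ℝ) + 1) * J p q (n + c + r) := by
        rw [Finset.sum_const, Finset.card_range, nsmul_eq_mul]
        push_cast
        ring
    _ ≤ _ := by gcongr

/-- **Main inequality.** For all `x` and all large `n`: the mean of `f ≥ 0` over the window
`(n + c, r + 1)` is at least (normalised entropy of the thin window `n` at level `l = D₀ + r`) times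
`∫ f`, up to `ε`.

Proof: let `B₀ ≥ 1` bound the integrals of `f ∈ F`. Take `δ, C` from `step` for `ε / 4`, `η > 0` with
`η B₀ ≤ ε / 4`, `W` with `log (1/δ) + 1 ≤ η W log p`, `K₀` from `step`, `D₀` with
`K₀ ≤ J (D₀ + W + C) =: K` (`J_tendsto`), `c = D₀ + W + C`, `R₀ ≥ 1` with
`(D₀ + W + 4) B₀ / R₀ ≤ ε / 4`. Let `r ≥ R₀`, `l = D₀ + r`. For `n` and `x` apply `step` to
`s = range (J p q n)`, `y j = tau p q n j • x` and the levels `D₀ + i`, `i < r`
(`K ≤ J (D₀ + i + W + C)` by `J_mono`), and average over `i`; by `sum_light` (with `R = r`) the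
average `A` of the right sides is at least
`a = (went / (l log p) - (D₀ + W) / r - η) ∫ f - ε / 4`.
By `pow_mul_tau`, `tau (c + i) j' = p ^ i * tau c j'` for `j' < K`, so the sum over `i < r` of the
double sums is, for each `j' < K`, `∑_{i<r} ∑_{j<J n} f ((tau c j' * (p ^ i * tau n j)) • x)`, at
most the sum of `f (t • x)` over `window (n + c) (r + 1)` (`sum_sub_window`). So
`A ≤ card (window (n + c) (r + 1)) / (r J n) * mean f (n + c) (r + 1) x`, and
`card (window (n + c) (r + 1)) ≤ (r + 1) J (n + c + r) ≤ (r + 1) (1 + 1 / r) J n` for `n` large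
(`card_window`, `J_mono`, `J_lower`, `J_upper`), and `(r + 1) (1 + 1/r) / r ≤ 1 + 4 / r`.
If `a < 0` there is nothing to prove (`mean ≥ 0`); otherwise `a ≤ B₀` (`went ≤ l log p` by
`hent_le`) and `mean ≥ a / (1 + 4/r) ≥ a - 4 B₀ / r`. -/
theorem win_lower (hp : 2 ≤ p) (hq : 2 ≤ q)
    (h : Irrational (Real.log (p : ℝ) / Real.log (q : ℝ)))
    (F : Finset C(UnitAddCircle, ℝ)) (hF : ∀ f ∈ F, ∀ y, 0 ≤ f y) {ε : ℝ} (hε : 0 < ε) :
    ∃ c D₀ R₀ : ℕ, ∀ r ≥ R₀, ∃ N : ℕ, ∀ n ≥ N, ∀ x : UnitAddCircle, ∀ f ∈ F,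
      went p q n (p ^ (D₀ + r)) x / ((D₀ + r : ℕ) * Real.log p) * (∫ t, f t) - ε ≤
        mean p q f (n + c) (r + 1) x := by
  have hp1 : (1:ℝ) < p := by exact_mod_cast (by omega : 1 < p)
  have hlogp : 0 < Real.log p := Real.log_pos hp1
  obtain ⟨B₀, hB1, hB⟩ : ∃ B₀ : ℝ, 1 ≤ B₀ ∧ ∀ f ∈ F, (∫ t, f t) ≤ B₀ := by
    refine ⟨1 + ∑ f ∈ F, |∫ t, f t|, ?_, fun f hf => ?_⟩
    · have := Finset.sum_nonneg (fun f (_ : f ∈ F) => abs_nonneg (∫ t, f t))
      linarith
    · have h1 := Finset.single_le_sum (fun f (_ : f ∈ F) => abs_nonneg (∫ t, f t)) hf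
      have h2 := le_abs_self (∫ t, f t)
      linarith
  have hB0 : 0 < B₀ := by linarith
  obtain ⟨δ, hδ, hδ1, C, hC⟩ := step hp hq h F hF (show 0 < ε / 4 by positivity)
  set η : ℝ := ε / (4 * B₀) with hη
  have hη0 : 0 < η := by positivity
  have hηB : η * B₀ = ε / 4 := by rw [hη]; field_simp
  obtain ⟨W, hW⟩ := exists_nat_ge ((Real.log (1 / δ) + 1) / (η * Real.log p))
  have hW' : Real.log (1 / δ) + 1 ≤ η * (W * Real.log p) := by
    rw [div_le_iff₀ (by positivity)] at hW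
    calc _ ≤ _ := hW
      _ = _ := by ring
  obtain ⟨K₀, hK₀, hstep⟩ := hC W
  have hJt : Tendsto (fun D => J p q (D + W + C)) atTop atTop := by
    have := (J_tendsto hp hq h).comp
      ((tendsto_add_atTop_nat (W + C)))
    refine this.congr (fun D => ?_)
    simp only [Function.comp]
    rw [add_assoc]
  obtain ⟨D₀, hD₀⟩ := (hJt.eventually_ge_atTop K₀).exists
  set c := D₀ + W + C with hc
  set K := J p q c with hK
  obtain ⟨R₁, hR₁⟩ := exists_nat_ge (((D₀ : ℝ) + W + 4) * B₀ / (ε / 4))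
  refine ⟨c, D₀, R₁ + 1, fun r hr => ?_⟩
  have hr0 : 0 < r := by omega
  have hr' : (0:ℝ) < r := by exact_mod_cast hr0
  have hr1 : (1:ℝ) ≤ r := by exact_mod_cast hr0
  have hRr : ((D₀ : ℝ) + W + 4) * B₀ / r ≤ ε / 4 := by
    rw [div_le_iff₀ hr']
    rw [div_le_iff₀ (by positivity)] at hR₁
    have : (R₁ : ℝ) ≤ r := by exact_mod_cast (by omega : R₁ ≤ r)
    nlinarith
  obtain ⟨N, hN⟩ := winlower_card hp hq h c r hr0
  refine ⟨N, fun n hn x f hf => ?_⟩
  have hcard := hN n hn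
  have hJn : 0 < J p q n := J_pos n
  have hJn' : (0:ℝ) < J p q n := by exact_mod_cast hJn
  have hKpos : 0 < K := J_pos c
  have hK' : (0:ℝ) < K := by exact_mod_cast hKpos
  set s := Finset.range (J p q n) with hs
  have hsne : s.Nonempty := Finset.nonempty_range_iff.2 hJn.ne'
  have hscard : (s.card : ℝ) = J p q n := by rw [hs, Finset.card_range]
  set y : ℕ → UnitAddCircle := fun j => tau p q n j • x with hy
  have hI0 : 0 ≤ ∫ t, f t := integral_nonneg (hF f hf)
  set I := ∫ t, f t with hI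
  have hIB : I ≤ B₀ := hB f hf
  -- one level
  have hlev : ∀ i ∈ Finset.range r,
      ((light p s y (D₀ + i) W δ).card : ℝ) / s.card * I - ε / 4 ≤
        (∑ j' ∈ Finset.range K, ∑ j ∈ s, f (tau p q (c + i) j' • y j)) / ((K : ℝ) * s.card) := by
    intro i _
    have e1 : D₀ + i + W + C = c + i := by rw [hc]; ring
    have h1 := hstep (D₀ + i) K (le_trans hD₀ le_rfl) (by rw [e1, hK]; exact J_mono hp (by omega))
      s y hsne f hf
    rw [e1] at h1
    exact h1
  have hsum := Finset.sum_le_sum hlev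
  rw [Finset.sum_sub_distrib, ← Finset.sum_mul, Finset.sum_const, Finset.card_range r,
    nsmul_eq_mul] at hsum
  have hprod := winlower_sums hp hq h f (hF f hf) c n r x
  set S := ∑ t ∈ window p q (n + c) (r + 1), f (t • x) with hS
  have hS0 : 0 ≤ S := Finset.sum_nonneg (fun t _ => hF f hf _)
  -- the sum of the right sides
  have hA : (∑ i ∈ Finset.range r, (∑ j' ∈ Finset.range K, ∑ j ∈ s,
      f (tau p q (c + i) j' • y j)) / ((K : ℝ) * s.card)) ≤ S / J p q n := by
    rw [← Finset.sum_div, hscard, div_le_div_iff₀ (by positivity) hJn']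
    have : (∑ i ∈ Finset.range r, ∑ j' ∈ Finset.range K, ∑ j ∈ s,
      f (tau p q (c + i) j' • y j)) ≤ K * S := hprod
    nlinarith
  set Λ := ∑ i ∈ Finset.range r, ((light p s y (D₀ + i) W δ).card : ℝ) / s.card with hΛ
  have hA2 : Λ * I - r * (ε / 4) ≤ S / J p q n := hsum.trans hA
  have hlight := sum_light (p := p) hp hδ hδ1 hW' hsne y D₀ hr0
  rw [le_div_iff₀ hr'] at hlight
  set E := went p q n (p ^ (D₀ + r)) x / ((D₀ + r : ℕ) * Real.log p) with hE
  have hEeq : hent s y (p ^ (D₀ + r)) / ((D₀ + r : ℕ) * Real.log p) = E := rfl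
  rw [hEeq] at hlight
  have hE1 : E ≤ 1 := by
    have h1 : went p q n (p ^ (D₀ + r)) x ≤ Real.log ((p ^ (D₀ + r) : ℕ) : ℝ) :=
      hent_le hsne y (pow_pos (by omega) _)
    have h2 : Real.log ((p ^ (D₀ + r) : ℕ) : ℝ) = ((D₀ + r : ℕ) : ℝ) * Real.log p := by
      push_cast
      rw [Real.log_pow]
      push_cast
      ring
    rw [h2] at h1
    rw [hE, div_le_one (by
      have : (0:ℝ) < ((D₀ + r : ℕ) : ℝ) := by exact_mod_cast (by omega : 0 < D₀ + r)
      positivity)]
    exact h1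
  -- the mean
  set M := mean p q f (n + c) (r + 1) x with hM
  have hM0 : 0 ≤ M := by
    rw [hM, mean]
    exact div_nonneg (Finset.sum_nonneg (fun t _ => hF f hf _)) (Nat.cast_nonneg _)
  have hSM : S ≤ M * ((window p q (n + c) (r + 1)).card : ℝ) := by
    rw [hM, mean]
    rcases Nat.eq_zero_or_pos (window p q (n + c) (r + 1)).card with h0 | h0
    · have : window p q (n + c) (r + 1) = ∅ := Finset.card_eq_zero.1 h0
      rw [hS, this]; simp
    · rw [div_mul_cancel₀]
      have : (0:ℝ) < (window p q (n + c) (r + 1)).card := by exact_mod_cast h0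
      exact this.ne'
  have hSJ : S / J p q n ≤ M * (((r : ℝ) + 1) * (1 + 1 / (r : ℝ))) := by
    rw [div_le_iff₀ hJn']
    calc S ≤ M * ((window p q (n + c) (r + 1)).card : ℝ) := hSM
      _ ≤ M * (((r : ℝ) + 1) * ((1 + 1 / (r : ℝ)) * J p q n)) := by gcongr
      _ = _ := by ring
  have hA3 : Λ * I - r * (ε / 4) ≤ M * (((r : ℝ) + 1) * (1 + 1 / (r : ℝ))) := hA2.trans hSJ
  have hΛI : (E - (D₀ + W : ℕ) / (r : ℝ) - η) * r * I ≤ Λ * I :=
    mul_le_mul_of_nonneg_right hlight hI0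
  -- conclusion
  have hfin : (E - (D₀ + W : ℕ) / (r : ℝ) - η) * I - ε / 4 ≤ M * (1 + 3 / (r : ℝ)) := by
    have h1 : ((E - (D₀ + W : ℕ) / (r : ℝ) - η) * I - ε / 4) * r ≤
        M * (((r : ℝ) + 1) * (1 + 1 / (r : ℝ))) := by linarith
    have h2 : M * (((r : ℝ) + 1) * (1 + 1 / (r : ℝ))) ≤ M * (1 + 3 / (r : ℝ)) * r := by
      have h3 : ((r : ℝ) + 1) * (1 + 1 / (r : ℝ)) ≤ (1 + 3 / (r : ℝ)) * r := by
        have h4 : ((r : ℝ) + 1) * (1 + 1 / (r : ℝ)) = r + 2 + 1 / r := by
          field_simp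
          ring
        have h5 : (1 + 3 / (r : ℝ)) * r = r + 3 := by
          field_simp
        have h6 : 1 / (r : ℝ) ≤ 1 := by
          rw [div_le_one hr']; exact hr1
        rw [h4, h5]
        linarith
      calc _ ≤ M * ((1 + 3 / (r : ℝ)) * r) := mul_le_mul_of_nonneg_left h3 hM0
        _ = _ := by ring
    exact le_of_mul_le_mul_right (h1.trans h2) hr'
  by_cases hcase : E * I ≤ M
  · linarith
  · push Not at hcase
    have hEI : E * I ≤ B₀ := by
      calc E * I ≤ 1 * I := mul_le_mul_of_nonneg_right hE1 hI0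
        _ ≤ B₀ := by linarith
    have hMB : M ≤ B₀ := by linarith
    have h1 : M * (1 + 3 / (r : ℝ)) ≤ M + 3 * B₀ / r := by
      have : M * (3 / (r : ℝ)) ≤ B₀ * (3 / (r : ℝ)) :=
        mul_le_mul_of_nonneg_right hMB (by positivity)
      have e : B₀ * (3 / (r : ℝ)) = 3 * B₀ / r := by ring
      rw [e] at this
      linarith
    have h2 : ((D₀ + W : ℕ) : ℝ) / (r : ℝ) * I ≤ ((D₀ : ℝ) + W) * B₀ / r := by
      push_cast
      rw [div_mul_eq_mul_div]
      gcongr
    have h3 : η * I ≤ ε / 4 := by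
      rw [← hηB]
      gcongr
    have h4 : ((D₀ : ℝ) + W + 4) * B₀ / r = ((D₀ : ℝ) + W) * B₀ / r + 3 * B₀ / r + B₀ / r := by
      ring
    have h5 : 0 ≤ B₀ / r := by positivity
    have h6 : (E - (D₀ + W : ℕ) / (r : ℝ) - η) * I =
      E * I - ((D₀ + W : ℕ) : ℝ) / (r : ℝ) * I - η * I := by ring
    rw [h6] at hfin
    linarith

end Pool.Agent.H.MP_96e181_an.Win
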