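import Mathlib
import Pool.Agent.H.MP_96e181_an.win.WinLower
import Pool.Agent.H.MP_96e181_an.win.Count

set_option autoImplicit false

/-! Half of Lebesgue measure outside a countable set -/

namespace Pool.Agent.H.MP_96e181_an.Win

open MeasureTheory Filter Topology

variable {p q : ℕ}

/-- **Half of Lebesgue measure outside a countable set.**

Proof: `X` from `exists_countable`; `win_lower` for `F` and `ε / 2`: `c, D₀, R₀`; `B₀` a bound for the
integrals of `f ∈ F`, `R ≥ R₀ + 1` with `log 10 * B₀ ≤ ε (D₀ + R - 1) log p`. For `r ≥ R` and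
`l = D₀ + (r - 1)` there are arbitrarily large `n` with
`went p q n (p ^ l) x ≥ 1/2 (l log p - log 10)`; the window is `(n + c, r)`. -/
theorem half (hp : 2 ≤ p) (hq : 2 ≤ q)
    (h : Irrational (Real.log (p : ℝ) / Real.log (q : ℝ))) :
    ∃ X : Set UnitAddCircle, X.Countable ∧ ∀ x ∉ X, ∀ F : Finset C(UnitAddCircle, ℝ),
      (∀ f ∈ F, ∀ y, 0 ≤ f y) → ∀ ε : ℝ, 0 < ε → ∃ R : ℕ, ∀ r ≥ R, ∀ N : ℕ, ∃ n ≥ N,
        ∀ f ∈ F, 1 / 2 * (∫ y, f y) - ε ≤ mean p q f n r x := by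
  obtain ⟨X, hX, hx⟩ := exists_countable hp hq h
  refine ⟨X, hX, fun x hxX F hF ε hε => ?_⟩
  obtain ⟨c, D₀, R₀, hw⟩ := win_lower hp hq h F hF (half_pos hε)
  have hlp : 0 < Real.log (p : ℝ) := Real.log_pos (by exact_mod_cast (by omega : 1 < p))
  have hl10 : 0 < Real.log 10 := Real.log_pos (by norm_num)
  have hI : ∀ f ∈ F, 0 ≤ ∫ y, f y := fun f hf => integral_nonneg (hF f hf)
  set B : ℝ := ∑ f ∈ F, ∫ y, f y with hB
  have hIB : ∀ f ∈ F, (∫ y, f y) ≤ B := fun f hf =>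
    Finset.single_le_sum (f := fun f : C(UnitAddCircle, ℝ) => ∫ y, f y) hI hf
  obtain ⟨M, hM⟩ := exists_nat_gt (Real.log 10 * B / (ε * Real.log p))
  have hεp : 0 < ε * Real.log (p : ℝ) := mul_pos hε hlp
  refine ⟨max (R₀ + 1) (M + 2), fun r hr N => ?_⟩
  have hr1 : R₀ + 1 ≤ r := le_trans (le_max_left _ _) hr
  have hr2 : M + 2 ≤ r := le_trans (le_max_right _ _) hr
  obtain ⟨r', rfl⟩ : ∃ r', r = r' + 1 := ⟨r - 1, by omega⟩
  obtain ⟨N₁, hN₁⟩ := hw r' (by omega)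
  obtain ⟨n, hn, hn2⟩ := hx x hxX (D₀ + r') (max N₁ N)
  refine ⟨n + c, ?_, fun f hf => ?_⟩
  · have := le_trans (le_max_right N₁ N) hn
    omega
  have h1 := hN₁ n (le_trans (le_max_left N₁ N) hn) x f hf
  have hp0 : (0 : ℝ) < p := by exact_mod_cast (by omega : 0 < p)
  have hlog : Real.log ((p : ℝ) ^ (D₀ + r') / 10)
      = ((D₀ + r' : ℕ) : ℝ) * Real.log p - Real.log 10 := by
    rw [Real.log_div (pow_ne_zero _ hp0.ne') (by norm_num), Real.log_pow]
  rw [hlog] at hn2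
  set L : ℝ := ((D₀ + r' : ℕ) : ℝ) * Real.log p with hL
  have hML : (M : ℝ) + 1 ≤ ((D₀ + r' : ℕ) : ℝ) := by exact_mod_cast (by omega : M + 1 ≤ D₀ + r')
  have hM0 : (0 : ℝ) ≤ M := Nat.cast_nonneg M
  have hL0 : 0 < L := mul_pos (by linarith) hlp
  have hLB : Real.log 10 * B ≤ ε * L := by
    rw [div_lt_iff₀ hεp] at hM
    have : (M : ℝ) * (ε * Real.log p) ≤ ((D₀ + r' : ℕ) : ℝ) * (ε * Real.log p) :=
      mul_le_mul_of_nonneg_right (by linarith) hεp.le
    have e : ε * L = ((D₀ + r' : ℕ) : ℝ) * (ε * Real.log p) := by rw [hL]; ring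
    rw [e]
    linarith
  have hIf := hI f hf
  have hIBf := hIB f hf
  set I : ℝ := ∫ y, f y with hIdef
  set w : ℝ := went p q n (p ^ (D₀ + r')) x with hwdef
  have h2 : (1 / 2 - Real.log 10 / (2 * L)) ≤ w / L := by
    rw [le_div_iff₀ hL0]
    have : (1 / 2 - Real.log 10 / (2 * L)) * L = 1 / 2 * (L - Real.log 10) := by
      field_simp
    rw [this]
    exact hn2
  have h3 : (1 / 2 - Real.log 10 / (2 * L)) * I ≤ w / L * I := mul_le_mul_of_nonneg_right h2 hIf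
  have h4 : Real.log 10 / (2 * L) * I ≤ ε / 2 := by
    rw [div_mul_eq_mul_div, div_le_iff₀ (by linarith)]
    have : Real.log 10 * I ≤ Real.log 10 * B := mul_le_mul_of_nonneg_left hIBf hl10.le
    calc Real.log 10 * I ≤ ε * L := this.trans hLB
      _ = ε / 2 * (2 * L) := by ring
  have h5 : (1 / 2 - Real.log 10 / (2 * L)) * I = 1 / 2 * I - Real.log 10 / (2 * L) * I := by ring
  linarith

end Pool.Agent.H.MP_96e181_an.Win
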