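import Mathlib
import Pool.Agent.H.MP_96e181_an.win.Half

set_option autoImplicit false

/-! Part (1) -/

namespace Pool.Agent.H.MP_96e181_an.Win

open MeasureTheory Filter Topology

variable {p q : ℕ}

/-- The mean is monotone up to a constant. -/
theorem partone_mean_sub {f g : UnitAddCircle → ℝ} {δ : ℝ} (hδ : 0 ≤ δ)
    (hfg : ∀ y, g y - δ ≤ f y) (n r : ℕ) (x : UnitAddCircle) :
    mean p q g n r x - δ ≤ mean p q f n r x := by
  unfold mean
  rcases Nat.eq_zero_or_pos (window p q n r).card with h0 | h0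
  · rw [h0]
    simp [hδ]
  · have hc : (0 : ℝ) < (window p q n r).card := by exact_mod_cast h0
    rw [sub_le_iff_le_add, div_le_iff₀ hc, add_mul, div_mul_cancel₀ _ hc.ne']
    have : ∑ t ∈ window p q n r, g (t • x) ≤ ∑ t ∈ window p q n r, (f (t • x) + δ) := by
      apply Finset.sum_le_sum
      intro t _
      linarith [hfg (t • x)]
    rw [Finset.sum_add_distrib, Finset.sum_const, nsmul_eq_mul] at this
    linarith

/-- The mean is bounded by the norm. -/
theorem partone_mean_le (f : C(UnitAddCircle, ℝ)) (n r : ℕ) (x : UnitAddCircle) :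
    mean p q f n r x ≤ ‖f‖ := by
  have h := partone_mean_sub (p := p) (q := q) (f := fun _ => (0 : ℝ)) (g := f) (δ := ‖f‖)
    (norm_nonneg f) (fun y => by
      have := f.norm_coe_le_norm y
      rw [Real.norm_eq_abs] at this
      linarith [le_abs_self (f y)]) n r x
  have h0 : mean p q (fun _ => (0 : ℝ)) n r x = 0 := by simp [mean]
  linarith

theorem partone_integrable (f : C(UnitAddCircle, ℝ)) : Integrable f (volume : Measure UnitAddCircle) := by
  refine Integrable.mono' (g := fun _ => ‖f‖) (integrable_const _)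
    f.continuous.aestronglyMeasurable ?_
  exact Filter.Eventually.of_forall fun y => f.norm_coe_le_norm y

/-- Sequences.

Proof: `C(UnitAddCircle, ℝ)` is separable: let `f_i` be dense in the set of nonnegative continuous
functions. For each `k` apply `half` to `f_0, …, f_k` and `ε = 1 / (k + 1)`: get `r k ≥ k` and then
`n k ≥ k` so large that also `ψ (n k) ≥ r k` (`half` gives arbitrarily large `n`). Approximate a
general `f` by some `f_i`. -/
theorem part_one (hp : 2 ≤ p) (hq : 2 ≤ q)
    (h : Irrational (Real.log (p : ℝ) / Real.log (q : ℝ))) {ψ : ℕ → ℕ}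
    (hψ : Tendsto ψ atTop atTop) :
    ∃ X : Set UnitAddCircle, X.Countable ∧ ∀ x ∉ X, ∃ n r : ℕ → ℕ,
      Tendsto n atTop atTop ∧ Tendsto r atTop atTop ∧ (∀ k, r k ≤ ψ (n k)) ∧
        ∀ f : C(UnitAddCircle, ℝ), 0 ≤ f →
          1 / 2 * (∫ y, f y) ≤ liminf (fun k => mean p q f (n k) (r k) x) atTop := by
  obtain ⟨X, hX, H⟩ := half hp hq h
  refine ⟨X, hX, fun x hx => ?_⟩
  classical
  let g : ℕ → C(UnitAddCircle, ℝ) := TopologicalSpace.denseSeq C(UnitAddCircle, ℝ)
  have hgd : DenseRange g := TopologicalSpace.denseRange_denseSeq _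
  let fp : ℕ → C(UnitAddCircle, ℝ) := fun i => g i ⊔ 0
  have hfp : ∀ i y, fp i y = max (g i y) 0 := fun i y => by
    simp [fp]
  -- choices
  have key : ∀ k : ℕ, ∃ n r : ℕ, k ≤ n ∧ k ≤ r ∧ r ≤ ψ n ∧
      ∀ i ≤ k, 1 / 2 * (∫ y, fp i y) - 1 / ((k : ℝ) + 1) ≤ mean p q (fp i) n r x := by
    intro k
    have hε : (0 : ℝ) < 1 / ((k : ℝ) + 1) := by positivity
    obtain ⟨R, hR⟩ := H x hx ((Finset.range (k + 1)).image fp) (by
      intro f hf y
      obtain ⟨i, _, rfl⟩ := Finset.mem_image.1 hf
      rw [hfp]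
      exact le_max_right _ _) _ hε
    obtain ⟨N, hN⟩ := (hψ.eventually_ge_atTop (max R k)).exists_forall_of_atTop
    obtain ⟨n, hn, hn2⟩ := hR (max R k) (le_max_left _ _) (max N k)
    refine ⟨n, max R k, le_trans (le_max_right _ _) hn, le_max_right _ _,
      hN n (le_trans (le_max_left _ _) hn), fun i hi => ?_⟩
    exact hn2 (fp i) (Finset.mem_image.2 ⟨i, Finset.mem_range.2 (by omega), rfl⟩)
  choose n r hn hr hrψ hmean using key
  refine ⟨n, r, tendsto_atTop_mono hn tendsto_id, tendsto_atTop_mono hr tendsto_id, hrψ, ?_⟩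
  intro f hf
  have hf0 : ∀ y, 0 ≤ f y := fun y => by
    have := hf y
    simpa using this
  -- eventually lower bound
  have hev : ∀ δ : ℝ, 0 < δ → ∀ᶠ k in atTop,
      1 / 2 * (∫ y, f y) - δ ≤ mean p q f (n k) (r k) x := by
    intro δ hδ
    obtain ⟨i, hi⟩ := hgd.exists_dist_lt f (show (0 : ℝ) < δ / 4 by linarith)
    have hcl : ∀ y, |f y - g i y| ≤ δ / 4 := fun y => by
      have h1 := ContinuousMap.dist_apply_le_dist (f := f) (g := g i) y
      rw [Real.dist_eq] at h1
      linarith
    have hcl1 : ∀ y, fp i y - δ / 4 ≤ f y := fun y => by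
      rw [hfp]
      have h1 := abs_le.1 (hcl y)
      rcases le_total (g i y) 0 with h2 | h2
      · rw [max_eq_right h2]
        linarith [hf0 y]
      · rw [max_eq_left h2]
        linarith
    have hcl2 : ∀ y, f y ≤ fp i y + δ / 4 := fun y => by
      rw [hfp]
      have h1 := abs_le.1 (hcl y)
      linarith [le_max_left (g i y) 0]
    have hint : (∫ y, f y) ≤ (∫ y, fp i y) + δ / 4 := by
      have h1 : (∫ y, f y) ≤ ∫ y, (fp i y + δ / 4) :=
        integral_mono (partone_integrable f)
          ((partone_integrable (fp i)).add (integrable_const _)) hcl2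
      rw [integral_add (partone_integrable (fp i)) (integrable_const _), integral_const,
        measureReal_def, UnitAddCircle.measure_univ] at h1
      simpa using h1
    obtain ⟨K, hK⟩ := exists_nat_gt (2 / δ)
    filter_upwards [eventually_ge_atTop (max i K)] with k hk
    have hki : i ≤ k := le_trans (le_max_left _ _) hk
    have hkK : K ≤ k := le_trans (le_max_right _ _) hk
    have h1 := hmean k i hki
    have h2 := partone_mean_sub (p := p) (q := q) (f := f) (g := fp i) (δ := δ / 4)
      (by linarith) hcl1 (n k) (r k) x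
    have h3 : 1 / ((k : ℝ) + 1) ≤ δ / 2 := by
      have hKk : (K : ℝ) ≤ k := by exact_mod_cast hkK
      have hk1 : 2 / δ < (k : ℝ) + 1 := by linarith
      rw [div_lt_iff₀ hδ] at hk1
      rw [div_le_iff₀ (by positivity)]
      nlinarith
    linarith
  have hcob : IsCoboundedUnder (· ≥ ·) atTop (fun k => mean p q f (n k) (r k) x) := by
    apply IsBoundedUnder.isCoboundedUnder_ge
    exact ⟨‖f‖, Filter.eventually_map.2
      (Filter.Eventually.of_forall fun k => partone_mean_le f (n k) (r k) x)⟩
  refine le_of_forall_pos_sub_le fun δ hδ => ?_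
  exact le_liminf_of_le hcob (hev δ hδ)

end Pool.Agent.H.MP_96e181_an.Win
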