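import Mathlib
import Pool.Agent.H.MP_96e181_an.win.PartOne
import Pool.Agent.H.MP_96e181_an.win.Conv1

set_option autoImplicit false

/-! The key proposition -/

namespace Pool.Agent.H.MP_96e181_an.Win

open MeasureTheory Filter Topology
open scoped ENNReal NNReal

variable {p q : ℕ}

private theorem conv4_mp {μ : Measure UnitAddCircle}
    (hμp : MeasurePreserving (fun x : UnitAddCircle => p • x) μ μ)
    (hμq : MeasurePreserving (fun x : UnitAddCircle => q • x) μ μ) (i j : ℕ) :
    MeasurePreserving (fun x : UnitAddCircle => (p ^ i * q ^ j) • x) μ μ := by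
  have h1 : ∀ i : ℕ, MeasurePreserving (fun x : UnitAddCircle => (p ^ i) • x) μ μ := by
    intro i
    induction i with
    | zero =>
      simp only [pow_zero, one_smul]
      exact MeasurePreserving.id μ
    | succ i ih =>
      have : (fun x : UnitAddCircle => (p ^ (i + 1)) • x)
          = (fun x : UnitAddCircle => (p ^ i) • x) ∘ (fun x : UnitAddCircle => p • x) := by
        funext x
        simp [pow_succ, mul_smul]
      rw [this]
      exact ih.comp hμp
  have h2 : ∀ i : ℕ, MeasurePreserving (fun x : UnitAddCircle => (q ^ i) • x) μ μ := by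
    intro i
    induction i with
    | zero =>
      simp only [pow_zero, one_smul]
      exact MeasurePreserving.id μ
    | succ i ih =>
      have : (fun x : UnitAddCircle => (q ^ (i + 1)) • x)
          = (fun x : UnitAddCircle => (q ^ i) • x) ∘ (fun x : UnitAddCircle => q • x) := by
        funext x
        simp [pow_succ, mul_smul]
      rw [this]
      exact ih.comp hμq
  have : (fun x : UnitAddCircle => (p ^ i * q ^ j) • x)
      = (fun x : UnitAddCircle => (p ^ i) • x) ∘ (fun x : UnitAddCircle => (q ^ j) • x) := by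
    funext x
    simp [mul_smul]
  rw [this]
  exact (h1 i).comp (h2 j)

private theorem conv4_card (hp : 2 ≤ p) (n : ℕ) {r : ℕ} (hr : 0 < r) :
    0 < (window p q n r).card := by
  classical
  refine Finset.card_pos.mpr ⟨p ^ n, ?_⟩
  unfold window
  rw [Finset.mem_filter, Finset.mem_Ico]
  refine ⟨⟨le_rfl, ?_⟩, n, 0, by simp⟩
  exact Nat.pow_lt_pow_right (by omega) (by omega)

private theorem conv4_cont (f : C(UnitAddCircle, ℝ)) (n r : ℕ) :
    Continuous (fun x => mean p q f n r x) := by
  unfold mean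
  refine Continuous.div_const (continuous_finsetSum _ fun t _ => ?_) _
  exact f.continuous.comp (continuous_const_smul t)

private theorem conv4_bound (f : C(UnitAddCircle, ℝ)) (n r : ℕ) (x : UnitAddCircle) :
    |mean p q f n r x| ≤ ‖f‖ := by
  unfold mean
  rw [abs_div, Nat.abs_cast]
  rcases Nat.eq_zero_or_pos (window p q n r).card with h0 | h0
  · rw [h0]
    simp
  rw [div_le_iff₀ (by exact_mod_cast h0)]
  calc |∑ t ∈ window p q n r, f (t • x)| ≤ ∑ t ∈ window p q n r, |f (t • x)| :=
        Finset.abs_sum_le_sum_abs _ _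
    _ ≤ ∑ t ∈ window p q n r, ‖f‖ := Finset.sum_le_sum fun t _ => f.norm_coe_le_norm _
    _ = ‖f‖ * (window p q n r).card := by
        rw [Finset.sum_const, nsmul_eq_mul, mul_comm]

/-- Invariance of the integrals. -/
theorem integral_mean (hp : 2 ≤ p) (hq : 2 ≤ q)
    (h : Irrational (Real.log (p : ℝ) / Real.log (q : ℝ))) {μ : Measure UnitAddCircle}
    [IsProbabilityMeasure μ]
    (hμp : MeasurePreserving (fun x : UnitAddCircle => p • x) μ μ)
    (hμq : MeasurePreserving (fun x : UnitAddCircle => q • x) μ μ) (f : C(UnitAddCircle, ℝ))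
    (n : ℕ) {r : ℕ} (hr : 0 < r) :
    ∫ x, mean p q f n r x ∂μ = ∫ x, f x ∂μ := by
  classical
  have hc := conv4_card (q := q) hp n hr
  unfold mean
  rw [integral_div, integral_finsetSum]
  · have hterm : ∀ t ∈ window p q n r, ∫ x, f (t • x) ∂μ = ∫ x, f x ∂μ := by
      intro t ht
      unfold window at ht
      rw [Finset.mem_filter] at ht
      obtain ⟨_, i, j, rfl⟩ := ht
      have hm := conv4_mp hμp hμq i j
      have h1 : ∫ x, f x ∂(μ.map (fun x : UnitAddCircle => (p ^ i * q ^ j) • x))
          = ∫ x, f ((p ^ i * q ^ j) • x) ∂μ :=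
        integral_map hm.measurable.aemeasurable
          (f.continuous.aestronglyMeasurable)
      rw [← h1, hm.map_eq]
    rw [Finset.sum_congr rfl hterm, Finset.sum_const, nsmul_eq_mul]
    have : ((window p q n r).card : ℝ) ≠ 0 := by exact_mod_cast hc.ne'
    field_simp
  · intro t _
    refine Continuous.integrable_of_hasCompactSupport ?_ ?_
    · exact f.continuous.comp (continuous_const_smul t)
    · exact HasCompactSupport.of_compactSpace _

/-- **Key proposition.** If the averages converge `μ`-a.e. then `∫ f ≤ 2 ∫ f dμ` for `f ≥ 0`.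

Proof: let `Λ_x(f)` be the limit along `slow ψ`. `μ X = 0` for the countable set `X` of `part_one`,
so for `μ`-a.e. `x` the sequence `(n k, r k)` of `part_one` tends to `slow ψ`, and
`Λ_x(f) = liminf ≥ 1/2 ∫ f`. By dominated convergence along the sequence `(k, ψ k)`
(`integral_mean`) `∫ f dμ = ∫ Λ_x(f) dμ(x)`. -/
theorem half_integral (hp : 2 ≤ p) (hq : 2 ≤ q)
    (h : Irrational (Real.log (p : ℝ) / Real.log (q : ℝ))) {ψ : ℕ → ℕ}
    (hψ : Tendsto ψ atTop atTop) {μ : Measure UnitAddCircle} [IsProbabilityMeasure μ]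
    (hμ : ∀ x, μ {x} = 0)
    (hμp : MeasurePreserving (fun x : UnitAddCircle => p • x) μ μ)
    (hμq : MeasurePreserving (fun x : UnitAddCircle => q • x) μ μ)
    (hconv : ∀ᵐ x ∂μ, x ∈ convSet p q ψ) (f : C(UnitAddCircle, ℝ)) (hf : 0 ≤ f) :
    1 / 2 * (∫ x, f x) ≤ ∫ x, f x ∂μ := by
  classical
  obtain ⟨X, hX, hXs⟩ := part_one hp hq h hψ
  have hX0 : μ X = 0 := by
    have : X = ⋃ x ∈ X, {x} := by simp
    rw [this]
    exact (measure_biUnion_null_iff hX).mpr fun x _ => hμ x
  have hXae : ∀ᵐ x ∂μ, x ∉ X := by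
    rw [ae_iff]
    simpa using hX0
  obtain ⟨L, hL⟩ : ∃ L : UnitAddCircle → ℝ, ∀ᵐ x ∂μ,
      Tendsto (fun v : ℕ × ℕ => mean p q f v.1 v.2 x) (slow ψ) (𝓝 (L x)) := by
    refine ⟨fun x =>
      if hx : ∃ L : ℝ, Tendsto (fun v : ℕ × ℕ => mean p q f v.1 v.2 x) (slow ψ) (𝓝 L)
        then hx.choose else 0, ?_⟩
    filter_upwards [hconv] with x hx
    have hx' := hx f
    rw [dif_pos hx']
    exact hx'.choose_spec
  -- the diagonal sequence
  have hdiag : Tendsto (fun k : ℕ => (k, ψ k)) atTop (slow ψ) := by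
    unfold slow
    refine tendsto_inf.mpr ⟨tendsto_id.prodMk hψ, ?_⟩
    rw [tendsto_principal]
    exact Eventually.of_forall fun k => le_refl (ψ k)
  have hcomp : ∀ᵐ x ∂μ, Tendsto (fun k : ℕ => mean p q f k (ψ k) x) atTop (𝓝 (L x)) := by
    filter_upwards [hL] with x hx
    have h1 := Tendsto.comp hx hdiag
    simpa only [Function.comp_def] using h1
  have hlim : Tendsto (fun k : ℕ => ∫ x, mean p q f k (ψ k) x ∂μ) atTop (𝓝 (∫ x, L x ∂μ)) := by
    refine tendsto_integral_of_dominated_convergence (fun _ => ‖f‖) ?_ ?_ ?_ ?_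
    · intro k
      exact (conv4_cont f k (ψ k)).aestronglyMeasurable
    · exact integrable_const _
    · intro k
      exact Eventually.of_forall fun x => conv4_bound f k (ψ k) x
    · exact hcomp
  have hconst : Tendsto (fun k : ℕ => ∫ x, mean p q f k (ψ k) x ∂μ) atTop (𝓝 (∫ x, f x ∂μ)) := by
    refine tendsto_const_nhds.congr' ?_
    filter_upwards [hψ.eventually_ge_atTop 1] with k hk
    exact (integral_mean hp hq h hμp hμq f k hk).symm
  have hEq : ∫ x, L x ∂μ = ∫ x, f x ∂μ := tendsto_nhds_unique hlim hconst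
  have hge : ∀ᵐ x ∂μ, 1 / 2 * (∫ y, f y) ≤ L x := by
    filter_upwards [hXae, hL] with x hx hLx
    obtain ⟨n, r, hn, hr, hnr, hlf⟩ := hXs x hx
    have hseq : Tendsto (fun k : ℕ => (n k, r k)) atTop (slow ψ) := by
      unfold slow
      refine tendsto_inf.mpr ⟨hn.prodMk hr, ?_⟩
      rw [tendsto_principal]
      exact Eventually.of_forall fun k => hnr k
    have h1 : Tendsto (fun k : ℕ => mean p q f (n k) (r k) x) atTop (𝓝 (L x)) := by
      have h0 := Tendsto.comp hLx hseq
      simpa only [Function.comp_def] using h0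
    have h2 := hlf f hf
    rwa [h1.liminf_eq] at h2
  have hLint : Integrable L μ := by
    have hmeas : AEStronglyMeasurable L μ := by
      refine aestronglyMeasurable_of_tendsto_ae (u := atTop)
        (f := fun (k : ℕ) x => mean p q f k (ψ k) x) ?_ ?_
      · intro k
        exact (conv4_cont f k (ψ k)).aestronglyMeasurable
      · exact hcomp
    refine Integrable.of_bound hmeas ‖f‖ ?_
    filter_upwards [hcomp] with x hx
    refine le_of_tendsto hx.norm ?_
    exact Eventually.of_forall fun k => conv4_bound f k (ψ k) x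
  rw [← hEq]
  calc 1 / 2 * (∫ x, f x) = ∫ _x, (1 / 2 * (∫ y, f y)) ∂μ := by simp
    _ ≤ ∫ x, L x ∂μ := integral_mono_ae (integrable_const _) hLint hge

end Pool.Agent.H.MP_96e181_an.Win
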