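import Mathlib
import Pool.Agent.H.MP_96e181_an.win.Defs

set_option autoImplicit false

/-! Measure theory -/

namespace Pool.Agent.H.MP_96e181_an.Win

open MeasureTheory Filter Topology
open scoped ENNReal NNReal

variable {p q : ℕ}

theorem conv5_closed {μ : Measure UnitAddCircle} [IsProbabilityMeasure μ]
    (H : ∀ f : C(UnitAddCircle, ℝ), 0 ≤ f → 1 / 2 * (∫ x, f x) ≤ ∫ x, f x ∂μ)
    {K : Set UnitAddCircle} (hK : IsClosed K) :
    ENNReal.ofReal (1 / 2) * volume K ≤ μ K := by
  have h1 := HasOuterApproxClosed.tendsto_lintegral_apprSeq hK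
    (volume : Measure UnitAddCircle)
  have h2 := HasOuterApproxClosed.tendsto_lintegral_apprSeq hK μ
  have h3 := ENNReal.Tendsto.const_mul (a := ENNReal.ofReal (1 / 2)) h1
    (Or.inr ENNReal.ofReal_ne_top)
  refine le_of_tendsto_of_tendsto' h3 h2 fun n => ?_
  let f : C(UnitAddCircle, ℝ) := ⟨fun x => ((hK.apprSeq n x : ℝ≥0) : ℝ), by fun_prop⟩
  have hi : ∀ ν : Measure UnitAddCircle, ∀ _ : IsFiniteMeasure ν,
      ∫⁻ x, (hK.apprSeq n x : ℝ≥0∞) ∂ν = ENNReal.ofReal (∫ x, f x ∂ν) := by
    intro ν _
    exact lintegral_coe_eq_integral _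
      (f.continuous.integrable_of_hasCompactSupport (HasCompactSupport.of_compactSpace _))
  rw [hi μ inferInstance, hi volume inferInstance, ← ENNReal.ofReal_mul (by norm_num)]
  exact ENNReal.ofReal_le_ofReal (H f fun x => NNReal.coe_nonneg _)

/-- A measure dominating half of Lebesgue measure on continuous functions is not singular.

Proof: closed sets: `1/2 volume K ≤ μ K` by approximating the indicator from above
(`thickenedIndicator`); measurable sets by inner regularity; apply to a measurable set `s` with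
`μ s = 0` and `volume sᶜ = 0`. -/
theorem not_singular_of_half {μ : Measure UnitAddCircle} [IsProbabilityMeasure μ]
    (H : ∀ f : C(UnitAddCircle, ℝ), 0 ≤ f → 1 / 2 * (∫ x, f x) ≤ ∫ x, f x ∂μ) :
    ¬ μ ⟂ₘ (volume : Measure UnitAddCircle) := by
  rintro ⟨s, hs, hμs, hvs⟩
  have hv : volume s = 1 := by
    have h1 := measure_add_measure_compl (μ := (volume : Measure UnitAddCircle)) hs
    rw [hvs, add_zero, UnitAddCircle.measure_univ] at h1
    exact h1
  obtain ⟨K, hKs, hKc, hK⟩ := hs.exists_lt_isClosed_of_ne_top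
    (μ := (volume : Measure UnitAddCircle)) (r := 0) (by rw [hv]; exact ENNReal.one_ne_top)
    (by rw [hv]; exact zero_lt_one)
  have h2 := conv5_closed H hKc
  have h3 : μ K = 0 := measure_mono_null hKs hμs
  rw [h3] at h2
  have h4 : 0 < ENNReal.ofReal (1 / 2) * volume K :=
    ENNReal.mul_pos (by norm_num) hK.ne'
  exact absurd h2 (not_le.mpr h4)

/-- Invariance of the restriction to a forward invariant set. -/
theorem restrict_preserving {μ : Measure UnitAddCircle} [IsFiniteMeasure μ]
    {T : UnitAddCircle → UnitAddCircle} (hT : MeasurePreserving T μ μ) {G : Set UnitAddCircle}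
    (hG : MeasurableSet G) (hGT : ∀ x ∈ G, T x ∈ G) :
    MeasurePreserving T (μ.restrict G) (μ.restrict G) := by
  have h1 : G ⊆ T ⁻¹' G := fun x hx => hGT x hx
  have h2 : μ (T ⁻¹' G) = μ G := hT.measure_preimage hG.nullMeasurableSet
  have h3 : G =ᵐ[μ] T ⁻¹' G :=
    ae_eq_of_subset_of_measure_ge h1 h2.le hG.nullMeasurableSet (measure_ne_top _ _)
  have h4 := hT.restrict_preimage hG
  rwa [← Measure.restrict_congr_set h3] at h4

end Pool.Agent.H.MP_96e181_an.Win
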