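import Mathlib
import Pool.Agent.H.MP_96e181_an.win.Conv2
import Pool.Agent.H.MP_96e181_an.win.Conv3
import Pool.Agent.H.MP_96e181_an.win.Conv4
import Pool.Agent.H.MP_96e181_an.win.Conv5

set_option autoImplicit false

/-! Divergence for singular measures -/

namespace Pool.Agent.H.MP_96e181_an.Win

open MeasureTheory Filter Topology
open scoped ENNReal NNReal

variable {p q : ℕ}

/-- **Singular measures.** If `μ` is singular, the averages diverge `μ`-a.e.

Proof: replace `ψ` by a monotone `ψ'` (`exists_mono`, `convSet_mono`). `G = convSet p q ψ'` is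
measurable and forward invariant. If `μ G ≠ 0` then `ν = (μ G)⁻¹ • μ.restrict G` is an invariant
atomless probability measure with `ν`-a.e. convergence, singular; contradiction with
`half_integral` and `not_singular_of_half`. -/
theorem diverge (hp : 2 ≤ p) (hq : 2 ≤ q)
    (h : Irrational (Real.log (p : ℝ) / Real.log (q : ℝ))) {ψ : ℕ → ℕ}
    (hψ : Tendsto ψ atTop atTop) {μ : Measure UnitAddCircle} [IsFiniteMeasure μ]
    (hμ : ∀ x, μ {x} = 0)
    (hμp : MeasurePreserving (fun x : UnitAddCircle => p • x) μ μ)
    (hμq : MeasurePreserving (fun x : UnitAddCircle => q • x) μ μ)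
    (hsing : μ ⟂ₘ (volume : Measure UnitAddCircle)) : ∀ᵐ x ∂μ, x ∉ convSet p q ψ := by
  obtain ⟨ψ', hmono, htend, hle⟩ := exists_mono hψ
  have hsub : convSet p q ψ ⊆ convSet p q ψ' := convSet_mono hle
  have hGm : MeasurableSet (convSet p q ψ') := measurableSet_convSet ψ'
  suffices hz : μ (convSet p q ψ') = 0 by
    rw [ae_iff]
    exact measure_mono_null (fun a ha => hsub (not_not.1 ha)) hz
  by_contra hne
  have hnetop : μ (convSet p q ψ') ≠ ∞ := measure_ne_top μ _
  have hprob : IsProbabilityMeasure
      ((μ (convSet p q ψ'))⁻¹ • μ.restrict (convSet p q ψ')) := by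
    refine ⟨?_⟩
    rw [Measure.smul_apply, Measure.restrict_apply_univ, smul_eq_mul]
    exact ENNReal.inv_mul_cancel hne hnetop
  have hpG : MeasurePreserving (fun x : UnitAddCircle => p • x)
      ((μ (convSet p q ψ'))⁻¹ • μ.restrict (convSet p q ψ'))
      ((μ (convSet p q ψ'))⁻¹ • μ.restrict (convSet p q ψ')) :=
    (restrict_preserving hμp hGm (fun x hx => convSet_p hp hq h hmono hx)).smul_measure _
  have hqG : MeasurePreserving (fun x : UnitAddCircle => q • x)
      ((μ (convSet p q ψ'))⁻¹ • μ.restrict (convSet p q ψ'))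
      ((μ (convSet p q ψ'))⁻¹ • μ.restrict (convSet p q ψ')) :=
    (restrict_preserving hμq hGm (fun x hx => convSet_q hp hq h hmono hx)).smul_measure _
  have hat : ∀ x, ((μ (convSet p q ψ'))⁻¹ • μ.restrict (convSet p q ψ')) {x} = 0 := by
    intro x
    rw [Measure.smul_apply, smul_eq_mul]
    have h0 : (μ.restrict (convSet p q ψ')) {x} = 0 :=
      le_antisymm (le_trans (Measure.restrict_apply_le _ _) (le_of_eq (hμ x))) zero_le
    rw [h0, mul_zero]
  have hcv : ∀ᵐ x ∂((μ (convSet p q ψ'))⁻¹ • μ.restrict (convSet p q ψ')),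
      x ∈ convSet p q ψ' :=
    Measure.ae_smul_measure (ae_restrict_mem hGm) _
  have hs : ((μ (convSet p q ψ'))⁻¹ • μ.restrict (convSet p q ψ')) ⟂ₘ
      (volume : Measure UnitAddCircle) := (hsing.restrict _).smul _
  exact not_singular_of_half
    (fun f hf => half_integral hp hq h htend hat hpG hqG hcv f hf) hs

/-- **Convergence characterises Lebesgue measure.**

Proof: the singular part of `μ` is invariant (`MeasurePreserving.singularPart`), atomless, and the
averages converge a.e. for it: it is `0` by `diverge`. So `μ ≪ volume` and `μ = volume` by the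
ergodicity of `x ↦ p x` (`AddCircle.ergodic_nsmul`, `Ergodic.eq_of_absolutelyContinuous`). -/
theorem eq_volume (hp : 2 ≤ p) (hq : 2 ≤ q)
    (h : Irrational (Real.log (p : ℝ) / Real.log (q : ℝ))) {ψ : ℕ → ℕ}
    (hψ : Tendsto ψ atTop atTop) {μ : Measure UnitAddCircle} [IsProbabilityMeasure μ]
    (hμ : ∀ x, μ {x} = 0)
    (hμp : MeasurePreserving (fun x : UnitAddCircle => p • x) μ μ)
    (hμq : MeasurePreserving (fun x : UnitAddCircle => q • x) μ μ)
    (hconv : ∀ᵐ x ∂μ, x ∈ convSet p q ψ) : μ = (volume : Measure UnitAddCircle) := by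
  have hp1 : 1 < p := by omega
  have hq1 : 1 < q := by omega
  have ep : Ergodic (fun x : UnitAddCircle => p • x) (volume : Measure UnitAddCircle) :=
    AddCircle.ergodic_nsmul hp1
  have eq' : Ergodic (fun x : UnitAddCircle => q • x) (volume : Measure UnitAddCircle) :=
    AddCircle.ergodic_nsmul hq1
  have sp := hμp.singularPart ep.toMeasurePreserving
  have sq := hμq.singularPart eq'.toMeasurePreserving
  have hle : μ.singularPart (volume : Measure UnitAddCircle) ≤ μ :=
    Measure.singularPart_le μ volume
  have hat : ∀ x, (μ.singularPart (volume : Measure UnitAddCircle)) {x} = 0 := fun x =>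
    le_antisymm (le_trans (hle {x}) (le_of_eq (hμ x))) zero_le
  have hs : μ.singularPart (volume : Measure UnitAddCircle) ⟂ₘ
      (volume : Measure UnitAddCircle) := Measure.mutuallySingular_singularPart μ volume
  have hdiv := diverge hp hq h hψ hat sp sq hs
  have hcv : ∀ᵐ x ∂(μ.singularPart (volume : Measure UnitAddCircle)), x ∈ convSet p q ψ :=
    (MeasureTheory.ae_mono hle) hconv
  have hzero : μ.singularPart (volume : Measure UnitAddCircle) = 0 := by
    rw [← ae_eq_bot]
    rw [← Filter.empty_mem_iff_bot]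
    filter_upwards [hdiv, hcv] with x h1 h2
    exact h1 h2
  have hac : μ ≪ (volume : Measure UnitAddCircle) :=
    (Measure.singularPart_eq_zero μ volume).1 hzero
  exact ep.eq_of_absolutelyContinuous_measure_univ_eq hμp hac
    (by rw [measure_univ, UnitAddCircle.measure_univ])

end Pool.Agent.H.MP_96e181_an.Win
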