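import Mathlib
import Pool.Agent.H.MP_96e181_an.win.Basic2

set_option autoImplicit false

/-! Thick windows from thin windows -/

namespace Pool.Agent.H.MP_96e181_an.Win

open MeasureTheory Filter Topology
open scoped ENNReal NNReal

variable {p q : ℕ}

/-- Thin windows are the building blocks of thick windows:
`mean f n r x = ∑_{i<r} J (n+i) mean f (n+i) 1 x / ∑_{i<r} J (n+i)`. -/
theorem thick_of_thin (hp : 2 ≤ p) (hq : 2 ≤ q)
    (h : Irrational (Real.log (p : ℝ) / Real.log (q : ℝ))) {f : UnitAddCircle → ℝ}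
    {x : UnitAddCircle} {L : ℝ} (hL : Tendsto (fun n => mean p q f n 1 x) atTop (𝓝 L))
    (ψ : ℕ → ℕ) :
    Tendsto (fun v : ℕ × ℕ => mean p q f v.1 v.2 x) (slow ψ) (𝓝 L) := by
  refine Tendsto.mono_left ?_ inf_le_left
  rw [Metric.tendsto_nhds]
  intro ε hε
  obtain ⟨N, hN⟩ := (Metric.tendsto_atTop.1 hL) (ε / 2) (by positivity)
  filter_upwards [(eventually_ge_atTop N).prod_mk (eventually_ge_atTop 1)] with v hv
  obtain ⟨n, r⟩ := v
  obtain ⟨hn, hr⟩ : N ≤ n ∧ 1 ≤ r := hv
  show dist (mean p q f n r x) L < ε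
  have hJ : ∀ i, (0 : ℝ) < J p q (n + i) := fun i => by exact_mod_cast J_pos (n + i)
  have hS : (0 : ℝ) < ∑ i ∈ Finset.range r, (J p q (n + i) : ℝ) :=
    Finset.sum_pos (fun i _ => hJ i) ⟨0, Finset.mem_range.2 (by omega)⟩
  have h1 : mean p q f n r x = (∑ i ∈ Finset.range r, (J p q (n + i) : ℝ) *
      mean p q f (n + i) 1 x) / ∑ i ∈ Finset.range r, (J p q (n + i) : ℝ) := by
    unfold mean
    rw [sum_window hp hq h n r (fun t => f (t • x)), card_window hp hq h n r]
    push_cast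
    congr 1
    refine Finset.sum_congr rfl fun i _ => ?_
    have h2 := mean_one hp hq h (n + i) f x
    unfold mean at h2
    rw [h2, mul_div_cancel₀ _ (hJ i).ne']
  have h2 : mean p q f n r x - L = (∑ i ∈ Finset.range r, (J p q (n + i) : ℝ) *
      (mean p q f (n + i) 1 x - L)) / ∑ i ∈ Finset.range r, (J p q (n + i) : ℝ) := by
    rw [h1, eq_div_iff hS.ne', sub_mul, div_mul_cancel₀ _ hS.ne']
    simp only [mul_sub, Finset.sum_sub_distrib, ← Finset.sum_mul]
    ring
  rw [Real.dist_eq, h2, abs_div, abs_of_pos hS, div_lt_iff₀ hS]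
  have h3 : |∑ i ∈ Finset.range r, (J p q (n + i) : ℝ) * (mean p q f (n + i) 1 x - L)| ≤
      ∑ i ∈ Finset.range r, (J p q (n + i) : ℝ) * (ε / 2) := by
    refine (Finset.abs_sum_le_sum_abs _ _).trans (Finset.sum_le_sum fun i _ => ?_)
    rw [abs_mul, abs_of_pos (hJ i)]
    refine mul_le_mul_of_nonneg_left ?_ (hJ i).le
    have h4 := hN (n + i) (by omega)
    rw [Real.dist_eq] at h4
    exact h4.le
  rw [← Finset.sum_mul] at h3
  nlinarith

end Pool.Agent.H.MP_96e181_an.Win
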