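import Mathlib
import Pool.Agent.H.MP_96e181_an.win.Defs

set_option autoImplicit false

/-! Bounded branching implies dimension zero -/

namespace Pool.Agent.H.MP_96e181_an.Win

open MeasureTheory Filter Topology
open scoped ENNReal NNReal

variable {p q : ℕ}

/-- A property of finite sets which bounds the cardinality has a set of maximal cardinality. -/
theorem dimzero_exists_max {α : Type*} {K : ℕ} (Q : Finset α → Prop) (h0 : Q ∅)
    (hK : ∀ S, Q S → S.card ≤ K) : ∃ S, Q S ∧ ∀ T, Q T → T.card ≤ S.card := by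
  classical
  have h1 : ∃ S, Q S ∧ S.card = Nat.findGreatest (fun n => ∃ S, Q S ∧ S.card = n) K :=
    Nat.findGreatest_spec (P := fun n => ∃ S, Q S ∧ S.card = n) (Nat.zero_le K) ⟨∅, h0, rfl⟩
  obtain ⟨S, hS, hc⟩ := h1
  refine ⟨S, hS, fun T hT => ?_⟩
  rw [hc]
  exact Nat.le_findGreatest (hK T hT) ⟨T, hT, rfl⟩

/-- The cover of one cell. -/
theorem dimzero_cell {A : Set UnitAddCircle} {K D W : ℕ} (hp : 2 ≤ p) (hW : 2 ≤ W)
    (hA : ∀ S : Finset UnitAddCircle, (S : Set UnitAddCircle) ⊆ A →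
      (∀ x ∈ S, ∀ y ∈ S, x ≠ y →
        1 / (p : ℝ) ^ (D + W) ≤ ‖x - y‖ ∧ ‖x - y‖ ≤ 1 / (p : ℝ) ^ D) → S.card ≤ K)
    (c : UnitAddCircle) :
    ∃ S : Finset UnitAddCircle, S.card ≤ K ∧
      ∀ x ∈ A, ‖x - c‖ ≤ 1 / (2 * (p : ℝ) ^ D) →
        ∃ y ∈ S, ‖x - y‖ ≤ 1 / (2 * (p : ℝ) ^ (D + (W - 1))) := by
  classical
  have hp0 : (0 : ℝ) < p := by exact_mod_cast (by omega : 0 < p)
  set Q : Finset UnitAddCircle → Prop := fun S =>
    ((S : Set UnitAddCircle) ⊆ A ∧ ∀ x ∈ S, ‖x - c‖ ≤ 1 / (2 * (p : ℝ) ^ D)) ∧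
      ∀ x ∈ S, ∀ y ∈ S, x ≠ y → 1 / (p : ℝ) ^ (D + W) ≤ ‖x - y‖ with hQ
  have hQK : ∀ S, Q S → S.card ≤ K := by
    rintro S ⟨⟨h1, h2⟩, h3⟩
    refine hA S h1 fun x hx y hy hxy => ⟨h3 x hx y hy hxy, ?_⟩
    have h4 := h2 x hx
    have h5 := h2 y hy
    have h6 : ‖x - y‖ ≤ ‖x - c‖ + ‖y - c‖ := by
      calc ‖x - y‖ = ‖(x - c) - (y - c)‖ := by rw [sub_sub_sub_cancel_right]
        _ ≤ _ := norm_sub_le _ _
    have h7 : 1 / (2 * (p : ℝ) ^ D) + 1 / (2 * (p : ℝ) ^ D) = 1 / (p : ℝ) ^ D := by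
      field_simp; norm_num
    linarith
  obtain ⟨S, hS, hmax⟩ := dimzero_exists_max Q ⟨⟨by simp, by simp⟩, by simp⟩ hQK
  refine ⟨S, hQK S hS, fun x hx hxc => ?_⟩
  by_contra hcon
  push Not at hcon
  have h1 : 1 / (p : ℝ) ^ (D + W) ≤ 1 / (2 * (p : ℝ) ^ (D + (W - 1))) := by
    have h2 : (p : ℝ) ^ (D + W) = p * (p : ℝ) ^ (D + (W - 1)) := by
      rw [← pow_succ']; congr 1; omega
    rw [h2]
    refine one_div_le_one_div_of_le (by positivity) ?_
    exact mul_le_mul_of_nonneg_right (by exact_mod_cast hp) (by positivity)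
  have hpos : 0 < 1 / (2 * (p : ℝ) ^ (D + (W - 1))) := by positivity
  have hxS : x ∉ S := fun h => by
    have h3 := hcon x h
    rw [sub_self, norm_zero] at h3
    linarith
  obtain ⟨⟨g1, g2⟩, g3⟩ := hS
  have hQ' : Q (insert x S) := by
    refine ⟨⟨?_, ?_⟩, ?_⟩
    · intro y hy
      rcases Finset.mem_insert.mp (Finset.mem_coe.mp hy) with h | h
      · rw [h]; exact hx
      · exact g1 (Finset.mem_coe.mpr h)
    · intro y hy
      rcases Finset.mem_insert.mp hy with h | h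
      · rw [h]; exact hxc
      · exact g2 y h
    · intro y hy z hz hyz
      rcases Finset.mem_insert.mp hy with h | h
      · rcases Finset.mem_insert.mp hz with h' | h'
        · exact absurd (h.trans h'.symm) hyz
        · rw [h]; exact h1.trans (hcon z h').le
      · rcases Finset.mem_insert.mp hz with h' | h'
        · rw [h', norm_sub_rev]; exact h1.trans (hcon y h).le
        · exact g3 y h z h' hyz
  have h4 := hmax _ hQ'
  rw [Finset.card_insert_of_notMem hxS] at h4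
  omega

/-- The cover of the set. -/
theorem dimzero_cover {A : Set UnitAddCircle} {K D₀ W : ℕ} (hp : 2 ≤ p) (hW : 2 ≤ W)
    (hA : ∀ D ≥ D₀, ∀ S : Finset UnitAddCircle, (S : Set UnitAddCircle) ⊆ A →
      (∀ x ∈ S, ∀ y ∈ S, x ≠ y →
        1 / (p : ℝ) ^ (D + W) ≤ ‖x - y‖ ∧ ‖x - y‖ ≤ 1 / (p : ℝ) ^ D) → S.card ≤ K) :
    ∃ M : ℕ, ∀ j : ℕ, ∃ C : Finset UnitAddCircle, C.card ≤ M * K ^ j ∧
      ∀ x ∈ A, ∃ c ∈ C, ‖x - c‖ ≤ 1 / (2 * (p : ℝ) ^ (D₀ + j * (W - 1))) := by
  classical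
  have hp0 : (0 : ℝ) < p := by exact_mod_cast (by omega : 0 < p)
  obtain ⟨t, -, htf, ht⟩ := (isCompact_univ (X := UnitAddCircle)).finite_cover_balls
    (e := 1 / (2 * (p : ℝ) ^ D₀)) (by positivity)
  refine ⟨htf.toFinset.card, fun j => ?_⟩
  induction j with
  | zero =>
    refine ⟨htf.toFinset, by simp, fun x _ => ?_⟩
    obtain ⟨c, hc, hxc⟩ := Set.mem_iUnion₂.mp (ht (Set.mem_univ x))
    refine ⟨c, htf.mem_toFinset.mpr hc, ?_⟩
    rw [Metric.mem_ball, dist_eq_norm] at hxc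
    rw [zero_mul, add_zero]
    exact hxc.le
  | succ j ih =>
    obtain ⟨C, hC, hcov⟩ := ih
    choose S hSK hS using fun c =>
      dimzero_cell hp hW (hA (D₀ + j * (W - 1)) (Nat.le_add_right _ _)) c
    refine ⟨C.biUnion S, ?_, fun x hx => ?_⟩
    · calc (C.biUnion S).card ≤ C.card * K :=
            Finset.card_biUnion_le_card_mul _ _ _ (fun c _ => hSK c)
        _ ≤ htf.toFinset.card * K ^ j * K := Nat.mul_le_mul_right _ hC
        _ = htf.toFinset.card * K ^ (j + 1) := by ring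
    · obtain ⟨c, hc, hxc⟩ := hcov x hx
      obtain ⟨y, hy, hxy⟩ := hS c x hx hxc
      refine ⟨y, Finset.mem_biUnion.mpr ⟨c, hc, hy⟩, ?_⟩
      have h1 : D₀ + (j + 1) * (W - 1) = D₀ + j * (W - 1) + (W - 1) := by ring
      rw [h1]
      exact hxy

/-- A set with a bounded number of branches in windows of arbitrary length has dimension `0`.

Proof: let `0 < s`, choose `W ≥ 2` with `K < p ^ (s (W - 1))` and then `D₀`. For a set `I` of
diameter at most `p ^ -D` (`D ≥ D₀`) a maximal subset of `A ∩ I` with mutual distances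
`≥ p ^ -(D + W)` has at most `K` points, so `A ∩ I` is covered by `K` closed balls of radius
`p ^ -(D + W)`, of diameter at most `p ^ -(D + W - 1)`. Starting from a finite cover of the circle
by `M` sets of diameter `≤ p ^ -D₀`, `A` is covered by `M K ^ j` sets of diameter at most
`p ^ -(D₀ + j (W - 1))`, so `μH[s] A = 0` (`hausdorffMeasure_le_liminf_sum`), and
`dimH A ≤ s` (`dimH_le_of_hausdorffMeasure_ne_top`). -/
theorem dimH_zero (hp : 2 ≤ p) {A : Set UnitAddCircle} {K : ℕ}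
    (hA : ∀ W : ℕ, ∃ D₀ : ℕ, ∀ D ≥ D₀, ∀ S : Finset UnitAddCircle, (S : Set UnitAddCircle) ⊆ A →
      (∀ x ∈ S, ∀ y ∈ S, x ≠ y →
        1 / (p : ℝ) ^ (D + W) ≤ ‖x - y‖ ∧ ‖x - y‖ ≤ 1 / (p : ℝ) ^ D) → S.card ≤ K) :
    dimH A = 0 := by
  have hp0 : (0 : ℝ) < p := by exact_mod_cast (by omega : 0 < p)
  have hp1 : (1 : ℝ) < p := by exact_mod_cast (by omega : 1 < p)
  have key : ∀ s : ℝ≥0, 0 < s → dimH A ≤ s := by
    intro s hs
    have hs' : (0 : ℝ) < s := hs
    obtain ⟨W, hW, hKW⟩ : ∃ W : ℕ, 2 ≤ W ∧ (K : ℝ) ≤ ((p : ℝ) ^ (s : ℝ)) ^ (W - 1) := by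
      have h1 : (1 : ℝ) < (p : ℝ) ^ (s : ℝ) := Real.one_lt_rpow hp1 hs'
      obtain ⟨n, hn⟩ := pow_unbounded_of_one_lt (K : ℝ) h1
      refine ⟨n + 2, by omega, ?_⟩
      exact hn.le.trans (pow_le_pow_right₀ h1.le (by omega))
    obtain ⟨D₀, hD₀⟩ := hA W
    obtain ⟨M, hM⟩ := dimzero_cover hp hW hD₀
    choose C hCcard hCcov using hM
    have hmeas : μH[(s : ℝ)] A ≤ ENNReal.ofReal M := by
      set r : ℕ → ℝ≥0∞ := fun j => ENNReal.ofReal (1 / (p : ℝ) ^ (D₀ + j * (W - 1))) with hrd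
      have hr : Tendsto r atTop (𝓝 0) := by
        rw [← ENNReal.ofReal_zero]
        refine ENNReal.tendsto_ofReal ?_
        have h1 : Tendsto (fun j : ℕ => (1 / (p : ℝ)) ^ j) atTop (𝓝 0) :=
          tendsto_pow_atTop_nhds_zero_of_lt_one (by positivity) (by
            rw [div_lt_one hp0]; exact hp1)
        refine squeeze_zero (fun j => by positivity) (fun j => ?_) h1
        rw [one_div_pow]
        refine one_div_le_one_div_of_le (by positivity) ?_
        refine pow_le_pow_right₀ hp1.le ?_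
        have h2 : 1 ≤ W - 1 := by omega
        nlinarith
      have hdiam : ∀ j (c : C j), Metric.ediam {x : UnitAddCircle |
          ‖x - (c : UnitAddCircle)‖ ≤ 1 / (2 * (p : ℝ) ^ (D₀ + j * (W - 1)))} ≤ r j := by
        intro j c
        refine Metric.ediam_le_of_forall_dist_le fun x hx y hy => ?_
        have h4 : ‖x - (c : UnitAddCircle)‖ ≤ 1 / (2 * (p : ℝ) ^ (D₀ + j * (W - 1))) := hx
        have h5 : ‖y - (c : UnitAddCircle)‖ ≤ 1 / (2 * (p : ℝ) ^ (D₀ + j * (W - 1))) := hy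
        have h6 : ‖x - y‖ ≤ ‖x - (c : UnitAddCircle)‖ + ‖y - (c : UnitAddCircle)‖ := by
          calc ‖x - y‖ = ‖(x - (c : UnitAddCircle)) - (y - c)‖ := by
                rw [sub_sub_sub_cancel_right]
            _ ≤ _ := norm_sub_le _ _
        have h7 : 1 / (2 * (p : ℝ) ^ (D₀ + j * (W - 1))) + 1 / (2 * (p : ℝ) ^ (D₀ + j * (W - 1))) =
            1 / (p : ℝ) ^ (D₀ + j * (W - 1)) := by
          field_simp; norm_num
        rw [dist_eq_norm]
        linarith
      have hle := Measure.hausdorffMeasure_le_liminf_sum (s : ℝ) A (l := atTop) r hr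
        (fun j (c : C j) => {x : UnitAddCircle |
          ‖x - (c : UnitAddCircle)‖ ≤ 1 / (2 * (p : ℝ) ^ (D₀ + j * (W - 1)))})
        (Eventually.of_forall hdiam) (Eventually.of_forall fun j x hx => by
          obtain ⟨c, hc, hxc⟩ := hCcov j x hx
          exact Set.mem_iUnion.mpr ⟨⟨c, hc⟩, hxc⟩)
      refine hle.trans ?_
      refine (liminf_le_of_frequently_le' (Frequently.of_forall fun j => ?_))
      calc ∑ c : C j, Metric.ediam {x : UnitAddCircle |
          ‖x - (c : UnitAddCircle)‖ ≤ 1 / (2 * (p : ℝ) ^ (D₀ + j * (W - 1)))} ^ (s : ℝ)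
          ≤ ∑ _c : C j, (r j) ^ (s : ℝ) := Finset.sum_le_sum fun c _ =>
            ENNReal.rpow_le_rpow (hdiam j c) hs'.le
        _ = (C j).card * (r j) ^ (s : ℝ) := by
            rw [Finset.sum_const, Finset.card_univ, Fintype.card_coe, nsmul_eq_mul]
        _ ≤ ((M * K ^ j : ℕ) : ℝ≥0∞) * (r j) ^ (s : ℝ) := by
            gcongr
            exact_mod_cast hCcard j
        _ = ENNReal.ofReal (((M * K ^ j : ℕ) : ℝ) *
            (1 / (p : ℝ) ^ (D₀ + j * (W - 1))) ^ (s : ℝ)) := by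
            rw [ENNReal.ofReal_mul (by positivity), ENNReal.ofReal_natCast, hrd]
            simp only
            rw [ENNReal.ofReal_rpow_of_pos (by positivity)]
        _ ≤ ENNReal.ofReal M := by
            refine ENNReal.ofReal_le_ofReal ?_
            have h8 : (1 / (p : ℝ) ^ (D₀ + j * (W - 1))) ^ (s : ℝ) ≤
                1 / (((p : ℝ) ^ (s : ℝ)) ^ (W - 1)) ^ j := by
              rw [Real.div_rpow (by norm_num) (by positivity), Real.one_rpow]
              refine one_div_le_one_div_of_le (by positivity) ?_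
              rw [← pow_mul, ← Real.rpow_natCast, ← Real.rpow_natCast, ← Real.rpow_mul hp0.le,
                ← Real.rpow_mul hp0.le]
              refine Real.rpow_le_rpow_of_exponent_le hp1.le ?_
              push_cast
              have h9 : (0 : ℝ) ≤ D₀ := Nat.cast_nonneg _
              nlinarith
            have h10 : (K : ℝ) ^ j ≤ (((p : ℝ) ^ (s : ℝ)) ^ (W - 1)) ^ j :=
              pow_le_pow_left₀ (Nat.cast_nonneg _) hKW j
            have h11 : (0 : ℝ) < (((p : ℝ) ^ (s : ℝ)) ^ (W - 1)) ^ j := by positivity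
            push_cast
            calc (M : ℝ) * (K : ℝ) ^ j * (1 / (p : ℝ) ^ (D₀ + j * (W - 1))) ^ (s : ℝ)
                ≤ (M : ℝ) * (((p : ℝ) ^ (s : ℝ)) ^ (W - 1)) ^ j *
                  (1 / (((p : ℝ) ^ (s : ℝ)) ^ (W - 1)) ^ j) := by gcongr
              _ = M := by field_simp
    exact dimH_le_of_hausdorffMeasure_ne_top (ne_top_of_le_ne_top ENNReal.ofReal_ne_top hmeas)
  refine le_antisymm ?_ zero_le
  refine ENNReal.le_of_forall_pos_le_add fun ε hε _ => ?_
  rw [zero_add]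
  exact key ε hε

end Pool.Agent.H.MP_96e181_an.Win
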