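import Mathlib
import Pool.Agent.H.MP_96e181_an.win.DimZero
import Pool.Agent.H.MP_96e181_an.win.Cluster

set_option autoImplicit false

/-! The bad sets have dimension zero -/

namespace Pool.Agent.H.MP_96e181_an.Win

open MeasureTheory Filter Topology
open scoped ENNReal NNReal

variable {p q : ℕ}

/-- The set where some character of frequency `≤ H` keeps a large mean. -/
theorem dimH_bad (hp : 2 ≤ p) (hq : 2 ≤ q)
    (h : Irrational (Real.log (p : ℝ) / Real.log (q : ℝ))) {δ : ℝ} (hδ : 0 < δ) (H N : ℕ) :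
    dimH {x : UnitAddCircle | ∀ n ≥ N, ∃ m : ℕ, 1 ≤ m ∧ m ≤ H ∧ δ ≤ ‖cm p q n (m : ℤ) x‖} = 0 := by
  obtain ⟨C, K, hCK⟩ := cluster hp hq h hδ H
  refine dimH_zero hp (K := K) fun W => ?_
  obtain ⟨D₀, hD₀⟩ := hCK W
  refine ⟨max D₀ N, fun D hD S hS hdist => hD₀ D (le_of_max_le_left hD) S hdist fun x hx => ?_⟩
  exact hS hx (D + W + C) (by have := le_of_max_le_right hD; omega)

end Pool.Agent.H.MP_96e181_an.Win
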