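import Mathlib
import Pool.Agent.H.MP_96e181_an.win.Basic2

set_option autoImplicit false

/-! Valuations of the elements of a window -/

namespace Pool.Agent.H.MP_96e181_an.Win

open MeasureTheory Filter Topology
open scoped ENNReal NNReal

variable {p q : ℕ}

/-- `log n` as a sum over a finite set containing the prime factors. -/
private theorem energy1_log_sum (n : ℕ) (S : Finset ℕ) (hS : n.primeFactors ⊆ S) :
    Real.log (n : ℝ) = ∑ l ∈ S, (n.factorization l : ℝ) * Real.log (l : ℝ) := by
  rw [Real.log_nat_eq_sum_factorization n]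
  exact Finsupp.sum_of_support_subset _ (by simpa using hS) _ (by intro i _; simp)

/-- Two primes with slopes of opposite sign: since
`∑_l (v_l(q) - β v_l(p)) log l = log q - β log p = 0` and not all the coefficients vanish (otherwise
`β` would be rational), there are primes `l, l'` with `v_l(q) > β v_l(p)` and
`v_{l'}(q) < β v_{l'}(p)`. -/
theorem exists_primes (hp : 2 ≤ p) (hq : 2 ≤ q)
    (h : Irrational (Real.log (p : ℝ) / Real.log (q : ℝ))) :
    ∃ l l' : ℕ, l.Prime ∧ l'.Prime ∧
      beta p q * (p.factorization l : ℝ) < (q.factorization l : ℝ) ∧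
      (q.factorization l' : ℝ) < beta p q * (p.factorization l' : ℝ) := by
  classical
  set S : Finset ℕ := p.primeFactors ∪ q.primeFactors with hSdef
  have hSprime : ∀ l ∈ S, l.Prime := by
    intro l hl
    rcases Finset.mem_union.1 hl with h1 | h1
    · exact Nat.prime_of_mem_primeFactors h1
    · exact Nat.prime_of_mem_primeFactors h1
  have hlp : 0 < Real.log (p : ℝ) := Real.log_pos (by exact_mod_cast (by omega : 1 < p))
  set f : ℕ → ℝ := fun l =>
    ((q.factorization l : ℝ) - beta p q * (p.factorization l : ℝ)) * Real.log (l : ℝ) with hf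
  have hsum : ∑ l ∈ S, f l = 0 := by
    have h1 := energy1_log_sum p S Finset.subset_union_left
    have h2 := energy1_log_sum q S Finset.subset_union_right
    have h3 : ∑ l ∈ S, f l = Real.log (q : ℝ) - beta p q * Real.log (p : ℝ) := by
      rw [h1, h2, Finset.mul_sum, ← Finset.sum_sub_distrib]
      refine Finset.sum_congr rfl fun l _ => ?_
      simp only [hf]
      ring
    rw [h3]
    unfold beta
    rw [div_mul_cancel₀ _ hlp.ne', sub_self]
  have hirr := irrational_beta (p := p) (q := q) h
  obtain ⟨l0, hl0p, hl0⟩ := Nat.exists_prime_and_dvd (by omega : p ≠ 1)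
  have hl0S : l0 ∈ S := Finset.mem_union_left _ (Nat.mem_primeFactors.2 ⟨hl0p, hl0, by omega⟩)
  have hv0 : 0 < p.factorization l0 := hl0p.factorization_pos_of_dvd (by omega) hl0
  have hlogpos : ∀ l : ℕ, l.Prime → 0 < Real.log (l : ℝ) := fun l hl =>
    Real.log_pos (by exact_mod_cast hl.one_lt)
  have hne : f l0 ≠ 0 := by
    intro h0
    simp only [hf] at h0
    rcases mul_eq_zero.1 h0 with h1 | h1
    · have h2 : beta p q = ((q.factorization l0 : ℚ) / (p.factorization l0 : ℚ) : ℚ) := by
        have h3 : (p.factorization l0 : ℝ) ≠ 0 := by exact_mod_cast hv0.ne'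
        push_cast
        rw [eq_div_iff h3]
        linarith
      exact hirr ⟨_, h2.symm⟩
    · exact (hlogpos l0 hl0p).ne' h1
  obtain ⟨l, hlS, hl⟩ := Finset.exists_pos_of_sum_zero_of_exists_nonzero f hsum ⟨l0, hl0S, hne⟩
  obtain ⟨l', hlS', hl'⟩ := Finset.exists_pos_of_sum_zero_of_exists_nonzero (fun l => - f l)
    (by rw [Finset.sum_neg_distrib, hsum, neg_zero]) ⟨l0, hl0S, neg_ne_zero.2 hne⟩
  refine ⟨l, l', hSprime l hlS, hSprime l' hlS', ?_, ?_⟩
  · have h1 := hlogpos l (hSprime l hlS)
    have h2 : 0 < (q.factorization l : ℝ) - beta p q * (p.factorization l : ℝ) := by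
      by_contra hcon
      push Not at hcon
      have := mul_nonpos_of_nonpos_of_nonneg hcon h1.le
      simp only [hf] at hl
      linarith
    linarith
  · have h1 := hlogpos l' (hSprime l' hlS')
    have h2 : (q.factorization l' : ℝ) - beta p q * (p.factorization l' : ℝ) < 0 := by
      by_contra hcon
      push Not at hcon
      have := mul_nonneg hcon h1.le
      simp only [hf] at hl'
      linarith
    linarith

private theorem energy1_fact (hp : 2 ≤ p) (hq : 2 ≤ q) (n j l : ℕ) :
    (tau p q n j).factorization l =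
      (n - Nat.log p (q ^ j)) * p.factorization l + j * q.factorization l := by
  unfold tau
  rw [Nat.factorization_mul (pow_ne_zero _ (by omega)) (pow_ne_zero _ (by omega))]
  simp [Nat.factorization_pow]

/-- The valuations of `tau n j` are monotone in `j` up to a bounded error. -/
theorem exists_gap (hp : 2 ≤ p) (hq : 2 ≤ q)
    (h : Irrational (Real.log (p : ℝ) / Real.log (q : ℝ))) :
    ∃ l l' K : ℕ, l.Prime ∧ l'.Prime ∧ 0 < K ∧ ∀ n i j : ℕ, i + K ≤ j → j < J p q n →
      (tau p q n i).factorization l < (tau p q n j).factorization l ∧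
      (tau p q n j).factorization l' < (tau p q n i).factorization l' := by
  obtain ⟨l, l', hl, hl', h1, h2⟩ := exists_primes hp hq h
  set β := beta p q with hβ
  set a : ℝ := (p.factorization l : ℝ) with ha
  set b : ℝ := (q.factorization l : ℝ) with hb
  set a' : ℝ := (p.factorization l' : ℝ) with ha'
  set b' : ℝ := (q.factorization l' : ℝ) with hb'
  have ha0 : 0 ≤ a := Nat.cast_nonneg _
  have ha0' : 0 ≤ a' := Nat.cast_nonneg _
  obtain ⟨K1, hK1⟩ := exists_nat_gt (a / (b - β * a))
  obtain ⟨K2, hK2⟩ := exists_nat_gt (a' / (β * a' - b'))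
  have hc : 0 < b - β * a := by linarith
  have hc' : 0 < β * a' - b' := by linarith
  rw [div_lt_iff₀ hc] at hK1
  rw [div_lt_iff₀ hc'] at hK2
  refine ⟨l, l', K1 + K2 + 1, hl, hl', by omega, fun n i j hij hj => ?_⟩
  have hi : i < J p q n := by omega
  have hli := log_le hp hq h hi
  have hlj := log_le hp hq h hj
  have hfi := log_eq_floor hp hq i
  have hfj := log_eq_floor hp hq j
  have e1 : ((Nat.log p (q ^ i) : ℕ) : ℝ) ≤ i * β := by
    have := Int.floor_le ((i : ℝ) * β)
    rw [← hfi] at this
    exact_mod_cast this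
  have e2 : (i : ℝ) * β < ((Nat.log p (q ^ i) : ℕ) : ℝ) + 1 := by
    have := Int.lt_floor_add_one ((i : ℝ) * β)
    rw [← hfi] at this
    exact_mod_cast this
  have e3 : ((Nat.log p (q ^ j) : ℕ) : ℝ) ≤ j * β := by
    have := Int.floor_le ((j : ℝ) * β)
    rw [← hfj] at this
    exact_mod_cast this
  have e4 : (j : ℝ) * β < ((Nat.log p (q ^ j) : ℕ) : ℝ) + 1 := by
    have := Int.lt_floor_add_one ((j : ℝ) * β)
    rw [← hfj] at this
    exact_mod_cast this
  have hd : (K1 : ℝ) + K2 + 1 ≤ (j : ℝ) - i := by
    have : ((i + (K1 + K2 + 1) : ℕ) : ℝ) ≤ (j : ℝ) := by exact_mod_cast hij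
    push_cast at this
    linarith
  have hK1n : (0 : ℝ) ≤ K1 := Nat.cast_nonneg _
  have hK2n : (0 : ℝ) ≤ K2 := Nat.cast_nonneg _
  rw [energy1_fact hp hq, energy1_fact hp hq, energy1_fact hp hq, energy1_fact hp hq]
  set A := Nat.log p (q ^ i) with hA
  set B := Nat.log p (q ^ j) with hB
  constructor
  · have key : (((n - A) * p.factorization l + i * q.factorization l : ℕ) : ℝ) <
        (((n - B) * p.factorization l + j * q.factorization l : ℕ) : ℝ) := by
      push_cast [Nat.cast_sub hli, Nat.cast_sub hlj]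
      rw [← ha, ← hb]
      have m1 : ((B : ℝ) - A) * a ≤ (((j : ℝ) - i) * β + 1) * a :=
        mul_le_mul_of_nonneg_right (by linarith) ha0
      have m2 : (K1 : ℝ) * (b - β * a) ≤ ((j : ℝ) - i) * (b - β * a) :=
        mul_le_mul_of_nonneg_right (by linarith) hc.le
      nlinarith [m1, m2, hK1]
    exact_mod_cast key
  · have key : (((n - B) * p.factorization l' + j * q.factorization l' : ℕ) : ℝ) <
        (((n - A) * p.factorization l' + i * q.factorization l' : ℕ) : ℝ) := by
      push_cast [Nat.cast_sub hli, Nat.cast_sub hlj]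
      rw [← ha', ← hb']
      have m1 : (((j : ℝ) - i) * β - 1) * a' ≤ ((B : ℝ) - A) * a' :=
        mul_le_mul_of_nonneg_right (by linarith) ha0'
      have m2 : (K2 : ℝ) * (β * a' - b') ≤ ((j : ℝ) - i) * (β * a' - b') :=
        mul_le_mul_of_nonneg_right (by linarith) hc'.le
      nlinarith [m1, m2, hK2]
    exact_mod_cast key

end Pool.Agent.H.MP_96e181_an.Win
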