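import Mathlib
import Pool.Agent.H.MP_96e181_an.win.Energy1

set_option autoImplicit false

/-! The additive energy of a thin window -/

namespace Pool.Agent.H.MP_96e181_an.Win

open MeasureTheory Filter Topology
open scoped ENNReal NNReal

variable {p q : ℕ}

/-- the valuation of a difference of two numbers with different valuations -/
theorem energy2_val {l x y : ℕ} (hl : l.Prime) (hx : x ≠ 0) (hy : y ≠ 0)
    (hxy : x.factorization l < y.factorization l) :
    (Int.natAbs ((x : ℤ) - y)).factorization l = x.factorization l := by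
  have hne : ((x : ℤ) - y).natAbs ≠ 0 := by
    intro h0
    rw [Int.natAbs_eq_zero, sub_eq_zero] at h0
    have : x = y := by exact_mod_cast h0
    rw [this] at hxy
    exact lt_irrefl _ hxy
  have hy' : l ^ (x.factorization l + 1) ∣ y :=
    (hl.pow_dvd_iff_le_factorization hy).2 hxy
  apply le_antisymm
  · by_contra hcon
    push Not at hcon
    have h1 : l ^ (x.factorization l + 1) ∣ ((x : ℤ) - y).natAbs :=
      (hl.pow_dvd_iff_le_factorization hne).2 hcon
    have h2 : ((l ^ (x.factorization l + 1) : ℕ) : ℤ) ∣ (x : ℤ) - y := Int.natCast_dvd.2 h1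
    have h3 : ((l ^ (x.factorization l + 1) : ℕ) : ℤ) ∣ (y : ℤ) := Int.natCast_dvd_natCast.2 hy'
    have h4 : ((l ^ (x.factorization l + 1) : ℕ) : ℤ) ∣ (x : ℤ) := by
      have := dvd_add h2 h3
      simpa using this
    have h5 : l ^ (x.factorization l + 1) ∣ x := Int.natCast_dvd_natCast.1 h4
    have h6 := (hl.pow_dvd_iff_le_factorization hx).1 h5
    omega
  · have h1 : l ^ (x.factorization l) ∣ x := (hl.pow_dvd_iff_le_factorization hx).2 le_rfl
    have h3 : l ^ (x.factorization l) ∣ y :=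
      (hl.pow_dvd_iff_le_factorization hy).2 hxy.le
    have h2 : ((l ^ (x.factorization l) : ℕ) : ℤ) ∣ (x : ℤ) - y :=
      dvd_sub (Int.natCast_dvd_natCast.2 h1) (Int.natCast_dvd_natCast.2 h3)
    exact (hl.pow_dvd_iff_le_factorization hne).1 (Int.natCast_dvd.1 h2)

/-- a set of natural numbers of diameter less than `K` has at most `K` elements -/
theorem energy2_card {K : ℕ} (A : Finset ℕ) (hA : ∀ a ∈ A, ∀ b ∈ A, b < a + K) :
    A.card ≤ K := by
  rcases A.eq_empty_or_nonempty with h | h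
  · rw [h]; simp
  · have h1 : A ⊆ Finset.Ico (A.min' h) (A.min' h + K) := by
      intro b hb
      rw [Finset.mem_Ico]
      exact ⟨A.min'_le b hb, hA _ (A.min'_mem h) b hb⟩
    calc A.card ≤ (Finset.Ico (A.min' h) (A.min' h + K)).card := Finset.card_le_card h1
      _ = K := by simp

/-- The number of far pairs with a given difference. -/
theorem energy2_far {l l' K : ℕ} (hp : 2 ≤ p) (hq : 2 ≤ q) (hl : l.Prime) (hl' : l'.Prime)
    (hgap : ∀ n i j : ℕ, i + K ≤ j → j < J p q n →
      (tau p q n i).factorization l < (tau p q n j).factorization l ∧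
      (tau p q n j).factorization l' < (tau p q n i).factorization l') (n : ℕ) (t : ℤ) :
    (((Finset.range (J p q n)) ×ˢ (Finset.range (J p q n))).filter
      fun v => (v.1 + K ≤ v.2 ∨ v.2 + K ≤ v.1) ∧
        (tau p q n v.1 : ℤ) - tau p q n v.2 = t).card ≤ 2 * K ^ 2 := by
  classical
  have hτ : ∀ j, tau p q n j ≠ 0 := fun j => (tau_pos hp hq n j).ne'
  set x := t.natAbs.factorization l with hx
  set y := t.natAbs.factorization l' with hy
  set R := Finset.range (J p q n) with hR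
  set X := R.filter fun a => (tau p q n a).factorization l = x with hX
  set Y := R.filter fun a => (tau p q n a).factorization l' = y with hY
  have hXc : X.card ≤ K := by
    refine energy2_card X (fun a ha b hb => ?_)
    by_contra hcon
    push Not at hcon
    rw [hX, Finset.mem_filter, hR, Finset.mem_range] at ha hb
    have := (hgap n a b hcon hb.1).1
    rw [ha.2, hb.2] at this
    exact lt_irrefl _ this
  have hYc : Y.card ≤ K := by
    refine energy2_card Y (fun a ha b hb => ?_)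
    by_contra hcon
    push Not at hcon
    rw [hY, Finset.mem_filter, hR, Finset.mem_range] at ha hb
    have := (hgap n a b hcon hb.1).2
    rw [ha.2, hb.2] at this
    exact lt_irrefl _ this
  have hsub : ((R ×ˢ R).filter fun v => (v.1 + K ≤ v.2 ∨ v.2 + K ≤ v.1) ∧
        (tau p q n v.1 : ℤ) - tau p q n v.2 = t) ⊆ (X ×ˢ Y) ∪ (Y ×ˢ X) := by
    rintro ⟨a, c⟩ hv
    rw [Finset.mem_filter, Finset.mem_product] at hv
    obtain ⟨⟨ha, hc⟩, hfar, ht⟩ := hv
    simp only at ha hc hfar ht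
    have ha' := ha
    have hc' := hc
    rw [hR, Finset.mem_range] at ha' hc'
    rw [Finset.mem_union, Finset.mem_product, Finset.mem_product]
    simp only [hX, hY, Finset.mem_filter]
    rcases hfar with hf | hf
    · left
      obtain ⟨g1, g2⟩ := hgap n a c hf hc'
      have e1 := energy2_val hl (hτ a) (hτ c) g1
      have e2 := energy2_val hl' (hτ c) (hτ a) g2
      rw [ht] at e1
      rw [← Int.natAbs_neg, neg_sub, ht] at e2
      exact ⟨⟨ha, e1.symm⟩, hc, e2.symm⟩
    · right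
      obtain ⟨g1, g2⟩ := hgap n c a hf ha'
      have e1 := energy2_val hl (hτ c) (hτ a) g1
      have e2 := energy2_val hl' (hτ a) (hτ c) g2
      rw [ht] at e2
      rw [← Int.natAbs_neg, neg_sub, ht] at e1
      exact ⟨⟨ha, e2.symm⟩, hc, e1.symm⟩
  calc _ ≤ ((X ×ˢ Y) ∪ (Y ×ˢ X)).card := Finset.card_le_card hsub
    _ ≤ (X ×ˢ Y).card + (Y ×ˢ X).card := Finset.card_union_le _ _
    _ = X.card * Y.card + Y.card * X.card := by rw [Finset.card_product, Finset.card_product]
    _ ≤ K * K + K * K := by gcongr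
    _ = 2 * K ^ 2 := by ring

/-- close pairs -/
theorem energy2_close (K N : ℕ) :
    ((Finset.univ : Finset (Fin N × Fin N)).filter
      fun v => (v.1 : ℕ) < (v.2 : ℕ) + K ∧ (v.2 : ℕ) < (v.1 : ℕ) + K).card ≤ 2 * K * N := by
  classical
  have h1 := Finset.card_le_mul_card_image_of_maps_to
    (s := (Finset.univ : Finset (Fin N × Fin N)).filter
      fun v : Fin N × Fin N => (v.1 : ℕ) < (v.2 : ℕ) + K ∧ (v.2 : ℕ) < (v.1 : ℕ) + K)
    (t := (Finset.univ : Finset (Fin N))) (f := fun v : Fin N × Fin N => v.1)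
    (fun _ _ => Finset.mem_univ _) (2 * K) ?_
  · simpa using h1
  · intro a _
    have h2 : ((((Finset.univ : Finset (Fin N × Fin N)).filter
      fun v => (v.1 : ℕ) < (v.2 : ℕ) + K ∧ (v.2 : ℕ) < (v.1 : ℕ) + K).filter
        fun v => v.1 = a).image fun v => (v.2 : ℕ)) ⊆ Finset.Ico ((a : ℕ) - K) ((a : ℕ) + K) := by
      intro c hc
      rw [Finset.mem_image] at hc
      obtain ⟨v, hv, rfl⟩ := hc
      rw [Finset.mem_filter, Finset.mem_filter] at hv
      obtain ⟨⟨_, h3, h4⟩, h5⟩ := hv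
      rw [h5] at h3 h4
      rw [Finset.mem_Ico]
      omega
    have h3 : Set.InjOn (fun v : Fin N × Fin N => (v.2 : ℕ))
        ((((Finset.univ : Finset (Fin N × Fin N)).filter
      fun v => (v.1 : ℕ) < (v.2 : ℕ) + K ∧ (v.2 : ℕ) < (v.1 : ℕ) + K).filter
        fun v => v.1 = a : Finset (Fin N × Fin N)) : Set (Fin N × Fin N)) := by
      intro v hv w hw hvw
      rw [Finset.mem_coe, Finset.mem_filter] at hv hw
      exact Prod.ext (hv.2.trans hw.2.symm) (Fin.ext hvw)
    rw [← Finset.card_image_of_injOn h3]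
    refine (Finset.card_le_card h2).trans ?_
    rw [Nat.card_Ico]
    omega

/-- **Energy bound.** The number of solutions of `τ_a + τ_b = τ_c + τ_d` in a thin window is
`O(J²)`.

Proof: let `l, l', K` be as in `exists_gap`. For a nonzero integer `t` the number of pairs `(a, c)`
with `|a - c| ≥ K` and `τ_a - τ_c = t` is at most `2 (2K)²`: with `a < c` say, `v_l(t) = v_l(τ_a)`
determines `a` up to `2K` values and `v_{l'}(t) = v_{l'}(τ_c)` determines `c` up to `2K` values.
Write `τ_a - τ_c = τ_d - τ_b`. Quadruples with `a = c` (then `b = d`): `J²`. Quadruples with both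
pairs far: at most `J² · 2 (2K)²`. Quadruples with one pair close (`0 < |a - c| < K`, at most
`2 K J` pairs): the other pair is close (at most `2 K J`) or far (at most `2 (2K)²`). -/
theorem energy (hp : 2 ≤ p) (hq : 2 ≤ q)
    (h : Irrational (Real.log (p : ℝ) / Real.log (q : ℝ))) :
    ∃ K : ℕ, ∀ n : ℕ,
      ((Finset.univ : Finset (Fin (J p q n) × Fin (J p q n) × Fin (J p q n) × Fin (J p q n))).filter
        fun v => tau p q n v.1 + tau p q n v.2.1 = tau p q n v.2.2.1 + tau p q n v.2.2.2).card ≤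
        K * (J p q n) ^ 2 := by
  classical
  obtain ⟨l, l', K, hl, hl', hK, hgap⟩ := exists_gap hp hq h
  refine ⟨2 * K ^ 2 + 2 * K ^ 2 + 4 * K ^ 2, fun n => ?_⟩
  set N := J p q n with hN
  set T := Fin N × Fin N × Fin N × Fin N
  set S := (Finset.univ : Finset T).filter
        fun v => tau p q n v.1 + tau p q n v.2.1 = tau p q n v.2.2.1 + tau p q n v.2.2.2 with hS
  set S1 := S.filter fun v => ((v.1 : ℕ) + K ≤ (v.2.2.1 : ℕ) ∨ (v.2.2.1 : ℕ) + K ≤ (v.1 : ℕ))
    with hS1
  set S2 := S.filter fun v => ((v.2.2.2 : ℕ) + K ≤ (v.2.1 : ℕ) ∨ (v.2.1 : ℕ) + K ≤ (v.2.2.2 : ℕ))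
    with hS2
  set P := (Finset.univ : Finset (Fin N × Fin N)).filter
      fun v => (v.1 : ℕ) < (v.2 : ℕ) + K ∧ (v.2 : ℕ) < (v.1 : ℕ) + K with hP
  set S3 := S.filter fun v => (v.1, v.2.2.1) ∈ P ∧ (v.2.2.2, v.2.1) ∈ P with hS3
  have hcov : S ⊆ S1 ∪ S2 ∪ S3 := by
    intro v hv
    have m1 : v ∈ S1 ↔ v ∈ S ∧ ((v.1 : ℕ) + K ≤ (v.2.2.1 : ℕ) ∨ (v.2.2.1 : ℕ) + K ≤ (v.1 : ℕ)) := by
      rw [hS1, Finset.mem_filter]
    have m2 : v ∈ S2 ↔ v ∈ S ∧
        ((v.2.2.2 : ℕ) + K ≤ (v.2.1 : ℕ) ∨ (v.2.1 : ℕ) + K ≤ (v.2.2.2 : ℕ)) := by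
      rw [hS2, Finset.mem_filter]
    have m3 : v ∈ S3 ↔ v ∈ S ∧ (v.1, v.2.2.1) ∈ P ∧ (v.2.2.2, v.2.1) ∈ P := by
      rw [hS3, Finset.mem_filter]
    have m4 : ∀ w : Fin N × Fin N, w ∈ P ↔
        (w.1 : ℕ) < (w.2 : ℕ) + K ∧ (w.2 : ℕ) < (w.1 : ℕ) + K := by
      intro w
      rw [hP, Finset.mem_filter]
      exact ⟨fun h => h.2, fun h => ⟨Finset.mem_univ _, h⟩⟩
    rw [Finset.mem_union, Finset.mem_union, m1, m2, m3, m4, m4]
    by_cases h1 : ((v.1 : ℕ) + K ≤ (v.2.2.1 : ℕ) ∨ (v.2.2.1 : ℕ) + K ≤ (v.1 : ℕ))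
    · exact Or.inl (Or.inl ⟨hv, h1⟩)
    · by_cases h2 : ((v.2.2.2 : ℕ) + K ≤ (v.2.1 : ℕ) ∨ (v.2.1 : ℕ) + K ≤ (v.2.2.2 : ℕ))
      · exact Or.inl (Or.inr ⟨hv, h2⟩)
      · refine Or.inr ⟨hv, ?_, ?_⟩
        · simp only; omega
        · simp only; omega
  have hc1 : S1.card ≤ 2 * K ^ 2 * (N ^ 2) := by
    have h1 := Finset.card_le_mul_card_image_of_maps_to
      (s := S1) (t := (Finset.univ : Finset (Fin N × Fin N))) (f := fun v => (v.2.1, v.2.2.2))
      (fun _ _ => Finset.mem_univ _) (2 * K ^ 2) ?_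
    · have h2 : (Finset.univ : Finset (Fin N × Fin N)).card = N ^ 2 := by
        rw [Finset.card_univ, Fintype.card_prod, Fintype.card_fin, sq]
      rwa [h2] at h1
    · rintro ⟨b, d⟩ _
      refine le_trans ?_ (energy2_far hp hq hl hl' hgap n
        ((tau p q n d : ℤ) - tau p q n b))
      refine Finset.card_le_card_of_injOn (fun v : T => ((v.1 : ℕ), (v.2.2.1 : ℕ))) ?_ ?_
      · intro v hv
        rw [Finset.mem_coe, Finset.mem_filter, hS1, Finset.mem_filter, hS, Finset.mem_filter] at hv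
        obtain ⟨⟨⟨_, h3⟩, h4⟩, h5⟩ := hv
        rw [Prod.mk.injEq] at h5
        obtain ⟨h5, h6⟩ := h5
        rw [Finset.mem_coe, Finset.mem_filter, Finset.mem_product, Finset.mem_range,
          Finset.mem_range]
        refine ⟨⟨v.1.2, v.2.2.1.2⟩, h4, ?_⟩
        rw [h5, h6] at h3
        have h7 : (tau p q n v.1 : ℤ) + tau p q n b = tau p q n v.2.2.1 + tau p q n d := by
          exact_mod_cast h3
        simp only
        linarith
      · intro v hv w hw hvw
        rw [Finset.mem_coe, Finset.mem_filter] at hv hw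
        have h5 := hv.2.trans hw.2.symm
        rw [Prod.mk.injEq] at h5
        simp only [Prod.mk.injEq] at hvw
        exact Prod.ext (Fin.ext hvw.1) (Prod.ext h5.1 (Prod.ext (Fin.ext hvw.2) h5.2))
  have hc2 : S2.card ≤ 2 * K ^ 2 * (N ^ 2) := by
    have h1 := Finset.card_le_mul_card_image_of_maps_to
      (s := S2) (t := (Finset.univ : Finset (Fin N × Fin N))) (f := fun v => (v.1, v.2.2.1))
      (fun _ _ => Finset.mem_univ _) (2 * K ^ 2) ?_
    · have h2 : (Finset.univ : Finset (Fin N × Fin N)).card = N ^ 2 := by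
        rw [Finset.card_univ, Fintype.card_prod, Fintype.card_fin, sq]
      rwa [h2] at h1
    · rintro ⟨a, c⟩ _
      refine le_trans ?_ (energy2_far hp hq hl hl' hgap n
        ((tau p q n a : ℤ) - tau p q n c))
      refine Finset.card_le_card_of_injOn (fun v : T => ((v.2.2.2 : ℕ), (v.2.1 : ℕ))) ?_ ?_
      · intro v hv
        rw [Finset.mem_coe, Finset.mem_filter, hS2, Finset.mem_filter, hS, Finset.mem_filter] at hv
        obtain ⟨⟨⟨_, h3⟩, h4⟩, h5⟩ := hv
        rw [Prod.mk.injEq] at h5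
        obtain ⟨h5, h6⟩ := h5
        rw [Finset.mem_coe, Finset.mem_filter, Finset.mem_product, Finset.mem_range,
          Finset.mem_range]
        refine ⟨⟨v.2.2.2.2, v.2.1.2⟩, h4, ?_⟩
        rw [h5, h6] at h3
        have h7 : (tau p q n a : ℤ) + tau p q n v.2.1 = tau p q n c + tau p q n v.2.2.2 := by
          exact_mod_cast h3
        simp only
        linarith
      · intro v hv w hw hvw
        rw [Finset.mem_coe, Finset.mem_filter] at hv hw
        have h5 := hv.2.trans hw.2.symm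
        rw [Prod.mk.injEq] at h5
        simp only [Prod.mk.injEq] at hvw
        exact Prod.ext h5.1 (Prod.ext (Fin.ext hvw.2) (Prod.ext h5.2 (Fin.ext hvw.1)))
  have hc3 : S3.card ≤ 4 * K ^ 2 * (N ^ 2) := by
    have h1 : S3.card ≤ (P ×ˢ P).card := by
      refine Finset.card_le_card_of_injOn
        (fun v : T => ((v.1, v.2.2.1), (v.2.2.2, v.2.1))) ?_ ?_
      · intro v hv
        rw [Finset.mem_coe, hS3, Finset.mem_filter] at hv
        rw [Finset.mem_coe, Finset.mem_product]
        exact hv.2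
      · intro v _ w _ hvw
        simp only [Prod.mk.injEq] at hvw
        obtain ⟨⟨h1, h2⟩, h3, h4⟩ := hvw
        exact Prod.ext h1 (Prod.ext h4 (Prod.ext h2 h3))
    rw [Finset.card_product] at h1
    have h2 := energy2_close K N
    calc S3.card ≤ P.card * P.card := h1
      _ ≤ (2 * K * N) * (2 * K * N) := Nat.mul_le_mul h2 h2
      _ = 4 * K ^ 2 * N ^ 2 := by ring
  calc S.card ≤ (S1 ∪ S2 ∪ S3).card := Finset.card_le_card hcov
    _ ≤ (S1 ∪ S2).card + S3.card := Finset.card_union_le _ _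
    _ ≤ S1.card + S2.card + S3.card := by gcongr; exact Finset.card_union_le _ _
    _ ≤ 2 * K ^ 2 * N ^ 2 + 2 * K ^ 2 * N ^ 2 + 4 * K ^ 2 * N ^ 2 := by gcongr
    _ = (2 * K ^ 2 + 2 * K ^ 2 + 4 * K ^ 2) * N ^ 2 := by ring

end Pool.Agent.H.MP_96e181_an.Win
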