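import Mathlib
import Pool.Agent.H.MP_96e181_an.win.Energy2

set_option autoImplicit false

/-! Fourth moment -/

namespace Pool.Agent.H.MP_96e181_an.Win

open MeasureTheory Filter Topology
open scoped ENNReal NNReal

variable {p q : ℕ}

theorem energy3_int (a : ℤ) :
    ∫ x : UnitAddCircle, (fourier a x : ℂ) = if a = 0 then 1 else 0 := by
  have h := fourierCoeff_fourier (T := (1:ℝ)) a
  have h2 := congrFun h 0
  rw [fourierCoeff] at h2
  simp only [neg_zero, fourier_zero, one_smul] at h2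
  rw [Pi.single_apply] at h2
  have h3 := AddCircle.volume_eq_smul_haarAddCircle (T := (1:ℝ))
  rw [h3]
  simp only [ENNReal.ofReal_one, one_smul]
  rw [h2]
  by_cases ha : a = 0
  · rw [if_pos ha, if_pos ha.symm]
  · rw [if_neg ha, if_neg (fun h => ha h.symm)]

theorem energy3_apply (m : ℤ) (s : ℕ) (x : UnitAddCircle) :
    (fourier m (s • x) : ℂ) = fourier (m * s) x := by
  rw [fourier_apply, fourier_apply, mul_smul, natCast_zsmul]

theorem energy3_integrable (a : ℤ) :
    Integrable (fun x : UnitAddCircle => (fourier a x : ℂ)) :=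
  (map_continuous (fourier a)).integrable_of_hasCompactSupport
    (HasCompactSupport.of_compactSpace _)

theorem energy3_count {J : ℕ} (t : Fin J → ℕ) {m : ℤ} (hm : m ≠ 0) :
    ∫ x : UnitAddCircle, ‖∑ j, (fourier (m * t j) x : ℂ)‖ ^ 4 =
      (((Finset.univ : Finset (Fin J × Fin J × Fin J × Fin J)).filter
        fun v => t v.1 + t v.2.1 = t v.2.2.1 + t v.2.2.2).card : ℝ) := by
  have h1 : ∀ x : UnitAddCircle, ((‖∑ j, (fourier (m * t j) x : ℂ)‖ ^ 4 : ℝ) : ℂ) =
      ∑ v : Fin J × Fin J × Fin J × Fin J,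
        (fourier (m * t v.1 + (m * t v.2.1 + (-(m * t v.2.2.1) + -(m * t v.2.2.2)))) x : ℂ) := by
    intro x
    have h2 : ∀ v : Fin J × Fin J × Fin J × Fin J,
        (fourier (m * t v.1 + (m * t v.2.1 + (-(m * t v.2.2.1) + -(m * t v.2.2.2)))) x : ℂ) =
        (fourier (m * t v.1) x : ℂ) * ((fourier (m * t v.2.1) x : ℂ) *
          ((starRingEnd ℂ (fourier (m * t v.2.2.1) x)) *
            (starRingEnd ℂ (fourier (m * t v.2.2.2) x)))) := by
      intro v
      rw [fourier_add, fourier_add, fourier_add, fourier_neg, fourier_neg]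
    simp_rw [h2, Fintype.sum_prod_type, ← Finset.mul_sum, ← Finset.sum_mul]
    rw [← map_sum]
    set S : ℂ := ∑ j, (fourier (m * t j) x : ℂ) with hS
    have h3 : ((‖S‖ ^ 2 : ℝ) : ℂ) = S * starRingEnd ℂ S := by
      rw [Complex.mul_conj, Complex.normSq_eq_norm_sq]
    have h4 : ((‖S‖ ^ 4 : ℝ) : ℂ) = ((‖S‖ ^ 2 : ℝ) : ℂ) * ((‖S‖ ^ 2 : ℝ) : ℂ) := by
      push_cast
      ring
    rw [h4, h3]
    ring
  have h5 : ((∫ x : UnitAddCircle, ‖∑ j, (fourier (m * t j) x : ℂ)‖ ^ 4 : ℝ) : ℂ) =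
      ((((Finset.univ : Finset (Fin J × Fin J × Fin J × Fin J)).filter
        fun v => t v.1 + t v.2.1 = t v.2.2.1 + t v.2.2.2).card : ℝ) : ℂ) := by
    rw [← integral_complex_ofReal]
    simp_rw [h1]
    rw [integral_finsetSum _ fun v _ => energy3_integrable _]
    simp_rw [energy3_int]
    rw [Finset.card_filter]
    push_cast
    refine Finset.sum_congr rfl fun v _ => ?_
    have h6 : (m * (t v.1 : ℤ) + (m * t v.2.1 + (-(m * t v.2.2.1) + -(m * t v.2.2.2))) = 0) ↔
        t v.1 + t v.2.1 = t v.2.2.1 + t v.2.2.2 := by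
      have h7 : m * (t v.1 : ℤ) + (m * t v.2.1 + (-(m * t v.2.2.1) + -(m * t v.2.2.2))) =
          m * ((t v.1 + t v.2.1 : ℤ) - (t v.2.2.1 + t v.2.2.2)) := by ring
      rw [h7, mul_eq_zero]
      constructor
      · rintro (h8 | h8)
        · exact absurd h8 hm
        · have h9 := sub_eq_zero.mp h8
          exact_mod_cast h9
      · intro h8
        right
        rw [sub_eq_zero]
        exact_mod_cast h8
    by_cases h8 : t v.1 + t v.2.1 = t v.2.2.1 + t v.2.2.2
    · rw [if_pos (h6.mpr h8), if_pos h8]; norm_num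
    · rw [if_neg (fun h => h8 (h6.mp h)), if_neg h8]; norm_num
  exact_mod_cast h5

theorem energy3_norm (n : ℕ) (m : ℤ) (x : UnitAddCircle) :
    ‖cm p q n m x‖ ^ 4 =
      ‖∑ j : Fin (J p q n), (fourier (m * (tau p q n j : ℕ)) x : ℂ)‖ ^ 4 / (J p q n : ℝ) ^ 4 := by
  unfold cm cmJ
  rw [norm_div, div_pow, Complex.norm_natCast, Finset.sum_range]
  simp_rw [energy3_apply]

/-- Fourth moment. -/
theorem fourth (hp : 2 ≤ p) (hq : 2 ≤ q)
    (h : Irrational (Real.log (p : ℝ) / Real.log (q : ℝ))) :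
    ∃ K : ℕ, ∀ (n : ℕ) (m : ℤ), m ≠ 0 →
      ∫ x : UnitAddCircle, ‖cm p q n m x‖ ^ 4 ≤ K / (J p q n : ℝ) ^ 2 := by
  obtain ⟨K, hK⟩ := energy hp hq h
  refine ⟨K, fun n m hm => ?_⟩
  simp_rw [energy3_norm]
  rw [integral_div, energy3_count (fun j : Fin (J p q n) => tau p q n j) hm]
  have hJ : (0 : ℝ) < (J p q n : ℝ) := by exact_mod_cast J_pos n
  rw [div_le_div_iff₀ (by positivity) (by positivity)]
  have h1 : ((((Finset.univ : Finset (Fin (J p q n) × Fin (J p q n) × Fin (J p q n) ×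
      Fin (J p q n))).filter fun v => tau p q n v.1 + tau p q n v.2.1 =
        tau p q n v.2.2.1 + tau p q n v.2.2.2).card : ℕ) : ℝ) ≤ K * (J p q n : ℝ) ^ 2 := by
    exact_mod_cast hK n
  have h2 := mul_le_mul_of_nonneg_right h1 (sq_nonneg (J p q n : ℝ))
  calc _ ≤ _ := h2
    _ = _ := by ring

theorem energy3_cont (n : ℕ) (m : ℤ) : Continuous fun x : UnitAddCircle => cm p q n m x := by
  unfold cm cmJ
  fun_prop

/-- Almost everywhere convergence of the character means (`∑_n 1 / (J n)² < ∞`). -/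
theorem ae_cm (hp : 2 ≤ p) (hq : 2 ≤ q)
    (h : Irrational (Real.log (p : ℝ) / Real.log (q : ℝ))) (m : ℤ) (hm : m ≠ 0) :
    ∀ᵐ x : UnitAddCircle, Tendsto (fun n => cm p q n m x) atTop (𝓝 0) := by
  obtain ⟨K, hK⟩ := fourth hp hq h
  have hb : 0 < beta p q := beta_pos hp hq
  have hcont : ∀ n, Continuous fun x : UnitAddCircle => ‖cm p q n m x‖ ^ 4 := fun n =>
    (energy3_cont n m).norm.pow 4
  have hint : ∀ n, Integrable fun x : UnitAddCircle => ‖cm p q n m x‖ ^ 4 := fun n =>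
    (hcont n).integrable_of_hasCompactSupport (HasCompactSupport.of_compactSpace _)
  have h1 : ∀ n, ∫⁻ x : UnitAddCircle, ENNReal.ofReal (‖cm p q n m x‖ ^ 4) ≤
      ENNReal.ofReal (K * beta p q ^ 2 * (1 / ((n : ℝ) + 1) ^ 2)) := by
    intro n
    rw [← ofReal_integral_eq_lintegral_ofReal (hint n)
      (Eventually.of_forall fun x => by positivity)]
    refine ENNReal.ofReal_le_ofReal ((hK n m hm).trans ?_)
    have h2 := J_lower hp hq h n
    have h3 : (0 : ℝ) < (n : ℝ) + 1 := by positivity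
    have h4 : (((n : ℝ) + 1) / beta p q) ^ 2 ≤ (J p q n : ℝ) ^ 2 :=
      pow_le_pow_left₀ (by positivity) h2 2
    calc (K : ℝ) / (J p q n : ℝ) ^ 2 ≤ K / (((n : ℝ) + 1) / beta p q) ^ 2 :=
          div_le_div_of_nonneg_left (by positivity) (by positivity) h4
      _ = K * beta p q ^ 2 * (1 / ((n : ℝ) + 1) ^ 2) := by
          field_simp
  have hsum : Summable fun n : ℕ => K * beta p q ^ 2 * (1 / ((n : ℝ) + 1) ^ 2) := by
    refine Summable.mul_left _ ?_
    have h5 := (summable_nat_add_iff 1).mpr (Real.summable_one_div_nat_pow.mpr one_lt_two)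
    refine h5.congr fun n => ?_
    push_cast
    rfl
  have h6 : ∫⁻ x : UnitAddCircle, ∑' n, ENNReal.ofReal (‖cm p q n m x‖ ^ 4) ≠ ∞ := by
    rw [lintegral_tsum fun n => ((hcont n).measurable.ennreal_ofReal).aemeasurable]
    refine ne_top_of_le_ne_top hsum.tsum_ofReal_ne_top (ENNReal.tsum_le_tsum h1)
  have h7 := ae_lt_top' (Measurable.tsum
    fun n => (hcont n).measurable.ennreal_ofReal).aemeasurable h6
  filter_upwards [h7] with x hx
  have h8 := ENNReal.tendsto_atTop_zero_of_tsum_ne_top hx.ne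
  have h9 : Tendsto (fun n => ‖cm p q n m x‖ ^ 4) atTop (𝓝 0) := by
    have h10 := (ENNReal.tendsto_toReal ENNReal.zero_ne_top).comp h8
    refine h10.congr fun n => ?_
    exact ENNReal.toReal_ofReal (by positivity)
  rw [tendsto_zero_iff_norm_tendsto_zero]
  have h11 : Tendsto (fun n => Real.sqrt (Real.sqrt (‖cm p q n m x‖ ^ 4))) atTop (𝓝 0) := by
    have h12 := (Real.continuous_sqrt.comp Real.continuous_sqrt).tendsto (0 : ℝ)
    simp only [Function.comp, Real.sqrt_zero] at h12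
    exact h12.comp h9
  refine h11.congr fun n => ?_
  have h13 : ‖cm p q n m x‖ ^ 4 = (‖cm p q n m x‖ ^ 2) ^ 2 := by ring
  rw [h13, Real.sqrt_sq (by positivity), Real.sqrt_sq (norm_nonneg _)]

end Pool.Agent.H.MP_96e181_an.Win
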