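import Mathlib
import Pool.Agent.H.MP_96e181_an.win.Energy3
import Pool.Agent.H.MP_96e181_an.win.Approx

set_option autoImplicit false

/-! Lebesgue almost every point -/

namespace Pool.Agent.H.MP_96e181_an.Win

open MeasureTheory Filter Topology
open scoped ENNReal NNReal

variable {p q : ℕ}

/-- **Lebesgue almost every point.** (All `m ≠ 0` simultaneously, then `approx` and
`mean_one`.) -/
theorem ae_thin (hp : 2 ≤ p) (hq : 2 ≤ q)
    (h : Irrational (Real.log (p : ℝ) / Real.log (q : ℝ))) :
    ∀ᵐ x : UnitAddCircle, ∀ f : C(UnitAddCircle, ℝ),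
      Tendsto (fun n => mean p q f n 1 x) atTop (𝓝 (∫ y, f y)) := by
  have h1 : ∀ᵐ x : UnitAddCircle, ∀ m : ℤ, m ≠ 0 →
      Tendsto (fun n => cm p q n m x) atTop (𝓝 0) := by
    rw [ae_all_iff]
    intro m
    by_cases hm : m = 0
    · exact Filter.Eventually.of_forall fun x h => absurd hm h
    · exact (ae_cm hp hq h m hm).mono fun x hx _ => hx
  refine h1.mono fun x hx f => ?_
  rw [Metric.tendsto_nhds]
  intro ε hε
  obtain ⟨H, δ, hδ, happ⟩ := approx f (ε := ε / 2) (by positivity)
  have h2 : ∀ᶠ n in atTop, ∀ m ∈ (Finset.Icc (-(H : ℤ)) H), m ≠ 0 → ‖cm p q n m x‖ ≤ δ := by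
    rw [Filter.eventually_all_finset]
    intro m _
    by_cases hm : m = 0
    · exact Filter.Eventually.of_forall fun n h => absurd hm h
    · have h3 := (hx m hm).norm
      rw [norm_zero] at h3
      exact (h3.eventually_le_const hδ).mono fun n hn _ => hn
  filter_upwards [h2] with n hn
  have hJ : (0 : ℝ) < J p q n := by exact_mod_cast J_pos n
  have h3 : ∑ i ∈ Finset.range (J p q n), (1 / (J p q n : ℝ)) = 1 := by
    rw [Finset.sum_const, Finset.card_range, nsmul_eq_mul]
    field_simp
  have h4 := happ (Finset.range (J p q n)) (fun _ => 1 / (J p q n : ℝ))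
    (fun j => tau p q n j • x) (fun _ _ => by positivity) (le_of_eq h3) (by
      intro m hm hmH
      have h5 := hn m (by rw [Finset.mem_Icc]; omega) hm
      have h6 : ∑ i ∈ Finset.range (J p q n), ((1 / (J p q n : ℝ) : ℝ) : ℂ) *
          fourier m (tau p q n i • x) = cm p q n m x := by
        unfold cm cmJ
        rw [← Finset.mul_sum, div_eq_inv_mul
          (∑ j ∈ Finset.range (J p q n), (fourier m (tau p q n j • x) : ℂ))]
        push_cast
        rw [one_div]
      rw [h6]
      exact h5)
  rw [h3, one_mul] at h4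
  have h5 : mean p q f n 1 x =
      ∑ i ∈ Finset.range (J p q n), 1 / (J p q n : ℝ) * f (tau p q n i • x) := by
    rw [mean_one hp hq h n f x, ← Finset.mul_sum, one_div,
      div_eq_inv_mul (∑ j ∈ Finset.range (J p q n), f (tau p q n j • x))]
  rw [Real.dist_eq, h5]
  linarith

end Pool.Agent.H.MP_96e181_an.Win
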