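import Mathlib
import Pool.Agent.H.MP_96e181_an.win.DimBad
import Pool.Agent.H.MP_96e181_an.win.Approx

set_option autoImplicit false

/-! Part (2) -/

namespace Pool.Agent.H.MP_96e181_an.Win

open MeasureTheory Filter Topology
open scoped ENNReal NNReal

variable {p q : ℕ}

theorem parttwo_norm_neg (n : ℕ) (m : ℤ) (x : UnitAddCircle) :
    ‖cm p q n (-m) x‖ = ‖cm p q n m x‖ := by
  have h1 : ∑ j ∈ Finset.range (J p q n), (fourier (-m) (tau p q n j • x) : ℂ) =
      (starRingEnd ℂ) (∑ j ∈ Finset.range (J p q n), (fourier m (tau p q n j • x) : ℂ)) := by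
    rw [map_sum]
    exact Finset.sum_congr rfl fun j _ => fourier_neg
  show ‖(∑ j ∈ Finset.range (J p q n), (fourier (-m) (tau p q n j • x) : ℂ)) /
      ((J p q n : ℕ) : ℂ)‖ = ‖(∑ j ∈ Finset.range (J p q n), (fourier m (tau p q n j • x) : ℂ)) /
      ((J p q n : ℕ) : ℂ)‖
  rw [h1, norm_div, norm_div, RCLike.norm_conj]

theorem parttwo_norm_abs (n : ℕ) (m : ℤ) (x : UnitAddCircle) :
    ‖cm p q n m x‖ = ‖cm p q n (m.natAbs : ℤ) x‖ := by
  rcases Int.natAbs_eq m with h | h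
  · rw [← h]
  · conv_lhs => rw [h]
    exact parttwo_norm_neg _ _ _

/-- The test of one continuous function. -/
theorem parttwo_tendsto (hp : 2 ≤ p) (hq : 2 ≤ q)
    (h : Irrational (Real.log (p : ℝ) / Real.log (q : ℝ))) (x : UnitAddCircle) (n : ℕ → ℕ)
    (hn : ∀ k m : ℕ, 1 ≤ m → m ≤ k → ‖cm p q (n k) (m : ℤ) x‖ < 1 / ((k : ℝ) + 1))
    (f : C(UnitAddCircle, ℝ)) :
    Tendsto (fun k => mean p q f (n k) 1 x) atTop (𝓝 (∫ y, f y)) := by
  rw [Metric.tendsto_atTop]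
  intro ε hε
  obtain ⟨H, δ, hδ, hap⟩ := approx f (half_pos hε)
  obtain ⟨N, hN⟩ := exists_nat_one_div_lt hδ
  refine ⟨max H N, fun k hk => ?_⟩
  have hkH : H ≤ k := le_of_max_le_left hk
  have hkN : N ≤ k := le_of_max_le_right hk
  have hJ : (0 : ℝ) < J p q (n k) := by exact_mod_cast J_pos (n k)
  have hJ' : ((J p q (n k) : ℕ) : ℂ) ≠ 0 := by exact_mod_cast hJ.ne'
  have hsum : ∑ _i ∈ Finset.range (J p q (n k)), (1 / (J p q (n k) : ℝ)) = 1 := by
    rw [Finset.sum_const, Finset.card_range, nsmul_eq_mul]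
    field_simp
  have h1 := hap (ι := ℕ) (Finset.range (J p q (n k))) (fun _ => 1 / (J p q (n k) : ℝ))
    (fun j => tau p q (n k) j • x) (fun i _ => by positivity) hsum.le (by
      intro m hm hmH
      have h2 : ∑ i ∈ Finset.range (J p q (n k)), (((1 / (J p q (n k) : ℝ) : ℝ)) : ℂ) *
          fourier m (tau p q (n k) i • x) = cm p q (n k) m x := by
        show _ = (∑ j ∈ Finset.range (J p q (n k)), (fourier m (tau p q (n k) j • x) : ℂ)) /
          ((J p q (n k) : ℕ) : ℂ)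
        rw [Finset.sum_div]
        refine Finset.sum_congr rfl fun i _ => ?_
        push_cast
        rw [one_div, div_eq_mul_inv, mul_comm]
      rw [h2, parttwo_norm_abs]
      have h3 := hn k m.natAbs (Nat.one_le_iff_ne_zero.mpr (Int.natAbs_ne_zero.mpr hm))
        (hmH.trans hkH)
      have h4 : 1 / ((k : ℝ) + 1) ≤ 1 / ((N : ℝ) + 1) := by
        refine one_div_le_one_div_of_le (by positivity) ?_
        have h5 : (N : ℝ) ≤ k := by exact_mod_cast hkN
        linarith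
      exact (h3.trans (h4.trans_lt hN)).le)
  rw [hsum, one_mul] at h1
  have h6 : mean p q f (n k) 1 x = ∑ i ∈ Finset.range (J p q (n k)),
      1 / (J p q (n k) : ℝ) * f (tau p q (n k) i • x) := by
    rw [mean_one hp hq h, Finset.sum_div]
    refine Finset.sum_congr rfl fun i _ => ?_
    rw [one_div, div_eq_mul_inv, mul_comm]
  rw [Real.dist_eq, h6]
  linarith

/-- **Part (2).**

Proof: `X` = the union over `H, N, k` of the sets of `dimH_bad` with `δ = 1 / (k + 1)`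
(`dimH_iUnion`). For `x ∉ X` choose `n k ≥ k` with `‖cm p q (n k) m x‖ < 1 / (k + 1)` for
`1 ≤ m ≤ k` (hence for all `0 < |m| ≤ k` by conjugation) and apply `approx` (uniform weights) and
`mean_one`. -/
theorem part_two (hp : 2 ≤ p) (hq : 2 ≤ q)
    (h : Irrational (Real.log (p : ℝ) / Real.log (q : ℝ))) :
    ∃ X : Set UnitAddCircle, dimH X = 0 ∧ ∀ x ∉ X, ∃ n : ℕ → ℕ, Tendsto n atTop atTop ∧
      ∀ f : C(UnitAddCircle, ℝ),
        Tendsto (fun k => mean p q f (n k) 1 x) atTop (𝓝 (∫ y, f y)) := by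
  refine ⟨⋃ (v : ℕ × ℕ × ℕ), {x : UnitAddCircle | ∀ n ≥ v.2.1, ∃ m : ℕ, 1 ≤ m ∧ m ≤ v.1 ∧
    1 / ((v.2.2 : ℝ) + 1) ≤ ‖cm p q n (m : ℤ) x‖}, ?_, ?_⟩
  · rw [dimH_iUnion]
    refine le_antisymm (iSup_le fun v => ?_) zero_le
    exact (dimH_bad hp hq h (by positivity) v.1 v.2.1).le
  · intro x hx
    have h1 : ∀ k : ℕ, ∃ n ≥ k, ∀ m : ℕ, 1 ≤ m → m ≤ k →
        ‖cm p q n (m : ℤ) x‖ < 1 / ((k : ℝ) + 1) := by
      intro k
      by_contra hcon
      push Not at hcon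
      refine hx (Set.mem_iUnion.mpr ⟨(k, k, k), fun n hn => ?_⟩)
      obtain ⟨m, hm1, hm2, hm3⟩ := hcon n hn
      exact ⟨m, hm1, hm2, hm3⟩
    choose n hn1 hn2 using h1
    exact ⟨n, tendsto_atTop_mono hn1 tendsto_id, fun f => parttwo_tendsto hp hq h x n hn2 f⟩

end Pool.Agent.H.MP_96e181_an.Win
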