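import Mathlib
import Pool.Agent.H.MP_96e181_an.win.Conv6
import Pool.Agent.H.MP_96e181_an.win.Conv7
import Pool.Agent.H.MP_96e181_an.win.PartTwo
import Pool.Agent.H.MP_96e181_an.win.Energy4

set_option autoImplicit false

namespace Pool.Agent.H.MP_96e181_an.Win

open MeasureTheory Filter Topology
open scoped ENNReal NNReal

variable {p q : ℕ}

theorem final (hp : 2 ≤ p) (hq : 2 ≤ q) (h : Irrational (Real.log (p : ℝ) / Real.log (q : ℝ)))
    {ψ : ℕ → ℕ} (hψ : Tendsto ψ atTop atTop) {μ : Measure UnitAddCircle} [IsProbabilityMeasure μ]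
    (hμ : ∀ x, μ {x} = 0)
    (hμp : MeasurePreserving (fun x : UnitAddCircle => p • x) μ μ)
    (hμq : MeasurePreserving (fun x : UnitAddCircle => q • x) μ μ) :
    [ μ = (volume : Measure UnitAddCircle),
      ∀ᵐ x ∂μ, ∀ f : C(UnitAddCircle, ℝ), ∃ L : ℝ,
        Tendsto (fun n : ℕ => mean p q f n 1 x) atTop (𝓝 L),
      ∀ᵐ x ∂μ, ∀ f : C(UnitAddCircle, ℝ), ∃ L : ℝ,
        Tendsto (fun v : ℕ × ℕ => mean p q f v.1 v.2 x) (slow ψ) (𝓝 L) ].TFAE := by
  tfae_have 1 → 2 := by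
    intro hv
    rw [hv]
    filter_upwards [ae_thin hp hq h] with x hx f
    exact ⟨_, hx f⟩
  tfae_have 2 → 3 := by
    intro H
    filter_upwards [H] with x hx f
    obtain ⟨L, hL⟩ := hx f
    exact ⟨L, thick_of_thin hp hq h hL ψ⟩
  tfae_have 3 → 1 := by
    intro H
    exact eq_volume hp hq h hψ hμ hμp hμq H
  tfae_finish

end Pool.Agent.H.MP_96e181_an.Win
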