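import Mathlib
import Pool.Agent.H.MP_96e181_an.win.Pair
import Pool.Agent.H.MP_96e181_an.win.WinLower

set_option autoImplicit false

/-! Any two points -/

namespace Pool.Agent.H.MP_96e181_an.Win

open MeasureTheory Filter Topology

variable {p q : ℕ}

/-- a real representative of smallest modulus -/
theorem pairwin_lift (u : UnitAddCircle) : ∃ z : ℝ, (z : UnitAddCircle) = u ∧ |z| = ‖u‖ := by
  obtain ⟨t, rfl⟩ := QuotientAddGroup.mk_surjective u
  refine ⟨t - round t, ?_, ?_⟩
  · have h1 : ((round t : ℝ) : UnitAddCircle) = 0 := by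
      rw [AddCircle.coe_eq_zero_iff]
      exact ⟨round t, by simp⟩
    rw [AddCircle.coe_sub, h1, sub_zero]
  · have h2 := UnitAddCircle.norm_eq (x := t)
    exact h2.symm

/-- **Any two points.** At the scale of their distance the windows of any two points contain
together almost Lebesgue measure.

Proof: `win_lower` for `{f}` and `ε / 4`; `R` with `log 10 * ∫ f ≤ (ε / 2) (D₀ + r) log p` for
`r ≥ R`; `l = D₀ + r`, `pair` for `N = p ^ l`: `C, n₀`. If `p ^ -(n+1) ≤ ‖x - y‖ < p ^ -n`, let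
`z` be the real number with `|z| = ‖x - y‖`, `(z : UnitAddCircle) = x - y` and `n' = n + C + 1`:
`p ^ C ≤ |z| p ^ n' ≤ p ^ (C + 1)`. Add the two inequalities of `win_lower`:
`went x + went y ≥ log (p ^ l / 10) = l log p - log 10`. The constant is `C + 1 + c`. -/
theorem pair_windows (hp : 2 ≤ p) (hq : 2 ≤ q)
    (h : Irrational (Real.log (p : ℝ) / Real.log (q : ℝ))) (f : C(UnitAddCircle, ℝ)) (hf : 0 ≤ f)
    {ε : ℝ} (hε : 0 < ε) :
    ∃ R : ℕ, ∀ r ≥ R, ∃ c N : ℕ, ∀ n ≥ N, ∀ x y : UnitAddCircle,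
      1 / (p : ℝ) ^ (n + 1) ≤ ‖x - y‖ → ‖x - y‖ < 1 / (p : ℝ) ^ n →
      (∫ t, f t) - ε ≤ mean p q f (n + c) r x + mean p q f (n + c) r y := by
  obtain ⟨c, D₀, R₀, hw⟩ := win_lower hp hq h {f} (fun g hg y => by
    rw [Finset.mem_singleton] at hg
    rw [hg]
    exact hf y) (ε := ε / 4) (by positivity)
  have hlp : 0 < Real.log p := Real.log_pos (by exact_mod_cast (by omega : 1 < p))
  obtain ⟨R₁, hR₁⟩ := exists_nat_ge (Real.log 10 * (∫ t, f t) / (ε / 2 * Real.log p))
  refine ⟨R₀ + R₁ + 2, fun r hr => ?_⟩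
  obtain ⟨r', rfl⟩ : ∃ r', r = r' + 1 := ⟨r - 1, by omega⟩
  obtain ⟨N₁, hN₁⟩ := hw r' (by omega)
  set l : ℕ := D₀ + r' with hl
  have hl1 : 1 ≤ l := by omega
  have hlR : R₁ ≤ l := by omega
  have hpl : 0 < p ^ l := by positivity
  obtain ⟨C, n₀, hpair⟩ := pair hp hq h hpl
  refine ⟨C + 1 + c, N₁ + n₀, fun n hn x y hxy1 hxy2 => ?_⟩
  have hp0 : (0 : ℝ) < p := by exact_mod_cast (by omega : 0 < p)
  obtain ⟨z, hz1, hz2⟩ := pairwin_lift (x - y)
  rw [← hz2] at hxy1 hxy2
  set n' : ℕ := n + C + 1 with hn'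
  have hnc : n + (C + 1 + c) = n' + c := by omega
  rw [hnc]
  have e1 := hpair n' (by omega) x y z hz1 (by
    have h3 : (p : ℝ) ^ C = 1 / (p : ℝ) ^ (n + 1) * (p : ℝ) ^ n' := by
      rw [hn', show n + C + 1 = (n + 1) + C by ring, pow_add _ (n + 1) C]
      field_simp
    rw [h3]
    exact mul_le_mul_of_nonneg_right hxy1 (by positivity)) (by
    have h3 : (p : ℝ) ^ (C + 1) = 1 / (p : ℝ) ^ n * (p : ℝ) ^ n' := by
      rw [hn', show n + C + 1 = n + (C + 1) by ring, pow_add _ n (C + 1)]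
      field_simp
    rw [h3]
    exact mul_le_mul_of_nonneg_right hxy2.le (by positivity))
  have e2 := hN₁ n' (by omega) x f (Finset.mem_singleton_self f)
  have e3 := hN₁ n' (by omega) y f (Finset.mem_singleton_self f)
  have hB : 0 ≤ ∫ t, f t := integral_nonneg fun t => hf t
  have hlpos : (0 : ℝ) < (l : ℝ) := by exact_mod_cast hl1
  have hll : 0 < (l : ℝ) * Real.log p := by positivity
  have e4 : Real.log (((p ^ l : ℕ) : ℝ) / 10) = l * Real.log p - Real.log 10 := by
    rw [Real.log_div (by positivity) (by norm_num)]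
    push_cast
    rw [Real.log_pow]
  rw [e4] at e1
  have e5 : Real.log 10 * (∫ t, f t) / (l * Real.log p) ≤ ε / 2 := by
    rw [div_le_iff₀ hll]
    rw [div_le_iff₀ (by positivity)] at hR₁
    have : (R₁ : ℝ) * (ε / 2 * Real.log p) ≤ l * (ε / 2 * Real.log p) := by
      refine mul_le_mul_of_nonneg_right ?_ (by positivity)
      exact_mod_cast hlR
    linarith
  have e6 : (∫ t, f t) - Real.log 10 * (∫ t, f t) / (l * Real.log p) ≤
      went p q n' (p ^ l) x / (l * Real.log p) * (∫ t, f t) +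
        went p q n' (p ^ l) y / (l * Real.log p) * (∫ t, f t) := by
    have e7 : (l * Real.log p - Real.log 10) / (l * Real.log p) * (∫ t, f t) ≤
        (went p q n' (p ^ l) x + went p q n' (p ^ l) y) / (l * Real.log p) * (∫ t, f t) :=
      mul_le_mul_of_nonneg_right (div_le_div_of_nonneg_right e1 hll.le) hB
    have e8 : (l * Real.log p - Real.log 10) / (l * Real.log p) * (∫ t, f t) =
        (∫ t, f t) - Real.log 10 * (∫ t, f t) / (l * Real.log p) := by
      rw [sub_div, div_self hll.ne']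
      ring
    rw [e8, add_div, add_mul] at e7
    exact e7
  linarith

end Pool.Agent.H.MP_96e181_an.Win
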