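import Mathlib
import Pool.Agent.H.MP_96e181_an.win.Final

set_option autoImplicit false

/-! The restriction of an invariant measure to the convergence set -/

namespace Pool.Agent.H.MP_96e181_an.Win

open MeasureTheory Filter Topology
open scoped ENNReal NNReal

variable {p q : ℕ}

theorem volume_convSet_compl (hp : 2 ≤ p) (hq : 2 ≤ q)
    (h : Irrational (Real.log (p : ℝ) / Real.log (q : ℝ))) (ψ : ℕ → ℕ) :
    (volume : Measure UnitAddCircle) (convSet p q ψ)ᶜ = 0 := by
  have h1 : ∀ᵐ x : UnitAddCircle, x ∈ convSet p q ψ := by
    filter_upwards [ae_thin hp hq h] with x hx f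
    exact ⟨_, thick_of_thin hp hq h (hx f) ψ⟩
  exact h1

theorem restrict_convSet (hp : 2 ≤ p) (hq : 2 ≤ q)
    (h : Irrational (Real.log (p : ℝ) / Real.log (q : ℝ))) {ψ : ℕ → ℕ}
    (hψ : Tendsto ψ atTop atTop) {μ : Measure UnitAddCircle} [IsProbabilityMeasure μ]
    (hμ : ∀ x, μ {x} = 0)
    (hμp : MeasurePreserving (fun x : UnitAddCircle => p • x) μ μ)
    (hμq : MeasurePreserving (fun x : UnitAddCircle => q • x) μ μ) :
    μ.restrict (convSet p q ψ) = μ (convSet p q ψ) • (volume : Measure UnitAddCircle) := by
  have hvp : MeasurePreserving (fun x : UnitAddCircle => p • x)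
      (volume : Measure UnitAddCircle) volume := (AddCircle.ergodic_nsmul (by omega)).toMeasurePreserving
  have hvq : MeasurePreserving (fun x : UnitAddCircle => q • x)
      (volume : Measure UnitAddCircle) volume := (AddCircle.ergodic_nsmul (by omega)).toMeasurePreserving
  set G := convSet p q ψ with hG
  have hGm : MeasurableSet G := measurableSet_convSet ψ
  set μs := μ.singularPart volume with hμs
  set μa := (volume : Measure UnitAddCircle).withDensity (μ.rnDeriv volume) with hμa
  have hdec : μs + μa = μ := by
    rw [hμs, hμa, add_comm, Measure.rnDeriv_add_singularPart]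
  have hsle : μs ≤ μ := Measure.singularPart_le μ volume
  have hs0 : μs G = 0 := by
    have h1 : ∀ᵐ x ∂μs, x ∉ convSet p q ψ := by
      refine diverge hp hq h hψ (fun x => ?_) (hμp.singularPart hvp) (hμq.singularPart hvq)
        (Measure.mutuallySingular_singularPart μ volume)
      exact le_antisymm ((hsle {x}).trans (hμ x).le) bot_le
    have h2 := ae_iff.1 h1
    simpa [hG] using h2
  have hfin : IsFiniteMeasure μa := by
    refine ⟨lt_of_le_of_lt ?_ (measure_lt_top μ Set.univ)⟩
    rw [← hdec]
    exact le_add_self
  have hac : μa = μa Set.univ • (volume : Measure UnitAddCircle) := by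
    have he : Ergodic (fun x : UnitAddCircle => p • x) (volume : Measure UnitAddCircle) :=
      AddCircle.ergodic_nsmul (by omega)
    obtain ⟨c, hc⟩ := he.eq_smul_of_absolutelyContinuous (hμp.withDensity_rnDeriv hvp)
      (withDensity_absolutelyContinuous _ _)
    have h1 : μa = c • (volume : Measure UnitAddCircle) := hc
    have h2 : μa Set.univ = c := by
      rw [h1]
      simp
    rw [h2]
    exact h1
  have hv0 : (volume : Measure UnitAddCircle) Gᶜ = 0 := volume_convSet_compl hp hq h ψ
  have hvr : (volume : Measure UnitAddCircle).restrict G = volume :=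
    Measure.restrict_eq_self_of_ae_mem (by rw [ae_iff]; exact hv0)
  have hsr : μs.restrict G = 0 := by
    rw [Measure.restrict_eq_zero]; exact hs0
  have har : μa.restrict G = μa := by
    rw [hac, Measure.restrict_smul, hvr]
  have hμr : μ.restrict G = μa := by
    rw [← hdec, Measure.restrict_add, hsr, har, zero_add]
  have hμG : μ G = μa Set.univ := by
    have h1 : μ.restrict G Set.univ = μa Set.univ := by rw [hμr]
    rwa [Measure.restrict_apply_univ] at h1
  rw [hμr, hμG]
  exact hac

end Pool.Agent.H.MP_96e181_an.Win
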