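import Mathlib
import Pool.Agent.H.MP_96e181_an.win.Defs

set_option autoImplicit false

/-! Measure theory for the universal speed theorem -/

namespace Pool.Agent.H.MP_96e181_an.Win

open MeasureTheory Filter Topology
open Pool.Agent.H.MP_96e181_an (dig rep coe_rep dig_spec dig_lt measurable_dig)

variable {p : ℕ}

/-- Small punctured balls around `0` have small measure. -/
theorem sbound_ball (hp : 2 ≤ p) (μ : Measure UnitAddCircle) [IsProbabilityMeasure μ] {η : ℝ}
    (hη : 0 < η) :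
    ∃ V : ℕ, μ.real {x : UnitAddCircle | x ≠ 0 ∧ ‖x‖ ≤ 1 / (p : ℝ) ^ V} ≤ η := by
  set S : ℕ → Set UnitAddCircle := fun V => {x | x ≠ 0 ∧ ‖x‖ ≤ 1 / (p : ℝ) ^ V} with hS
  have hp1 : (1 : ℝ) < p := by exact_mod_cast (by omega : 1 < p)
  have hanti : Antitone S := by
    intro m n hmn x hx
    refine ⟨hx.1, hx.2.trans ?_⟩
    apply one_div_le_one_div_of_le (by positivity)
    exact pow_le_pow_right₀ hp1.le hmn
  have hmeas : ∀ V, NullMeasurableSet (S V) μ := by
    intro V
    have h1 : MeasurableSet (S V) := by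
      have h2 : S V = {x : UnitAddCircle | x = 0}ᶜ ∩ {x | ‖x‖ ≤ 1 / (p : ℝ) ^ V} := rfl
      rw [h2]
      exact (measurableSet_singleton (0 : UnitAddCircle)).compl.inter
        (measurableSet_le measurable_norm measurable_const)
    exact h1.nullMeasurableSet
  have hinter : ⋂ V, S V = ∅ := by
    ext x
    simp only [Set.mem_iInter, Set.mem_empty_iff_false, iff_false, not_forall]
    by_cases hx : x = 0
    · exact ⟨0, fun h => h.1 hx⟩
    · have hpos : 0 < ‖x‖ := norm_pos_iff.2 hx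
      obtain ⟨n, hn⟩ := exists_pow_lt_of_lt_one hpos (inv_lt_one_of_one_lt₀ hp1)
      refine ⟨n, fun h => ?_⟩
      have h2 := h.2
      rw [one_div, ← inv_pow] at h2
      linarith
  have ht := tendsto_measure_iInter_atTop (μ := μ) hmeas hanti ⟨0, measure_ne_top μ _⟩
  rw [hinter, measure_empty] at ht
  have ht2 : Tendsto (fun V => μ.real (S V)) atTop (𝓝 0) := by
    have := (ENNReal.tendsto_toReal ENNReal.zero_ne_top).comp ht
    simpa [Measure.real, Function.comp_def] using this
  obtain ⟨V, hV⟩ := ((tendsto_order.1 ht2).2 η hη).exists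
  exact ⟨V, hV.le⟩

/-- Points close to the boundaries of the cells.

Proof: `{x ≠ 0, ‖p^M • x‖ ≤ ρ}` is contained in the union of the preimage under `p^M` of
`{y ≠ 0, ‖y‖ ≤ ρ}` and of `{x ≠ 0, p^M • x = 0}`. The first has measure `μ {y ≠ 0, ‖y‖ ≤ ρ}`, which
tends to `0` as `ρ → 0` (decreasing sets with empty intersection). The second has measure
`μ (preimage of {0}) - μ {0} = 0`. -/
theorem boundary (hp : 2 ≤ p) {μ : Measure UnitAddCircle} [IsProbabilityMeasure μ]
    (hμp : MeasurePreserving (fun x : UnitAddCircle => p • x) μ μ) {η : ℝ} (hη : 0 < η) :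
    ∃ V : ℕ, ∀ M : ℕ, μ.real {x : UnitAddCircle | x ≠ 0 ∧ ‖p ^ M • x‖ ≤ 1 / (p : ℝ) ^ V} ≤ η := by
  obtain ⟨V, hV⟩ := sbound_ball hp μ hη
  refine ⟨V, fun M => ?_⟩
  have hM : MeasurePreserving (fun x : UnitAddCircle => p ^ M • x) μ μ := by
    have h1 := hμp.iterate M
    have h2 : (fun x : UnitAddCircle => p • x)^[M] = fun x : UnitAddCircle => p ^ M • x := by
      exact smul_iterate p M
    rwa [h2] at h1
  set A : Set UnitAddCircle := {x | x ≠ 0 ∧ ‖x‖ ≤ 1 / (p : ℝ) ^ V} with hA
  have hAm : MeasurableSet A := by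
    have h2 : A = {x : UnitAddCircle | x = 0}ᶜ ∩ {x | ‖x‖ ≤ 1 / (p : ℝ) ^ V} := rfl
    rw [h2]
    exact (measurableSet_singleton (0 : UnitAddCircle)).compl.inter
      (measurableSet_le measurable_norm measurable_const)
  set Z : Set UnitAddCircle := (fun x : UnitAddCircle => p ^ M • x) ⁻¹' {0} \ {0} with hZ
  have hsub : {x : UnitAddCircle | x ≠ 0 ∧ ‖p ^ M • x‖ ≤ 1 / (p : ℝ) ^ V} ⊆
      (fun x : UnitAddCircle => p ^ M • x) ⁻¹' A ∪ Z := by
    intro x hx
    by_cases h : p ^ M • x = 0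
    · right
      exact ⟨h, hx.1⟩
    · left
      exact ⟨h, hx.2⟩
  have hA1 : μ.real ((fun x : UnitAddCircle => p ^ M • x) ⁻¹' A) = μ.real A := by
    unfold Measure.real
    rw [hM.measure_preimage hAm.nullMeasurableSet]
  have hZ1 : μ Z = 0 := by
    have h0 : ({0} : Set UnitAddCircle) ⊆ (fun x : UnitAddCircle => p ^ M • x) ⁻¹' {0} := by
      intro x hx
      rw [Set.mem_singleton_iff] at hx
      rw [hx]
      simp
    rw [hZ, measure_sdiff h0 (measurableSet_singleton _).nullMeasurableSet (measure_ne_top μ _),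
      hM.measure_preimage (measurableSet_singleton _).nullMeasurableSet, tsub_self]
  have hZ2 : μ.real Z = 0 := by
    unfold Measure.real
    rw [hZ1]
    rfl
  calc μ.real {x : UnitAddCircle | x ≠ 0 ∧ ‖p ^ M • x‖ ≤ 1 / (p : ℝ) ^ V}
      ≤ μ.real ((fun x : UnitAddCircle => p ^ M • x) ⁻¹' A ∪ Z) := measureReal_mono hsub
    _ ≤ μ.real ((fun x : UnitAddCircle => p ^ M • x) ⁻¹' A) + μ.real Z := measureReal_union_le _ _
    _ ≤ η := by rw [hA1, hZ2, add_zero]; exact hV

/-- A continuous function separating singular measures.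

Proof: a measurable `s` with `μ s = 0`, `volume sᶜ = 0`; inner regularity of `volume`: compact
`K ⊆ s` with `volume K ≥ 1 - η`; outer regularity of `μ`: open `U ⊇ K` with `μ U ≤ η`; Urysohn
(`exists_continuous_zero_one_of_isClosed`). -/
theorem exists_sep {μ : Measure UnitAddCircle} [IsProbabilityMeasure μ]
    (hs : μ ⟂ₘ (volume : Measure UnitAddCircle)) {η : ℝ} (hη : 0 < η) :
    ∃ f : C(UnitAddCircle, ℝ), 0 ≤ f ∧ (∀ x, f x ≤ 1) ∧ 1 - η ≤ ∫ x, f x ∧ ∫ x, f x ∂μ ≤ η := by
  obtain ⟨s, hsm, hμs, hvs⟩ := hs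
  have hη' : ENNReal.ofReal η ≠ 0 := by
    rw [Ne, ENNReal.ofReal_eq_zero, not_le]
    exact hη
  obtain ⟨K, hKs, hKc, hK⟩ := hsm.exists_isCompact_sdiff_lt (μ := (volume : Measure UnitAddCircle))
    (measure_ne_top _ _) hη'
  obtain ⟨U, hKU, hUo, hU⟩ := K.exists_isOpen_le_add μ hη'
  have hμK : μ K = 0 := measure_mono_null hKs hμs
  rw [hμK, zero_add] at hU
  have hKcl : IsClosed K := hKc.isClosed
  obtain ⟨f, hf0, hf1, hf⟩ := exists_continuous_zero_one_of_isClosed hUo.isClosed_compl hKcl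
    (Set.disjoint_left.2 fun x hx hxK => hx (hKU hxK))
  have hint : ∀ ν : Measure UnitAddCircle, IsProbabilityMeasure ν → Integrable (fun x => f x) ν := by
    intro ν hν
    exact f.continuous.integrable_of_hasCompactSupport (HasCompactSupport.of_compactSpace _)
  refine ⟨f, fun x => (hf x).1, fun x => (hf x).2, ?_, ?_⟩
  · have hv : IsProbabilityMeasure (volume : Measure UnitAddCircle) := by
      constructor
      exact AddCircle.measure_univ 1 |>.trans (by simp)
    have h1 : (volume : Measure UnitAddCircle).real Kᶜ ≤ η := by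
      have h2 : (volume : Measure UnitAddCircle) Kᶜ ≤ ENNReal.ofReal η := by
        have h3 : Kᶜ ⊆ sᶜ ∪ (s \ K) := by
          intro x hx
          by_cases hxs : x ∈ s
          · right; exact ⟨hxs, hx⟩
          · left; exact hxs
        calc (volume : Measure UnitAddCircle) Kᶜ ≤ volume (sᶜ ∪ (s \ K)) := measure_mono h3
          _ ≤ volume sᶜ + volume (s \ K) := measure_union_le _ _
          _ ≤ ENNReal.ofReal η := by rw [hvs, zero_add]; exact hK.le
      exact ENNReal.toReal_le_of_le_ofReal hη.le h2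
    have h4 : (volume : Measure UnitAddCircle).real K =
        1 - (volume : Measure UnitAddCircle).real Kᶜ := by
      have := measureReal_compl (μ := (volume : Measure UnitAddCircle)) hKcl.measurableSet
      rw [this]
      simp
    have h5 : (volume : Measure UnitAddCircle).real K ≤ ∫ x, f x := by
      rw [← integral_indicator_one hKcl.measurableSet]
      apply integral_mono
      · exact (integrable_const (1 : ℝ)).indicator hKcl.measurableSet
      · exact hint _ hv
      · intro x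
        by_cases hx : x ∈ K
        · have := hf1 hx
          simp only [Set.indicator_of_mem hx, Pi.one_apply] at this ⊢
          exact this.ge
        · simp only [Set.indicator_of_notMem hx]
          exact (hf x).1
    linarith
  · have h1 : μ.real U ≤ η := ENNReal.toReal_le_of_le_ofReal hη.le hU
    refine le_trans ?_ h1
    rw [← integral_indicator_one hUo.measurableSet]
    apply integral_mono
    · exact hint _ inferInstance
    · exact (integrable_const (1 : ℝ)).indicator hUo.measurableSet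
    · intro x
      by_cases hx : x ∈ U
      · simp only [Set.indicator_of_mem hx, Pi.one_apply]
        exact (hf x).2
      · have := hf0 (show x ∈ Uᶜ from hx)
        simp only [Set.indicator_of_notMem hx]
        simpa using this.le

/-- The one-sided estimate behind `far`. -/
theorem sbound_gap (hp : 2 ≤ p) {M V : ℕ} {x y : UnitAddCircle}
    (h2 : dig (p ^ M) x < dig (p ^ M) y)
    (hx : ¬ (x ≠ 0 ∧ ‖p ^ M • x‖ ≤ 1 / (p : ℝ) ^ V)) :
    1 / (p : ℝ) ^ (M + V) ≤ rep y - rep x := by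
  have hp0 : (0 : ℝ) < p := by exact_mod_cast (by omega : 0 < p)
  have hp1 : (1 : ℝ) ≤ p := by exact_mod_cast (by omega : 1 ≤ p)
  have hpM : 0 < p ^ M := by positivity
  have hy := (dig_spec hpM y).1
  have hxs := dig_spec hpM x
  set k : ℕ := dig (p ^ M) y with hk
  have hL : (0 : ℝ) < (p : ℝ) ^ M := by positivity
  have hVp : (0 : ℝ) < (p : ℝ) ^ V := by positivity
  push_cast at hy hxs
  have hkr : (dig (p ^ M) x : ℝ) + 1 ≤ k := by exact_mod_cast h2
  have hsplit : 1 / (p : ℝ) ^ (M + V) = 1 / (p : ℝ) ^ V / (p : ℝ) ^ M := by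
    rw [pow_add]
    field_simp
  have hyk : (k : ℝ) ≤ rep y * (p : ℝ) ^ M := by
    rwa [div_le_iff₀ hL] at hy
  have hxk : rep x * (p : ℝ) ^ M < k := by
    have := hxs.2
    rw [← add_div, lt_div_iff₀ hL] at this
    linarith
  rw [hsplit, div_le_iff₀ hL]
  by_cases hx0 : x = 0
  · have h0 : rep x = 0 := by
      rw [hx0]
      unfold rep
      have : ((AddCircle.equivIco (1 : ℝ) 0 (0 : UnitAddCircle) : Set.Ico (0:ℝ) (0+1)) : ℝ) = 0 := by
        have h := AddCircle.equivIco_coe_of_mem (p := (1:ℝ)) (a := 0) (y := 0) (by simp)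
        simpa using h
      exact this
    rw [h0]
    have h3 : 1 / (p : ℝ) ^ V ≤ 1 := by
      rw [div_le_one hVp]
      exact one_le_pow₀ hp1
    have h4 : (1 : ℝ) ≤ k := by
      have : (0 : ℝ) ≤ dig (p ^ M) x := Nat.cast_nonneg _
      linarith
    nlinarith
  · have h3 : 1 / (p : ℝ) ^ V < ‖p ^ M • x‖ := by
      by_contra hn
      exact hx ⟨hx0, not_lt.1 hn⟩
    have h4 : (p ^ M • x : UnitAddCircle) = (((p : ℝ) ^ M * rep x : ℝ) : UnitAddCircle) := by
      conv_lhs => rw [← coe_rep x]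
      have : ((p ^ M : ℕ) : ℝ) * rep x = (p : ℝ) ^ M * rep x := by push_cast; ring
      rw [← this, ← nsmul_eq_mul]
      rfl
    have h5 : ‖p ^ M • x‖ ≤ (k : ℝ) - (p : ℝ) ^ M * rep x := by
      rw [h4, UnitAddCircle.norm_eq]
      refine (round_le _ (k : ℤ)).trans ?_
      rw [abs_sub_comm, abs_of_nonneg]
      · simp
      · have : ((k : ℤ) : ℝ) = k := by simp
        rw [this]
        nlinarith
    nlinarith

/-- Points of the same cell of level `D`, in different cells of level `D + W`, and not close to a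
boundary. (If `1 ≤ D` then `‖x - y‖ = |rep x - rep y| < 1 / p ^ D`; a multiple `k / p ^ (D + W)`,
`1 ≤ k < p ^ (D + W)`, is in between, `rep x < k / p^(D+W) ≤ rep y` say, and `x ≠ 0`... if `x = 0`
then `rep y ≥ 1 / p^(D+W)`; if `x ≠ 0` then `‖p ^ (D + W) • x‖ > 1 / p ^ V` gives
`k / p^(D+W) - rep x > 1 / p ^ (D + W + V)`, since `p ^ (D+W) (k / p^(D+W) - rep x)` represents
`- p^(D+W) • x`.) -/
theorem far (hp : 2 ≤ p) {D W V : ℕ} (hD : 1 ≤ D) {x y : UnitAddCircle}
    (h1 : dig (p ^ D) x = dig (p ^ D) y) (h2 : dig (p ^ (D + W)) x ≠ dig (p ^ (D + W)) y)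
    (hx : ¬ (x ≠ 0 ∧ ‖p ^ (D + W) • x‖ ≤ 1 / (p : ℝ) ^ V))
    (hy : ¬ (y ≠ 0 ∧ ‖p ^ (D + W) • y‖ ≤ 1 / (p : ℝ) ^ V)) :
    1 / (p : ℝ) ^ (D + (W + V)) ≤ ‖x - y‖ ∧ ‖x - y‖ < 1 / (p : ℝ) ^ D := by
  have hp0 : (0 : ℝ) < p := by exact_mod_cast (by omega : 0 < p)
  have hp2 : (2 : ℝ) ≤ p := by exact_mod_cast hp
  have hpD : 0 < p ^ D := by positivity
  have hxs := dig_spec hpD x
  have hys := dig_spec hpD y
  rw [h1] at hxs
  push_cast at hxs hys
  have habs : |rep x - rep y| < 1 / (p : ℝ) ^ D := by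
    rw [abs_lt]
    constructor <;> linarith [hxs.1, hxs.2, hys.1, hys.2]
  have hhalf : 1 / (p : ℝ) ^ D ≤ 1 / 2 := by
    apply one_div_le_one_div_of_le (by norm_num)
    calc (2 : ℝ) ≤ p := hp2
      _ = (p : ℝ) ^ 1 := (pow_one _).symm
      _ ≤ (p : ℝ) ^ D := pow_le_pow_right₀ (by linarith) hD
  have hnorm : ‖x - y‖ = |rep x - rep y| := by
    have h3 : x - y = ((rep x - rep y : ℝ) : UnitAddCircle) := by
      rw [AddCircle.coe_sub, coe_rep, coe_rep]
    rw [h3]
    apply (AddCircle.norm_coe_eq_abs_iff (1 : ℝ) one_ne_zero).2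
    rw [abs_one]
    linarith
  rw [hnorm]
  refine ⟨?_, habs⟩
  rw [← add_assoc]
  rcases lt_or_gt_of_ne h2 with h | h
  · have := sbound_gap hp h hx
    calc 1 / (p : ℝ) ^ (D + W + V) ≤ rep y - rep x := this
      _ ≤ |rep x - rep y| := by rw [abs_sub_comm]; exact le_abs_self _
  · have := sbound_gap hp h hy
    calc 1 / (p : ℝ) ^ (D + W + V) ≤ rep x - rep y := this
      _ ≤ |rep x - rep y| := le_abs_self _

end Pool.Agent.H.MP_96e181_an.Win
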