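import Mathlib
import Pool.Agent.H.MP_96e181_an.win.SBound

set_option autoImplicit false

/-! Coupling points of different subcells -/

namespace Pool.Agent.H.MP_96e181_an.Win

open MeasureTheory Filter Topology
open Pool.Agent.H.MP_96e181_an (dig rep coe_rep dig_spec dig_lt measurable_dig)

variable {p : ℕ}

/-- The mass of the heaviest subcell. -/
noncomputable def top (p : ℕ) (μ : Measure UnitAddCircle) (D W a : ℕ) : ℝ :=
  ⨆ b : Fin (p ^ W), μ.real {x : UnitAddCircle | dig (p ^ (D + W)) x = a * p ^ W + b}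

theorem scouple_sum {X : Type*} [MeasurableSpace X] {μ : Measure X} {f : X → ℝ}
    (hf : Integrable f μ) {S : Set X} (hS : MeasurableSet S) {q : X → ℕ} (hq : Measurable q)
    {Q : ℕ} (hqQ : ∀ x, q x < Q) :
    ∑ b ∈ Finset.range Q, ∫ x in S ∩ q ⁻¹' {b}, f x ∂μ = ∫ x in S, f x ∂μ := by
  rw [← integral_biUnion_finset]
  · congr 2
    ext x
    simp only [Finset.mem_range, Set.mem_iUnion, Set.mem_inter_iff, Set.mem_preimage,
      Set.mem_singleton_iff, exists_prop]
    exact ⟨fun ⟨_, _, h, _⟩ => h, fun h => ⟨q x, hqQ x, h, rfl⟩⟩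
  · intro i _
    exact hS.inter (hq (measurableSet_singleton i))
  · intro i _ j _ hij
    rw [Function.onFun, Set.disjoint_left]
    rintro x ⟨_, h1⟩ ⟨_, h2⟩
    exact hij (h1.symm.trans h2)
  · intro i _
    exact hf.integrableOn

theorem scouple_real {s m T c₀ G : ℝ} (hs : 0 ≤ s) (hsm : s ≤ m) (hT : 0 ≤ T) (hc : 0 ≤ c₀)
    (hG : 0 ≤ G) (h : c₀ * (s * (s - T)) ≤ 2 * (m * G)) :
    c₀ * (m - T - 2 * (m - s)) ≤ 2 * G := by
  rcases eq_or_lt_of_le (hs.trans hsm) with hm | hm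
  · have hs0 : s = 0 := le_antisymm (hsm.trans hm.symm.le) hs
    have : c₀ * (m - T - 2 * (m - s)) = - (c₀ * T) := by rw [← hm, hs0]; ring
    rw [this]
    have := mul_nonneg hc hT
    linarith
  rcases le_or_gt s T with hsT | hsT
  · have h1 : m - T - 2 * (m - s) ≤ 0 := by linarith
    have := mul_nonpos_of_nonneg_of_nonpos hc h1
    linarith
  · have h1 : m * (m - T - 2 * (m - s)) ≤ s * (s - T) := by nlinarith
    have h2 := mul_le_mul_of_nonneg_left h1 hc
    have h3 : m * (c₀ * (m - T - 2 * (m - s))) ≤ m * (2 * G) := by linarith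
    exact le_of_mul_le_mul_left h3 hm

theorem scouple_pair {X : Type*} [MeasurableSpace X] {μ : Measure X} [IsFiniteMeasure μ]
    {g : X → ℝ} (hg : Integrable g μ) {E F : Set X} (hE : MeasurableSet E)
    (hF : MeasurableSet F) {c₀ : ℝ} (h : ∀ x ∈ E, ∀ y ∈ F, c₀ ≤ g x + g y) :
    c₀ * (μ.real E * μ.real F) ≤ μ.real F * ∫ x in E, g x ∂μ + μ.real E * ∫ x in F, g x ∂μ := by
  have h1 : ∀ y ∈ F, c₀ * μ.real E ≤ ∫ x in E, g x ∂μ + μ.real E * g y := by
    intro y hy
    have h2 : ∫ x in E, c₀ ∂μ ≤ ∫ x in E, (g x + g y) ∂μ := by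
      refine setIntegral_mono_on (integrable_const _) ?_ hE (fun x hx => h x hx y hy)
      exact hg.integrableOn.add (integrable_const _)
    rw [setIntegral_const, integral_add hg.integrableOn (integrable_const _), setIntegral_const,
      smul_eq_mul, smul_eq_mul] at h2
    linarith
  have h3 : ∫ y in F, (c₀ * μ.real E) ∂μ ≤ ∫ y in F, (∫ x in E, g x ∂μ + μ.real E * g y) ∂μ := by
    refine setIntegral_mono_on (integrable_const _) ?_ hF h1
    exact (integrable_const _).add (hg.integrableOn.const_mul _)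
  rw [setIntegral_const, integral_add (integrable_const _) (hg.integrableOn.const_mul _),
    setIntegral_const, integral_const_mul, smul_eq_mul, smul_eq_mul] at h3
  linarith

theorem scouple_alg {Q : ℕ} {m G : ℕ → ℝ} {c₀ s T : ℝ} (hm : ∀ b ∈ Finset.range Q, 0 ≤ m b)
    (hG : ∀ b ∈ Finset.range Q, 0 ≤ G b)
    (hs : ∑ b ∈ Finset.range Q, m b = s) (hT : ∀ b ∈ Finset.range Q, m b ≤ T) (hc : 0 ≤ c₀)
    (h : ∀ b ∈ Finset.range Q, ∀ b' ∈ Finset.range Q, b ≠ b' →
      c₀ * (m b * m b') ≤ m b' * G b + m b * G b') :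
    c₀ * (s * (s - T)) ≤ 2 * (s * ∑ b ∈ Finset.range Q, G b) := by
  have h1 : ∀ b ∈ Finset.range Q, ∀ b' ∈ Finset.range Q,
      c₀ * (m b * m b') - (if b = b' then c₀ * (m b * m b) else 0) ≤ m b' * G b + m b * G b' := by
    intro b hb b' hb'
    by_cases hbb : b = b'
    · subst hbb
      rw [if_pos rfl, sub_self]
      exact add_nonneg (mul_nonneg (hm b hb) (hG b hb)) (mul_nonneg (hm b hb) (hG b hb))
    · rw [if_neg hbb, sub_zero]
      exact h b hb b' hb' hbb
  have h2 := Finset.sum_le_sum fun b hb => Finset.sum_le_sum fun b' hb' => h1 b hb b' hb'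
  have h3 : ∑ b ∈ Finset.range Q, ∑ b' ∈ Finset.range Q,
      (c₀ * (m b * m b') - (if b = b' then c₀ * (m b * m b) else 0)) =
      c₀ * (s * s) - c₀ * ∑ b ∈ Finset.range Q, m b * m b := by
    rw [← hs, Finset.sum_mul_sum, Finset.mul_sum, Finset.mul_sum, ← Finset.sum_sub_distrib]
    refine Finset.sum_congr rfl fun b hb => ?_
    rw [Finset.sum_sub_distrib, Finset.mul_sum, Finset.sum_ite_eq, if_pos hb]
  have h4 : ∑ b ∈ Finset.range Q, ∑ b' ∈ Finset.range Q, (m b' * G b + m b * G b') =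
      2 * (s * ∑ b ∈ Finset.range Q, G b) := by
    have h5 : ∀ b ∈ Finset.range Q, ∑ b' ∈ Finset.range Q, (m b' * G b + m b * G b') =
        s * G b + m b * ∑ b' ∈ Finset.range Q, G b' := by
      intro b _
      rw [Finset.sum_add_distrib, ← Finset.sum_mul, ← Finset.mul_sum, hs]
    rw [Finset.sum_congr rfl h5, Finset.sum_add_distrib, ← Finset.mul_sum, ← Finset.sum_mul, hs]
    ring
  rw [h3, h4] at h2
  have h6 : ∑ b ∈ Finset.range Q, m b * m b ≤ T * s := by
    rw [← hs, Finset.mul_sum]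
    refine Finset.sum_le_sum fun b hb => ?_
    exact mul_le_mul_of_nonneg_right (hT b hb) (hm b hb)
  have h7 := mul_le_mul_of_nonneg_left h6 hc
  linarith

/-- **Coupling.**

Proof: let `A` be the complement of the bad set `{x ≠ 0 ∧ ‖p^(D+W) • x‖ ≤ 1 / p^V}`, and for a cell
`a` of level `D` let `A_b` (`b < p^W`) be the intersection of `A` with the subcell
`{dig (p^(D+W)) = a p^W + b}`, `m_b = μ (A_b)`, `s = ∑ m_b = μ (A ∩ cell a)`, `μ_a = μ (cell a)`.
By `far` and `hpair`, `c₀ ≤ g x + g y` for `x ∈ A_b`, `y ∈ A_b'`, `b ≠ b'`; integrate over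
`A_b × A_b'`: `c₀ m_b m_b' ≤ m_b' ∫_{A_b} g + m_b ∫_{A_b'} g`. Sum over `b ≠ b'`:
`c₀ ∑_b m_b (s - m_b) ≤ 2 ∑_b (s - m_b) ∫_{A_b} g ≤ 2 μ_a ∫_{cell a} g`. With `T = top p μ D W a`
(`m_b ≤ T`), `∑_b m_b (s - m_b) ≥ s (s - T)` if `s ≥ T` (and it is `≥ 0` always), so
`2 ∫_{cell a} g ≥ c₀ s (s - T) / μ_a ≥ c₀ ((s - T) - (μ_a - s)) = c₀ (μ_a - T - 2 (μ_a - s))`
(using `s (s - T) / μ_a = (s - T) - ((μ_a - s) / μ_a) (s - T)` and `s - T ≤ μ_a`; if `s < T` the
right side is negative). Sum over `a`: `∑ (μ_a - s_a) = μ (Aᶜ) ≤ η`. -/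
theorem couple (hp : 2 ≤ p) {μ : Measure UnitAddCircle} [IsProbabilityMeasure μ]
    {g : UnitAddCircle → ℝ} (hg0 : ∀ x, 0 ≤ g x) (hgc : Continuous g) {D W V : ℕ} (hD : 1 ≤ D)
    {c₀ : ℝ} (hc₀ : 0 ≤ c₀)
    (hpair : ∀ x y : UnitAddCircle, 1 / (p : ℝ) ^ (D + (W + V)) ≤ ‖x - y‖ →
      ‖x - y‖ < 1 / (p : ℝ) ^ D → c₀ ≤ g x + g y) {η : ℝ}
    (hη : μ.real {x : UnitAddCircle | x ≠ 0 ∧ ‖p ^ (D + W) • x‖ ≤ 1 / (p : ℝ) ^ V} ≤ η) :
    c₀ * (1 - ∑ a ∈ Finset.range (p ^ D), top p μ D W a - 2 * η) ≤ 2 * ∫ x, g x ∂μ := by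
  classical
  set P := p ^ D with hP
  set Q := p ^ W with hQ
  have hP0 : 0 < P := by positivity
  have hQ0 : 0 < Q := by positivity
  have hPQ : p ^ (D + W) = P * Q := pow_add p D W
  set A : Set UnitAddCircle := {x | ¬ (x ≠ 0 ∧ ‖p ^ (D + W) • x‖ ≤ 1 / (p : ℝ) ^ V)} with hA
  have hAm : MeasurableSet A := by
    have h1 : MeasurableSet {x : UnitAddCircle | x ≠ 0 ∧ ‖p ^ (D + W) • x‖ ≤ 1 / (p : ℝ) ^ V} := by
      refine MeasurableSet.inter (measurableSet_singleton _).compl ?_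
      have h2 : Continuous fun x : UnitAddCircle => ‖p ^ (D + W) • x‖ :=
        (continuous_nsmul _).norm
      exact measurableSet_le h2.measurable measurable_const
    exact h1.compl
  set q : UnitAddCircle → ℕ := fun x => dig (p ^ (D + W)) x % Q with hq
  have hqm : Measurable q := (measurable_of_countable (fun n : ℕ => n % Q)).comp (measurable_dig _)
  have hqQ : ∀ x, q x < Q := fun x => Nat.mod_lt _ hQ0
  have hgi : Integrable g μ := hgc.integrable_of_hasCompactSupport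
    (HasCompactSupport.of_compactSpace g)
  have hdP : ∀ x, dig P x < P := fun x => dig_lt hP0 x
  have hdig : ∀ x, dig (p ^ (D + W)) x = dig P x * Q + q x := by
    intro x
    have h1 := Pool.Agent.H.MP_96e181_an.dig_mul_div P Q hQ0 x
    rw [← hPQ] at h1
    rw [← h1]
    exact (Nat.div_add_mod' _ _).symm
  set S : ℕ → Set UnitAddCircle := fun a => A ∩ dig P ⁻¹' {a} with hS
  have hSm : ∀ a, MeasurableSet (S a) := fun a =>
    hAm.inter (measurable_dig _ (measurableSet_singleton a))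
  have hEm : ∀ a b, MeasurableSet (S a ∩ q ⁻¹' {b}) := fun a b =>
    (hSm a).inter (hqm (measurableSet_singleton b))
  have h1i : Integrable (fun _ : UnitAddCircle => (1 : ℝ)) μ := integrable_const _
  have hone : ∀ E : Set UnitAddCircle, ∫ _ in E, (1 : ℝ) ∂μ = μ.real E := by
    intro E
    rw [setIntegral_const, smul_eq_mul, mul_one]
  have cell : ∀ a, c₀ * (μ.real (dig P ⁻¹' {a}) - top p μ D W a -
      2 * (μ.real (dig P ⁻¹' {a}) - μ.real (S a))) ≤ 2 * ∫ x in S a, g x ∂μ := by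
    intro a
    have hT0 : 0 ≤ top p μ D W a := Real.iSup_nonneg fun b => measureReal_nonneg
    refine scouple_real measureReal_nonneg (measureReal_mono Set.inter_subset_right) hT0 hc₀
      (integral_nonneg fun x => hg0 x) ?_
    have h2 := scouple_sum h1i (hSm a) hqm hqQ
    simp only [hone] at h2
    have h3 := scouple_sum hgi (hSm a) hqm hqQ
    have h4 : c₀ * (μ.real (S a) * (μ.real (S a) - top p μ D W a)) ≤
        2 * (μ.real (S a) * ∑ b ∈ Finset.range Q, ∫ x in S a ∩ q ⁻¹' {b}, g x ∂μ) := by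
      refine scouple_alg (m := fun b => μ.real (S a ∩ q ⁻¹' {b})) (fun b _ => measureReal_nonneg)
        (fun b _ => integral_nonneg fun x => hg0 x) h2 ?_ hc₀ ?_
      · intro b hb
        have h5 : μ.real (S a ∩ q ⁻¹' {b}) ≤
            μ.real {x : UnitAddCircle | dig (p ^ (D + W)) x = a * p ^ W + b} := by
          refine measureReal_mono ?_
          rintro x ⟨⟨_, hx1⟩, hx2⟩
          rw [Set.mem_ofPred_eq, hdig x, hx1, hx2]
        refine h5.trans ?_
        rw [top]
        exact le_ciSup (f := fun b : Fin (p ^ W) =>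
          μ.real {x : UnitAddCircle | dig (p ^ (D + W)) x = a * p ^ W + b})
          (Set.finite_range _).bddAbove ⟨b, Finset.mem_range.1 hb⟩
      · intro b _ b' _ hbb
        refine scouple_pair hgi (hEm a b) (hEm a b') ?_
        rintro x ⟨⟨hxA, hx1⟩, hx2⟩ y ⟨⟨hyA, hy1⟩, hy2⟩
        have h6 := far hp hD (W := W) (V := V) (x := x) (y := y) ?_ ?_ hxA hyA
        · exact hpair x y h6.1 h6.2
        · exact hx1.trans hy1.symm
        · rw [hdig x, hdig y, hx1, hy1, hx2, hy2]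
          intro h7
          exact hbb (Nat.add_left_cancel h7)
    rw [h3] at h4
    refine h4.trans ?_
    refine mul_le_mul_of_nonneg_left ?_ (by norm_num)
    exact mul_le_mul_of_nonneg_right (measureReal_mono Set.inter_subset_right)
      (integral_nonneg fun x => hg0 x)
  have hsum := Finset.sum_le_sum fun a (_ : a ∈ Finset.range P) => cell a
  have h5 : ∑ a ∈ Finset.range P, ∫ x in S a, g x ∂μ = ∫ x in A, g x ∂μ :=
    scouple_sum hgi hAm (measurable_dig _) hdP
  have h6 : ∑ a ∈ Finset.range P, μ.real (S a) = μ.real A := by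
    have := scouple_sum h1i hAm (measurable_dig P) hdP
    simpa only [hone] using this
  have h7 : ∑ a ∈ Finset.range P, μ.real (dig P ⁻¹' {a}) = 1 := by
    have := scouple_sum h1i MeasurableSet.univ (measurable_dig P) hdP
    simpa only [hone, Set.univ_inter, probReal_univ] using this
  have h8 : 1 - η ≤ μ.real A := by
    have h9 : μ.real A = 1 - μ.real {x : UnitAddCircle | x ≠ 0 ∧
        ‖p ^ (D + W) • x‖ ≤ 1 / (p : ℝ) ^ V} := by
      have := probReal_compl_eq_one_sub (μ := μ) hAm.compl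
      rw [compl_compl] at this
      rw [this]
      congr 2
      ext x
      simp only [hA, Set.mem_compl_iff, Set.mem_ofPred_eq, not_not]
    rw [h9]
    linarith
  have h10 : ∫ x in A, g x ∂μ ≤ ∫ x, g x ∂μ :=
    setIntegral_le_integral hgi (Eventually.of_forall hg0)
  rw [← Finset.mul_sum, ← Finset.mul_sum, h5, Finset.sum_sub_distrib, Finset.sum_sub_distrib,
    ← Finset.mul_sum, Finset.sum_sub_distrib, h6, h7] at hsum
  have h11 : c₀ * (1 - ∑ a ∈ Finset.range P, top p μ D W a - 2 * η) ≤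
      c₀ * (1 - ∑ a ∈ Finset.range P, top p μ D W a - 2 * (1 - μ.real A)) := by
    refine mul_le_mul_of_nonneg_left ?_ hc₀
    linarith
  linarith

end Pool.Agent.H.MP_96e181_an.Win
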