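import Mathlib
import Pool.Agent.H.MP_96e181_an.win.Weyl2

set_option autoImplicit false

/-! Explicit equidistribution of `{j β}` along the denominators of good approximations -/

namespace Pool.Agent.H.MP_96e181_an.Win

open MeasureTheory Filter Topology

/-- The residue of `n + j a` mod `K`. -/
def sweyl_res (n a : ℤ) (K j : ℕ) : ℕ := ((n + (j : ℤ) * a) % (K : ℤ)).toNat

theorem sweyl_res_cast {n a : ℤ} {K : ℕ} (hK : 0 < K) (j : ℕ) :
    ((sweyl_res n a K j : ℕ) : ℤ) = (n + (j : ℤ) * a) % (K : ℤ) := by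
  unfold sweyl_res
  exact Int.toNat_of_nonneg (Int.emod_nonneg _ (by exact_mod_cast hK.ne'))

theorem sweyl_res_lt {n a : ℤ} {K : ℕ} (hK : 0 < K) (j : ℕ) : sweyl_res n a K j < K := by
  have h := sweyl_res_cast (n := n) (a := a) hK j
  have h2 := Int.emod_lt_of_pos (n + (j : ℤ) * a) (by exact_mod_cast hK : (0 : ℤ) < K)
  have h3 : ((sweyl_res n a K j : ℕ) : ℤ) < (K : ℤ) := by rw [h]; exact h2
  exact_mod_cast h3

theorem sweyl_res_inj {n a : ℤ} {K : ℕ} (hK : 0 < K) (hc : IsCoprime a (K : ℤ)) {j j' : ℕ}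
    (hj : j < K) (hj' : j' < K) (h : sweyl_res n a K j = sweyl_res n a K j') : j = j' := by
  have h1 : (n + (j : ℤ) * a) % (K : ℤ) = (n + (j' : ℤ) * a) % (K : ℤ) := by
    rw [← sweyl_res_cast hK, ← sweyl_res_cast hK, h]
  have h2 : (K : ℤ) ∣ (n + (j' : ℤ) * a) - (n + (j : ℤ) * a) := Int.ModEq.dvd h1
  have h3 : (K : ℤ) ∣ ((j' : ℤ) - j) * a := by
    have : ((j' : ℤ) - j) * a = (n + (j' : ℤ) * a) - (n + (j : ℤ) * a) := by ring
    rw [this]; exact h2
  have h4 : (K : ℤ) ∣ ((j' : ℤ) - j) := hc.symm.dvd_of_dvd_mul_right h3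
  have h5 : (j' : ℤ) - j = 0 := by
    apply Int.eq_zero_of_abs_lt_dvd h4
    rw [abs_lt]
    constructor <;> omega
  omega

theorem sweyl_res_image {n a : ℤ} {K : ℕ} (hK : 0 < K) (hc : IsCoprime a (K : ℤ)) :
    (Finset.range K).image (sweyl_res n a K) = Finset.range K := by
  apply Finset.eq_of_subset_of_card_le
  · intro i hi
    obtain ⟨j, _, rfl⟩ := Finset.mem_image.1 hi
    exact Finset.mem_range.2 (sweyl_res_lt hK j)
  · rw [Finset.card_image_of_injOn]
    intro j hj j' hj' h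
    exact sweyl_res_inj hK hc (Finset.mem_range.1 hj) (Finset.mem_range.1 hj') h

theorem sweyl_res_sum {E : Type*} [AddCommMonoid E] {n a : ℤ} {K : ℕ} (hK : 0 < K)
    (hc : IsCoprime a (K : ℤ)) (g : ℕ → E) :
    ∑ j ∈ Finset.range K, g (sweyl_res n a K j) = ∑ i ∈ Finset.range K, g i := by
  conv_rhs => rw [← sweyl_res_image (n := n) hK hc]
  rw [Finset.sum_image]
  intro j hj j' hj' h
  exact sweyl_res_inj hK hc (Finset.mem_range.1 hj) (Finset.mem_range.1 hj') h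

/-- One point. -/
theorem sweyl_point {β : ℝ} {r : ℚ} (hr : |β - r| < 1 / (r.den : ℝ) ^ 2) {L B : ℝ} (hL : 0 ≤ L)
    (hB : 0 ≤ B) {F : ℝ → ℂ}
    (hF : ∀ u ∈ Set.Icc (0 : ℝ) 1, ∀ v ∈ Set.Icc (0 : ℝ) 1, ‖F u - F v‖ ≤ L * |u - v|)
    (hFB : ∀ u ∈ Set.Icc (0 : ℝ) 1, ‖F u‖ ≤ B) (x₀ : ℝ) {j : ℕ} (hj : j < r.den) :
    ‖F (Int.fract (x₀ + (j : ℝ) * β)) -
      F ((sweyl_res ⌊(r.den : ℝ) * x₀⌋ r.num r.den j : ℝ) / r.den)‖ ≤
      2 * L / r.den + ((if sweyl_res ⌊(r.den : ℝ) * x₀⌋ r.num r.den j = 0 then 2 * B else 0) +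
        (if sweyl_res ⌊(r.den : ℝ) * x₀⌋ r.num r.den j = r.den - 1 then 2 * B else 0)) := by
  have hK : 0 < r.den := r.den_pos
  set K := r.den with hKdef
  have hK0 : (0 : ℝ) < K := by exact_mod_cast hK
  set n : ℤ := ⌊(K : ℝ) * x₀⌋ with hn
  set i := sweyl_res n r.num K j with hi
  have hilt : i < K := sweyl_res_lt hK j
  have hii : ((i : ℕ) : ℤ) = (n + (j : ℤ) * r.num) % (K : ℤ) := sweyl_res_cast hK j
  have hmem : (i : ℝ) / K ∈ Set.Icc (0 : ℝ) 1 := by
    have : (i : ℝ) ≤ K := by exact_mod_cast hilt.le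
    exact ⟨by positivity, by rw [div_le_one hK0]; exact this⟩
  have hfr : Int.fract (x₀ + (j : ℝ) * β) ∈ Set.Icc (0 : ℝ) 1 :=
    ⟨Int.fract_nonneg _, (Int.fract_lt_one _).le⟩
  have hpos1 : 0 ≤ 2 * L / K := by positivity
  by_cases h0 : i = 0
  · rw [if_pos h0]
    have h1 := norm_sub_le (F (Int.fract (x₀ + (j : ℝ) * β))) (F ((i : ℝ) / K))
    have h2 := hFB _ hfr
    have h3 := hFB _ hmem
    have h4 : (0 : ℝ) ≤ if i = K - 1 then 2 * B else 0 := by split_ifs <;> positivity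
    linarith
  by_cases h1 : i = K - 1
  · rw [if_pos h1]
    have h1 := norm_sub_le (F (Int.fract (x₀ + (j : ℝ) * β))) (F ((i : ℝ) / K))
    have h2 := hFB _ hfr
    have h3 := hFB _ hmem
    have h4 : (0 : ℝ) ≤ if i = 0 then 2 * B else 0 := by split_ifs <;> positivity
    linarith
  rw [if_neg h0, if_neg h1, add_zero, add_zero]
  -- the main case
  set s : ℝ := Int.fract ((K : ℝ) * x₀) with hs
  have hs0 : 0 ≤ s := Int.fract_nonneg _
  have hs1 : s < 1 := Int.fract_lt_one _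
  have hns : (n : ℝ) + s = K * x₀ := Int.floor_add_fract _
  set e : ℝ := (j : ℝ) * (β - r) with he
  have hjK : (j : ℝ) < K := by exact_mod_cast hj
  have hj0 : (0 : ℝ) ≤ j := by positivity
  have habs : |e| < 1 / K := by
    rw [he, abs_mul, abs_of_nonneg hj0]
    rcases hj0.eq_or_lt with hz | hz
    · rw [← hz, zero_mul]; positivity
    · calc (j : ℝ) * |β - r| < K * (1 / (K : ℝ) ^ 2) := by
            apply mul_lt_mul'' hjK hr hj0 (abs_nonneg _)
        _ = 1 / K := by field_simp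
  obtain ⟨he1, he2⟩ := abs_lt.1 habs
  set q : ℤ := (n + (j : ℤ) * r.num) / (K : ℤ) with hq
  have hdiv : (K : ℤ) * q + i = n + (j : ℤ) * r.num := by
    rw [hii, hq]; exact Int.mul_ediv_add_emod _ _
  have hdiv' : (K : ℝ) * q + i = n + (j : ℝ) * r.num := by exact_mod_cast hdiv
  have hrr : (r : ℝ) * K = r.num := by
    have h5 : (r : ℚ) * r.den = r.num := Rat.mul_den_eq_num r
    exact_mod_cast h5
  have hy : x₀ + (j : ℝ) * β = q + ((i + s) / K + e) := by
    have h5 : (K : ℝ) * (x₀ + (j : ℝ) * β) = K * (q + ((i + s) / K + e)) := by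
      have h6 : (K : ℝ) * ((i + s) / K) = i + s := by field_simp
      have h7 : (K : ℝ) * ((j : ℝ) * β) = (j : ℝ) * (r * K) + K * e := by rw [he]; ring
      calc (K : ℝ) * (x₀ + (j : ℝ) * β) = K * x₀ + K * ((j : ℝ) * β) := by ring
        _ = (n + s) + ((j : ℝ) * r.num + K * e) := by rw [h7, hrr, hns]
        _ = (K * q + i) + s + K * e := by rw [hdiv']; ring
        _ = K * q + K * ((i + s) / K) + K * e := by rw [h6]; ring
        _ = K * (q + ((i + s) / K + e)) := by ring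
    exact mul_left_cancel₀ hK0.ne' h5
  have hi1 : (1 : ℝ) ≤ i := by
    have : 1 ≤ i := Nat.one_le_iff_ne_zero.2 h0
    exact_mod_cast this
  have hi2 : (i : ℝ) + 2 ≤ K := by
    have : i + 2 ≤ K := by omega
    exact_mod_cast this
  have hy0 : 0 ≤ (i + s) / K + e := by
    have : 1 / (K : ℝ) ≤ (i + s) / K := by gcongr; linarith
    linarith
  have hy1 : (i + s) / K + e < 1 := by
    have h5 : (i + s) / K + 1 / K ≤ 1 := by
      rw [← add_div, div_le_one hK0]; linarith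
    linarith
  have hfract : Int.fract (x₀ + (j : ℝ) * β) = (i + s) / K + e := by
    rw [hy, Int.fract_intCast_add, Int.fract_eq_self.2 ⟨hy0, hy1⟩]
  refine (hF _ hfr _ hmem).trans ?_
  rw [hfract]
  have h5 : |(i + s) / K + e - i / K| ≤ 2 / K := by
    have h6 : (i + s) / K + e - i / K = s / K + e := by ring
    rw [h6]
    have h7 : |s / K| ≤ 1 / K := by
      rw [abs_of_nonneg (by positivity)]; gcongr
    have h8 := abs_add_le (s / K) e
    have h9 : (2 : ℝ) / K = 1 / K + 1 / K := by ring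
    linarith
  calc L * |(i + s) / K + e - i / K| ≤ L * (2 / K) := mul_le_mul_of_nonneg_left h5 hL
    _ = 2 * L / K := by ring

/-- One full block of length `K = r.den`, `|β - r| < 1 / K²`.

Proof: `x₀ + j β = (K x₀ + j a) / K + e_j`, `a = r.num`, `|e_j| < 1 / K` for `j < K`. With
`X = K x₀`, `i(j) = (⌊X⌋ + j a) mod K` is a bijection of `range K` (`a` is coprime to `K`) and
`x₀ + j β ≡ (i(j) + {X}) / K + e_j` mod `1`. If this number is in `[0, 1)` it is the fractional part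
and is at distance at most `2 / K` from `i(j) / K`; otherwise `i(j) ∈ {0, K - 1}`, which happens for
at most two `j` and costs at most `2 B` each. So the mean differs from `(1/K) ∑_i F(i/K)` by at
most `(2 L + 4 B) / K`; conclude with `weyl2_riemann`. -/
theorem sweyl_block {β : ℝ} {r : ℚ} (hr : |β - r| < 1 / (r.den : ℝ) ^ 2) {L B : ℝ} (hL : 0 ≤ L)
    (hB : 0 ≤ B) {F : ℝ → ℂ}
    (hF : ∀ u ∈ Set.Icc (0 : ℝ) 1, ∀ v ∈ Set.Icc (0 : ℝ) 1, ‖F u - F v‖ ≤ L * |u - v|)
    (hFB : ∀ u ∈ Set.Icc (0 : ℝ) 1, ‖F u‖ ≤ B) (x₀ : ℝ) :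
    ‖(∑ j ∈ Finset.range r.den, F (Int.fract (x₀ + (j : ℝ) * β))) / (r.den : ℂ) -
      ∫ u in (0 : ℝ)..1, F u‖ ≤ (3 * L + 4 * B) / r.den := by
  have hK : 0 < r.den := r.den_pos
  have hK0 : (0 : ℝ) < r.den := by exact_mod_cast hK
  have hc : IsCoprime r.num (r.den : ℤ) := by
    rw [Int.isCoprime_iff_gcd_eq_one]
    exact r.reduced
  have hR := weyl2_riemann hK hF hL
  set n : ℤ := ⌊(r.den : ℝ) * x₀⌋ with hn
  have hS : ‖(∑ j ∈ Finset.range r.den, F (Int.fract (x₀ + (j : ℝ) * β))) / (r.den : ℂ) -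
      (∑ i ∈ Finset.range r.den, F ((i : ℝ) / r.den)) / (r.den : ℂ)‖ ≤ (2 * L + 4 * B) / r.den := by
    rw [← sweyl_res_sum (n := n) hK hc (fun i : ℕ => F ((i : ℝ) / r.den)), ← sub_div,
      ← Finset.sum_sub_distrib, norm_div, Complex.norm_natCast]
    refine div_le_div_of_nonneg_right ?_ hK0.le
    refine (norm_sum_le _ _).trans ?_
    have h1 : ∀ j ∈ Finset.range r.den, ‖F (Int.fract (x₀ + (j : ℝ) * β)) -
        F ((sweyl_res n r.num r.den j : ℝ) / r.den)‖ ≤
        2 * L / r.den + ((if sweyl_res n r.num r.den j = 0 then 2 * B else 0) +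
        (if sweyl_res n r.num r.den j = r.den - 1 then 2 * B else 0)) := by
      intro j hj
      exact sweyl_point hr hL hB hF hFB x₀ (Finset.mem_range.1 hj)
    refine (Finset.sum_le_sum h1).trans ?_
    rw [Finset.sum_add_distrib, Finset.sum_const, Finset.card_range, nsmul_eq_mul]
    have h2 := sweyl_res_sum (n := n) hK hc
      (fun i : ℕ => (if i = 0 then 2 * B else 0) + (if i = r.den - 1 then 2 * B else 0))
    rw [h2, Finset.sum_add_distrib, Finset.sum_ite_eq', Finset.sum_ite_eq',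
      if_pos (Finset.mem_range.2 hK), if_pos (Finset.mem_range.2 (by omega))]
    have h3 : (r.den : ℝ) * (2 * L / r.den) = 2 * L := by field_simp
    rw [h3]
    linarith
  have htri := norm_sub_le_norm_sub_add_norm_sub
    ((∑ j ∈ Finset.range r.den, F (Int.fract (x₀ + (j : ℝ) * β))) / (r.den : ℂ))
    ((∑ i ∈ Finset.range r.den, F ((i : ℝ) / r.den)) / (r.den : ℂ)) (∫ u in (0 : ℝ)..1, F u)
  have h4 : (3 * L + 4 * B) / (r.den : ℝ) = (2 * L + 4 * B) / r.den + L / r.den := by ring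
  linarith

/-- Averages of length `M`: `M = Q K + R`, `R < K`, `Q` full blocks (`sweyl_block` with
`x₀ = i K β`) and a remainder of fewer than `K` terms. -/
theorem sweyl {β : ℝ} {r : ℚ} (hr : |β - r| < 1 / (r.den : ℝ) ^ 2) {L B : ℝ} (hL : 0 ≤ L)
    (hB : 0 ≤ B) {F : ℝ → ℂ}
    (hF : ∀ u ∈ Set.Icc (0 : ℝ) 1, ∀ v ∈ Set.Icc (0 : ℝ) 1, ‖F u - F v‖ ≤ L * |u - v|)
    (hFB : ∀ u ∈ Set.Icc (0 : ℝ) 1, ‖F u‖ ≤ B) {M : ℕ} (hM : 0 < M) :
    ‖(∑ j ∈ Finset.range M, F (Int.fract ((j : ℝ) * β))) / (M : ℂ) -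
      ∫ u in (0 : ℝ)..1, F u‖ ≤ (3 * L + 4 * B) / r.den + 2 * B * r.den / M := by
  have hK : 0 < r.den := r.den_pos
  set K := r.den with hKdef
  have hK0 : (0 : ℝ) < K := by exact_mod_cast hK
  have hM0 : (0 : ℝ) < M := by exact_mod_cast hM
  set I : ℂ := ∫ u in (0 : ℝ)..1, F u with hI
  have hIB : ‖I‖ ≤ B := by
    have h1 : ∀ u ∈ Set.uIoc (0 : ℝ) 1, ‖F u‖ ≤ B := by
      intro u hu
      rw [Set.uIoc_of_le zero_le_one] at hu
      exact hFB u ⟨hu.1.le, hu.2⟩
    have h2 := intervalIntegral.norm_integral_le_of_norm_le_const h1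
    simpa using h2
  -- full blocks
  have hblocks : ∀ Q : ℕ, ‖∑ j ∈ Finset.range (Q * K), (F (Int.fract ((j : ℝ) * β)) - I)‖ ≤
      Q * (3 * L + 4 * B) := by
    intro Q
    induction Q with
    | zero => simp
    | succ Q ih =>
      rw [Nat.succ_mul, Finset.sum_range_add]
      have h1 := sweyl_block hr hL hB hF hFB ((Q * K : ℕ) * β)
      have h2 : ‖∑ j ∈ Finset.range K, (F (Int.fract (((Q * K + j : ℕ) : ℝ) * β)) - I)‖ ≤
          3 * L + 4 * B := by
        rw [Finset.sum_sub_distrib, Finset.sum_const, Finset.card_range, nsmul_eq_mul]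
        have h3 : ∀ j : ℕ, ((Q * K + j : ℕ) : ℝ) * β = ((Q * K : ℕ) : ℝ) * β + (j : ℝ) * β := by
          intro j; push_cast; ring
        simp only [h3]
        have hKc : (K : ℂ) ≠ 0 := by exact_mod_cast hK.ne'
        have h4 : (∑ j ∈ Finset.range K, F (Int.fract (((Q * K : ℕ) : ℝ) * β + (j : ℝ) * β))) -
            (K : ℂ) * I = K * ((∑ j ∈ Finset.range K,
              F (Int.fract (((Q * K : ℕ) : ℝ) * β + (j : ℝ) * β))) / (K : ℂ) - I) := by
          field_simp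
        rw [h4, norm_mul, Complex.norm_natCast]
        calc (K : ℝ) * _ ≤ K * ((3 * L + 4 * B) / K) := mul_le_mul_of_nonneg_left h1 hK0.le
          _ = 3 * L + 4 * B := by field_simp
      refine (norm_add_le _ _).trans ((add_le_add ih h2).trans (le_of_eq ?_))
      push_cast
      ring
  have hdm : M / K * K + M % K = M := Nat.div_add_mod' M K
  have hsplit : ‖∑ j ∈ Finset.range M, (F (Int.fract ((j : ℝ) * β)) - I)‖ ≤
      (M / K : ℕ) * (3 * L + 4 * B) + (M % K : ℕ) * (2 * B) := by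
    conv_lhs => rw [← hdm, Finset.sum_range_add]
    refine (norm_add_le _ _).trans (add_le_add (hblocks _) ?_)
    refine (norm_sum_le _ _).trans ?_
    have h1 : ∀ j ∈ Finset.range (M % K),
        ‖F (Int.fract (((M / K * K + j : ℕ) : ℝ) * β)) - I‖ ≤ 2 * B := by
      intro j _
      have h2 := norm_sub_le (F (Int.fract (((M / K * K + j : ℕ) : ℝ) * β))) I
      have h3 := hFB _ ⟨Int.fract_nonneg (((M / K * K + j : ℕ) : ℝ) * β),
        (Int.fract_lt_one _).le⟩
      linarith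
    refine (Finset.sum_le_sum h1).trans (le_of_eq ?_)
    rw [Finset.sum_const, Finset.card_range, nsmul_eq_mul]
  have hMc : (M : ℂ) ≠ 0 := by exact_mod_cast hM.ne'
  have heq : (∑ j ∈ Finset.range M, F (Int.fract ((j : ℝ) * β))) / (M : ℂ) - I =
      (∑ j ∈ Finset.range M, (F (Int.fract ((j : ℝ) * β)) - I)) / (M : ℂ) := by
    rw [Finset.sum_sub_distrib, Finset.sum_const, Finset.card_range, nsmul_eq_mul, sub_div,
      mul_div_cancel_left₀ _ hMc]
  rw [heq, norm_div, Complex.norm_natCast, div_le_iff₀ hM0]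
  refine hsplit.trans ?_
  have hQ : ((M / K : ℕ) : ℝ) * K ≤ M := by exact_mod_cast Nat.div_mul_le_self M K
  have hRK : ((M % K : ℕ) : ℝ) ≤ K := by exact_mod_cast (Nat.mod_lt M hK).le
  have hC : 0 ≤ 3 * L + 4 * B := by positivity
  have h1 : ((M / K : ℕ) : ℝ) * (3 * L + 4 * B) ≤ (3 * L + 4 * B) / K * M := by
    rw [div_mul_eq_mul_div, le_div_iff₀ hK0]
    nlinarith
  have h2 : ((M % K : ℕ) : ℝ) * (2 * B) ≤ 2 * B * K / M * M := by
    rw [div_mul_cancel₀ _ hM0.ne']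
    nlinarith
  rw [add_mul]
  linarith

end Pool.Agent.H.MP_96e181_an.Win
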