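import Mathlib
import Pool.Agent.H.MP_96e181_an.win.Key
import Pool.Agent.H.MP_96e181_an.win.SWeyl

set_option autoImplicit false

/-! The key lemma with explicit ranges -/

namespace Pool.Agent.H.MP_96e181_an.Win

open MeasureTheory Filter Topology
open Pool.Agent.H.MP_96e181_an (ee)

variable {p q : ℕ}

/-- The arithmetic of the constants. -/
theorem skey_arith {A L δ c' P K M : ℝ} (hδ : 0 < δ) (hA : 0 ≤ A) (hP : 1 ≤ P)
    (hL : 3 * L ≤ A * P) (hc : 2 * (A + 6) / δ < c') (hK : c' * P ≤ K) (hM : c' * K ≤ M) :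
    (3 * L + 4 * 1) / K + 2 * 1 * K / M ≤ δ / 2 := by
  have hc0 : 0 < c' := lt_of_le_of_lt (by positivity) hc
  have hP0 : 0 < P := by linarith
  have hK0 : 0 < K := lt_of_lt_of_le (by positivity) hK
  have hM0 : 0 < M := lt_of_lt_of_le (by positivity) hM
  have h1 : (3 * L + 4 * 1) / K ≤ (A + 4) / c' := by
    rw [div_le_div_iff₀ hK0 hc0]
    have h3 : (3 * L + 4 * 1) * c' ≤ (A * P + 4 * P) * c' :=
      mul_le_mul_of_nonneg_right (by linarith) hc0.le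
    have h4 : (A + 4) * (c' * P) ≤ (A + 4) * K := mul_le_mul_of_nonneg_left hK (by linarith)
    nlinarith
  have h2 : 2 * 1 * K / M ≤ 2 / c' := by
    rw [div_le_div_iff₀ hM0 hc0]
    nlinarith
  have h3 : (A + 4) / c' + 2 / c' = (A + 6) / c' := by ring
  have h4 : (A + 6) / c' ≤ δ / 2 := by
    rw [div_lt_iff₀ hδ] at hc
    rw [div_le_iff₀ hc0]
    nlinarith
  linarith

/-- **Key lemma, explicit form.** Same proof as `key` (Key.lean) with `sweyl` instead of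
`weyl_lip`: `F(u) = e(m z p^n p^u)` has `B = 1` and Lipschitz constant
`L = 2π H p^(C+W) · p · log p`; `(3 L + 4) / K + 2 K / M ≤ δ / 2` if `C' p^W ≤ K`, `C' K ≤ M` and
`C'` is large in terms of `δ, H, C, p`; and `osc` gives `δ / 2` for `p ^ C` large. -/
theorem skey (hp : 2 ≤ p) (hq : 2 ≤ q) (h : Irrational (Real.log (p : ℝ) / Real.log (q : ℝ)))
    {δ : ℝ} (hδ : 0 < δ) (H : ℕ) :
    ∃ C C' : ℕ, ∀ (W n M : ℕ) (r : ℚ), |beta p q - r| < 1 / (r.den : ℝ) ^ 2 →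
      C' * p ^ W ≤ r.den → C' * r.den ≤ M → M ≤ J p q n → 0 < M →
      ∀ m : ℤ, m ≠ 0 → m.natAbs ≤ H → ∀ z : ℝ,
      (p : ℝ) ^ C ≤ |z| * (p : ℝ) ^ n → |z| * (p : ℝ) ^ n ≤ (p : ℝ) ^ (C + W) →
      ‖cmJ p q n M m (z : UnitAddCircle)‖ ≤ δ := by
  have hp0 : (0 : ℝ) < p := by positivity
  have hp1 : (1 : ℝ) < p := by exact_mod_cast (by omega : 1 < p)
  have hlog : 0 < Real.log p := Real.log_pos hp1
  obtain ⟨C, hC⟩ := pow_unbounded_of_one_lt (1 / (Real.pi * Real.log p * (δ / 2))) hp1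
  obtain ⟨C', hC'⟩ := exists_nat_gt
    (2 * ((6 * Real.pi * (H * (p : ℝ) ^ C) * (p * Real.log p)) + 6) / δ)
  refine ⟨C, C', fun W n M r hr hK hMK hMJ hM m hm hmH z hz1 hz2 => ?_⟩
  set c : ℝ := m * z * (p : ℝ) ^ n with hc
  have hm1 : (1 : ℝ) ≤ |(m : ℝ)| := by
    have : (1 : ℤ) ≤ |m| := Int.one_le_abs hm
    exact_mod_cast this
  have hmH' : |(m : ℝ)| ≤ H := by
    have h1 : |m| ≤ (H : ℤ) := by
      rw [Int.abs_eq_natAbs]
      exact_mod_cast hmH
    exact_mod_cast h1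
  have hcabs : |c| = |(m : ℝ)| * (|z| * (p : ℝ) ^ n) := by
    rw [hc, abs_mul, abs_mul, abs_of_pos (by positivity : (0 : ℝ) < (p : ℝ) ^ n)]
    ring
  have hc1 : (p : ℝ) ^ C ≤ |c| := by
    rw [hcabs]
    calc (p : ℝ) ^ C ≤ |z| * (p : ℝ) ^ n := hz1
      _ = 1 * (|z| * (p : ℝ) ^ n) := (one_mul _).symm
      _ ≤ |(m : ℝ)| * (|z| * (p : ℝ) ^ n) :=
        mul_le_mul_of_nonneg_right hm1 (by positivity)
  have hc2 : |c| ≤ (H : ℝ) * (p : ℝ) ^ (C + W) := by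
    rw [hcabs]
    exact mul_le_mul hmH' hz2 (by positivity) (Nat.cast_nonneg _)
  have hcpos : 0 < |c| := lt_of_lt_of_le (by positivity) hc1
  have hc0 : c ≠ 0 := abs_pos.1 hcpos
  have hmean : cmJ p q n M m (z : UnitAddCircle) =
      (∑ j ∈ Finset.range M, ee (c * (p : ℝ) ^ (Int.fract ((j : ℝ) * beta p q)))) / (M : ℂ) := by
    unfold cmJ
    congr 1
    refine Finset.sum_congr rfl (fun j hj => ?_)
    rw [key_fourier, tau_cast hp hq h (lt_of_lt_of_le (Finset.mem_range.1 hj) hMJ)]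
    congr 1
    rw [hc]; ring
  have hL0 : (0 : ℝ) ≤ 2 * Real.pi * ((H : ℝ) * (p : ℝ) ^ (C + W)) * (p * Real.log p) := by
    positivity
  have hW := sweyl hr hL0 (zero_le_one' ℝ) (F := fun u => ee (c * (p : ℝ) ^ u))
    (fun u hu v hv => by
      refine (norm_ee_sub_ee _ _).trans ?_
      rw [← mul_sub, abs_mul]
      have h1 := key_rpow_lip hp hu hv
      have h2 : |c| * |(p : ℝ) ^ u - (p : ℝ) ^ v| ≤
          ((H : ℝ) * (p : ℝ) ^ (C + W)) * (p * Real.log p * |u - v|) :=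
        mul_le_mul hc2 h1 (abs_nonneg _) (by positivity)
      have h3 : (0 : ℝ) ≤ 2 * Real.pi := by positivity
      calc 2 * Real.pi * (|c| * |(p : ℝ) ^ u - (p : ℝ) ^ v|)
          ≤ 2 * Real.pi * (((H : ℝ) * (p : ℝ) ^ (C + W)) * (p * Real.log p * |u - v|)) :=
            mul_le_mul_of_nonneg_left h2 h3
        _ = _ := by ring)
    (fun u _ => by rw [norm_ee]) hM
  have hO := osc hp hc0
  have hO2 : 1 / (Real.pi * |c| * Real.log p) ≤ δ / 2 := by
    have h1 : 1 / (Real.pi * Real.log p * (δ / 2)) < |c| := lt_of_lt_of_le hC hc1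
    have hpos : 0 < Real.pi * Real.log p * (δ / 2) := by positivity
    rw [div_lt_iff₀ hpos] at h1
    have hpi : 0 < Real.pi * |c| * Real.log p := by positivity
    rw [div_le_iff₀ hpi]
    nlinarith
  have hE : (3 * (2 * Real.pi * ((H : ℝ) * (p : ℝ) ^ (C + W)) * (p * Real.log p)) + 4 * 1) /
      (r.den : ℝ) + 2 * 1 * (r.den : ℝ) / (M : ℝ) ≤ δ / 2 := by
    refine skey_arith (P := (p : ℝ) ^ W) hδ (by positivity) (one_le_pow₀ hp1.le) (le_of_eq ?_) hC'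
      (by exact_mod_cast hK) (by exact_mod_cast hMK)
    rw [pow_add]
    ring
  rw [hmean]
  have htri := norm_sub_norm_le
    ((∑ j ∈ Finset.range M, ee (c * (p : ℝ) ^ (Int.fract ((j : ℝ) * beta p q)))) / (M : ℂ))
    (∫ u in (0 : ℝ)..1, ee (c * (p : ℝ) ^ u))
  linarith [hW, hO, hO2, htri]

end Pool.Agent.H.MP_96e181_an.Win
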