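import Mathlib
import Pool.Agent.H.MP_96e181_an.win.SKey
import Pool.Agent.H.MP_96e181_an.win.CellLaw
import Pool.Agent.H.MP_96e181_an.win.EntAdd

set_option autoImplicit false

/-! The pair lemma with explicit ranges -/

namespace Pool.Agent.H.MP_96e181_an.Win

open MeasureTheory Filter Topology
open Pool.Agent.H.MP_96e181_an (dig rep)

variable {p q : ℕ}

/-- The cell law, explicit form: same proof as `cell_law` (CellLaw.lean), with `skey` (for the
largest `H` and the smallest `δ` given by `approx` for the `N` majorants) instead of `key_fin`. -/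
theorem scell (hp : 2 ≤ p) (hq : 2 ≤ q) (h : Irrational (Real.log (p : ℝ) / Real.log (q : ℝ)))
    {N : ℕ} (hN : 0 < N) :
    ∃ C C' : ℕ, ∀ (W n : ℕ) (r : ℚ), |beta p q - r| < 1 / (r.den : ℝ) ^ 2 →
      C' * p ^ W ≤ r.den → C' * r.den ≤ J p q n → ∀ z : ℝ,
      (p : ℝ) ^ C ≤ |z| * (p : ℝ) ^ n → |z| * (p : ℝ) ^ n ≤ (p : ℝ) ^ (C + W) →
      ∀ k < N, (((Finset.range (J p q n)).filter fun j =>
        dig N (tau p q n j • (z : UnitAddCircle)) = k).card : ℝ) ≤ 5 / N * J p q n := by
  have hNR : (0 : ℝ) < (N : ℝ) := by exact_mod_cast hN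
  choose g hg0 hg1 hgi using fun k => majorant hN k
  choose Hk δk hδk happ using fun k => approx (g k) (ε := 1 / (N : ℝ)) (by positivity)
  have hne : (Finset.range N).Nonempty := ⟨0, Finset.mem_range.mpr hN⟩
  set δ : ℝ := (Finset.range N).inf' hne δk with hδ
  have hδ0 : 0 < δ := (Finset.lt_inf'_iff _).mpr fun k _ => hδk k
  have hδle : ∀ k < N, δ ≤ δk k := fun k hk => Finset.inf'_le _ (Finset.mem_range.mpr hk)
  set H : ℕ := (Finset.range N).sup Hk with hH
  have hHle : ∀ k < N, Hk k ≤ H := fun k hk => Finset.le_sup (Finset.mem_range.mpr hk)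
  obtain ⟨C, C', hC⟩ := skey hp hq h hδ0 H
  refine ⟨C, C', fun W n r hr hr1 hr2 z hz1 hz2 k hk => ?_⟩
  have hJ : 0 < J p q n := J_pos n
  have hJR : (0 : ℝ) < (J p q n : ℝ) := by exact_mod_cast hJ
  have hsum : ∑ _j ∈ Finset.range (J p q n), (1 / (J p q n : ℝ)) = 1 := by
    rw [Finset.sum_const, Finset.card_range, nsmul_eq_mul]
    field_simp
  have happ' := happ k (Finset.range (J p q n)) (fun _ => 1 / (J p q n : ℝ))
    (fun j => tau p q n j • (z : UnitAddCircle)) (fun _ _ => by positivity) hsum.le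
    (by
      intro m hm hmH
      refine le_trans (le_of_eq ?_) ((hC W n (J p q n) r hr hr1 hr2 le_rfl hJ m hm
        (hmH.trans (hHle k hk)) z hz1 hz2).trans (hδle k hk))
      rw [cmJ, ← Finset.mul_sum]
      congr 1
      push_cast
      rw [one_div, mul_comm, div_eq_mul_inv])
  rw [hsum, one_mul] at happ'
  have h1 : ∑ j ∈ Finset.range (J p q n), (1 / (J p q n : ℝ)) *
      g k (tau p q n j • (z : UnitAddCircle)) ≤ 5 / N := by
    have h2 := (abs_le.mp happ').2
    have h3 := hgi k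
    have h4 : (5 : ℝ) / N = 4 / N + 1 / N := by ring
    linarith
  have h2 : (((Finset.range (J p q n)).filter fun j =>
        dig N (tau p q n j • (z : UnitAddCircle)) = k).card : ℝ) ≤
      ∑ j ∈ Finset.range (J p q n), g k (tau p q n j • (z : UnitAddCircle)) := by
    rw [Finset.card_filter]
    push_cast
    refine Finset.sum_le_sum fun j _ => ?_
    split_ifs with hj
    · exact hg1 k _ hj
    · exact hg0 k _
  rw [← Finset.mul_sum, one_div, inv_mul_le_iff₀ hJR] at h1
  calc _ ≤ _ := h2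
    _ ≤ _ := h1
    _ = _ := by ring

/-- The pair lemma, explicit form (same proof as `pair`). -/
theorem spair (hp : 2 ≤ p) (hq : 2 ≤ q) (h : Irrational (Real.log (p : ℝ) / Real.log (q : ℝ)))
    {N : ℕ} (hN : 0 < N) :
    ∃ C C' : ℕ, ∀ (W n : ℕ) (r : ℚ), |beta p q - r| < 1 / (r.den : ℝ) ^ 2 →
      C' * p ^ W ≤ r.den → C' * r.den ≤ J p q n →
      ∀ (x y : UnitAddCircle) (z : ℝ), (z : UnitAddCircle) = x - y →
      (p : ℝ) ^ C ≤ |z| * (p : ℝ) ^ n → |z| * (p : ℝ) ^ n ≤ (p : ℝ) ^ (C + W) →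
      Real.log (N / 10) ≤ went p q n N x + went p q n N y := by
  obtain ⟨C, C', hC⟩ := scell hp hq h hN
  refine ⟨C, C', fun W n r hr h1 h2 x y z hz h3 h4 => ?_⟩
  have h5 := hC W n r hr h1 h2 z h3 h4
  have h6 := ent_add (s := Finset.range (J p q n)) ⟨0, Finset.mem_range.2 (J_pos n)⟩
    (fun j => tau p q n j • x) (fun j => tau p q n j • y) hN (K := 5) (by norm_num) (by
      intro k hk
      have h7 := h5 k hk
      simp only [← smul_sub, ← hz, Finset.card_range]
      exact h7)
  have h8 : (N : ℝ) / (2 * 5) = N / 10 := by norm_num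
  rw [h8] at h6
  exact h6

end Pool.Agent.H.MP_96e181_an.Win
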