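import Mathlib
import Pool.Agent.H.MP_96e181_an.win.SPair
import Pool.Agent.H.MP_96e181_an.win.WinLower

set_option autoImplicit false

/-! The two-point theorem with explicit ranges -/

namespace Pool.Agent.H.MP_96e181_an.Win

open MeasureTheory Filter Topology

variable {p q : ℕ}

/-- a real representative of smallest modulus -/
theorem swin_lift (u : UnitAddCircle) : ∃ z : ℝ, (z : UnitAddCircle) = u ∧ |z| = ‖u‖ := by
  obtain ⟨t, rfl⟩ := QuotientAddGroup.mk_surjective u
  refine ⟨t - round t, ?_, ?_⟩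
  · have h1 : ((round t : ℝ) : UnitAddCircle) = 0 := by
      rw [AddCircle.coe_eq_zero_iff]
      exact ⟨round t, by simp⟩
    rw [AddCircle.coe_sub, h1, sub_zero]
  · have h2 := UnitAddCircle.norm_eq (x := t)
    exact h2.symm

/-- **Two points, explicit form** (same proof as `pair_windows`, PairWin.lean).

Proof: `win_lower` for `{f}` and `ε / 4`: `c, D₀, R₀`; `r ≥ R₀` with
`log 10 * ∫ f ≤ (ε / 2) (D₀ + r) log p`, `N`; `spair` for `p ^ (D₀ + r)`: `C, C'`. Given `x, y` let
`z` be the real number with `|z| = ‖x - y‖`, `(z : UnitAddCircle) = x - y`, and `n' = n + W + C`: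
`p ^ C ≤ |z| p ^ n' ≤ p ^ (C + W)`. Add the two inequalities of `win_lower` at `n'`. The constants:
window length `r + 1`, shift `C + c`, and the new `C'` at least `N`, at least `C' (⌈beta⌉ + 1)`, so
that `C' r.den ≤ n` implies `C'_old r.den ≤ J p q n'` (`J_lower`) and `n' ≥ N`. -/
theorem swin (hp : 2 ≤ p) (hq : 2 ≤ q) (h : Irrational (Real.log (p : ℝ) / Real.log (q : ℝ)))
    (f : C(UnitAddCircle, ℝ)) (hf : 0 ≤ f) {ε : ℝ} (hε : 0 < ε) :
    ∃ R c C' : ℕ, 0 < R ∧ ∀ (W n : ℕ) (r : ℚ), |beta p q - r| < 1 / (r.den : ℝ) ^ 2 →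
      C' * p ^ W ≤ r.den → C' * r.den ≤ n → ∀ x y : UnitAddCircle,
      1 / (p : ℝ) ^ (n + W) ≤ ‖x - y‖ → ‖x - y‖ < 1 / (p : ℝ) ^ n →
      (∫ t, f t) - ε ≤ mean p q f (n + W + c) R x + mean p q f (n + W + c) R y := by
  obtain ⟨c, D₀, R₀, hw⟩ := win_lower hp hq h {f} (fun g hg y => by
    rw [Finset.mem_singleton] at hg
    rw [hg]
    exact hf y) (ε := ε / 4) (by positivity)
  have hlp : 0 < Real.log p := Real.log_pos (by exact_mod_cast (by omega : 1 < p))
  obtain ⟨R₁, hR₁⟩ := exists_nat_ge (Real.log 10 * (∫ t, f t) / (ε / 2 * Real.log p))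
  set r' : ℕ := R₀ + R₁ + 1 with hr'
  obtain ⟨N₁, hN₁⟩ := hw r' (by omega)
  set l : ℕ := D₀ + r' with hl
  have hl1 : 1 ≤ l := by omega
  have hlR : R₁ ≤ l := by omega
  have hpl : 0 < p ^ l := by positivity
  obtain ⟨C, C₁, hpair⟩ := spair hp hq h hpl
  have hb := beta_pos hp hq
  obtain ⟨B, hB'⟩ := exists_nat_ge (beta p q)
  refine ⟨r' + 1, C + c, N₁ + C₁ * (B + 1), Nat.succ_pos _,
    fun W n r hr hW hn x y hxy1 hxy2 => ?_⟩
  have hp0 : (0 : ℝ) < p := by exact_mod_cast (by omega : 0 < p)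
  obtain ⟨z, hz1, hz2⟩ := swin_lift (x - y)
  rw [← hz2] at hxy1 hxy2
  set n' : ℕ := n + W + C with hn'
  have hnc : n + W + (C + c) = n' + c := by omega
  rw [hnc]
  have hden : 1 ≤ r.den := r.pos
  have hC1 : C₁ ≤ N₁ + C₁ * (B + 1) := by nlinarith
  have hW1 : C₁ * p ^ W ≤ r.den := (Nat.mul_le_mul_right _ hC1).trans hW
  have hnN : N₁ ≤ n := by
    have h3 : N₁ * 1 ≤ (N₁ + C₁ * (B + 1)) * r.den := Nat.mul_le_mul (by omega) hden
    omega
  have hJ : C₁ * r.den ≤ J p q n' := by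
    have h3 : (C₁ * (B + 1)) * r.den ≤ n :=
      (Nat.mul_le_mul_right _ (by omega)).trans hn
    have h4 : ((C₁ * r.den : ℕ) : ℝ) ≤ (J p q n' : ℝ) := by
      refine le_trans ?_ (J_lower hp hq h n')
      rw [le_div_iff₀ hb]
      have h5 : ((C₁ * r.den : ℕ) : ℝ) * beta p q ≤ ((C₁ * r.den : ℕ) : ℝ) * ((B + 1 : ℕ) : ℝ) := by
        refine mul_le_mul_of_nonneg_left ?_ (Nat.cast_nonneg _)
        push_cast
        linarith
      have h6 : ((C₁ * r.den : ℕ) : ℝ) * ((B + 1 : ℕ) : ℝ) ≤ (n : ℝ) := by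
        have h7 : C₁ * r.den * (B + 1) ≤ n := by
          calc C₁ * r.den * (B + 1) = (C₁ * (B + 1)) * r.den := by ring
            _ ≤ n := h3
        exact_mod_cast h7
      have h8 : (n : ℝ) ≤ (n' : ℝ) + 1 := by
        have h9 : n ≤ n' + 1 := by omega
        exact_mod_cast h9
      linarith
    exact_mod_cast h4
  have e1 := hpair W n' r hr hW1 hJ x y z hz1 (by
    have h3 : (p : ℝ) ^ C = 1 / (p : ℝ) ^ (n + W) * (p : ℝ) ^ n' := by
      rw [hn', pow_add _ (n + W) C]
      field_simp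
    rw [h3]
    exact mul_le_mul_of_nonneg_right hxy1 (by positivity)) (by
    have h3 : (p : ℝ) ^ (C + W) = 1 / (p : ℝ) ^ n * (p : ℝ) ^ n' := by
      rw [hn', show n + W + C = n + (C + W) by ring, pow_add _ n (C + W)]
      field_simp
    rw [h3]
    exact mul_le_mul_of_nonneg_right hxy2.le (by positivity))
  have e2 := hN₁ n' (by omega) x f (Finset.mem_singleton_self f)
  have e3 := hN₁ n' (by omega) y f (Finset.mem_singleton_self f)
  have hB : 0 ≤ ∫ t, f t := integral_nonneg fun t => hf t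
  have hlpos : (0 : ℝ) < (l : ℝ) := by exact_mod_cast hl1
  have hll : 0 < (l : ℝ) * Real.log p := by positivity
  have e4 : Real.log (((p ^ l : ℕ) : ℝ) / 10) = l * Real.log p - Real.log 10 := by
    rw [Real.log_div (by positivity) (by norm_num)]
    push_cast
    rw [Real.log_pow]
  rw [e4] at e1
  have e5 : Real.log 10 * (∫ t, f t) / (l * Real.log p) ≤ ε / 2 := by
    rw [div_le_iff₀ hll]
    rw [div_le_iff₀ (by positivity)] at hR₁
    have : (R₁ : ℝ) * (ε / 2 * Real.log p) ≤ l * (ε / 2 * Real.log p) := by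
      refine mul_le_mul_of_nonneg_right ?_ (by positivity)
      exact_mod_cast hlR
    linarith
  have e6 : (∫ t, f t) - Real.log 10 * (∫ t, f t) / (l * Real.log p) ≤
      went p q n' (p ^ l) x / (l * Real.log p) * (∫ t, f t) +
        went p q n' (p ^ l) y / (l * Real.log p) * (∫ t, f t) := by
    have e7 : (l * Real.log p - Real.log 10) / (l * Real.log p) * (∫ t, f t) ≤
        (went p q n' (p ^ l) x + went p q n' (p ^ l) y) / (l * Real.log p) * (∫ t, f t) :=
      mul_le_mul_of_nonneg_right (div_le_div_of_nonneg_right e1 hll.le) hB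
    have e8 : (l * Real.log p - Real.log 10) / (l * Real.log p) * (∫ t, f t) =
        (∫ t, f t) - Real.log 10 * (∫ t, f t) / (l * Real.log p) := by
      rw [sub_div, div_self hll.ne']
      ring
    rw [e8, add_div, add_mul] at e7
    exact e7
  linarith

end Pool.Agent.H.MP_96e181_an.Win
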