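import Mathlib
import Pool.Agent.H.MP_96e181_an.win.SCouple
import Pool.Agent.H.MP_96e181_an.win.SWin
import Pool.Agent.H.MP_96e181_an.win.Conv4

set_option autoImplicit false

/-! The universal speed theorem -/

namespace Pool.Agent.H.MP_96e181_an.Win

open MeasureTheory Filter Topology

variable {p q : ℕ}

private theorem sfinal_cont (f : C(UnitAddCircle, ℝ)) (n r : ℕ) :
    Continuous (fun x => mean p q f n r x) := by
  unfold mean
  refine Continuous.div_const (continuous_finsetSum _ fun t _ => ?_) _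
  exact f.continuous.comp (continuous_const_smul t)

private theorem sfinal_nonneg (f : C(UnitAddCircle, ℝ)) (hf : 0 ≤ f) (n r : ℕ)
    (x : UnitAddCircle) : 0 ≤ mean p q f n r x := by
  unfold mean
  exact div_nonneg (Finset.sum_nonneg fun t _ => hf (t • x)) (Nat.cast_nonneg _)

/-- **Universal speed.**

Proof: we may take `ε ≤ 1`; let `η = ε / 16`. `exists_sep`: `f` with `∫ f ≥ 1 - η`, `∫ f dμ ≤ η`. `swin`
for `f, η`: `R, c, C'`. `boundary` for `η`: `V`. `C = max (C' p ^ V) 1`: if `C p ^ W ≤ r.den` and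
`C r.den ≤ D` then `C' p ^ (W + V) ≤ r.den`, `C' r.den ≤ D`, `1 ≤ D`. Apply `couple` with
`g = mean p q f (D + (W + V) + c) R` (continuous, nonnegative) and `c₀ = 1 - 2 η`, and
`∫ g dμ = ∫ f dμ ≤ η` (`integral_mean`): `(1 - 2η) (1 - S - 2η) ≤ 2η`, so
`1 - S ≤ 2η + 2η / (1 - 2η) ≤ ε`. -/
theorem universal_speed (hp : 2 ≤ p) (hq : 2 ≤ q)
    (h : Irrational (Real.log (p : ℝ) / Real.log (q : ℝ))) {μ : Measure UnitAddCircle}
    [IsProbabilityMeasure μ]
    (hμp : MeasurePreserving (fun x : UnitAddCircle => p • x) μ μ)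
    (hμq : MeasurePreserving (fun x : UnitAddCircle => q • x) μ μ)
    (hs : μ ⟂ₘ (volume : Measure UnitAddCircle)) {ε : ℝ} (hε : 0 < ε) :
    ∃ C : ℕ, ∀ (D W : ℕ) (r : ℚ), |beta p q - r| < 1 / (r.den : ℝ) ^ 2 →
      C * p ^ W ≤ r.den → C * r.den ≤ D →
      1 - ε ≤ ∑ a ∈ Finset.range (p ^ D), top p μ D W a := by
  set η : ℝ := min ε 1 / 16 with hηdef
  have hη : 0 < η := by
    have : 0 < min ε 1 := lt_min hε one_pos
    positivity
  have hη1 : 16 * η ≤ 1 := by
    have := min_le_right ε 1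
    rw [hηdef]
    linarith
  have hηε : 16 * η ≤ ε := by
    have := min_le_left ε 1
    rw [hηdef]
    linarith
  obtain ⟨f, hf0, hf1, hfv, hfμ⟩ := exists_sep hs hη
  obtain ⟨R, c, C', hR, hsw⟩ := swin hp hq h f hf0 hη
  obtain ⟨V, hV⟩ := boundary hp hμp hη
  refine ⟨max (C' * p ^ V) 1, fun D W r hr hC1 hC2 => ?_⟩
  have hp0 : 0 < p := by omega
  have hden : 1 ≤ r.den := r.den_pos
  have hCV : C' * p ^ V ≤ max (C' * p ^ V) 1 := le_max_left _ _
  have hC'V : C' ≤ C' * p ^ V := Nat.le_mul_of_pos_right _ (pow_pos hp0 V)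
  have h1 : C' * p ^ (W + V) ≤ r.den := by
    calc C' * p ^ (W + V) = C' * p ^ V * p ^ W := by ring
      _ ≤ max (C' * p ^ V) 1 * p ^ W := Nat.mul_le_mul_right _ hCV
      _ ≤ r.den := hC1
  have h2 : C' * r.den ≤ D :=
    (Nat.mul_le_mul_right _ (hC'V.trans hCV)).trans hC2
  have hD : 1 ≤ D := by
    calc 1 ≤ max (C' * p ^ V) 1 * 1 := by omega
      _ ≤ max (C' * p ^ V) 1 * r.den := Nat.mul_le_mul_left _ hden
      _ ≤ D := hC2
  have hc₀ : (0 : ℝ) ≤ 1 - 2 * η := by linarith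
  have key := couple (V := V) (W := W) (D := D) hp (μ := μ)
    (g := fun x => mean p q f (D + (W + V) + c) R x)
    (sfinal_nonneg f hf0 _ _) (sfinal_cont f _ _) hD hc₀ (fun x y hxy1 hxy2 => by
      have := hsw (W + V) D r hr h1 h2 x y hxy1 hxy2
      linarith) (hV (D + W))
  rw [integral_mean hp hq h hμp hμq f _ hR] at key
  set S := ∑ a ∈ Finset.range (p ^ D), top p μ D W a
  have h3 : (1 - 2 * η) * (1 - S - 2 * η) ≤ 2 * η := by linarith
  by_contra hcon
  rw [not_le] at hcon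
  have h4 : 4 * η < 1 - S - 2 * η := by linarith
  nlinarith

end Pool.Agent.H.MP_96e181_an.Win
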