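import Mathlib
import Pool.Agent.H.MP_96e181_an.win.SFinal
import Pool.Agent.H.MP_96e181_an.win.Major

set_option autoImplicit false

/-! The universal speed theorem for all invariant measures -/

namespace Pool.Agent.H.MP_96e181_an.Win

open MeasureTheory Filter Topology
open Pool.Agent.H.MP_96e181_an (dig rep coe_rep dig_spec dig_lt measurable_dig dig_mul_div)

variable {p q : ℕ}

theorem sgen_bdd {p : ℕ} (μ : Measure UnitAddCircle) [IsFiniteMeasure μ] (D W a : ℕ) :
    BddAbove (Set.range fun b : Fin (p ^ W) =>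
      μ.real {x : UnitAddCircle | dig (p ^ (D + W)) x = a * p ^ W + b}) :=
  (Set.finite_range _).bddAbove

theorem sgen_nonempty {p : ℕ} (hp : 2 ≤ p) (W : ℕ) : Nonempty (Fin (p ^ W)) :=
  ⟨⟨0, by positivity⟩⟩

theorem top_add_le {p : ℕ} (hp : 2 ≤ p) (μ ν : Measure UnitAddCircle) [IsFiniteMeasure μ]
    [IsFiniteMeasure ν] (D W a : ℕ) :
    top p (μ + ν) D W a ≤ top p μ D W a + top p ν D W a := by
  have := sgen_nonempty hp W
  refine ciSup_le fun b => ?_
  have h1 : (μ + ν).real {x : UnitAddCircle | dig (p ^ (D + W)) x = a * p ^ W + b} =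
      μ.real {x : UnitAddCircle | dig (p ^ (D + W)) x = a * p ^ W + b} +
        ν.real {x : UnitAddCircle | dig (p ^ (D + W)) x = a * p ^ W + b} := by
    rw [Measure.real, Measure.real, Measure.real, Measure.add_apply,
      ENNReal.toReal_add (measure_ne_top _ _) (measure_ne_top _ _)]
  rw [h1]
  exact add_le_add (le_ciSup (sgen_bdd μ D W a) b) (le_ciSup (sgen_bdd ν D W a) b)

theorem top_mono {p : ℕ} (hp : 2 ≤ p) {μ ν : Measure UnitAddCircle} [IsFiniteMeasure ν]
    (h : μ ≤ ν) (D W a : ℕ) : top p μ D W a ≤ top p ν D W a := by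
  have := sgen_nonempty hp W
  refine ciSup_le fun b => ?_
  refine le_trans ?_ (le_ciSup (sgen_bdd ν D W a) b)
  exact ENNReal.toReal_mono (measure_ne_top _ _) (h _)

theorem top_smul {p : ℕ} (μ : Measure UnitAddCircle) (c : ENNReal) (D W a : ℕ) :
    top p (c • μ) D W a = c.toReal * top p μ D W a := by
  rw [top, top, Real.mul_iSup_of_nonneg ENNReal.toReal_nonneg]
  refine iSup_congr fun b => ?_
  rw [Measure.real, Measure.real, Measure.smul_apply, smul_eq_mul, ENNReal.toReal_mul]

/-- The sum of the masses of the heaviest subcells is at most the total mass. -/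
theorem sum_top_le {p : ℕ} (hp : 2 ≤ p) (μ : Measure UnitAddCircle) [IsFiniteMeasure μ]
    (D W : ℕ) : ∑ a ∈ Finset.range (p ^ D), top p μ D W a ≤ μ.real Set.univ := by
  have := sgen_nonempty hp W
  have h1 : ∀ a ∈ Finset.range (p ^ D), top p μ D W a ≤
      μ.real {x : UnitAddCircle | dig (p ^ D) x = a} := by
    intro a _
    refine ciSup_le fun b => ?_
    refine measureReal_mono (fun x hx => ?_) (measure_ne_top _ _)
    rw [Set.mem_setOf_eq] at hx ⊢
    have h2 := dig_mul_div (p ^ D) (p ^ W) (by positivity) x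
    rw [← pow_add, hx] at h2
    rw [← h2, Nat.add_div_of_dvd_right (Dvd.intro_left a rfl), Nat.mul_div_cancel _ (by positivity),
      Nat.div_eq_of_lt b.2, add_zero]
  refine (Finset.sum_le_sum h1).trans ?_
  rw [← measureReal_biUnion_finset]
  · exact measureReal_mono (Set.subset_univ _) (measure_ne_top _ _)
  · intro a _ b _ hab
    rw [Function.onFun, Set.disjoint_left]
    intro x hx hy
    rw [Set.mem_setOf_eq] at hx hy
    exact hab (hx.symm.trans hy)
  · intro a _
    exact (measurable_dig _) (measurableSet_singleton _)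

theorem volume_dig_le {N : ℕ} (hN : 0 < N) (k : ℕ) :
    (volume : Measure UnitAddCircle).real {x : UnitAddCircle | dig N x = k} ≤ 1 / N := by
  have hN' : (0 : ℝ) < N := by exact_mod_cast hN
  set c : UnitAddCircle := (((k + 1 / 2 : ℝ) / N : ℝ) : UnitAddCircle) with hc
  have hsub : {x : UnitAddCircle | dig N x = k} ⊆ Metric.closedBall c (1 / (2 * N)) := by
    intro y hy
    rw [Set.mem_setOf_eq] at hy
    obtain ⟨h1, h2⟩ := dig_spec hN y
    rw [hy] at h1 h2
    rw [Metric.mem_closedBall, dist_eq_norm]
    have h4 : y - c = ((rep y - (k + 1 / 2 : ℝ) / N : ℝ) : UnitAddCircle) := by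
      rw [hc, AddCircle.coe_sub, coe_rep]
    rw [h4]
    refine (major_norm_coe_le _).trans ?_
    have e1 : (k + 1 / 2 : ℝ) / N = (k : ℝ) / N + 1 / (2 * N) := by
      field_simp
    have e2 : (1 : ℝ) / N = 1 / (2 * N) + 1 / (2 * N) := by
      field_simp
      norm_num
    rw [abs_le]
    constructor <;> linarith
  refine (measureReal_mono hsub (measure_ne_top _ _)).trans ?_
  rw [Measure.real, AddCircle.volume_closedBall, ENNReal.toReal_ofReal (by positivity)]
  refine (min_le_right _ _).trans_eq ?_
  field_simp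

theorem sum_top_volume {p : ℕ} (hp : 2 ≤ p) (D W : ℕ) :
    ∑ a ∈ Finset.range (p ^ D), top p (volume : Measure UnitAddCircle) D W a ≤
      1 / (p : ℝ) ^ W := by
  have := sgen_nonempty hp W
  have h1 : ∀ a ∈ Finset.range (p ^ D), top p (volume : Measure UnitAddCircle) D W a ≤
      1 / (p : ℝ) ^ (D + W) := by
    intro a _
    refine ciSup_le fun b => ?_
    have := volume_dig_le (N := p ^ (D + W)) (by positivity) (a * p ^ W + b)
    rwa [Nat.cast_pow] at this
  refine (Finset.sum_le_sum h1).trans (le_of_eq ?_)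
  rw [Finset.sum_const, Finset.card_range, nsmul_eq_mul]
  push_cast
  rw [pow_add]
  field_simp

/-- The upper bound. -/
theorem speed_upper (hp : 2 ≤ p) {μ : Measure UnitAddCircle} [IsProbabilityMeasure μ]
    (hμp : MeasurePreserving (fun x : UnitAddCircle => p • x) μ μ) {ε : ℝ} (hε : 0 < ε) :
    ∃ C : ℕ, ∀ D W : ℕ, C ≤ W → ∑ a ∈ Finset.range (p ^ D), top p μ D W a ≤
        (μ.singularPart volume).real Set.univ + ε := by
  have hp1 : (1 : ℝ) < p := by exact_mod_cast (by omega : 1 < p)
  have hvp : MeasurePreserving (fun x : UnitAddCircle => p • x)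
      (volume : Measure UnitAddCircle) volume := (AddCircle.ergodic_nsmul (by omega)).toMeasurePreserving
  set μs := μ.singularPart volume with hμs
  set μa := (volume : Measure UnitAddCircle).withDensity (μ.rnDeriv volume) with hμa
  have hdec : μs + μa = μ := by
    rw [hμs, hμa, add_comm, Measure.rnDeriv_add_singularPart]
  have hfina : IsFiniteMeasure μa := by
    refine ⟨lt_of_le_of_lt ?_ (measure_lt_top μ Set.univ)⟩
    rw [← hdec]
    exact le_add_self
  have hfins : IsFiniteMeasure μs := inferInstance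
  have hac : μa = μa Set.univ • (volume : Measure UnitAddCircle) := by
    have he : Ergodic (fun x : UnitAddCircle => p • x) (volume : Measure UnitAddCircle) :=
      AddCircle.ergodic_nsmul (by omega)
    obtain ⟨c, hc⟩ := he.eq_smul_of_absolutelyContinuous (hμp.withDensity_rnDeriv hvp)
      (withDensity_absolutelyContinuous _ _)
    have h1 : μa = c • (volume : Measure UnitAddCircle) := hc
    have h2 : μa Set.univ = c := by
      rw [h1]
      simp
    rw [h2]
    exact h1
  have hα : (μa Set.univ).toReal ≤ 1 := by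
    have h1 : μa Set.univ ≤ 1 := by
      have h2 : μa ≤ μ := by
        rw [← hdec]; exact Measure.le_add_left le_rfl
      exact (h2 _).trans (by simp)
    exact ENNReal.toReal_le_of_le_ofReal zero_le_one (by simpa using h1)
  obtain ⟨C₁, hC₁⟩ : ∃ C₁ : ℕ, ∀ W ≥ C₁, 1 / (p : ℝ) ^ W ≤ ε := by
    obtain ⟨C₁, h1⟩ := exists_pow_lt_of_lt_one hε (by
      rw [inv_lt_one₀ (by linarith)]; exact hp1 : ((p : ℝ)⁻¹) < 1)
    refine ⟨C₁, fun W hW => ?_⟩
    rw [one_div, ← inv_pow]
    refine le_trans ?_ h1.le
    exact pow_le_pow_of_le_one (by positivity) (by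
      rw [inv_le_one₀ (by linarith)]; exact hp1.le) hW
  refine ⟨C₁, fun D W hW => ?_⟩
  have h1 : ∀ a ∈ Finset.range (p ^ D), top p μ D W a ≤ top p μs D W a + top p μa D W a := by
    intro a _
    conv_lhs => rw [← hdec]
    exact top_add_le hp μs μa D W a
  refine (Finset.sum_le_sum h1).trans ?_
  rw [Finset.sum_add_distrib]
  refine add_le_add (sum_top_le hp μs D W) ?_
  have h2 : ∀ a, top p μa D W a = (μa Set.univ).toReal * top p volume D W a := by
    intro a
    conv_lhs => rw [hac]
    exact top_smul volume _ D W a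
  simp only [h2]
  rw [← Finset.mul_sum]
  have h3 := sum_top_volume hp D W
  have h4 := hC₁ W hW
  have h5 : 0 ≤ ∑ a ∈ Finset.range (p ^ D), top p (volume : Measure UnitAddCircle) D W a := by
    refine Finset.sum_nonneg fun a _ => ?_
    exact Real.iSup_nonneg fun b => measureReal_nonneg
  calc (μa Set.univ).toReal * ∑ a ∈ Finset.range (p ^ D), top p volume D W a
      ≤ 1 * ∑ a ∈ Finset.range (p ^ D), top p volume D W a := by gcongr
    _ ≤ ε := by rw [one_mul]; exact h3.trans h4

/-- The lower bound follows from that for the normalized singular part. -/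
theorem speed_lower (hp : 2 ≤ p) (hq : 2 ≤ q) {μ : Measure UnitAddCircle}
    [IsProbabilityMeasure μ]
    (hμp : MeasurePreserving (fun x : UnitAddCircle => p • x) μ μ)
    (hμq : MeasurePreserving (fun x : UnitAddCircle => q • x) μ μ)
    {ε : ℝ} (hε : 0 < ε) {Q : ℕ → ℕ → ℕ → Prop}
    (H : ∀ ν : Measure UnitAddCircle, IsProbabilityMeasure ν →
      MeasurePreserving (fun x : UnitAddCircle => p • x) ν ν →
      MeasurePreserving (fun x : UnitAddCircle => q • x) ν ν → ν ⟂ₘ volume →
      ∃ C : ℕ, ∀ D W : ℕ, Q C D W → 1 - ε ≤ ∑ a ∈ Finset.range (p ^ D), top p ν D W a) :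
    ∃ C : ℕ, ∀ D W : ℕ, Q C D W → (μ.singularPart volume).real Set.univ - ε ≤
      ∑ a ∈ Finset.range (p ^ D), top p μ D W a := by
  have hvp : MeasurePreserving (fun x : UnitAddCircle => p • x)
      (volume : Measure UnitAddCircle) volume := (AddCircle.ergodic_nsmul (by omega)).toMeasurePreserving
  have hvq : MeasurePreserving (fun x : UnitAddCircle => q • x)
      (volume : Measure UnitAddCircle) volume := (AddCircle.ergodic_nsmul (by omega)).toMeasurePreserving
  set μs := μ.singularPart volume with hμs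
  have hsle : μs ≤ μ := Measure.singularPart_le μ volume
  rcases eq_or_ne (μs Set.univ) 0 with h0 | h0
  · refine ⟨0, fun D W _ => ?_⟩
    have h1 : μs.real Set.univ = 0 := by rw [Measure.real, h0]; rfl
    have h3 : 0 ≤ ∑ a ∈ Finset.range (p ^ D), top p μ D W a := by
      refine Finset.sum_nonneg fun a _ => ?_
      exact Real.iSup_nonneg fun b => measureReal_nonneg
    rw [h1]
    linarith
  · have hne : μs Set.univ ≠ ⊤ := measure_ne_top _ _
    set ν := (μs Set.univ)⁻¹ • μs with hν
    have hprob : IsProbabilityMeasure ν := by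
      refine ⟨?_⟩
      rw [hν, Measure.smul_apply, smul_eq_mul]
      exact ENNReal.inv_mul_cancel h0 hne
    have hνp : MeasurePreserving (fun x : UnitAddCircle => p • x) ν ν :=
      (hμp.singularPart hvp).smul_measure _
    have hνq : MeasurePreserving (fun x : UnitAddCircle => q • x) ν ν :=
      (hμq.singularPart hvq).smul_measure _
    have hνs : ν ⟂ₘ (volume : Measure UnitAddCircle) :=
      (Measure.mutuallySingular_singularPart μ volume).smul _
    obtain ⟨C₂, hC₂⟩ := H ν hprob hνp hνq hνs
    refine ⟨C₂, fun D W hQ => ?_⟩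
    have h4 := hC₂ D W hQ
    have hσ : 0 < μs.real Set.univ := ENNReal.toReal_pos h0 hne
    have hσ1 : μs.real Set.univ ≤ 1 := by
      have h5 : μs Set.univ ≤ 1 := (hsle _).trans (by simp)
      exact ENNReal.toReal_le_of_le_ofReal zero_le_one (by simpa using h5)
    have h5 : ∀ a, μs.real Set.univ * top p ν D W a ≤ top p μ D W a := by
      intro a
      refine le_trans (le_of_eq ?_) (top_mono hp hsle D W a)
      rw [hν, top_smul, ENNReal.toReal_inv, ← mul_assoc]
      have : μs.real Set.univ * (μs Set.univ).toReal⁻¹ = 1 := mul_inv_cancel₀ hσ.ne'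
      rw [this, one_mul]
    have h6 : μs.real Set.univ * (1 - ε) ≤ ∑ a ∈ Finset.range (p ^ D), top p μ D W a := by
      refine (mul_le_mul_of_nonneg_left h4 hσ.le).trans ?_
      rw [Finset.mul_sum]
      exact Finset.sum_le_sum fun a _ => h5 a
    nlinarith

end Pool.Agent.H.MP_96e181_an.Win
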