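import Mathlib
import Pool.Agent.H.MP_96e181_an.win.SGen

set_option autoImplicit false

/-! Longer windows by the union bound -/

namespace Pool.Agent.H.MP_96e181_an.Win

open MeasureTheory Filter Topology
open Pool.Agent.H.MP_96e181_an (dig rep coe_rep dig_spec dig_lt measurable_dig dig_mul_div)

variable {p q : ℕ}

/-- The sum of the heaviest subcells. -/
noncomputable def Stop (p : ℕ) (μ : Measure UnitAddCircle) (D W : ℕ) : ℝ :=
  ∑ a ∈ Finset.range (p ^ D), top p μ D W a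

theorem sum_cells {p : ℕ} (hp : 2 ≤ p) (μ : Measure UnitAddCircle) [IsProbabilityMeasure μ]
    (D : ℕ) : ∑ a ∈ Finset.range (p ^ D), μ.real {x : UnitAddCircle | dig (p ^ D) x = a} = 1 := by
  rw [← measureReal_biUnion_finset]
  · have h1 : (⋃ a ∈ Finset.range (p ^ D), {x : UnitAddCircle | dig (p ^ D) x = a}) =
        Set.univ := by
      ext x
      simp only [Set.mem_iUnion, Set.mem_univ, iff_true]
      exact ⟨dig (p ^ D) x, Finset.mem_range.2 (dig_lt (by positivity) x), rfl⟩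
    rw [h1]
    simp
  · intro a _ b _ hab
    rw [Function.onFun, Set.disjoint_left]
    intro x hx hy
    rw [Set.mem_setOf_eq] at hx hy
    exact hab (hx.symm.trans hy)
  · intro a _
    exact (measurable_dig _) (measurableSet_singleton _)

theorem top_le_cell {p : ℕ} (hp : 2 ≤ p) (μ : Measure UnitAddCircle) [IsFiniteMeasure μ]
    (D W a : ℕ) : top p μ D W a ≤ μ.real {x : UnitAddCircle | dig (p ^ D) x = a} := by
  have := sgen_nonempty hp W
  refine ciSup_le fun b => ?_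
  refine measureReal_mono (fun x hx => ?_) (measure_ne_top _ _)
  rw [Set.mem_setOf_eq] at hx ⊢
  have h2 := dig_mul_div (p ^ D) (p ^ W) (by positivity) x
  rw [← pow_add, hx] at h2
  rw [← h2, Nat.add_div_of_dvd_right (Dvd.intro_left a rfl), Nat.mul_div_cancel _ (by positivity),
    Nat.div_eq_of_lt b.2, add_zero]

/-- Two consecutive windows. -/
theorem Stop_add {p : ℕ} (hp : 2 ≤ p) (μ : Measure UnitAddCircle) [IsProbabilityMeasure μ]
    (D W₁ W₂ : ℕ) : Stop p μ D W₁ + Stop p μ (D + W₁) W₂ - 1 ≤ Stop p μ D (W₁ + W₂) := by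
  classical
  have hne1 := sgen_nonempty hp W₁
  have hne2 := sgen_nonempty hp W₂
  have hne := sgen_nonempty hp (W₁ + W₂)
  -- the heaviest subcell
  have hmax : ∀ a : ℕ, ∃ b : Fin (p ^ W₁), top p μ D W₁ a =
      μ.real {x : UnitAddCircle | dig (p ^ (D + W₁)) x = a * p ^ W₁ + b} := by
    intro a
    obtain ⟨b, hb⟩ := exists_eq_ciSup_of_finite
      (f := fun b : Fin (p ^ W₁) => μ.real {x : UnitAddCircle | dig (p ^ (D + W₁)) x = a * p ^ W₁ + b})
    exact ⟨b, hb.symm⟩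
  choose b hb using hmax
  set c : ℕ → ℕ := fun a => a * p ^ W₁ + b a with hc
  have hcinj : Set.InjOn c (Finset.range (p ^ D) : Set ℕ) := by
    intro a _ a' _ haa
    have h1 : (a * p ^ W₁ + (b a : ℕ)) / p ^ W₁ = (a' * p ^ W₁ + (b a' : ℕ)) / p ^ W₁ := by
      simp only [hc] at haa
      rw [haa]
    rw [Nat.add_div_of_dvd_right (Dvd.intro_left a rfl), Nat.mul_div_cancel _ (by positivity),
      Nat.div_eq_of_lt (b a).2, Nat.add_div_of_dvd_right (Dvd.intro_left a' rfl),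
      Nat.mul_div_cancel _ (by positivity), Nat.div_eq_of_lt (b a').2] at h1
    simpa using h1
  have hclt : ∀ a ∈ Finset.range (p ^ D), c a ∈ Finset.range (p ^ (D + W₁)) := by
    intro a ha
    have h5 : a + 1 ≤ p ^ D := Finset.mem_range.1 ha
    rw [Finset.mem_range]
    calc a * p ^ W₁ + (b a : ℕ) < a * p ^ W₁ + p ^ W₁ := Nat.add_lt_add_left (b a).2 _
      _ = (a + 1) * p ^ W₁ := by ring
      _ ≤ p ^ D * p ^ W₁ := Nat.mul_le_mul_right _ h5
      _ = p ^ (D + W₁) := (pow_add _ _ _).symm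
  -- subcells of the heaviest subcell
  have h1 : ∀ a ∈ Finset.range (p ^ D), top p μ (D + W₁) W₂ (c a) ≤ top p μ D (W₁ + W₂) a := by
    intro a _
    refine ciSup_le fun b' => ?_
    have hlt : (b a : ℕ) * p ^ W₂ + (b' : ℕ) < p ^ (W₁ + W₂) := by
      have h5 : (b a : ℕ) + 1 ≤ p ^ W₁ := (b a).2
      calc (b a : ℕ) * p ^ W₂ + (b' : ℕ) < (b a : ℕ) * p ^ W₂ + p ^ W₂ :=
            Nat.add_lt_add_left b'.2 _
        _ = ((b a : ℕ) + 1) * p ^ W₂ := by ring
        _ ≤ p ^ W₁ * p ^ W₂ := Nat.mul_le_mul_right _ h5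
        _ = p ^ (W₁ + W₂) := (pow_add _ _ _).symm
    refine le_trans (le_of_eq ?_) (le_ciSup (sgen_bdd μ D (W₁ + W₂) a) ⟨_, hlt⟩)
    have e1 : D + W₁ + W₂ = D + (W₁ + W₂) := by ring
    have e2 : c a * p ^ W₂ + (b' : ℕ) = a * p ^ (W₁ + W₂) + ((b a : ℕ) * p ^ W₂ + (b' : ℕ)) := by
      simp only [hc]
      rw [pow_add]; ring
    rw [e1, e2]
  -- the loss
  have h2 : ∑ a ∈ Finset.range (p ^ D),
      (μ.real {x : UnitAddCircle | dig (p ^ (D + W₁)) x = c a} - top p μ (D + W₁) W₂ (c a)) ≤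
      ∑ k ∈ Finset.range (p ^ (D + W₁)),
        (μ.real {x : UnitAddCircle | dig (p ^ (D + W₁)) x = k} - top p μ (D + W₁) W₂ k) := by
    rw [← Finset.sum_image (f := fun k =>
      μ.real {x : UnitAddCircle | dig (p ^ (D + W₁)) x = k} - top p μ (D + W₁) W₂ k) hcinj]
    refine Finset.sum_le_sum_of_subset_of_nonneg (fun k hk => ?_) fun k _ _ => ?_
    · obtain ⟨a, ha, rfl⟩ := Finset.mem_image.1 hk
      exact hclt a ha
    · exact sub_nonneg.2 (top_le_cell hp μ (D + W₁) W₂ k)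
  rw [Finset.sum_sub_distrib, Finset.sum_sub_distrib, sum_cells hp μ (D + W₁)] at h2
  have h3 : ∑ a ∈ Finset.range (p ^ D), μ.real {x : UnitAddCircle | dig (p ^ (D + W₁)) x = c a} =
      Stop p μ D W₁ := by
    rw [Stop]
    exact Finset.sum_congr rfl fun a _ => (hb a).symm
  rw [h3] at h2
  have h4 := Finset.sum_le_sum h1
  change Stop p μ D W₁ + Stop p μ (D + W₁) W₂ - 1 ≤ ∑ a ∈ Finset.range (p ^ D), _
  change Stop p μ D W₁ - _ ≤ 1 - Stop p μ (D + W₁) W₂ at h2
  linarith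

/-- `n` windows of length at most `W'`. -/
theorem Stop_many {p : ℕ} (hp : 2 ≤ p) (μ : Measure UnitAddCircle) [IsProbabilityMeasure μ]
    {D₀ W' : ℕ} {η : ℝ} (hη : 0 ≤ η)
    (H : ∀ D ≥ D₀, ∀ W ≤ W', 1 - η ≤ Stop p μ D W) (n : ℕ) :
    ∀ D ≥ D₀, ∀ W ≤ n * W', 1 - n * η ≤ Stop p μ D W := by
  induction n with
  | zero =>
    intro D hD W hW
    have hW0 : W = 0 := by omega
    subst hW0
    have h1 : Stop p μ D 0 = 1 := by
      rw [← sum_cells hp μ D, Stop]
      refine Finset.sum_congr rfl fun a _ => ?_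
      rw [top]
      simp
    rw [h1]
    simp
  | succ n ih =>
    intro D hD W hW
    rcases le_total W W' with h1 | h1
    · refine le_trans ?_ (H D hD W h1)
      push_cast
      have : 0 ≤ (n : ℝ) * η := by positivity
      linarith
    · obtain ⟨W₂, rfl⟩ := Nat.exists_eq_add_of_le h1
      have h2 := H D hD W' le_rfl
      have h3 := ih (D + W') (by omega) W₂ (by rw [add_mul, one_mul] at hW; omega)
      have h4 := Stop_add hp μ D W' W₂
      push_cast
      linarith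

/-- **Universal speed, singular measures**, for windows up to any power. -/
theorem universal_speed' (hp : 2 ≤ p) (hq : 2 ≤ q)
    (h : Irrational (Real.log (p : ℝ) / Real.log (q : ℝ))) {μ : Measure UnitAddCircle}
    [IsProbabilityMeasure μ]
    (hμp : MeasurePreserving (fun x : UnitAddCircle => p • x) μ μ)
    (hμq : MeasurePreserving (fun x : UnitAddCircle => q • x) μ μ)
    (hs : μ ⟂ₘ (volume : Measure UnitAddCircle)) (A : ℕ) {ε : ℝ} (hε : 0 < ε) :
    ∃ C : ℕ, ∀ (D W : ℕ) (r : ℚ), |beta p q - r| < 1 / (r.den : ℝ) ^ 2 →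
      p ^ W ≤ r.den ^ A → C ≤ r.den → C * r.den ≤ D → 1 - ε ≤ Stop p μ D W := by
  set n := 2 * A + 1 with hn
  have hn0 : (0 : ℝ) < n := by positivity
  obtain ⟨C₀, hC₀⟩ := universal_speed hp hq h hμp hμq hs (ε := ε / n) (by positivity)
  refine ⟨(C₀ * p) ^ 2 + C₀, fun D W r hr hW hK hD => ?_⟩
  set K := r.den with hKdef
  have hKpos : 0 < K := r.den_pos
  -- the largest admissible window
  set W' := Nat.log p K / 2 + 1 with hW'
  have h1 : C₀ * p ^ W' ≤ K := by
    set L := Nat.log p K with hL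
    have h2 : p ^ L ≤ K := Nat.pow_log_le_self p hKpos.ne'
    have h3 : p ^ (L / 2) * p ^ (L / 2) ≤ K := by
      rw [← pow_add]
      refine le_trans (Nat.pow_le_pow_right (by omega) (by omega)) h2
    have h4 : (C₀ * p) ^ 2 ≤ K := by omega
    rw [hW', pow_succ]
    have h5 : (C₀ * (p ^ (L / 2) * p)) ^ 2 ≤ K ^ 2 := by
      calc (C₀ * (p ^ (L / 2) * p)) ^ 2 = (C₀ * p) ^ 2 * (p ^ (L / 2) * p ^ (L / 2)) := by ring
        _ ≤ K * K := Nat.mul_le_mul h4 h3
        _ = K ^ 2 := by ring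
    exact (Nat.pow_le_pow_iff_left (by norm_num)).1 h5
  have h2 : W ≤ n * W' := by
    have h3 : K < p ^ (2 * W') := by
      have h4 := Nat.lt_pow_succ_log_self (b := p) (by omega) K
      refine lt_of_lt_of_le h4 (Nat.pow_le_pow_right (by omega) ?_)
      omega
    by_contra hcon
    push Not at hcon
    have h4 : p ^ W ≤ p ^ (2 * W' * A) := by
      calc p ^ W ≤ K ^ A := hW
        _ ≤ (p ^ (2 * W')) ^ A := Nat.pow_le_pow_left h3.le A
        _ = p ^ (2 * W' * A) := (pow_mul _ _ _).symm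
    have h5 : W ≤ 2 * W' * A := (Nat.pow_le_pow_iff_right (by omega)).1 h4
    have h6 : n * W' = 2 * W' * A + W' := by rw [hn]; ring
    rw [h6] at hcon
    exact absurd (lt_of_le_of_lt (Nat.le_add_right _ _) hcon) (not_lt.2 h5)
  have h3 := Stop_many hp μ (D₀ := D) (W' := W') (η := ε / n) (by positivity)
    (fun D' hD' W₁ hW₁ => hC₀ D' W₁ r hr
      (le_trans (Nat.mul_le_mul_left _ (Nat.pow_le_pow_right (by omega) hW₁)) h1) (by
        have : C₀ * K ≤ ((C₀ * p) ^ 2 + C₀) * K := Nat.mul_le_mul_right _ (by omega)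
        exact le_trans this (le_trans hD hD'))) n D le_rfl W h2
  have h4 : (n : ℝ) * (ε / n) = ε := by field_simp
  rw [h4] at h3
  exact h3

/-- **Universal speed, all invariant measures.** -/
theorem speed_general (hp : 2 ≤ p) (hq : 2 ≤ q)
    (h : Irrational (Real.log (p : ℝ) / Real.log (q : ℝ))) {μ : Measure UnitAddCircle}
    [IsProbabilityMeasure μ]
    (hμp : MeasurePreserving (fun x : UnitAddCircle => p • x) μ μ)
    (hμq : MeasurePreserving (fun x : UnitAddCircle => q • x) μ μ) (A : ℕ) {ε : ℝ}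
    (hε : 0 < ε) :
    ∃ C : ℕ, ∀ (D W : ℕ) (r : ℚ), |beta p q - r| < 1 / (r.den : ℝ) ^ 2 →
      p ^ W ≤ r.den ^ A → C ≤ r.den → C * r.den ≤ D →
      (μ.singularPart volume).real Set.univ - ε ≤ ∑ a ∈ Finset.range (p ^ D), top p μ D W a ∧
      (C ≤ W → ∑ a ∈ Finset.range (p ^ D), top p μ D W a ≤
        (μ.singularPart volume).real Set.univ + ε) := by
  obtain ⟨C₁, h₁⟩ := speed_upper hp hμp hε
  obtain ⟨C₂, h₂⟩ := speed_lower hp hq hμp hμq hε
    (Q := fun C D W => ∃ r : ℚ, |beta p q - r| < 1 / (r.den : ℝ) ^ 2 ∧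
      p ^ W ≤ r.den ^ A ∧ C ≤ r.den ∧ C * r.den ≤ D) (by
      intro ν hν hνp hνq hνs
      obtain ⟨C, hC⟩ := universal_speed' hp hq h hνp hνq hνs A hε
      refine ⟨C, fun D W hQ => ?_⟩
      obtain ⟨r, h3, h4, h5, h6⟩ := hQ
      exact hC D W r h3 h4 h5 h6)
  refine ⟨max C₁ C₂, fun D W r hr h3 h4 h5 => ⟨?_, fun hW => ?_⟩⟩
  · exact h₂ D W ⟨r, hr, h3, (le_max_right _ _).trans h4,
      (Nat.mul_le_mul_right _ (le_max_right _ _)).trans h5⟩
  · exact h₁ D W ((le_max_left _ _).trans hW)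

end Pool.Agent.H.MP_96e181_an.Win
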